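import Pool.Agent.H21.CE.Defs

/-!
# Calculus of second and third derivatives (used by Gam, DD, Vari)
-/

open MeasureTheory Set Filter Topology Metric
open scoped ContDiff

namespace Pool.Agent.H21.CE

variable {n : ℕ}

lemma cd_fd {V : E n → ℝ} (hV : ContDiff ℝ ∞ V) : ContDiff ℝ ∞ (fderiv ℝ V) :=
  hV.fderiv_right (m := ∞) (by simp)

lemma cd_fd2 {V : E n → ℝ} (hV : ContDiff ℝ ∞ V) : ContDiff ℝ ∞ (fderiv ℝ (fderiv ℝ V)) :=
  (cd_fd hV).fderiv_right (m := ∞) (by simp)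

lemma cd_dir {V : E n → ℝ} (hV : ContDiff ℝ ∞ V) (e : E n) :
    ContDiff ℝ ∞ (fun y => fderiv ℝ V y e) :=
  (cd_fd hV).clm_apply contDiff_const

lemma cd_eu {V : E n → ℝ} (hV : ContDiff ℝ ∞ V) :
    ContDiff ℝ ∞ (fun y => fderiv ℝ V y y) :=
  (cd_fd hV).clm_apply contDiff_id

lemma cd_hs {V : E n → ℝ} (hV : ContDiff ℝ ∞ V) {a b : E n → E n} (ha : ContDiff ℝ ∞ a)
    (hb : ContDiff ℝ ∞ b) : ContDiff ℝ ∞ (fun y => hs V y (a y) (b y)) :=
  ((cd_fd2 hV).clm_apply ha).clm_apply hb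

lemma df {F : Type*} [NormedAddCommGroup F] [NormedSpace ℝ F] {V : E n → F}
    (hV : ContDiff ℝ ∞ V) (x : E n) : DifferentiableAt ℝ V x :=
  hV.differentiable (by simp) x

/-- derivative of a directional derivative -/
lemma fd_dir {V : E n → ℝ} (hV : ContDiff ℝ ∞ V) (x v w : E n) :
    fderiv ℝ (fun y => fderiv ℝ V y w) x v = hs V x v w := by
  rw [fderiv_clm_apply (df (cd_fd hV) x) (differentiableAt_const _)]
  simp [hs]

/-- derivative of a Hessian entry -/
lemma fd_hs {V : E n → ℝ} (hV : ContDiff ℝ ∞ V) (x e v w : E n) :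
    fderiv ℝ (fun y => hs V y v w) x e = d3 V x e v w := by
  unfold hs
  rw [fderiv_clm_apply ((df (cd_fd2 hV) x).clm_apply (differentiableAt_const _))
    (differentiableAt_const _)]
  rw [fderiv_clm_apply (df (cd_fd2 hV) x) (differentiableAt_const _)]
  simp [d3]

lemma hs_symm {V : E n → ℝ} (hV : ContDiff ℝ ∞ V) (x v w : E n) : hs V x v w = hs V x w v := by
  have h : IsSymmSndFDerivAt ℝ V x :=
    hV.contDiffAt.isSymmSndFDerivAt (by simp; exact ENat.LEInfty.out)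
  exact h v w

lemma hs_dir {V : E n → ℝ} (hV : ContDiff ℝ ∞ V) (e x v w : E n) :
    hs (fun y => fderiv ℝ V y e) x v w = d3 V x v w e := by
  rw [← fd_dir (cd_dir hV e)]
  have : (fun y => fderiv ℝ (fun y => fderiv ℝ V y e) y w) = fun y => hs V y w e := by
    funext y
    exact fd_dir hV y w e
  rw [this, fd_hs hV]

lemma d3_symm12 {V : E n → ℝ} (hV : ContDiff ℝ ∞ V) (x u v w : E n) :
    d3 V x u v w = d3 V x v u w := by
  rw [← hs_dir hV, hs_symm (cd_dir hV w), hs_dir hV]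

lemma d3_symm23 {V : E n → ℝ} (hV : ContDiff ℝ ∞ V) (x u v w : E n) :
    d3 V x u v w = d3 V x u w v := by
  rw [← fd_hs hV, ← fd_hs hV]
  congr 1
  congr 1
  funext y
  exact hs_symm hV y v w

lemma d3_symm13 {V : E n → ℝ} (hV : ContDiff ℝ ∞ V) (x u v w : E n) :
    d3 V x u v w = d3 V x w v u := by
  rw [d3_symm12 hV, d3_symm23 hV, d3_symm12 hV]

/-- derivative of the Euler operator -/
lemma fd_eu {V : E n → ℝ} (hV : ContDiff ℝ ∞ V) (x e : E n) :
    fderiv ℝ (fun y => fderiv ℝ V y y) x e = fderiv ℝ V x e + hs V x e x := by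
  rw [fderiv_clm_apply (u := fun y => y) (df (cd_fd hV) x) differentiableAt_id]
  simp [hs]

/-- derivative of `hs V y (a y) (b y)` -/
lemma fd_hs_gen {V : E n → ℝ} (hV : ContDiff ℝ ∞ V) {a b : E n → E n} {x : E n}
    (ha : DifferentiableAt ℝ a x) (hb : DifferentiableAt ℝ b x) (e : E n) :
    fderiv ℝ (fun y => hs V y (a y) (b y)) x e =
      d3 V x e (a x) (b x) + hs V x (fderiv ℝ a x e) (b x) + hs V x (a x) (fderiv ℝ b x e) := by
  unfold hs
  rw [fderiv_clm_apply ((df (cd_fd2 hV) x).clm_apply ha) hb]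
  rw [fderiv_clm_apply (df (cd_fd2 hV) x) ha]
  simp [d3]
  ring

lemma fd_hsxx {V : E n → ℝ} (hV : ContDiff ℝ ∞ V) (x e : E n) :
    fderiv ℝ (fun y => hs V y y y) x e = d3 V x e x x + 2 * hs V x e x := by
  have h := fd_hs_gen hV (a := fun y => y) (b := fun y => y) (x := x) differentiableAt_id
    differentiableAt_id e
  rw [h]
  have h1 : fderiv ℝ (fun y : E n => y) x e = e := by
    rw [show (fun y : E n => y) = id from rfl, fderiv_id]; rfl
  rw [h1, hs_symm hV x x e]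
  ring

/-- the square of the norm of the gradient in coordinates -/
lemma grad_sq (V : E n → ℝ) (x : E n) :
    ‖gradient V x‖ ^ 2 = ∑ i, (fderiv ℝ V x (eb i)) ^ 2 := by
  rw [EuclideanSpace.norm_eq, Real.sq_sqrt (Finset.sum_nonneg fun i _ => sq_nonneg _)]
  refine Finset.sum_congr rfl fun i _ => ?_
  rw [← inner_grad, inner_eb', Real.norm_eq_abs, sq_abs]

/-- expansion in the basis -/
lemma lin_eb {F : Type*} [NormedAddCommGroup F] [NormedSpace ℝ F] (A : E n →L[ℝ] F) (x : E n) :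
    A x = ∑ i, x i • A (eb i) := by
  conv_lhs => rw [← sum_eb x]
  rw [map_sum]
  simp

lemma grad_coord (V : E n → ℝ) (x : E n) (i : Fin n) :
    (gradient V x) i = fderiv ℝ V x (eb i) := by
  rw [← inner_grad, inner_eb']

/-- `hs V x v (grad V)` in coordinates -/
lemma hs_grad (V : E n → ℝ) (x v : E n) :
    hs V x v (gradient V x) = ∑ i, fderiv ℝ V x (eb i) * hs V x v (eb i) := by
  rw [hs, lin_eb (fderiv ℝ (fderiv ℝ V) x v) (gradient V x)]
  refine Finset.sum_congr rfl fun i _ => ?_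
  rw [grad_coord, smul_eq_mul, hs]

/-- derivative of the square of the norm of the gradient -/
lemma fd_gradsq {V : E n → ℝ} (hV : ContDiff ℝ ∞ V) (x e : E n) :
    fderiv ℝ (fun y => ‖gradient V y‖ ^ 2) x e = 2 * hs V x e (gradient V x) := by
  have h0 : (fun y => ‖gradient V y‖ ^ 2) = fun y => ∑ i, (fderiv ℝ V y (eb i)) ^ 2 := by
    funext y; exact grad_sq V y
  rw [h0, fderiv_fun_sum (fun i _ => (df (cd_dir hV (eb i)) x).fun_pow 2), hs_grad]
  simp only [FunLike.coe_sum, Finset.sum_apply]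
  rw [Finset.mul_sum]
  refine Finset.sum_congr rfl fun i _ => ?_
  rw [fderiv_fun_pow 2 (df (cd_dir hV (eb i)) x)]
  simp only [smul_apply, smul_eq_mul]
  rw [fd_dir hV]
  ring

lemma cd_gradsq {V : E n → ℝ} (hV : ContDiff ℝ ∞ V) :
    ContDiff ℝ ∞ (fun y => ‖gradient V y‖ ^ 2) := by
  have h0 : (fun y => ‖gradient V y‖ ^ 2) = fun y => ∑ i, (fderiv ℝ V y (eb i)) ^ 2 := by
    funext y; exact grad_sq V y
  rw [h0]
  exact ContDiff.sum fun i _ => (cd_dir hV (eb i)).pow 2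

lemma cd_L2 {V : E n → ℝ} (hV : ContDiff ℝ ∞ V) : ContDiff ℝ ∞ (L2 V) := by
  unfold L2
  exact (ContDiff.sum fun i _ => cd_hs hV contDiff_const contDiff_const).sub
    (cd_hs hV contDiff_id contDiff_id)

lemma cd_Fop {V : E n → ℝ} (hV : ContDiff ℝ ∞ V) : ContDiff ℝ ∞ (Fop V) := by
  unfold Fop
  exact (((cd_L2 hV).sub (contDiff_const.mul (cd_eu hV))).sub (cd_gradsq hV)).add
    ((cd_eu hV).pow 2)

/-- derivative of `L2 V` -/
lemma fd_L2 {V : E n → ℝ} (hV : ContDiff ℝ ∞ V) (x e : E n) :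
    fderiv ℝ (L2 V) x e = L2 (fun y => fderiv ℝ V y e) x - 2 * hs V x e x := by
  have h0 : L2 V = fun y => (∑ i, hs V y (eb i) (eb i)) - hs V y y y := by
    funext y; rfl
  have h1 : ∀ i : Fin n, DifferentiableAt ℝ (fun y => hs V y (eb i) (eb i)) x :=
    fun i => df (cd_hs hV contDiff_const contDiff_const) x
  have h2 : DifferentiableAt ℝ (fun y => hs V y y y) x := df (cd_hs hV contDiff_id contDiff_id) x
  rw [h0, fderiv_fun_sub (DifferentiableAt.fun_sum fun i _ => h1 i) h2,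
    fderiv_fun_sum fun i _ => h1 i]
  simp only [FunLike.coe_sub, Pi.sub_apply, FunLike.coe_sum,
    Finset.sum_apply]
  rw [fd_hsxx hV, L2]
  simp only [fd_hs hV, hs_dir hV]
  have h3 : ∀ i : Fin n, d3 V x e (eb i) (eb i) = d3 V x (eb i) (eb i) e := fun i => by
    rw [d3_symm13 hV x e (eb i) (eb i)]
  simp only [h3]
  rw [d3_symm13 hV x e x x]
  ring

/-- trilinear expansion of `d3` is smooth -/
lemma cd_d3 {V : E n → ℝ} (hV : ContDiff ℝ ∞ V) {a b c : E n → E n} (ha : ContDiff ℝ ∞ a)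
    (hb : ContDiff ℝ ∞ b) (hc : ContDiff ℝ ∞ c) :
    ContDiff ℝ ∞ (fun y => d3 V y (a y) (b y) (c y)) := by
  have h0 : (fun y => d3 V y (a y) (b y) (c y)) = fun y =>
      ∑ k, (c y) k * hs (fun z => fderiv ℝ V z (eb k)) y (a y) (b y) := by
    funext y
    simp only [hs_dir hV]
    rw [d3, lin_eb (fderiv ℝ (fderiv ℝ (fderiv ℝ V)) y (a y) (b y)) (c y)]
    rfl
  rw [h0]
  refine ContDiff.sum fun k _ => ContDiff.mul ?_ (cd_hs (cd_dir hV (eb k)) ha hb)
  exact (contDiff_piLp_apply 2 (i := k)).comp hc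

lemma hs_add_left (V : E n → ℝ) (x u v w : E n) : hs V x (u + v) w = hs V x u w + hs V x v w := by
  simp [hs]

lemma hs_add_right (V : E n → ℝ) (x u v w : E n) : hs V x u (v + w) = hs V x u v + hs V x u w := by
  simp [hs]

lemma hs_smul_left (V : E n → ℝ) (x v w : E n) (c : ℝ) : hs V x (c • v) w = c * hs V x v w := by
  simp [hs]

lemma hs_smul_right (V : E n → ℝ) (x v w : E n) (c : ℝ) : hs V x v (c • w) = c * hs V x v w := by
  simp [hs]

lemma hs_sub_left (V : E n → ℝ) (x u v w : E n) : hs V x (u - v) w = hs V x u w - hs V x v w := by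
  simp [hs]

lemma hs_sub_right (V : E n → ℝ) (x u v w : E n) : hs V x u (v - w) = hs V x u v - hs V x u w := by
  simp [hs]

end Pool.Agent.H21.CE
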