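import Pool.Agent.H21.CE.PsiB

/-!
# Concentration of the Gibbs measures at a unique maximizer
-/

open MeasureTheory Set Filter Topology Metric
open scoped ContDiff

namespace Pool.Agent.H21.CE

variable {n : ℕ}

/-- the Gibbs mass of a set on which the tangent planes are below the maximum -/
theorem g10_mass (hn : 0 < n) {V W : E n → ℝ} {lam M : ℝ} (h : Pt n V W lam M) (x : E n)
    {A : Set (E n)} (hA : MeasurableSet A) {s : ℝ}
    (hs : ∀ z ∈ sphere (0 : E n) 1, z ∈ A → ell V z x ≤ VS V x - s) :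
    ∃ C ≥ (0 : ℝ), ∀ b : ℝ, 1 ≤ b → (gib b V x).real A ≤ C * (b ^ n * Real.exp (-(b * s))) := by
  obtain ⟨c, hc, hZ⟩ := Zf_lower hn lam M ‖x‖
  refine ⟨(rho n).real univ / c, by positivity, ?_⟩
  intro b hb
  have hb0 : 0 < b := zero_lt_one.trans_le hb
  have hint : Integrable (fun z => Real.exp (b * ell V z x)) (rho n) :=
    rho_int (Real.continuous_exp.comp (continuous_const.mul
      ((cont_ell h.hV).comp (continuous_id.prodMk continuous_const))))
  have hprob := gib_prob hn h.hV b x
  have h1 : (gib b V x).real A = ∫ z, A.indicator (fun _ => (1 : ℝ)) z ∂(gib b V x) := by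
    rw [integral_indicator hA, setIntegral_const, smul_eq_mul, mul_one]
  have h2 : ∫ z, A.indicator (fun _ => (1 : ℝ)) z * Real.exp (b * ell V z x) ∂(rho n)
      ≤ Real.exp (b * (VS V x - s)) * (rho n).real univ := by
    have h3 : ∫ _ : E n, Real.exp (b * (VS V x - s)) ∂(rho n)
        = Real.exp (b * (VS V x - s)) * (rho n).real univ := by
      rw [integral_const, smul_eq_mul, mul_comm]
    rw [← h3]
    have h4 : (fun z => A.indicator (fun _ => (1 : ℝ)) z * Real.exp (b * ell V z x))
        = A.indicator (fun z => Real.exp (b * ell V z x)) := by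
      funext z
      by_cases hz : z ∈ A
      · rw [indicator_of_mem hz, indicator_of_mem hz, one_mul]
      · rw [indicator_of_notMem hz, indicator_of_notMem hz, zero_mul]
    rw [h4]
    apply integral_mono_ae (hint.indicator hA) (integrable_const _)
    filter_upwards [rho_ae (n := n) hn] with z hz
    by_cases hzA : z ∈ A
    · rw [indicator_of_mem hzA]
      apply Real.exp_le_exp.mpr
      exact mul_le_mul_of_nonneg_left (hs z hz hzA) hb0.le
    · rw [indicator_of_notMem hzA]
      exact (Real.exp_pos _).le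
  have h3 := hZ V W h b hb x le_rfl
  have h4 : 0 < c * (b ^ n)⁻¹ * Real.exp (b * VS V x) := by positivity
  rw [h1, gib_eq]
  have h5 : Real.exp (b * (VS V x - s)) * (rho n).real univ / (c * (b ^ n)⁻¹
      * Real.exp (b * VS V x)) = (rho n).real univ / c * (b ^ n * Real.exp (-(b * s))) := by
    rw [mul_sub, Real.exp_sub, Real.exp_neg]
    field_simp
  rw [← h5]
  exact div_le_div₀ (by positivity) h2 h4 h3

/-- the gap away from a unique maximizer -/
theorem g10_gap {V W : E n → ℝ} {lam M : ℝ} (h : Pt n V W lam M) (hn : 0 < n) {x z0 : E n}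
    (hz0 : z0 ∈ sphere (0 : E n) 1)
    (hu : ∀ z ∈ sphere (0 : E n) 1, z ≠ z0 → ell V z x < ell V z0 x) {r : ℝ} (hr : 0 < r) :
    ∃ s > 0, ∀ z ∈ sphere (0 : E n) 1, z ∈ {z | r ≤ ‖z - z0‖} → ell V z x ≤ VS V x - s := by
  have hV0 : ell V z0 x = VS V x := by
    obtain ⟨z1, hz1, hm⟩ := VS_max hn h.hV x
    by_cases h1 : z1 = z0
    · rw [← h1, hm]
    · have h2 := hu z1 hz1 h1
      have h3 := ell_le_VS' h.hV x hz0
      rw [hm] at h2
      exact absurd h2 (not_lt.mpr h3)
  have hcont : Continuous (fun z => ell V z x) :=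
    (cont_ell h.hV).comp (continuous_id.prodMk continuous_const)
  have hcomp : IsCompact (sphere (0 : E n) 1 ∩ {z | r ≤ ‖z - z0‖}) := by
    apply (isCompact_sphere _ _).inter_right
    exact isClosed_le continuous_const (continuous_id.sub continuous_const).norm
  rcases (sphere (0 : E n) 1 ∩ {z | r ≤ ‖z - z0‖}).eq_empty_or_nonempty with he | hne
  · refine ⟨1, one_pos, fun z hz hzr => ?_⟩
    exfalso
    have : z ∈ sphere (0 : E n) 1 ∩ {z | r ≤ ‖z - z0‖} := ⟨hz, hzr⟩
    rw [he] at this
    exact this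
  · obtain ⟨z2, hz2, hmax⟩ := hcomp.exists_isMaxOn hne hcont.continuousOn
    have hz2' : z2 ≠ z0 := by
      rintro rfl
      have h5 : r ≤ ‖z2 - z2‖ := hz2.2
      rw [sub_self, norm_zero] at h5
      linarith
    have h2 := hu z2 hz2.1 hz2'
    refine ⟨VS V x - ell V z2 x, by linarith, fun z hz hzr => ?_⟩
    have h3 : ell V z x ≤ ell V z2 x := hmax ⟨hz, hzr⟩
    linarith

theorem g10_lim (m : ℕ) {s : ℝ} (hs : 0 < s) :
    Tendsto (fun b : ℝ => b ^ m * Real.exp (-(b * s))) atTop (𝓝 0) := by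
  have h1 := Real.tendsto_pow_mul_exp_neg_atTop_nhds_zero m
  have h2 : Tendsto (fun b : ℝ => b * s) atTop atTop := tendsto_id.atTop_mul_const hs
  have h3 := (h1.comp h2).const_mul ((s ^ m)⁻¹)
  rw [mul_zero] at h3
  refine h3.congr fun b => ?_
  simp only [Function.comp_apply]
  rw [mul_pow]
  have : s ^ m ≠ 0 := by positivity
  field_simp

theorem conc_mass (hn : 0 < n) {V W : E n → ℝ} {lam M : ℝ} (h : Pt n V W lam M) {x z0 : E n}
    (hz0 : z0 ∈ sphere (0 : E n) 1)
    (hu : ∀ z ∈ sphere (0 : E n) 1, z ≠ z0 → ell V z x < ell V z0 x) {r : ℝ} (hr : 0 < r) :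
    Tendsto (fun b : ℝ => b * (gib b V x).real {z | r ≤ ‖z - z0‖}) atTop (𝓝 0) := by
  obtain ⟨s, hs, hgap⟩ := g10_gap h hn hz0 hu hr
  have hA : MeasurableSet {z : E n | r ≤ ‖z - z0‖} :=
    (isClosed_le continuous_const (continuous_id.sub continuous_const).norm).measurableSet
  obtain ⟨C, hC, hb⟩ := g10_mass hn h x hA hgap
  have h1 := (g10_lim (n + 1) hs).const_mul C
  rw [mul_zero] at h1
  refine squeeze_zero' ?_ ?_ h1
  · filter_upwards [eventually_ge_atTop (1 : ℝ)] with b hb1
    have : 0 ≤ b := by linarith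
    positivity
  · filter_upwards [eventually_ge_atTop (1 : ℝ)] with b hb1
    have hb0 : 0 ≤ b := by linarith
    calc b * (gib b V x).real {z | r ≤ ‖z - z0‖}
        ≤ b * (C * (b ^ n * Real.exp (-(b * s)))) := mul_le_mul_of_nonneg_left (hb b hb1) hb0
      _ = C * (b ^ (n + 1) * Real.exp (-(b * s))) := by ring

theorem conc (hn : 0 < n) {V W : E n → ℝ} {lam M : ℝ} (h : Pt n V W lam M) {x z0 : E n}
    (hz0 : z0 ∈ sphere (0 : E n) 1)
    (hu : ∀ z ∈ sphere (0 : E n) 1, z ≠ z0 → ell V z x < ell V z0 x)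
    {F : Type*} [NormedAddCommGroup F] [NormedSpace ℝ F] [CompleteSpace F] {k : E n → F}
    (hk : Continuous k) :
    Tendsto (fun b : ℝ => ∫ z, k z ∂(gib b V x)) atTop (𝓝 (k z0)) := by
  rw [Metric.tendsto_atTop']
  intro e he
  -- a bound on the sphere
  obtain ⟨K, hK⟩ : ∃ K, ∀ z ∈ sphere (0 : E n) 1, ‖k z - k z0‖ ≤ K := by
    obtain ⟨K, hK⟩ := (isCompact_sphere (0 : E n) 1).exists_bound_of_continuousOn
      (hk.sub continuous_const).continuousOn (f := fun z => k z - k z0)
    exact ⟨K, hK⟩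
  have hK0 : 0 ≤ K := (norm_nonneg _).trans (hK z0 hz0)
  -- the radius
  obtain ⟨r, hr, hcl⟩ := Metric.continuousAt_iff.mp (hk.continuousAt (x := z0)) (e / 2)
    (by positivity)
  obtain ⟨s, hs, hgap⟩ := g10_gap h hn hz0 hu hr
  have hA : MeasurableSet {z : E n | r ≤ ‖z - z0‖} :=
    (isClosed_le continuous_const (continuous_id.sub continuous_const).norm).measurableSet
  obtain ⟨C, hC, hb⟩ := g10_mass hn h x hA hgap
  have h1 := (g10_lim n hs).const_mul (K * C)
  rw [mul_zero, Metric.tendsto_atTop'] at h1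
  obtain ⟨b0, h2⟩ := h1 (e / 2) (by positivity)
  refine ⟨max b0 1, fun b hbb => ?_⟩
  have hb1 : 1 ≤ b := (le_max_right _ _).trans hbb.le
  have hb0' := h2 b ((le_max_left _ _).trans_lt hbb)
  rw [Real.dist_eq, sub_zero] at hb0'
  have hprob := gib_prob hn h.hV b x
  have h3 : ∫ z, k z ∂(gib b V x) - k z0 = ∫ z, (k z - k z0) ∂(gib b V x) := by
    rw [integral_sub (gib_int h.hV b x hk) (integrable_const _), integral_const]
    simp
  rw [dist_eq_norm, h3]
  have h4 : ‖∫ z, (k z - k z0) ∂(gib b V x)‖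
      ≤ ∫ z, (e / 2 + K * {z : E n | r ≤ ‖z - z0‖}.indicator (fun _ => (1 : ℝ)) z)
        ∂(gib b V x) := by
    apply norm_integral_le_of_norm_le
    · exact (integrable_const _).add (((integrable_const (1 : ℝ)).indicator hA).const_mul K)
    · filter_upwards [gib_ae hn h.hV b x] with z hz
      by_cases hzr : r ≤ ‖z - z0‖
      · rw [indicator_of_mem (by exact hzr), mul_one]
        have := hK z hz
        linarith
      · rw [indicator_of_notMem (by exact hzr), mul_zero, add_zero]
        have h5 : dist z z0 < r := by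
          rw [dist_eq_norm]
          exact not_le.mp hzr
        have h6 := hcl h5
        rw [dist_eq_norm] at h6
        exact h6.le
  have h5 : ∫ z, (e / 2 + K * {z : E n | r ≤ ‖z - z0‖}.indicator (fun _ => (1 : ℝ)) z)
      ∂(gib b V x) = e / 2 + K * (gib b V x).real {z : E n | r ≤ ‖z - z0‖} := by
    rw [integral_add (integrable_const _)
      (((integrable_const (1 : ℝ)).indicator hA).const_mul K), integral_const,
      integral_const_mul, integral_indicator hA, setIntegral_const]
    simp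
  have h6 := mul_le_mul_of_nonneg_left (hb b hb1) hK0
  have h7 : K * (C * (b ^ n * Real.exp (-(b * s)))) < e / 2 := by
    have := le_abs_self (K * C * (b ^ n * Real.exp (-(b * s))))
    have h8 : K * (C * (b ^ n * Real.exp (-(b * s)))) = K * C * (b ^ n * Real.exp (-(b * s))) := by
      ring
    linarith
  linarith

end Pool.Agent.H21.CE
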