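import Pool.Agent.H21.CE.Gam

/-!
# The second derivative of the velocity of the potential
-/

open MeasureTheory Set Filter Topology Metric
open scoped ContDiff

namespace Pool.Agent.H21.CE

variable {n : ℕ}

lemma norm_dual_sq (A : E n →L[ℝ] ℝ) : ‖A‖ ^ 2 = ∑ i, (A (eb i)) ^ 2 := by
  set g : E n := (InnerProductSpace.toDual ℝ (E n)).symm A with hg
  have h1 : ‖g‖ = ‖A‖ := by rw [hg, LinearIsometryEquiv.norm_map]
  have h2 : ∀ v, inner ℝ g v = A v := fun v => by
    rw [hg, InnerProductSpace.toDual_symm_apply]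
  rw [← h1, EuclideanSpace.norm_eq, Real.sq_sqrt (Finset.sum_nonneg fun i _ => sq_nonneg _)]
  refine Finset.sum_congr rfl fun i _ => ?_
  rw [← h2, inner_eb', Real.norm_eq_abs, sq_abs]

lemma cd_hsgrad {V : E n → ℝ} (hV : ContDiff ℝ ∞ V) (e : E n) :
    ContDiff ℝ ∞ (fun y => hs V y e (gradient V y)) := by
  have h0 : (fun y => hs V y e (gradient V y)) = fun y =>
      ∑ i, fderiv ℝ V y (eb i) * hs V y e (eb i) := by
    funext y; exact hs_grad V y e
  rw [h0]
  exact ContDiff.sum fun i _ => (cd_dir hV (eb i)).mul (cd_hs hV contDiff_const contDiff_const)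

lemma fd_hsgrad {V : E n → ℝ} (hV : ContDiff ℝ ∞ V) (x e : E n) :
    fderiv ℝ (fun y => hs V y e (gradient V y)) x e
      = ‖fderiv ℝ (fderiv ℝ V) x e‖ ^ 2 + d3 V x (gradient V x) e e := by
  have h0 : (fun y => hs V y e (gradient V y)) = fun y =>
      ∑ i, fderiv ℝ V y (eb i) * hs V y e (eb i) := by
    funext y; exact hs_grad V y e
  have h1 : ∀ i : Fin n, DifferentiableAt ℝ (fun y => fderiv ℝ V y (eb i)) x :=
    fun i => df (cd_dir hV _) x
  have h2 : ∀ i : Fin n, DifferentiableAt ℝ (fun y => hs V y e (eb i)) x :=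
    fun i => df (cd_hs hV contDiff_const contDiff_const) x
  rw [h0, fderiv_fun_sum fun i _ => (h1 i).fun_mul (h2 i)]
  simp only [FunLike.coe_sum, Finset.sum_apply]
  rw [norm_dual_sq]
  have h4 : d3 V x (gradient V x) e e = ∑ i, fderiv ℝ V x (eb i) * d3 V x (eb i) e e := by
    rw [d3_symm13 hV x (gradient V x) e e, d3,
      lin_eb (fderiv ℝ (fderiv ℝ (fderiv ℝ V)) x e e) (gradient V x)]
    refine Finset.sum_congr rfl fun i _ => ?_
    rw [grad_coord, smul_eq_mul, d3_symm13 hV x (eb i) e e, d3]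
  rw [h4, ← Finset.sum_add_distrib]
  refine Finset.sum_congr rfl fun i _ => ?_
  rw [fderiv_fun_mul (h1 i) (h2 i)]
  simp only [FunLike.coe_add, Pi.add_apply, smul_apply, smul_eq_mul]
  rw [fd_dir hV, fd_hs hV, d3_symm13 hV x e e (eb i)]
  simp only [hs]
  ring

theorem ddFop {V : E n → ℝ} (hV : ContDiff ℝ ∞ V) (x e : E n) :
    hs (Fop V) x e e = L2 (fun y => hs V y e e) x
      - ((n : ℝ) + 5) * fderiv ℝ (fun y => hs V y e e) x x
      - 2 * fderiv ℝ (fun y => hs V y e e) x
          (gradient V x - (inner ℝ x (gradient V x)) • x)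
      - 2 * ((n : ℝ) + 2) * hs V x e e - 2 * ‖fderiv ℝ (fderiv ℝ V) x e‖ ^ 2
      + 2 * (fderiv ℝ V x e + hs V x e x) ^ 2 + 4 * fderiv ℝ V x x * hs V x e e := by
  rw [← fd_dir (cd_Fop hV)]
  have h0 : (fun y => fderiv ℝ (Fop V) y e) = fun y =>
      L2 (fun z => fderiv ℝ V z e) y - 2 * hs V y e y
      - ((n : ℝ) + 1) * (fderiv ℝ V y e + hs V y e y) - 2 * hs V y e (gradient V y)
      + 2 * (fderiv ℝ V y y * (fderiv ℝ V y e + hs V y e y)) := by
    funext y
    rw [dFop hV]
    ring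
  have d1 : DifferentiableAt ℝ (fun y => L2 (fun z => fderiv ℝ V z e) y) x :=
    df (cd_L2 (cd_dir hV e)) x
  have d2 : DifferentiableAt ℝ (fun y => hs V y e y) x := df (cd_hs hV contDiff_const contDiff_id) x
  have d3' : DifferentiableAt ℝ (fun y => fderiv ℝ V y e) x := df (cd_dir hV e) x
  have d4 : DifferentiableAt ℝ (fun y => hs V y e (gradient V y)) x := df (cd_hsgrad hV e) x
  have d5 : DifferentiableAt ℝ (fun y => fderiv ℝ V y y) x := df (cd_eu hV) x
  have g2 : fderiv ℝ (fun y => hs V y e y) x e = d3 V x e e x + hs V x e e := by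
    have h := fd_hs_gen hV (a := fun _ => e) (b := fun y => y) (x := x) (differentiableAt_const _)
      differentiableAt_id e
    rw [h]
    simp [hs]
  have g1 : fderiv ℝ (fun y => L2 (fun z => fderiv ℝ V z e) y) x e
      = L2 (fun y => hs V y e e) x - 2 * d3 V x e x e := by
    have := fd_L2 (cd_dir hV e) x e
    rw [hs_dir hV] at this
    simp only [fd_dir hV] at this
    exact this
  have k1 : ∀ v, fderiv ℝ (fun y => hs V y e e) x v = d3 V x v e e := fun v => fd_hs hV x v e e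
  rw [h0, fderiv_fun_add ((((d1.fun_sub (d2.const_mul _)).fun_sub
      ((d3'.fun_add d2).const_mul _)).fun_sub (d4.const_mul _)))
      ((d5.fun_mul (d3'.fun_add d2)).const_mul _),
    fderiv_fun_sub ((d1.fun_sub (d2.const_mul _)).fun_sub
      ((d3'.fun_add d2).const_mul _)) (d4.const_mul _),
    fderiv_fun_sub (d1.fun_sub (d2.const_mul _)) ((d3'.fun_add d2).const_mul _),
    fderiv_fun_sub d1 (d2.const_mul _), fderiv_const_mul d2,
    fderiv_const_mul (d3'.fun_add d2), fderiv_fun_add d3' d2, fderiv_const_mul d4,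
    fderiv_const_mul (d5.fun_mul (d3'.fun_add d2)), fderiv_fun_mul d5 (d3'.fun_add d2),
    fderiv_fun_add d3' d2]
  simp only [FunLike.coe_add, FunLike.coe_sub, Pi.add_apply, Pi.sub_apply, smul_apply,
    smul_eq_mul]
  rw [g1, g2, fd_dir hV, fd_hsgrad hV, fd_eu hV, k1, k1, d3_symm23 hV x e x e,
    d3_symm13 hV x e e x]
  have k2 : d3 V x (gradient V x - (inner ℝ x (gradient V x)) • x) e e
      = d3 V x (gradient V x) e e - fderiv ℝ V x x * d3 V x x e e := by
    rw [grad_inner]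
    simp [d3]
  rw [k2]
  ring

end Pool.Agent.H21.CE
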