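import Pool.Agent.H21.CE.Defs

set_option linter.unusedVariables false

/-!
# The elliptic lemma at a minimum over the ball
-/

open MeasureTheory Set Filter Topology Metric
open scoped ContDiff

namespace Pool.Agent.H21.CE

variable {n : ℕ}

namespace MinL

lemma dl1 {u : E n → ℝ} (hu : ContDiff ℝ 2 u) {g : ℝ → E n} {g' : E n} {s : ℝ}
    (hg : HasDerivAt g g' s) : HasDerivAt (fun s => u (g s)) (fderiv ℝ u (g s) g') s := by
  have h2 : HasFDerivAt u (fderiv ℝ u (g s)) (g s) :=
    ((hu.differentiable (by simp)) _).hasFDerivAt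
  exact h2.comp_hasDerivAt s hg

lemma dl2 {u : E n → ℝ} (hu : ContDiff ℝ 2 u) {g w : ℝ → E n} {g' w' : E n} {s : ℝ}
    (hg : HasDerivAt g g' s) (hw : HasDerivAt w w' s) :
    HasDerivAt (fun s => fderiv ℝ u (g s) (w s)) (hs u (g s) g' (w s) + fderiv ℝ u (g s) w') s := by
  have h0 : Differentiable ℝ (fderiv ℝ u) :=
    (hu.fderiv_right (m := 1) (by norm_num)).differentiable (by simp)
  have h2 : HasFDerivAt (fderiv ℝ u) (fderiv ℝ (fderiv ℝ u) (g s)) (g s) := (h0 _).hasFDerivAt
  have h3 := h2.comp_hasDerivAt s hg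
  have h4 := h3.clm_apply hw
  simpa [hs] using h4

/-- a local minimum at `0` of a twice differentiable function: the first derivative vanishes and
the second one is nonnegative -/
lemma second_nonneg {k k1 : ℝ → ℝ} {k2 : ℝ} (h1 : ∀ s, HasDerivAt k (k1 s) s)
    (h2 : HasDerivAt k1 k2 0) (hm : IsLocalMin k 0) : k1 0 = 0 ∧ 0 ≤ k2 := by
  have h0 : k1 0 = 0 := hm.hasDerivAt_eq_zero (h1 0)
  refine ⟨h0, ?_⟩
  by_contra hneg
  push Not at hneg
  -- slope of k1 at 0 is negative
  have h3 : ∀ᶠ s in 𝓝[>] (0 : ℝ), k1 s < 0 := by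
    have h4 := h2.tendsto_slope_zero_right
    have h5 : ∀ᶠ s in 𝓝[>] (0 : ℝ), s⁻¹ • (k1 (0 + s) - k1 0) < 0 :=
      h4.eventually (gt_mem_nhds hneg)
    filter_upwards [h5, self_mem_nhdsWithin] with s hs5 hs6
    rw [h0, zero_add, sub_zero, smul_eq_mul] at hs5
    have hs7 : (0 : ℝ) < s := hs6
    by_contra hc
    push Not at hc
    have : 0 ≤ s⁻¹ * k1 s := by positivity
    linarith
  rw [eventually_nhdsWithin_iff, Metric.eventually_nhds_iff] at h3
  obtain ⟨e1, he1, h4⟩ := h3
  obtain ⟨e2, he2, h5⟩ := Metric.eventually_nhds_iff.1 hm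
  set e := min e1 e2 / 2 with he
  have hepos : 0 < e := by positivity
  have hlt1 : e < e1 := by
    have : min e1 e2 ≤ e1 := min_le_left _ _
    have : 0 < min e1 e2 := by positivity
    linarith
  have hlt2 : e < e2 := by
    have : min e1 e2 ≤ e2 := min_le_right _ _
    have : 0 < min e1 e2 := by positivity
    linarith
  have h6 : StrictAntiOn k (Icc 0 e) := by
    apply strictAntiOn_of_deriv_neg (convex_Icc 0 e)
    · exact fun s _ => (h1 s).continuousAt.continuousWithinAt
    · intro s hs0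
      rw [interior_Icc] at hs0
      rw [(h1 s).deriv]
      apply h4 _ hs0.1
      rw [Real.dist_eq, sub_zero, abs_of_pos hs0.1]
      linarith [hs0.2]
  have h7 := h6 (left_mem_Icc.2 hepos.le) (right_mem_Icc.2 hepos.le) hepos
  have h8 : k 0 ≤ k e := h5 (by rw [Real.dist_eq, sub_zero, abs_of_pos hepos]; exact hlt2)
  linarith

/-- the trace identity -/
lemma sum_hs (u : E n → ℝ) (x : E n) :
    ∑ i, hs u x (eb i - (x i) • x) (eb i - (x i) • x) =
      ∑ i, hs u x (eb i) (eb i) - (2 - ‖x‖ ^ 2) * hs u x x x := by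
  have e1 : ∑ i, x i * hs u x (eb i) x = hs u x x x := by
    have h1 : hs u x (∑ i, x i • (eb i : E n)) x = ∑ i, x i * hs u x (eb i) x := by
      simp [hs, map_sum]
    rw [← h1, sum_eb]
  have e2 : ∑ i, x i * hs u x x (eb i) = hs u x x x := by
    have h1 : hs u x x (∑ i, x i • (eb i : E n)) = ∑ i, x i * hs u x x (eb i) := by
      simp [hs, map_sum]
    rw [← h1, sum_eb]
  have e3 : ∑ i, (x i) ^ 2 = ‖x‖ ^ 2 := by
    rw [EuclideanSpace.norm_eq, Real.sq_sqrt (Finset.sum_nonneg fun i _ => sq_nonneg _)]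
    refine Finset.sum_congr rfl fun i _ => ?_
    rw [Real.norm_eq_abs, sq_abs]
  have e4 : ∀ i : Fin n, hs u x (eb i - (x i) • x) (eb i - (x i) • x) =
      hs u x (eb i) (eb i) - x i * hs u x (eb i) x - x i * hs u x x (eb i)
        + (x i) ^ 2 * hs u x x x := by
    intro i
    simp only [hs, map_sub, map_smul, ContinuousLinearMap.sub_apply,
      ContinuousLinearMap.smul_apply, smul_eq_mul]
    ring
  simp only [e4]
  rw [Finset.sum_add_distrib, Finset.sum_sub_distrib, Finset.sum_sub_distrib, e1, e2,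
    ← Finset.sum_mul, e3]
  ring

/-- the second order condition along great circles -/
lemma circle {u : E n → ℝ} (hu : ContDiff ℝ 2 u) {x : E n} (hx : ‖x‖ = 1)
    (hm : ∀ y ∈ closedBall (0 : E n) 1, u x ≤ u y) {t : E n} (ht : ‖t‖ = 1)
    (hxt : inner ℝ x t = (0 : ℝ)) :
    fderiv ℝ u x t = 0 ∧ 0 ≤ hs u x t t - fderiv ℝ u x x := by
  set g : ℝ → E n := fun s => Real.cos s • x + Real.sin s • t with hg
  set g' : ℝ → E n := fun s => (-Real.sin s) • x + Real.cos s • t with hg'
  have hd : ∀ s, HasDerivAt g (g' s) s := fun s =>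
    ((Real.hasDerivAt_cos s).smul_const x).add ((Real.hasDerivAt_sin s).smul_const t)
  have hd' : HasDerivAt g' (-x) 0 := by
    have h1 := ((Real.hasDerivAt_sin 0).neg.smul_const x).add
      ((Real.hasDerivAt_cos 0).smul_const t)
    refine h1.congr_deriv ?_
    simp
  have hn : ∀ s, ‖g s‖ = 1 := by
    intro s
    have h1 : ‖g s‖ ^ 2 = 1 := by
      rw [hg]
      simp only
      rw [norm_add_sq_real, norm_smul, norm_smul, inner_smul_left, inner_smul_right, hxt, hx, ht,
        Real.norm_eq_abs, Real.norm_eq_abs, mul_one, mul_one, sq_abs, sq_abs]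
      simp
    have h2 : (0 : ℝ) ≤ ‖g s‖ := norm_nonneg _
    nlinarith
  have hg0 : g 0 = x := by simp [hg]
  have hg0' : g' 0 = t := by simp [hg']
  have h := second_nonneg (k := fun s => u (g s)) (k1 := fun s => fderiv ℝ u (g s) (g' s))
    (fun s => dl1 hu (hd s)) (dl2 hu (hd 0) hd') ?_
  · obtain ⟨h1, h2⟩ := h
    rw [hg0, hg0'] at h1 h2
    rw [map_neg] at h2
    exact ⟨h1, by linarith⟩
  · refine Filter.Eventually.of_forall fun s => ?_
    simp only [hg0]
    apply hm
    rw [mem_closedBall_zero_iff, hn]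

end MinL

open MinL

theorem min_lemma {u : E n → ℝ} (hu : ContDiff ℝ 2 u) {x : E n}
    (hx : x ∈ closedBall (0 : E n) 1) (hm : ∀ y ∈ closedBall (0 : E n) 1, u x ≤ u y) {c : ℝ}
    (hc : (n : ℝ) - 1 ≤ c) :
    0 ≤ L2 u x - c * fderiv ℝ u x x ∧ ∀ v, fderiv ℝ u x (v - (inner ℝ x v) • x) = 0 := by
  have hx1 : ‖x‖ ≤ 1 := by simpa using hx
  rcases hx1.lt_or_eq with hlt | heq
  · -- interior
    have hball : ball (0 : E n) 1 ∈ 𝓝 x := isOpen_ball.mem_nhds (by simpa using hlt)
    have hloc : IsLocalMin u x := by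
      filter_upwards [hball] with y hy
      exact hm y (ball_subset_closedBall hy)
    have h0 : fderiv ℝ u x = 0 := hloc.fderiv_eq_zero
    have hpsd : ∀ v, 0 ≤ hs u x v v := by
      intro v
      have hd : ∀ s : ℝ, HasDerivAt (fun s : ℝ => x + s • v) v s := fun s => by
        simpa using ((hasDerivAt_id s).smul_const v).const_add x
      have h := second_nonneg (k := fun s => u (x + s • v))
        (k1 := fun s => fderiv ℝ u (x + s • v) v)
        (fun s => dl1 hu (hd s)) (dl2 hu (hd 0) (hasDerivAt_const (0 : ℝ) v)) ?_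
      · have h2 := h.2
        simpa using h2
      · have hc : Continuous (fun s : ℝ => x + s • v) := by fun_prop
        have ht : Tendsto (fun s : ℝ => x + s • v) (𝓝 0) (𝓝 x) := by
          have := hc.tendsto 0
          simpa using this
        have := ht.eventually hloc
        filter_upwards [this] with s hs0
        simpa using hs0
    refine ⟨?_, fun v => by rw [h0]; rfl⟩
    rw [h0]
    have h1 := sum_hs u x
    have h2 : 0 ≤ ∑ i, hs u x (eb i - (x i) • x) (eb i - (x i) • x) :=
      Finset.sum_nonneg fun i _ => hpsd _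
    have h3 : 0 ≤ (1 - ‖x‖ ^ 2) * hs u x x x := by
      apply mul_nonneg _ (hpsd x)
      have : ‖x‖ ^ 2 ≤ 1 := pow_le_one₀ (norm_nonneg _) hx1
      linarith
    rw [L2]
    simp only [ContinuousLinearMap.zero_apply, mul_zero, sub_zero]
    linarith
  · -- the boundary
    have hk : fderiv ℝ u x x ≤ 0 := by
      by_contra hneg
      push Not at hneg
      have hd : HasDerivAt (fun s : ℝ => u (x + s • (-x))) (fderiv ℝ u (x + (0 : ℝ) • (-x)) (-x)) 0 := by
        have h1 : HasDerivAt (fun s : ℝ => x + s • (-x)) (-x) 0 := by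
          simpa using ((hasDerivAt_id (0 : ℝ)).smul_const (-x)).const_add x
        exact dl1 hu h1
      have h4 := hd.tendsto_slope_zero_right
      simp only [zero_smul, add_zero, zero_add, map_neg] at h4
      have h5 : ∀ᶠ s in 𝓝[>] (0 : ℝ), s⁻¹ • (u (x + s • (-x)) - u x) < 0 :=
        h4.eventually (gt_mem_nhds (by linarith))
      have h6 : ∀ᶠ s in 𝓝[>] (0 : ℝ), s < 1 :=
        nhdsWithin_le_nhds (gt_mem_nhds one_pos)
      obtain ⟨s, ⟨hs1, hs2⟩, hs3⟩ := ((h5.and h6).and self_mem_nhdsWithin).exists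
      have hs4 : (0 : ℝ) < s := hs3
      have h7 : u x ≤ u (x + s • (-x)) := by
        apply hm
        rw [mem_closedBall_zero_iff]
        have : x + s • (-x) = (1 - s) • x := by module
        rw [this, norm_smul, heq, mul_one, Real.norm_eq_abs, abs_of_pos (by linarith)]
        linarith
      rw [smul_eq_mul] at hs1
      have : 0 ≤ s⁻¹ * (u (x + s • (-x)) - u x) := mul_nonneg (by positivity) (by linarith)
      linarith
    -- general tangent vectors
    have htan : ∀ t : E n, inner ℝ x t = (0 : ℝ) → fderiv ℝ u x t = 0 ∧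
        ‖t‖ ^ 2 * fderiv ℝ u x x ≤ hs u x t t := by
      intro t ht
      rcases eq_or_ne t 0 with h0 | h0
      · subst h0; simp [hs]
      · have hn : 0 < ‖t‖ := norm_pos_iff.2 h0
        have h1 := circle hu heq hm (t := ‖t‖⁻¹ • t) (by
          rw [norm_smul, norm_inv, norm_norm, inv_mul_cancel₀ hn.ne']) (by
          rw [inner_smul_right, ht, mul_zero])
        obtain ⟨h2, h3⟩ := h1
        have h4 : t = ‖t‖ • (‖t‖⁻¹ • t) := by
          rw [smul_smul, mul_inv_cancel₀ hn.ne', one_smul]
        constructor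
        · rw [h4, map_smul, h2, smul_zero]
        · have h5 : hs u x t t = ‖t‖ ^ 2 * hs u x (‖t‖⁻¹ • t) (‖t‖⁻¹ • t) := by
            simp only [hs, map_smul, ContinuousLinearMap.smul_apply, smul_eq_mul]
            field_simp
          rw [h5]
          exact mul_le_mul_of_nonneg_left (by linarith) (by positivity)
    have hperp : ∀ v : E n, inner ℝ x (v - (inner ℝ x v) • x) = (0 : ℝ) := by
      intro v
      rw [inner_sub_right, inner_smul_right, real_inner_self_eq_norm_sq, heq]
      ring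
    refine ⟨?_, fun v => (htan _ (hperp v)).1⟩
    have h1 := sum_hs u x
    have h2 : ∑ i : Fin n, ‖(eb i : E n) - (x i) • x‖ ^ 2 * fderiv ℝ u x x ≤
        ∑ i, hs u x (eb i - (x i) • x) (eb i - (x i) • x) := by
      refine Finset.sum_le_sum fun i _ => ?_
      have := hperp (eb i)
      rw [inner_eb'] at this
      exact (htan _ this).2
    have h3 : ∑ i : Fin n, ‖(eb i : E n) - (x i) • x‖ ^ 2 = (n : ℝ) - 1 := by
      have h4 : ∀ i : Fin n, ‖(eb i : E n) - (x i) • x‖ ^ 2 = 1 - (x i) ^ 2 := by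
        intro i
        rw [norm_sub_sq_real, norm_eb, norm_smul, inner_smul_right, inner_eb, heq,
          Real.norm_eq_abs, mul_one, sq_abs]
        ring
      simp only [h4]
      have e3 : ∑ i, (x i) ^ 2 = ‖x‖ ^ 2 := by
        rw [EuclideanSpace.norm_eq, Real.sq_sqrt (Finset.sum_nonneg fun i _ => sq_nonneg _)]
        refine Finset.sum_congr rfl fun i _ => ?_
        rw [Real.norm_eq_abs, sq_abs]
      rw [Finset.sum_sub_distrib, e3, heq]
      simp
    rw [← Finset.sum_mul, h3] at h2
    rw [heq] at h1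
    rw [L2]
    nlinarith

end Pool.Agent.H21.CE
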