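import Pool.Agent.H21.CE.Defs

/-!
# The first touching argument
-/

open MeasureTheory Set Filter Topology Metric
open scoped ContDiff

namespace Pool.Agent.H21.CE

theorem first_touch {X : Type*} [TopologicalSpace X] {Q : Set X} (hQ : IsCompact Q) {T : ℝ}
    (h : ℝ → X → ℝ) (hc : ContinuousOn (fun q : ℝ × X => h q.1 q.2) (Icc 0 T ×ˢ Q))
    (h0 : ∀ y ∈ Q, 0 < h 0 y)
    (hd : ∀ t ∈ Ioc 0 T, ∀ y ∈ Q, h t y = 0 → (∀ z ∈ Q, 0 ≤ h t z) →
      ∃ d > 0, HasDerivAt (fun s => h s y) d t) :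
    ∀ t ∈ Icc 0 T, ∀ y ∈ Q, 0 < h t y := by
  by_contra hcon
  push Not at hcon
  obtain ⟨t0, ht0, y0, hy0, hneg⟩ := hcon
  set K : Set (ℝ × X) := Icc 0 T ×ˢ Q with hK
  have hKc : IsCompact K := isCompact_Icc.prod hQ
  haveI : CompactSpace K := isCompact_iff_compactSpace.1 hKc
  have hg : Continuous (K.restrict (fun q : ℝ × X => h q.1 q.2)) :=
    continuousOn_iff_continuous_restrict.1 hc
  set A : Set K := {k | K.restrict (fun q : ℝ × X => h q.1 q.2) k ≤ 0} with hA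
  have hAc : IsCompact A := (isClosed_le hg continuous_const).isCompact
  have hAne : A.Nonempty := ⟨⟨(t0, y0), ⟨ht0, hy0⟩⟩, hneg⟩
  obtain ⟨k1, hk1, hmin⟩ := hAc.exists_isMinOn hAne
    (f := fun k : K => k.1.1) (continuous_fst.comp continuous_subtype_val).continuousOn
  obtain ⟨⟨t1, y1⟩, ht1, hy1⟩ := k1
  simp only at ht1 hy1
  have hk1' : h t1 y1 ≤ 0 := hk1
  have hlt : ∀ s ∈ Icc (0 : ℝ) T, s < t1 → ∀ z ∈ Q, 0 < h s z := by
    intro s hs hst z hz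
    by_contra hh
    have hmem : (⟨(s, z), ⟨hs, hz⟩⟩ : K) ∈ A := not_lt.1 hh
    have := isMinOn_iff.1 hmin _ hmem
    simp only at this
    linarith
  have ht1pos : 0 < t1 := by
    rcases eq_or_lt_of_le ht1.1 with h1 | h1
    · have := h0 y1 hy1
      rw [h1] at this
      linarith
    · exact h1
  have hcz : ∀ z ∈ Q, ContinuousWithinAt (fun s => h s z) (Icc 0 T) t1 := by
    intro z hz
    have h1 : ContinuousWithinAt (fun q : ℝ × X => h q.1 q.2) (Icc 0 T ×ˢ Q) (t1, z) :=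
      hc (t1, z) ⟨ht1, hz⟩
    have h2 : ContinuousWithinAt (fun s : ℝ => ((s, z) : ℝ × X)) (Icc 0 T) t1 :=
      (continuous_id.prodMk continuous_const).continuousWithinAt
    exact ContinuousWithinAt.comp (f := fun s : ℝ => ((s, z) : ℝ × X))
      (g := fun q : ℝ × X => h q.1 q.2) (t := Icc 0 T ×ˢ Q) h1 h2
      (fun s hs => ⟨hs, hz⟩)
  have hsub : Ico (0 : ℝ) t1 ⊆ Icc 0 T := fun s hs => ⟨hs.1, hs.2.le.trans ht1.2⟩
  have hne : (𝓝[Ico (0 : ℝ) t1] t1).NeBot := by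
    apply mem_closure_iff_nhdsWithin_neBot.1
    rw [closure_Ico ht1pos.ne]
    exact ⟨ht1pos.le, le_refl _⟩
  have hnn : ∀ z ∈ Q, 0 ≤ h t1 z := by
    intro z hz
    have h1 : Tendsto (fun s => h s z) (𝓝[Ico (0 : ℝ) t1] t1) (𝓝 (h t1 z)) :=
      (hcz z hz).mono_left (nhdsWithin_mono _ hsub)
    refine ge_of_tendsto h1 ?_
    filter_upwards [self_mem_nhdsWithin] with s hs
    exact (hlt s (hsub hs) hs.2 z hz).le
  have hzero : h t1 y1 = 0 := le_antisymm hk1' (hnn y1 hy1)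
  obtain ⟨d, hdpos, hder⟩ := hd t1 ⟨ht1pos, ht1.2⟩ y1 hy1 hzero hnn
  have hslope := (hasDerivAt_iff_tendsto_slope.1 hder)
  have h3 : Tendsto (slope (fun s => h s y1) t1) (𝓝[Ico (0 : ℝ) t1] t1) (𝓝 d) :=
    hslope.mono_left (nhdsWithin_mono _ (fun s hs => ne_of_lt hs.2))
  have h4 : ∀ᶠ s in 𝓝[Ico (0 : ℝ) t1] t1, 0 < slope (fun s => h s y1) t1 s :=
    h3.eventually (lt_mem_nhds hdpos)
  obtain ⟨s, hs1, hs2⟩ := (h4.and self_mem_nhdsWithin).exists
  rw [slope_def_field, hzero, sub_zero] at hs1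
  have h5 := hlt s (hsub hs2) hs2.2 y1 hy1
  have h6 : s - t1 < 0 := by linarith [hs2.2]
  have h7 : h s y1 / (s - t1) < 0 := div_neg_of_pos_of_neg h5 h6
  linarith

end Pool.Agent.H21.CE
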