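import Pool.Agent.H21.CE.Defs
import Pool.Agent.H21.CE.Touch
import Pool.Agent.H21.CE.MinL
import Pool.Agent.H21.CE.DD

open MeasureTheory Set Filter Topology Metric
open scoped ContDiff

namespace Pool.Agent.H21.CE

variable {n : ℕ}

/-! ## Derivatives in time and space -/

section a9_time

variable {X : Type*} [NormedAddCommGroup X] [NormedSpace ℝ X]

private lemma a9_dir {F : X → ℝ} (hF : ContDiff ℝ ∞ F) (a : X) :
    ContDiff ℝ ∞ (fun q => fderiv ℝ F q a) :=
  (hF.fderiv_right (m := ∞) (by simp)).clm_apply contDiff_const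

private lemma a9_fd {F : X → ℝ} (hF : ContDiff ℝ ∞ F) (a b q : X) :
    fderiv ℝ (fun q => fderiv ℝ F q a) q b = fderiv ℝ (fderiv ℝ F) q b a := by
  have h1 : DifferentiableAt ℝ (fderiv ℝ F) q :=
    (hF.fderiv_right (m := ∞) (by simp)).differentiable (by simp) q
  rw [fderiv_clm_apply h1 (differentiableAt_const a)]
  simp

private lemma a9_symm {F : X → ℝ} (hF : ContDiff ℝ ∞ F) (a b q : X) :
    fderiv ℝ (fderiv ℝ F) q a b = fderiv ℝ (fderiv ℝ F) q b a := by
  have h1 : IsSymmSndFDerivAt ℝ F q :=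
    (hF.contDiffAt (x := q)).isSymmSndFDerivAt (by
      rw [minSmoothness_of_isRCLikeNormedField]
      exact WithTop.coe_le_coe.2 le_top)
  exact h1 a b

private lemma a9_comm {F : X → ℝ} (hF : ContDiff ℝ ∞ F) (a b q : X) :
    fderiv ℝ (fun q => fderiv ℝ F q a) q b = fderiv ℝ (fun q => fderiv ℝ F q b) q a := by
  rw [a9_fd hF, a9_fd hF, a9_symm hF]

end a9_time

/-- slices of a smooth function -/
private lemma a9_slice1 {F : ℝ × E n → ℝ} (hF : ContDiff ℝ ∞ F) (t : ℝ) (x v : E n) :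
    fderiv ℝ (fun y => F (t, y)) x v = fderiv ℝ F (t, x) (0, v) := by
  have h1 : DifferentiableAt ℝ F (t, x) := hF.differentiable (by simp) (t, x)
  have h2 : HasFDerivAt (fun y : E n => ((t, y) : ℝ × E n)) (ContinuousLinearMap.inr ℝ ℝ (E n)) x :=
    hasFDerivAt_prodMk_right t x
  have h3 := h1.hasFDerivAt.comp x h2
  have h4 : fderiv ℝ (fun y => F (t, y)) x
      = (fderiv ℝ F (t, x)).comp (ContinuousLinearMap.inr ℝ ℝ (E n)) := h3.fderiv
  rw [h4]
  simp

private lemma a9_fdfd {f : E n → ℝ} (hf : ContDiff ℝ ∞ f) (x v w : E n) :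
    hs f x v w = fderiv ℝ (fun y => fderiv ℝ f y w) x v := by
  rw [hs, a9_fd hf]

private lemma a9_slice2 {F : ℝ × E n → ℝ} (hF : ContDiff ℝ ∞ F) (t : ℝ) (x v w : E n) :
    hs (fun y => F (t, y)) x v w
      = fderiv ℝ (fun q => fderiv ℝ F q (0, w)) (t, x) (0, v) := by
  have h1 : ContDiff ℝ ∞ (fun y => F (t, y)) := hF.comp (contDiff_prodMk_right t)
  rw [a9_fdfd h1]
  have h2 : (fun y => fderiv ℝ (fun y => F (t, y)) y w)
      = fun y => (fun q : ℝ × E n => fderiv ℝ F q (0, w)) (t, y) := by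
    funext y
    exact a9_slice1 hF t y w
  rw [h2]
  exact a9_slice1 (F := fun q : ℝ × E n => fderiv ℝ F q (0, w)) (a9_dir hF _) t x v

private lemma a9_tder {F : ℝ × E n → ℝ} (hF : ContDiff ℝ ∞ F) (t : ℝ) (x : E n) :
    HasDerivAt (fun s => F (s, x)) (fderiv ℝ F (t, x) (1, 0)) t := by
  have h1 : DifferentiableAt ℝ F (t, x) := hF.differentiable (by simp) (t, x)
  have h2 : HasDerivAt (fun s : ℝ => ((s, x) : ℝ × E n)) (1, 0) t :=
    (hasDerivAt_id t).prodMk (hasDerivAt_const t x)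
  exact h1.hasFDerivAt.comp_hasDerivAt t h2

/-- The Hessian of the time derivative is the time derivative of the Hessian. -/
theorem hs_time {V : ℝ → E n → ℝ} (hs1 : ContDiff ℝ ∞ (fun q : ℝ × E n => V q.1 q.2))
    (t : ℝ) (x v w : E n) :
    HasDerivAt (fun s => hs (V s) x v w) (hs (vd V t) x v w) t := by
  set F : ℝ × E n → ℝ := fun q => V q.1 q.2 with hF
  have h1 : ∀ s, hs (V s) x v w = fderiv ℝ (fun q => fderiv ℝ F q (0, w)) (s, x) (0, v) := by
    intro s
    exact a9_slice2 hs1 s x v w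
  have h2 : (fun s => hs (V s) x v w)
      = fun s => (fun q => fderiv ℝ (fun q => fderiv ℝ F q (0, w)) q (0, v)) (s, x) := by
    funext s
    exact h1 s
  rw [h2]
  have h3 := a9_tder (F := fun q => fderiv ℝ (fun q => fderiv ℝ F q (0, w)) q (0, v))
    (a9_dir (a9_dir hs1 _) _) t x
  have h4 : vd V t = fun y => (fun q => fderiv ℝ F q (1, 0)) (t, y) := by
    funext y
    exact (a9_tder hs1 t y).deriv
  have h5 : hs (vd V t) x v w = fderiv ℝ (fun q => fderiv ℝ (fun q => fderiv ℝ F q (1, 0)) q (0, w))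
      (t, x) (0, v) := by
    rw [h4]
    exact a9_slice2 (F := fun q => fderiv ℝ F q (1, 0)) (a9_dir hs1 _) t x v w
  have h6 : (fun q => fderiv ℝ (fun q => fderiv ℝ F q (1, 0)) q (0, w))
      = fun q => fderiv ℝ (fun q => fderiv ℝ F q (0, w)) q (1, 0) := by
    funext q
    exact a9_comm hs1 (1, 0) (0, w) q
  rw [h5, h6, a9_comm (F := fun q => fderiv ℝ F q (0, w)) (a9_dir hs1 _) (1, 0) (0, v)]
  exact h3

/-! ## Quadratic forms and convexity -/

private lemma a9_hs_symm {f : E n → ℝ} (hf : ContDiff ℝ ∞ f) (x v w : E n) :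
    hs f x v w = hs f x w v := a9_symm hf v w x

/-- a minimizer of a quadratic form on the unit sphere is an eigenvector -/
private lemma a9_eig {f : E n → ℝ} (hf : ContDiff ℝ ∞ f) {z w : E n} {b : ℝ}
    (hq : ∀ v, b * ‖v‖ ^ 2 ≤ hs f z v v) (hw : ‖w‖ = 1) (hb : hs f z w w = b) (v : E n) :
    hs f z w v = b * inner ℝ w v := by
  -- expand the form at w + r v
  have key : ∀ r : ℝ, 0 ≤ 2 * r * (hs f z w v - b * inner ℝ w v)
      + r ^ 2 * (hs f z v v - b * ‖v‖ ^ 2) := by
    intro r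
    have h1 := hq (w + r • v)
    have h2 : hs f z (w + r • v) (w + r • v)
        = hs f z w w + 2 * r * hs f z w v + r ^ 2 * hs f z v v := by
      have h3 := a9_hs_symm hf z v w
      simp only [hs] at h3 ⊢
      simp only [map_add, map_smul, add_apply, smul_apply,
        smul_eq_mul]
      rw [h3]
      ring
    have h4 : ‖w + r • v‖ ^ 2 = 1 + 2 * r * inner ℝ w v + r ^ 2 * ‖v‖ ^ 2 := by
      rw [norm_add_sq_real, hw, inner_smul_right, norm_smul, mul_pow, Real.norm_eq_abs, sq_abs]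
      ring
    rw [h2, h4, hb] at h1
    nlinarith
  have h5 : ∀ a c : ℝ, (∀ r : ℝ, 0 ≤ 2 * r * a + r ^ 2 * c) → a = 0 := by
    intro a c h
    by_contra ha
    have hc : 0 ≤ c := by
      by_contra hc
      push Not at hc
      have h6 := h (-(2 * a) / c + 1)
      have h7 := h (-(2 * a) / c - 1)
      have hc0 : c ≠ 0 := hc.ne
      have e1 : 2 * (-(2 * a) / c + 1) * a + (-(2 * a) / c + 1) ^ 2 * c
          = -(2 * a) + c := by field_simp; ring
      have e2 : 2 * (-(2 * a) / c - 1) * a + (-(2 * a) / c - 1) ^ 2 * c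
          = 2 * a + c := by field_simp; ring
      rw [e1] at h6
      rw [e2] at h7
      linarith
    have h8 := h (-(a / (c + 1)))
    have e3 : 2 * (-(a / (c + 1))) * a + (-(a / (c + 1))) ^ 2 * c
        = -(a ^ 2 * (c + 2) / (c + 1) ^ 2) := by
      have : c + 1 ≠ 0 := by positivity
      field_simp
      ring
    rw [e3] at h8
    have h9 : 0 < a ^ 2 * (c + 2) / (c + 1) ^ 2 := by positivity
    linarith
  have h6 := h5 _ _ key
  linarith

/-- evenness: the derivative at the origin vanishes -/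
private lemma a9_zero {f : E n → ℝ} (hf : ContDiff ℝ ∞ f) (he : ∀ x, f (-x) = f x) (v : E n) :
    fderiv ℝ f 0 v = 0 := by
  have h1 : HasFDerivAt f (fderiv ℝ f 0) 0 := (hf.differentiable (by simp) 0).hasFDerivAt
  have h2 : HasFDerivAt (fun x : E n => f (-x)) (-(fderiv ℝ f 0)) 0 := by
    have h3 : HasFDerivAt f (fderiv ℝ f 0) (-(0 : E n)) := by simpa using h1
    have h4 := h3.comp (0 : E n) ((hasFDerivAt_id (0 : E n)).neg)
    refine h4.congr_fderiv ?_
    ext v
    simp
  have h5 : (fun x : E n => f (-x)) = f := funext he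
  rw [h5] at h2
  have h6 := h1.unique h2
  have h7 : fderiv ℝ f 0 v = -(fderiv ℝ f 0 v) := by
    conv_lhs => rw [h6]
    simp
  linarith

/-- a function that is even and convex on the ball increases along rays -/
private lemma a9_ray {f : E n → ℝ} (hf : ContDiff ℝ ∞ f) (he : ∀ x, f (-x) = f x)
    (hc : ∀ y ∈ closedBall (0 : E n) 1, ∀ v, 0 ≤ hs f y v v) {z : E n}
    (hz : z ∈ closedBall (0 : E n) 1) : 0 ≤ fderiv ℝ f z z := by
  have hz1 : ‖z‖ ≤ 1 := by simpa using hz
  set g : ℝ → ℝ := fun s => fderiv ℝ f (s • z) z with hg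
  have hd : ∀ s, HasDerivAt g (hs f (s • z) z z) s := by
    intro s
    have h1 : HasDerivAt (fun s : ℝ => s • z) z s := by
      simpa using (hasDerivAt_id s).smul_const z
    have h2 : HasFDerivAt (fun y => fderiv ℝ f y z) (fderiv ℝ (fun y => fderiv ℝ f y z) (s • z))
        (s • z) := ((a9_dir hf z).differentiable (by simp) (s • z)).hasFDerivAt
    have h3 := h2.comp_hasDerivAt s h1
    rw [a9_fdfd hf]
    exact h3
  have hmono : MonotoneOn g (Icc 0 1) := by
    apply monotoneOn_of_deriv_nonneg (convex_Icc 0 1)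
    · exact fun s _ => (hd s).continuousAt.continuousWithinAt
    · exact fun s _ => (hd s).differentiableAt.differentiableWithinAt
    · intro s hs1
      rw [interior_Icc] at hs1
      rw [(hd s).deriv]
      apply hc
      rw [mem_closedBall_zero_iff, norm_smul, Real.norm_eq_abs, abs_of_pos hs1.1]
      nlinarith [hs1.1, hs1.2, norm_nonneg z]
  have h1 := hmono (left_mem_Icc.2 zero_le_one) (right_mem_Icc.2 zero_le_one) zero_le_one
  simp only [hg, zero_smul, one_smul] at h1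
  rw [a9_zero hf he] at h1
  exact h1

/-- from unit vectors to all vectors -/
private lemma a9_scale {f : E n → ℝ} {z : E n} {b : ℝ}
    (h : ∀ w, ‖w‖ = 1 → b ≤ hs f z w w) (w : E n) : b * ‖w‖ ^ 2 ≤ hs f z w w := by
  by_cases hw : w = 0
  · subst hw
    simp [hs]
  have hn : 0 < ‖w‖ := norm_pos_iff.2 hw
  have h1 := h (‖w‖⁻¹ • w) (by rw [norm_smul, norm_inv, norm_norm, inv_mul_cancel₀ hn.ne'])
  have h2 : hs f z (‖w‖⁻¹ • w) (‖w‖⁻¹ • w) = (‖w‖⁻¹) ^ 2 * hs f z w w := by
    simp only [hs, map_smul, smul_apply, smul_eq_mul]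
    ring
  rw [h2] at h1
  have h3 : (‖w‖⁻¹) ^ 2 * hs f z w w * ‖w‖ ^ 2 = hs f z w w := by
    field_simp
  calc b * ‖w‖ ^ 2 ≤ (‖w‖⁻¹) ^ 2 * hs f z w w * ‖w‖ ^ 2 := by
        apply mul_le_mul_of_nonneg_right h1 (by positivity)
    _ = hs f z w w := h3

/-- the Hessian depends only on the germ -/
private lemma a9_germ {f g : E n → ℝ} {z : E n} (h : ∀ᶠ x in 𝓝 z, f x = g x) (v w : E n) :
    hs f z v w = hs g z v w := by
  have h1 : f =ᶠ[𝓝 z] g := h
  have h2 : fderiv ℝ f =ᶠ[𝓝 z] fderiv ℝ g := h1.fderiv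
  rw [hs, hs, h2.fderiv_eq]

private lemma a9_normH {f : E n → ℝ} (hf : ContDiff ℝ ∞ f) {z w : E n} {b : ℝ} (hb0 : 0 ≤ b)
    (hq : ∀ v, b * ‖v‖ ^ 2 ≤ hs f z v v) (hw : ‖w‖ = 1) (hb : hs f z w w = b) :
    ‖fderiv ℝ (fderiv ℝ f) z w‖ ≤ b := by
  apply ContinuousLinearMap.opNorm_le_bound _ hb0
  intro v
  have h1 : fderiv ℝ (fderiv ℝ f) z w v = b * inner ℝ w v := a9_eig hf hq hw hb v
  rw [h1, norm_mul, Real.norm_eq_abs, abs_of_nonneg hb0]
  apply mul_le_mul_of_nonneg_left _ hb0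
  have h2 := norm_inner_le_norm (𝕜 := ℝ) w v
  rwa [hw, one_mul] at h2

/-! ## Convexity is preserved -/

theorem conv_preserved {V : ℝ → E n → ℝ} {T : ℝ}
    (hs1 : ContDiff ℝ ∞ (fun q : ℝ × E n => V q.1 q.2))
    (hev : ∀ t x, V t (-x) = V t x)
    (hpde : ∀ t ∈ Icc (0 : ℝ) T, ∀ z ∈ closedBall (0 : E n) 1, ∀ᶠ x in 𝓝 z,
      vd V t x = Fop (V t) x)
    {m : ℝ} (hm : 0 < m) (h0 : ∀ z ∈ closedBall (0 : E n) 1, ∀ w, m * ‖w‖ ^ 2 ≤ hs (V 0) z w w) :
    ∃ lam > 0, ∀ t ∈ Icc (0 : ℝ) T, ∀ z ∈ closedBall (0 : E n) 1, ∀ w,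
      lam * ‖w‖ ^ 2 ≤ hs (V t) z w w := by
  classical
  have hVt : ∀ t, ContDiff ℝ ∞ (V t) := fun t => hs1.comp (contDiff_prodMk_right t)
  set m1 : ℝ := min m 1 / 2 with hm1
  have hm1p : 0 < m1 := by positivity
  have hm1m : m1 < m := by
    have := min_le_left m 1
    linarith
  have hm1h : m1 ≤ 1 / 2 := by
    have := min_le_right m 1
    linarith
  set K : ℝ := 2 * ((n : ℝ) + 2) + 2 with hK
  have hKp : 0 < K := by positivity
  set Q : Set (E n × E n) := closedBall (0 : E n) 1 ×ˢ sphere (0 : E n) 1 with hQ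
  have hQc : IsCompact Q := (isCompact_closedBall _ _).prod (isCompact_sphere _ _)
  set h : ℝ → (E n × E n) → ℝ := fun t y => hs (V t) y.1 y.2 y.2 - m1 * Real.exp (-K * t) with hh
  have hcont : Continuous (fun q : ℝ × (E n × E n) => h q.1 q.2) := by
    have e1 : (fun q : ℝ × (E n × E n) => h q.1 q.2)
        = fun q => fderiv ℝ (fderiv ℝ (fun q : ℝ × E n => V q.1 q.2)) (q.1, q.2.1) (0, q.2.2)
            (0, q.2.2) - m1 * Real.exp (-K * q.1) := by
      funext q
      simp only [hh]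
      congr 1
      rw [a9_slice2 hs1 q.1 q.2.1 q.2.2 q.2.2, a9_fd hs1]
    rw [e1]
    have e2 : Continuous (fderiv ℝ (fderiv ℝ (fun q : ℝ × E n => V q.1 q.2))) :=
      ((hs1.fderiv_right (m := ∞) (by simp)).fderiv_right (m := ∞) (by simp)).continuous
    have e3 : Continuous (fun q : ℝ × (E n × E n) =>
        fderiv ℝ (fderiv ℝ (fun q : ℝ × E n => V q.1 q.2)) (q.1, q.2.1)) :=
      e2.comp (by fun_prop)
    have e4 : Continuous (fun q : ℝ × (E n × E n) => ((0 : ℝ), q.2.2)) := by fun_prop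
    exact ((e3.clm_apply e4).clm_apply e4).sub (by fun_prop)
  have hpos := first_touch hQc (T := T) h hcont.continuousOn ?_ ?_
  · refine ⟨m1 * Real.exp (-K * T), by positivity, ?_⟩
    intro t ht z hz w
    apply a9_scale
    intro w hw
    have h1 := hpos t ht (z, w) ⟨hz, by simpa using hw⟩
    simp only [hh] at h1
    have h2 : Real.exp (-K * T) ≤ Real.exp (-K * t) := by
      apply Real.exp_le_exp.2
      have := ht.2
      nlinarith
    have h3 : m1 * Real.exp (-K * T) ≤ m1 * Real.exp (-K * t) :=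
      mul_le_mul_of_nonneg_left h2 hm1p.le
    linarith
  · rintro ⟨z, w⟩ ⟨hz, hw⟩
    have hw1 : ‖w‖ = 1 := by simpa using hw
    have h1 := h0 z hz w
    simp only [hh]
    rw [hw1] at h1
    simp only [mul_zero, Real.exp_zero]
    linarith
  · rintro t ht ⟨z, w⟩ ⟨hz, hw⟩ htouch hmin
    have hw1 : ‖w‖ = 1 := by simpa using hw
    set b : ℝ := m1 * Real.exp (-K * t) with hb
    have hbp : 0 < b := by positivity
    have hb1 : b ≤ 1 / 2 := by
      have h2 : Real.exp (-K * t) ≤ 1 := by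
        rw [← Real.exp_zero]
        apply Real.exp_le_exp.2
        have := ht.1
        nlinarith
      calc b ≤ m1 * 1 := mul_le_mul_of_nonneg_left h2 hm1p.le
        _ ≤ 1 / 2 := by linarith
    have htI : t ∈ Icc (0 : ℝ) T := ⟨ht.1.le, ht.2⟩
    have hconv : ∀ y ∈ closedBall (0 : E n) 1, ∀ v, b * ‖v‖ ^ 2 ≤ hs (V t) y v v := by
      intro y hy
      apply a9_scale
      intro v hv
      have h2 := hmin (y, v) ⟨hy, by simpa using hv⟩
      simp only [hh] at h2
      linarith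
    have hval : hs (V t) z w w = b := by
      simp only [hh] at htouch
      linarith
    have hu : ContDiff ℝ ∞ (fun y => hs (V t) y w w) := by
      have e1 : (fun y => hs (V t) y w w)
          = fun y => fderiv ℝ (fun q => fderiv ℝ (V t) q w) y w := by
        funext y
        exact a9_fdfd (hVt t) y w w
      rw [e1]
      exact a9_dir (a9_dir (hVt t) w) w
    obtain ⟨hm1', hm2⟩ := min_lemma (c := (n : ℝ) + 5) (hu.of_le (WithTop.coe_le_coe.2 le_top)) hz
      (by
        intro y hy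
        have h2 := hconv y hy w
        rw [hw1] at h2
        show hs (V t) z w w ≤ hs (V t) y w w
        rw [hval]
        linarith) (by linarith)
    have hnorm : ‖fderiv ℝ (fderiv ℝ (V t)) z w‖ ≤ b :=
      a9_normH (hVt t) hbp.le (hconv z hz) hw1 hval
    have hray : 0 ≤ fderiv ℝ (V t) z z := by
      apply a9_ray (hVt t) (hev t) _ hz
      intro y hy v
      have h2 := hconv y hy v
      have h3 : 0 ≤ b * ‖v‖ ^ 2 := by positivity
      linarith
    have hF : hs (vd V t) z w w = hs (Fop (V t)) z w w := a9_germ (hpde t htI z hz) w w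
    have hdd := ddFop (hVt t) z w
    rw [hm2, hval] at hdd
    refine ⟨hs (vd V t) z w w + K * b, ?_, ?_⟩
    · rw [hF, hdd]
      have h4 : ‖fderiv ℝ (fderiv ℝ (V t)) z w‖ ^ 2 ≤ b ^ 2 :=
        pow_le_pow_left₀ (norm_nonneg _) hnorm 2
      have h5 : 0 ≤ (fderiv ℝ (V t) z w + hs (V t) z w z) ^ 2 := sq_nonneg _
      have h6 : 0 ≤ fderiv ℝ (V t) z z * b := mul_nonneg hray hbp.le
      have h7 : 2 * b ^ 2 < 2 * b := by nlinarith
      rw [hK]
      linarith
    · have h4 := hs_time hs1 t z w w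
      have h5 : HasDerivAt (fun s : ℝ => m1 * Real.exp (-K * s)) (-(K * b)) t := by
        have h6 : HasDerivAt (fun s : ℝ => -K * s) (-K) t := by
          simpa using (hasDerivAt_id t).const_mul (-K)
        have h7 := (h6.exp).const_mul m1
        refine h7.congr_deriv ?_
        rw [hb]
        ring
      have h8 := h4.sub h5
      refine h8.congr_deriv ?_
      ring

end Pool.Agent.H21.CE
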