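import Pool.Agent.H21.CE.Defs

set_option linter.unusedVariables false

open MeasureTheory Set Filter Topology Metric
open scoped ContDiff

namespace Pool.Agent.H21.CE

variable {n : ℕ}

/-- derivative along a line -/
theorem hasDerivAt_line {V : E n → ℝ} (hV : ContDiff ℝ ∞ V) (z v : E n) (s : ℝ) :
    HasDerivAt (fun s : ℝ => V (z + s • v)) (fderiv ℝ V (z + s • v) v) s := by
  have h1 : HasDerivAt (fun s : ℝ => z + s • v) v s := by
    simpa using ((hasDerivAt_id s).smul_const v).const_add z
  have h2 : HasFDerivAt V (fderiv ℝ V (z + s • v)) (z + s • v) :=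
    ((hV.differentiable (by simp)) _).hasFDerivAt
  exact h2.comp_hasDerivAt s h1

/-- derivative of the derivative along a line -/
theorem hasDerivAt_line2 {V : E n → ℝ} (hV : ContDiff ℝ ∞ V) (z v w : E n) (s : ℝ) :
    HasDerivAt (fun s : ℝ => fderiv ℝ V (z + s • v) w) (hs V (z + s • v) v w) s := by
  have h1 : HasDerivAt (fun s : ℝ => z + s • v) v s := by
    simpa using ((hasDerivAt_id s).smul_const v).const_add z
  have h0 : Differentiable ℝ (fderiv ℝ V) :=
    (hV.fderiv_right (m := ∞) (by simp)).differentiable (by simp)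
  have h2 : HasFDerivAt (fderiv ℝ V) (fderiv ℝ (fderiv ℝ V) (z + s • v)) (z + s • v) :=
    (h0 _).hasFDerivAt
  have h3 := h2.comp_hasDerivAt s h1
  have h4 := h3.clm_apply (hasDerivAt_const s w)
  simpa [hs] using h4

/-- a function with a nonnegative derivative on the unit interval -/
theorem le_of_deriv_nonneg_unit {k k' : ℝ → ℝ} (h : ∀ s, HasDerivAt k (k' s) s) {t : ℝ}
    (ht : t ∈ Icc (0 : ℝ) 1) (hk : ∀ s ∈ Icc (0 : ℝ) 1, 0 ≤ k' s) : k 0 ≤ k t := by
  have h1 : MonotoneOn k (Icc 0 1) := by
    apply monotoneOn_of_deriv_nonneg (convex_Icc 0 1)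
    · exact fun s _ => (h s).continuousAt.continuousWithinAt
    · exact fun s _ => (h s).differentiableAt.differentiableWithinAt
    · intro s hs
      rw [interior_Icc] at hs
      rw [(h s).deriv]
      exact hk s (Ioo_subset_Icc_self hs)
  exact h1 (by simp) ht ht.1

theorem seg_mem {x z : E n} (hx : x ∈ closedBall (0 : E n) 1) (hz : z ∈ closedBall (0 : E n) 1)
    {s : ℝ} (hs : s ∈ Icc (0 : ℝ) 1) : z + s • (x - z) ∈ closedBall (0 : E n) 1 := by
  have h := (convex_closedBall (0 : E n) 1).add_smul_sub_mem hz hx hs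
  exact h

end Pool.Agent.H21.CE
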