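import Pool.Agent.H21.CE.VSm

set_option linter.unusedVariables false

open MeasureTheory Set Filter Topology Metric
open scoped ContDiff

namespace Pool.Agent.H21.CE

variable {n : ℕ}

theorem psi_between {V W : E n → ℝ} {lam M : ℝ} (h : Pt n V W lam M) {z y : E n}
    (hz : z ∈ closedBall (0 : E n) 1) (hy : y ∈ closedBall (0 : E n) 1) :
    inner ℝ y (gradient V z - gradient V y) + lam / 2 * ‖z - y‖ ^ 2 ≤ psi V z - psi V y ∧
    psi V z - psi V y + lam / 2 * ‖z - y‖ ^ 2 ≤ inner ℝ z (gradient V z - gradient V y) := by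
  have h1 := conv_ell h hz hy
  have h2 := conv_ell h hy hz
  rw [ell, map_sub] at h1 h2
  rw [norm_sub_rev y z] at h2
  simp only [psi, inner_sub_right, grad_inner]
  constructor
  · linarith
  · linarith

/-- The abstract spacelike inequality (one sign). -/
theorem spacelike_aux {lam M D : ℝ} (hl : 0 < lam) (hM : 0 < M) {z y nu : E n}
    (hz : ‖z‖ = 1) (hy : ‖y‖ = 1) (hD : 0 ≤ D)
    (h1 : D + lam / 2 * ‖z - y‖ ^ 2 ≤ inner ℝ z nu)
    (h2 : lam * ‖z - y‖ ^ 2 ≤ inner ℝ nu (z - y)) (h3 : ‖nu‖ ≤ M * ‖z - y‖) :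
    lam ^ 2 / (4 * M ^ 2) * ‖nu‖ ^ 2 ≤ ‖nu‖ ^ 2 - D ^ 2 := by
  set T := ‖z - y‖ with hT
  have hT0 : 0 ≤ T := norm_nonneg _
  have hn0 : 0 ≤ ‖nu‖ := norm_nonneg _
  have hzn : inner ℝ z nu ≤ ‖nu‖ := by
    have := real_inner_le_norm z nu
    rwa [hz, one_mul] at this
  rcases le_or_gt (lam / M) T with hc | hc
  · -- the far case
    have h4 : lam / M * (‖nu‖ / M) ≤ T ^ 2 := by
      have h5 : ‖nu‖ / M ≤ T := by rw [div_le_iff₀ hM]; linarith
      rw [sq]
      exact mul_le_mul hc h5 (by positivity) hT0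
    have h6 : D ≤ ‖nu‖ - lam ^ 2 / (2 * M ^ 2) * ‖nu‖ := by
      have h7 : lam / 2 * (lam / M * (‖nu‖ / M)) ≤ lam / 2 * T ^ 2 :=
        mul_le_mul_of_nonneg_left h4 (by positivity)
      have h8 : lam / 2 * (lam / M * (‖nu‖ / M)) = lam ^ 2 / (2 * M ^ 2) * ‖nu‖ := by
        field_simp
      linarith
    have h9 : D ≤ ‖nu‖ := by
      have : 0 ≤ lam / 2 * T ^ 2 := by positivity
      linarith
    have h10 : D ^ 2 ≤ (‖nu‖ - lam ^ 2 / (2 * M ^ 2) * ‖nu‖) * ‖nu‖ := by
      rw [sq]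
      exact mul_le_mul h6 h9 hD (hD.trans h6)
    have h11 : lam ^ 2 / (4 * M ^ 2) * ‖nu‖ ^ 2 ≤ lam ^ 2 / (2 * M ^ 2) * ‖nu‖ ^ 2 := by
      gcongr
      linarith
    nlinarith [h10, h11]
  · -- the near case
    have hzt : inner ℝ z (z - y) = T ^ 2 / 2 := by
      have e1 : T ^ 2 = 2 - 2 * inner ℝ z y := by
        rw [hT, norm_sub_sq_real, hz, hy]
        ring
      rw [inner_sub_right, real_inner_self_eq_norm_sq, hz, e1]
      ring
    set nt := nu - (inner ℝ z nu) • z with hnt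
    have hnt2 : ‖nt‖ ^ 2 = ‖nu‖ ^ 2 - (inner ℝ z nu) ^ 2 := by
      rw [hnt, norm_sub_sq_real, norm_smul, hz, inner_smul_right, real_inner_comm z nu,
        mul_one, Real.norm_eq_abs, sq_abs]
      ring
    have h4 : inner ℝ nu (z - y) = inner ℝ z nu * (T ^ 2 / 2) + inner ℝ nt (z - y) := by
      rw [hnt, inner_sub_left, inner_smul_left, hzt]
      simp
    have h5 : inner ℝ nt (z - y) ≤ ‖nt‖ * T := real_inner_le_norm _ _
    have h6 : inner ℝ z nu * (T ^ 2 / 2) ≤ lam / 2 * T ^ 2 := by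
      have h7 : inner ℝ z nu ≤ lam := by
        have h8 : M * T ≤ lam := by
          rw [lt_div_iff₀ hM] at hc
          linarith
        linarith
      nlinarith [sq_nonneg T]
    have h7 : lam / 2 * T ^ 2 ≤ ‖nt‖ * T := by linarith
    have h8 : lam / 2 * T ≤ ‖nt‖ := by
      rcases hT0.eq_or_lt with h0 | h0
      · rw [← h0, mul_zero]; exact norm_nonneg _
      · have : (lam / 2 * T) * T ≤ ‖nt‖ * T := by linarith [h7, show lam / 2 * T ^ 2 = lam / 2 * T * T by ring]
        exact le_of_mul_le_mul_right this h0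
    have h9 : lam / (2 * M) * ‖nu‖ ≤ ‖nt‖ := by
      refine le_trans ?_ h8
      have : lam / (2 * M) * ‖nu‖ ≤ lam / (2 * M) * (M * T) :=
        mul_le_mul_of_nonneg_left h3 (by positivity)
      refine this.trans (le_of_eq ?_)
      field_simp
    have h10 : (lam / (2 * M) * ‖nu‖) ^ 2 ≤ ‖nt‖ ^ 2 :=
      pow_le_pow_left₀ (by positivity) h9 2
    have h11 : D ^ 2 ≤ (inner ℝ z nu) ^ 2 := by
      have : 0 ≤ lam / 2 * T ^ 2 := by positivity
      exact pow_le_pow_left₀ hD (by linarith) 2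
    have h12 : (lam / (2 * M) * ‖nu‖) ^ 2 = lam ^ 2 / (4 * M ^ 2) * ‖nu‖ ^ 2 := by
      field_simp
      ring
    linarith

theorem kappa {V W : E n → ℝ} {lam M : ℝ} (h : Pt n V W lam M) {z y : E n}
    (hz : z ∈ sphere (0 : E n) 1) (hy : y ∈ sphere (0 : E n) 1) :
    lam ^ 2 / (4 * M ^ 2) * ‖gradient V z - gradient V y‖ ^ 2 ≤
      ‖gradient V z - gradient V y‖ ^ 2 - (psi V z - psi V y) ^ 2 := by
  have hz' : z ∈ closedBall (0 : E n) 1 := sphere_subset_closedBall hz
  have hy' : y ∈ closedBall (0 : E n) 1 := sphere_subset_closedBall hy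
  have hz1 : ‖z‖ = 1 := by simpa using hz
  have hy1 : ‖y‖ = 1 := by simpa using hy
  have hM : 0 < M := lt_of_lt_of_le one_pos h.one_le
  obtain ⟨h1, h2⟩ := psi_between h hz' hy'
  rcases le_total 0 (psi V z - psi V y) with h0 | h0
  · exact spacelike_aux h.lam_pos hM hz1 hy1 h0 h2 (grad_mono h hz' hy') (grad_lip h hz' hy')
  · have h3 := spacelike_aux (D := psi V y - psi V z) (nu := gradient V y - gradient V z)
      h.lam_pos hM hy1 hz1 (by linarith) ?_ (grad_mono h hy' hz') (grad_lip h hy' hz')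
    · rw [norm_sub_rev (gradient V y) (gradient V z)] at h3
      have : (psi V y - psi V z) ^ 2 = (psi V z - psi V y) ^ 2 := by ring
      rwa [this] at h3
    · rw [norm_sub_rev y z]
      have : inner ℝ y (gradient V y - gradient V z) = -inner ℝ y (gradient V z - gradient V y) := by
        rw [← inner_neg_right]; congr 1; abel
      rw [this]
      linarith

end Pool.Agent.H21.CE
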