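import Pool.Agent.H21.CE.Defs

/-!
# The maximum of the tangent planes: elementary convexity
-/

set_option autoImplicit false

open MeasureTheory Set Filter Topology Metric
open scoped ContDiff

namespace Pool.Agent.H21.CE

variable {n : ℕ}

namespace VSm

lemma cont_ell_z {V : E n → ℝ} (hV : ContDiff ℝ ∞ V) (x : E n) :
    Continuous (fun z : E n => ell V z x) :=
  (cont_ell hV).comp (continuous_id.prodMk continuous_const)

lemma isCompact_img {V : E n → ℝ} (hV : ContDiff ℝ ∞ V) (x : E n) :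
    IsCompact ((fun z => ell V z x) '' sphere (0 : E n) 1) :=
  (isCompact_sphere _ _).image (cont_ell_z hV x)

lemma diff1 {V : E n → ℝ} (hV : ContDiff ℝ ∞ V) (y : E n) : HasFDerivAt V (fderiv ℝ V y) y :=
  (hV.differentiable (by simp) y).hasFDerivAt

lemma diff2 {V : E n → ℝ} (hV : ContDiff ℝ ∞ V) (y : E n) :
    HasFDerivAt (fderiv ℝ V) (fderiv ℝ (fderiv ℝ V) y) y :=
  ((hV.fderiv_right (m := ∞) (by simp)).differentiable (by simp) y).hasFDerivAt

lemma hs_symm {V : E n → ℝ} (hV : ContDiff ℝ ∞ V) (y v w : E n) : hs V y v w = hs V y w v := by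
  have h := second_derivative_symmetric_of_eventually (f := V) (f' := fderiv ℝ V)
    (f'' := fderiv ℝ (fderiv ℝ V) y) (x := y)
    (Filter.Eventually.of_forall fun z => diff1 hV z) (diff2 hV y) v w
  exact h

end VSm

open VSm

theorem VS_max (hn : 0 < n) {V : E n → ℝ} (hV : ContDiff ℝ ∞ V) (x : E n) :
    ∃ z ∈ sphere (0 : E n) 1, ell V z x = VS V x := by
  have hne : (sphere (0 : E n) 1).Nonempty := ⟨eb ⟨0, hn⟩, by simp [norm_eb]⟩
  obtain ⟨z, hz, hz'⟩ := (isCompact_img hV x).sSup_mem (hne.image _)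
  exact ⟨z, hz, hz'⟩

theorem ell_le_VS' {V : E n → ℝ} (hV : ContDiff ℝ ∞ V) (x : E n) {z : E n}
    (hz : z ∈ sphere (0 : E n) 1) : ell V z x ≤ VS V x :=
  le_csSup (isCompact_img hV x).bddAbove (mem_image_of_mem _ hz)

theorem VS_lip (hn : 0 < n) {V W : E n → ℝ} {lam M : ℝ} (h : Pt n V W lam M) (x y : E n) :
    |VS V x - VS V y| ≤ M * ‖x - y‖ := by
  have key : ∀ x y : E n, VS V x - VS V y ≤ M * ‖x - y‖ := by
    intro x y
    obtain ⟨z, hz, hzx⟩ := VS_max hn h.hV x
    have h1 := ell_le_VS' h.hV y hz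
    have h2 : ell V z x = ell V z y + fderiv ℝ V z (x - y) := by
      unfold ell
      rw [add_assoc, ← map_add]
      congr 2
      abel
    have hzB : z ∈ closedBall (0 : E n) 1 := sphere_subset_closedBall hz
    have h3 : fderiv ℝ V z (x - y) ≤ M * ‖x - y‖ :=
      (le_abs_self _).trans (((fderiv ℝ V z).le_opNorm _).trans (by
        gcongr
        exact h.b1 z hzB))
    rw [← hzx, h2]
    linarith
  rw [abs_le]
  constructor
  · have := key y x
    rw [norm_sub_rev] at this
    linarith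
  · exact key x y

/-- strict convexity inequalities on the ball -/
theorem conv_ell {V W : E n → ℝ} {lam M : ℝ} (h : Pt n V W lam M) {x z : E n}
    (hx : x ∈ closedBall (0 : E n) 1) (hz : z ∈ closedBall (0 : E n) 1) :
    ell V z x + lam / 2 * ‖x - z‖ ^ 2 ≤ V x := by
  set u := x - z with hu
  set c := lam * ‖u‖ ^ 2 with hc
  have hmem : ∀ t ∈ Icc (0 : ℝ) 1, z + t • u ∈ closedBall (0 : E n) 1 := by
    intro t ht
    have := (convex_closedBall (0 : E n) 1).add_smul_sub_mem hz hx ht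
    simpa [hu] using this
  have hl : ∀ t : ℝ, HasDerivAt (fun s : ℝ => z + s • u) u t := fun t => by
    simpa using ((hasDerivAt_id t).smul_const u).const_add z
  have d1 : ∀ t : ℝ, HasDerivAt (fun s : ℝ => V (z + s • u)) (fderiv ℝ V (z + t • u) u) t :=
    fun t => (diff1 h.hV (z + t • u)).comp_hasDerivAt t (hl t)
  have d2 : ∀ t : ℝ, HasDerivAt (fun s : ℝ => fderiv ℝ V (z + s • u) u)
      (hs V (z + t • u) u u) t := fun t => by
    have h1 := (diff2 h.hV (z + t • u)).comp_hasDerivAt t (hl t)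
    have h2 := h1.clm_apply (hasDerivAt_const t u)
    simpa [hs] using h2
  -- first derivative
  have m1 : MonotoneOn (fun t : ℝ => fderiv ℝ V (z + t • u) u - c * t) (Icc 0 1) := by
    have hd : ∀ t : ℝ, HasDerivAt (fun t : ℝ => fderiv ℝ V (z + t • u) u - c * t)
        (hs V (z + t • u) u u - c) t := fun t => by
      refine ((d2 t).sub ((hasDerivAt_id t).const_mul c)).congr_deriv ?_
      ring
    refine monotoneOn_of_deriv_nonneg (convex_Icc 0 1) ?_ ?_ ?_
    · exact fun t _ => (hd t).continuousAt.continuousWithinAt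
    · exact fun t _ => (hd t).differentiableAt.differentiableWithinAt
    · intro t ht
      rw [interior_Icc] at ht
      rw [(hd t).deriv]
      have := h.conv _ (hmem t ⟨ht.1.le, ht.2.le⟩) u
      linarith
  have m2 : MonotoneOn (fun t : ℝ => V (z + t • u) - fderiv ℝ V z u * t - c / 2 * t ^ 2)
      (Icc 0 1) := by
    have hd : ∀ t : ℝ, HasDerivAt (fun t : ℝ => V (z + t • u) - fderiv ℝ V z u * t - c / 2 * t ^ 2)
        (fderiv ℝ V (z + t • u) u - fderiv ℝ V z u - c * t) t := fun t => by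
      have h3 := ((d1 t).sub ((hasDerivAt_id t).const_mul (fderiv ℝ V z u))).sub
        (((hasDerivAt_id t).pow 2).const_mul (c / 2))
      refine h3.congr_deriv ?_
      simp
      ring
    refine monotoneOn_of_deriv_nonneg (convex_Icc 0 1) ?_ ?_ ?_
    · exact fun t _ => (hd t).continuousAt.continuousWithinAt
    · exact fun t _ => (hd t).differentiableAt.differentiableWithinAt
    · intro t ht
      rw [interior_Icc] at ht
      rw [(hd t).deriv]
      have h3 := m1 (left_mem_Icc.2 zero_le_one) ⟨ht.1.le, ht.2.le⟩ ht.1.le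
      simp only [zero_smul, add_zero, mul_zero, sub_zero] at h3
      linarith
  have h5 := m2 (left_mem_Icc.2 zero_le_one) (right_mem_Icc.2 zero_le_one) zero_le_one
  simp only [zero_smul, add_zero, mul_zero, sub_zero, one_smul, mul_one, one_pow,
    ne_eq, OfNat.ofNat_ne_zero, not_false_eq_true, zero_pow] at h5
  have h6 : z + u = x := by rw [hu]; abel
  rw [h6] at h5
  unfold ell
  have h7 : lam / 2 * ‖u‖ ^ 2 = c / 2 := by rw [hc]; ring
  rw [← hu, h7]
  linarith

theorem grad_mono {V W : E n → ℝ} {lam M : ℝ} (h : Pt n V W lam M) {x z : E n}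
    (hx : x ∈ closedBall (0 : E n) 1) (hz : z ∈ closedBall (0 : E n) 1) :
    lam * ‖x - z‖ ^ 2 ≤ inner ℝ (gradient V x - gradient V z) (x - z) := by
  have h1 := conv_ell h hx hz
  have h2 := conv_ell h hz hx
  unfold ell at h1 h2
  rw [inner_sub_left, inner_grad, inner_grad]
  have h3 : fderiv ℝ V x (z - x) = -fderiv ℝ V x (x - z) := by
    rw [← map_neg, neg_sub]
  rw [norm_sub_rev z x, h3] at h2
  linarith

theorem grad_lip {V W : E n → ℝ} {lam M : ℝ} (h : Pt n V W lam M) {x z : E n}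
    (hx : x ∈ closedBall (0 : E n) 1) (hz : z ∈ closedBall (0 : E n) 1) :
    ‖gradient V x - gradient V z‖ ≤ M * ‖x - z‖ := by
  have h1 : ‖gradient V x - gradient V z‖ = ‖fderiv ℝ V x - fderiv ℝ V z‖ := by
    unfold gradient
    rw [← map_sub, LinearIsometryEquiv.norm_map]
  rw [h1]
  exact (convex_closedBall (0 : E n) 1).norm_image_sub_le_of_norm_fderiv_le
    (fun y _ => (diff2 h.hV y).differentiableAt) (fun y hy => h.b2 y hy) hz hx

theorem V_zero_le {V W : E n → ℝ} {lam M : ℝ} (h : Pt n V W lam M) {x : E n}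
    (hx : x ∈ closedBall (0 : E n) 1) : V 0 ≤ V x ∧ 0 ≤ fderiv ℝ V x x := by
  have h0 : (0 : E n) ∈ closedBall (0 : E n) 1 := by simp
  have hg : fderiv ℝ V 0 = 0 := by
    have h1 : HasFDerivAt (fun y : E n => V (-y)) ((fderiv ℝ V (-0)).comp
        (-ContinuousLinearMap.id ℝ (E n))) 0 :=
      (diff1 h.hV (-0)).comp 0 (hasFDerivAt_id (0 : E n)).neg
    have h2 : (fun y : E n => V (-y)) = V := funext h.even
    rw [h2] at h1
    have h3 := h1.fderiv
    ext v
    have h4 := congrArg (fun L : E n →L[ℝ] ℝ => L v) h3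
    simp at h4
    simp
    linarith
  have h1 := conv_ell h hx h0
  have h2 := conv_ell h h0 hx
  unfold ell at h1 h2
  rw [hg] at h1
  have h3 : fderiv ℝ V x (0 - x) = -fderiv ℝ V x x := by rw [zero_sub, map_neg]
  rw [h3] at h2
  have h4 : 0 ≤ lam / 2 * ‖x - 0‖ ^ 2 := by
    have := h.lam_pos
    positivity
  have h5 : 0 ≤ lam / 2 * ‖0 - x‖ ^ 2 := by
    have := h.lam_pos
    positivity
  simp only [zero_apply, add_zero] at h1
  constructor <;> linarith

theorem VS_le_V (hn : 0 < n) {V W : E n → ℝ} {lam M : ℝ} (h : Pt n V W lam M) {x : E n}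
    (hx : x ∈ closedBall (0 : E n) 1) : VS V x ≤ V x := by
  obtain ⟨z, hz, hzx⟩ := VS_max hn h.hV x
  rw [← hzx]
  have h1 := conv_ell h hx (sphere_subset_closedBall hz)
  have h4 : 0 ≤ lam / 2 * ‖x - z‖ ^ 2 := by
    have := h.lam_pos
    positivity
  linarith

/-- the maximum over the ball is taken at the sphere, for exterior points -/
theorem ell_le_VS {V W : E n → ℝ} {lam M : ℝ} (h : Pt n V W lam M) {x : E n}
    (hx : 1 ≤ ‖x‖) {y : E n} (hy : y ∈ closedBall (0 : E n) 1) : ell V y x ≤ VS V x := by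
  have hy1 : ‖y‖ ≤ 1 := by simpa using hy
  obtain ⟨r, hr, hr1⟩ : ∃ r ∈ Icc (0 : ℝ) 1, ‖y + r • (x - y)‖ = 1 := by
    have hc : ContinuousOn (fun r : ℝ => ‖y + r • (x - y)‖) (Icc 0 1) := by fun_prop
    have := intermediate_value_Icc zero_le_one hc
    have h1 : (1 : ℝ) ∈ Icc (‖y + (0 : ℝ) • (x - y)‖) (‖y + (1 : ℝ) • (x - y)‖) := by
      simp [hy1, hx]
    obtain ⟨r, hr, hr'⟩ := this h1
    exact ⟨r, hr, hr'⟩
  set z := y + r • (x - y) with hz
  have hzS : z ∈ sphere (0 : E n) 1 := by simp [hr1]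
  have hzB := sphere_subset_closedBall hzS
  refine le_trans ?_ (ell_le_VS' h.hV x hzS)
  have h1 := conv_ell h hzB hy
  have h2 := grad_mono h hzB hy
  rw [inner_sub_left, inner_grad, inner_grad] at h2
  have h3 : 0 ≤ lam * ‖z - y‖ ^ 2 := by
    have := h.lam_pos
    positivity
  have h3' : 0 ≤ lam / 2 * ‖z - y‖ ^ 2 := by
    have := h.lam_pos
    positivity
  have h4 : z - y = r • (x - y) := by rw [hz]; abel
  have h5 : x - z = (1 - r) • (x - y) := by
    rw [hz, sub_smul, one_smul]; abel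
  unfold ell at h1 ⊢
  rcases hr.1.eq_or_lt with h0 | h0
  · have : z = y := by rw [hz, ← h0]; simp
    rw [this]
  · rw [h4, map_smul, map_smul, smul_eq_mul, smul_eq_mul] at h2
    rw [h4, map_smul, smul_eq_mul] at h1
    have h6 : 0 ≤ fderiv ℝ V z (x - y) - fderiv ℝ V y (x - y) := by
      have h7 : 0 ≤ r * (fderiv ℝ V z (x - y) - fderiv ℝ V y (x - y)) := by
        rw [h4] at h3
        linarith
      exact nonneg_of_mul_nonneg_right h7 h0
    rw [h5, map_smul, smul_eq_mul]
    have h8 : 0 ≤ (1 - r) * (fderiv ℝ V z (x - y) - fderiv ℝ V y (x - y)) :=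
      mul_nonneg (by linarith [hr.2]) h6
    rw [h4] at h3'
    nlinarith

/-- weights increase towards the sphere: V(x/|x|) ≤ V*(x) -/
theorem V_le_VS {V W : E n → ℝ} {lam M : ℝ} (h : Pt n V W lam M) {x : E n}
    (hx : 1 ≤ ‖x‖) : V (‖x‖⁻¹ • x) ≤ VS V x := by
  set z := ‖x‖⁻¹ • x with hz
  have hx0 : 0 < ‖x‖ := by linarith
  have hzS : z ∈ sphere (0 : E n) 1 := by
    rw [mem_sphere_zero_iff_norm, hz, norm_smul, norm_inv, norm_norm, inv_mul_cancel₀ hx0.ne']
  refine le_trans ?_ (ell_le_VS' h.hV x hzS)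
  have h1 := (V_zero_le h (sphere_subset_closedBall hzS)).2
  have h2 : x - z = (‖x‖ - 1) • z := by
    rw [sub_smul, one_smul, hz, smul_smul, mul_inv_cancel₀ hx0.ne', one_smul]
  unfold ell
  rw [h2, map_smul, smul_eq_mul]
  have : 0 ≤ (‖x‖ - 1) * fderiv ℝ V z z := mul_nonneg (by linarith) h1
  linarith

/-- first order condition at a maximizer -/
theorem first_order {V W : E n → ℝ} {lam M : ℝ} (h : Pt n V W lam M) {x : E n}
    (hx : 1 ≤ ‖x‖) {z0 : E n} (hz : z0 ∈ sphere (0 : E n) 1) (hm : ell V z0 x = VS V x) :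
    ∃ t : ℝ, 0 ≤ t ∧ ∀ w, hs V z0 (x - z0) w = t * inner ℝ z0 w := by
  have hzB := sphere_subset_closedBall hz
  have hz1 : ‖z0‖ = 1 := by simpa using hz
  -- derivative of the tangent plane value in the point of contact
  have hd : HasFDerivAt (fun y : E n => ell V y x)
      ((fderiv ℝ (fderiv ℝ V) z0 (x - z0))) z0 := by
    have h1 : HasFDerivAt (fun y : E n => V y + fderiv ℝ V y (x - y))
        (fderiv ℝ V z0 + ((fderiv ℝ V z0).comp (-ContinuousLinearMap.id ℝ (E n)) +
          (fderiv ℝ (fderiv ℝ V) z0).flip (x - z0))) z0 :=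
      (diff1 h.hV z0).add ((diff2 h.hV z0).clm_apply ((hasFDerivAt_id z0).const_sub x))
    refine h1.congr_fderiv ?_
    ext v
    have h2 := hs_symm h.hV z0 v (x - z0)
    unfold hs at h2
    simp only [add_apply, ContinuousLinearMap.comp_apply,
      neg_apply, ContinuousLinearMap.id_apply, map_neg,
      ContinuousLinearMap.flip_apply]
    rw [h2]
    ring
  have hmax : IsLocalMaxOn (fun y : E n => ell V y x) (closedBall (0 : E n) 1) z0 := by
    filter_upwards [self_mem_nhdsWithin] with y hy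
    rw [hm]
    exact ell_le_VS h hx hy
  have hle : ∀ y ∈ closedBall (0 : E n) 1, hs V z0 (x - z0) y ≤ hs V z0 (x - z0) z0 := by
    intro y hy
    have h1 : y - z0 ∈ posTangentConeAt (closedBall (0 : E n) 1) z0 :=
      mem_posTangentConeAt_of_segment_subset
        ((convex_closedBall (0 : E n) 1).segment_subset hzB (by rwa [add_sub_cancel]))
    have h2 := hmax.hasFDerivWithinAt_nonpos hd.hasFDerivWithinAt h1
    rw [map_sub] at h2
    unfold hs
    linarith
  set g : E n := (InnerProductSpace.toDual ℝ (E n)).symm (fderiv ℝ (fderiv ℝ V) z0 (x - z0)) with hg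
  have hgw : ∀ w, hs V z0 (x - z0) w = inner ℝ g w := fun w => by
    rw [hg, InnerProductSpace.toDual_symm_apply]
    rfl
  have hgn : ‖g‖ ≤ inner ℝ g z0 := by
    rcases eq_or_ne g 0 with h0 | h0
    · rw [h0]; simp
    · have hgp : 0 < ‖g‖ := norm_pos_iff.2 h0
      have h1 := hle (‖g‖⁻¹ • g) (by
        rw [mem_closedBall_zero_iff, norm_smul, norm_inv, norm_norm, inv_mul_cancel₀ hgp.ne'])
      rw [hgw, hgw, inner_smul_right, real_inner_self_eq_norm_sq] at h1
      have h2 : ‖g‖⁻¹ * ‖g‖ ^ 2 = ‖g‖ := by field_simp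
      linarith
  have heq : inner ℝ g z0 = ‖g‖ * ‖z0‖ := by
    apply le_antisymm (real_inner_le_norm g z0)
    rw [hz1, mul_one]
    exact hgn
  have h3 := inner_eq_norm_mul_iff_real.1 heq
  rw [hz1, one_smul] at h3
  refine ⟨‖g‖, norm_nonneg g, fun w => ?_⟩
  rw [hgw]
  nth_rewrite 1 [h3]
  rw [inner_smul_left]
  simp

end Pool.Agent.H21.CE
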