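import Pool.Agent.H21.CE.Gib
import Pool.Agent.H21.CE.VSm
import Pool.Agent.H21.CE.Kap

/-!
# Double integrals and the lower bound of the trace
-/

open MeasureTheory Set Filter Topology Metric
open scoped ContDiff

namespace Pool.Agent.H21.CE

variable {n : ℕ}

lemma cont_psi {V : E n → ℝ} (hV : ContDiff ℝ ∞ V) : Continuous (psi V) := by
  have h1 : Continuous (fderiv ℝ V) := hV.continuous_fderiv (by simp)
  unfold psi
  exact (h1.clm_apply continuous_id).sub hV.continuous

lemma gib_prod_ae (hn : 0 < n) {V : E n → ℝ} (hV : ContDiff ℝ ∞ V) (b : ℝ) (x : E n) :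
    ∀ᵐ q ∂((gib b V x).prod (gib b V x)),
      q.1 ∈ sphere (0 : E n) 1 ∧ q.2 ∈ sphere (0 : E n) 1 := by
  have := gib_prob hn hV b x
  have h1 := gib_ae hn hV b x
  have h2 := (Measure.quasiMeasurePreserving_fst (μ := gib b V x) (ν := gib b V x)).ae h1
  have h3 := (Measure.quasiMeasurePreserving_snd (μ := gib b V x) (ν := gib b V x)).ae h1
  filter_upwards [h2, h3] with q h4 h5
  exact ⟨h4, h5⟩

lemma gib_prod_int (hn : 0 < n) {V : E n → ℝ} (hV : ContDiff ℝ ∞ V) (b : ℝ) (x : E n)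
    {F : E n × E n → ℝ} (hF : Continuous F) : Integrable F ((gib b V x).prod (gib b V x)) := by
  have := gib_prob hn hV b x
  have hc : IsCompact (sphere (0 : E n) 1 ×ˢ sphere (0 : E n) 1) :=
    (isCompact_sphere _ _).prod (isCompact_sphere _ _)
  obtain ⟨C, hC⟩ := hc.exists_bound_of_continuousOn hF.continuousOn
  refine Integrable.of_bound hF.aestronglyMeasurable C ?_
  filter_upwards [gib_prod_ae hn hV b x] with q hq
  exact hC q hq

lemma gib_dbl (hn : 0 < n) {V : E n → ℝ} (hV : ContDiff ℝ ∞ V) (b : ℝ) (x : E n)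
    {F : E n × E n → ℝ} (hF : Continuous F) :
    ∫ z, ∫ y, F (z, y) ∂(gib b V x) ∂(gib b V x) = ∫ q, F q ∂((gib b V x).prod (gib b V x)) := by
  have := gib_prob hn hV b x
  exact (integral_prod F (gib_prod_int hn hV b x hF)).symm

/-- the quadratic form `‖v‖² - ⟨c, v⟩²`, double integral -/
lemma dblQ (hn : 0 < n) {V : E n → ℝ} (hV : ContDiff ℝ ∞ V) (b : ℝ) (x c : E n) :
    ∫ z, ∫ y, (‖gradient V z - gradient V y‖ ^ 2
      - (inner ℝ c (gradient V z - gradient V y)) ^ 2) ∂(gib b V x) ∂(gib b V x)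
    = 2 * ∫ z, (‖gradient V z - pb b V x‖ ^ 2 - (inner ℝ c (gradient V z - pb b V x)) ^ 2)
      ∂(gib b V x) := by
  have := gib_prob hn hV b x
  have hg : Continuous (gradient V) := cont_grad hV
  set μ := gib b V x with hμ
  set pm := pb b V x with hpm
  have hpi : Integrable (gradient V) μ := gib_int hV b x hg
  have hmean : ∫ y, (gradient V y - pm) ∂μ = 0 := by
    rw [integral_sub hpi (integrable_const _), integral_const]
    simp [hpm, pb, hμ]
  have hQc : Continuous (fun z => ‖gradient V z - pm‖ ^ 2 - (inner ℝ c (gradient V z - pm)) ^ 2) := by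
    fun_prop
  have hQi : Integrable (fun z => ‖gradient V z - pm‖ ^ 2
      - (inner ℝ c (gradient V z - pm)) ^ 2) μ := gib_int hV b x hQc
  have hin : ∀ z, ∫ y, (‖gradient V z - gradient V y‖ ^ 2
      - (inner ℝ c (gradient V z - gradient V y)) ^ 2) ∂μ =
      (‖gradient V z - pm‖ ^ 2 - (inner ℝ c (gradient V z - pm)) ^ 2) +
      ∫ y, (‖gradient V y - pm‖ ^ 2 - (inner ℝ c (gradient V y - pm)) ^ 2) ∂μ := by
    intro z
    set w : E n := (gradient V z - pm) - (inner ℝ c (gradient V z - pm)) • c with hw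
    have h1 : ∀ y, ‖gradient V z - gradient V y‖ ^ 2
        - (inner ℝ c (gradient V z - gradient V y)) ^ 2 =
        ((‖gradient V z - pm‖ ^ 2 - (inner ℝ c (gradient V z - pm)) ^ 2) +
        (‖gradient V y - pm‖ ^ 2 - (inner ℝ c (gradient V y - pm)) ^ 2)) -
        2 * inner ℝ w (gradient V y - pm) := by
      intro y
      have h2 : gradient V z - gradient V y = (gradient V z - pm) - (gradient V y - pm) := by abel
      rw [h2, hw]
      generalize gradient V z - pm = a1
      generalize gradient V y - pm = a2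
      rw [norm_sub_sq_real, inner_sub_right c, inner_sub_left a1, inner_smul_left]
      simp only [conj_trivial]
      ring
    simp only [h1]
    have i1 : Integrable (fun y => inner ℝ w (gradient V y - pm)) μ :=
      gib_int hV b x (by fun_prop)
    have i2 : Integrable (fun y => (‖gradient V z - pm‖ ^ 2 - (inner ℝ c (gradient V z - pm)) ^ 2) +
        (‖gradient V y - pm‖ ^ 2 - (inner ℝ c (gradient V y - pm)) ^ 2)) μ :=
      (integrable_const _).add hQi
    have i3 : ∫ y, inner ℝ w (gradient V y - pm) ∂μ = 0 := by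
      have := integral_inner (𝕜 := ℝ) (hpi.sub (integrable_const pm)) w
      simp only [Pi.sub_apply] at this
      rw [this, hmean, inner_zero_right]
    rw [integral_sub i2 (i1.const_mul 2), integral_add (integrable_const _) hQi,
      integral_const_mul, i3]
    simp
  simp only [hin]
  rw [integral_add hQi (integrable_const _), integral_const]
  simp
  ring

theorem Tg_double (hn : 0 < n) {V : E n → ℝ} (hV : ContDiff ℝ ∞ V) (b : ℝ) (x : E n) :
    Tg b V x = b / 2 * ∫ z, ∫ y, (‖gradient V z - gradient V y‖ ^ 2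
      - (inner ℝ x (gradient V z - gradient V y)) ^ 2) ∂(gib b V x) ∂(gib b V x) := by
  rw [dblQ hn hV b x x, Tg]
  ring

/-- the modified trace -/
noncomputable def Tt (b : ℝ) (V : E n → ℝ) (x : E n) : ℝ :=
  b / 2 * ∫ z, ∫ y, (‖gradient V z - gradient V y‖ ^ 2 - (psi V z - psi V y) ^ 2)
    ∂(gib b V x) ∂(gib b V x)

lemma cont_Tt {V : E n → ℝ} (hV : ContDiff ℝ ∞ V) : Continuous (fun q : E n × E n =>
    ‖gradient V q.1 - gradient V q.2‖ ^ 2 - (psi V q.1 - psi V q.2) ^ 2) := by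
  have h1 := cont_grad hV
  have h2 := cont_psi hV
  fun_prop

lemma cont_Tc {V : E n → ℝ} (hV : ContDiff ℝ ∞ V) (c : E n) : Continuous (fun q : E n × E n =>
    ‖gradient V q.1 - gradient V q.2‖ ^ 2
      - (inner ℝ c (gradient V q.1 - gradient V q.2)) ^ 2) := by
  have h1 := cont_grad hV
  fun_prop

lemma Tt_prod (hn : 0 < n) {V : E n → ℝ} (hV : ContDiff ℝ ∞ V) (b : ℝ) (x : E n) :
    Tt b V x = b / 2 * ∫ q, (‖gradient V q.1 - gradient V q.2‖ ^ 2
      - (psi V q.1 - psi V q.2) ^ 2) ∂((gib b V x).prod (gib b V x)) := by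
  rw [Tt, ← gib_dbl hn hV b x (cont_Tt hV)]

lemma Tc_prod (hn : 0 < n) {V : E n → ℝ} (hV : ContDiff ℝ ∞ V) (b : ℝ) (x c : E n) :
    ∫ z, (‖gradient V z - pb b V x‖ ^ 2 - (inner ℝ c (gradient V z - pb b V x)) ^ 2)
      ∂(gib b V x) = 1 / 2 * ∫ q, (‖gradient V q.1 - gradient V q.2‖ ^ 2
      - (inner ℝ c (gradient V q.1 - gradient V q.2)) ^ 2)
        ∂((gib b V x).prod (gib b V x)) := by
  rw [← gib_dbl hn hV b x (cont_Tc hV c), dblQ hn hV b x c]
  ring

theorem Tt_nonneg (hn : 0 < n) {V W : E n → ℝ} {lam M : ℝ} (h : Pt n V W lam M) {b : ℝ}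
    (hb : 0 < b) (x : E n) : 0 ≤ Tt b V x := by
  rw [Tt_prod hn h.hV]
  refine mul_nonneg (by positivity) (integral_nonneg_of_ae ?_)
  filter_upwards [gib_prod_ae hn h.hV b x] with q hq
  have h1 := kappa h hq.1 hq.2
  refine le_trans ?_ h1
  positivity

lemma int_fst' (hn : 0 < n) {V : E n → ℝ} (hV : ContDiff ℝ ∞ V) (b : ℝ) (x : E n)
    {F : E n → ℝ} (hF : Integrable F (gib b V x)) :
    ∫ q : E n × E n, F q.1 ∂((gib b V x).prod (gib b V x)) = ∫ z, F z ∂(gib b V x) := by
  have := gib_prob hn hV b x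
  have := integral_prod_mul (μ := gib b V x) (ν := gib b V x) F (fun _ => (1 : ℝ))
  simpa using this

lemma int_snd' (hn : 0 < n) {V : E n → ℝ} (hV : ContDiff ℝ ∞ V) (b : ℝ) (x : E n)
    {F : E n → ℝ} (hF : Integrable F (gib b V x)) :
    ∫ q : E n × E n, F q.2 ∂((gib b V x).prod (gib b V x)) = ∫ z, F z ∂(gib b V x) := by
  have := gib_prob hn hV b x
  have := integral_prod_mul (μ := gib b V x) (ν := gib b V x) (fun _ => (1 : ℝ)) F
  simpa using this

theorem Tg_lower (hn : 0 < n) {V W : E n → ℝ} {lam M : ℝ} (h : Pt n V W lam M) {b : ℝ}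
    (hb : 0 < b) (x : E n) {th : ℝ} (hth : 0 < th) :
    (1 - th) * Tt b V x - (1 + 4 * M ^ 2 / (th * lam ^ 2)) * (2 * b *
      ∫ z, (VS V x - ell V z x) ^ 2 ∂(gib b V x)) ≤ Tg b V x := by
  have hV := h.hV
  have := gib_prob hn hV b x
  have hM : 0 < M := lt_of_lt_of_le one_pos h.one_le
  have hl := h.lam_pos
  set κ : ℝ := lam ^ 2 / (4 * M ^ 2) with hκ
  have hκ0 : 0 < κ := by positivity
  have hcg : Continuous (fun z => (VS V x - ell V z x) ^ 2) := by
    have h1 : Continuous (fun z => ell V z x) := (cont_ell hV).comp (continuous_id.prodMk continuous_const)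
    fun_prop
  have hgi : Integrable (fun z => (VS V x - ell V z x) ^ 2) (gib b V x) := gib_int hV b x hcg
  rw [Tt_prod hn hV, Tg, Tc_prod hn hV b x x]
  set P := (gib b V x).prod (gib b V x) with hP
  have i1 := gib_prod_int hn hV b x (cont_Tt hV)
  have i2 := gib_prod_int hn hV b x (cont_Tc hV x)
  have i3 : Integrable (fun q : E n × E n => (VS V x - ell V q.1 x) ^ 2) P :=
    gib_prod_int hn hV b x (hcg.comp continuous_fst)
  have i4 : Integrable (fun q : E n × E n => (VS V x - ell V q.2 x) ^ 2) P :=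
    gib_prod_int hn hV b x (hcg.comp continuous_snd)
  have e3 := int_fst' hn hV b x hgi
  have e4 := int_snd' hn hV b x hgi
  have hc : 1 + 4 * M ^ 2 / (th * lam ^ 2) = 1 + 1 / (th * κ) := by
    rw [hκ]
    field_simp
  have key : ∫ q, ((1 - th) * (‖gradient V q.1 - gradient V q.2‖ ^ 2
      - (psi V q.1 - psi V q.2) ^ 2) - (1 + 1 / (th * κ)) * (2 * (VS V x - ell V q.1 x) ^ 2 +
        2 * (VS V x - ell V q.2 x) ^ 2)) ∂P ≤ ∫ q, (‖gradient V q.1 - gradient V q.2‖ ^ 2
      - (inner ℝ x (gradient V q.1 - gradient V q.2)) ^ 2) ∂P := by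
    refine integral_mono_ae ((i1.const_mul _).sub (((i3.const_mul 2).add
      (i4.const_mul 2)).const_mul _)) i2 ?_
    filter_upwards [gib_prod_ae hn hV b x] with q hq
    have hk := kappa h hq.1 hq.2
    rw [← hκ] at hk
    set v := gradient V q.1 - gradient V q.2 with hv
    set a := psi V q.1 - psi V q.2 with ha
    have hx : inner ℝ x v = a + (ell V q.1 x - ell V q.2 x) := by
      rw [ell_eq, ell_eq, hv, inner_sub_right, ha, real_inner_comm x, real_inner_comm x]
      ring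
    set d := ell V q.1 x - ell V q.2 x with hd
    have hd2 : d ^ 2 ≤ 2 * (VS V x - ell V q.1 x) ^ 2 + 2 * (VS V x - ell V q.2 x) ^ 2 := by
      rw [hd]
      nlinarith [sq_nonneg ((VS V x - ell V q.1 x) + (VS V x - ell V q.2 x))]
    have h1 : (a + d) ^ 2 ≤ (1 + th * κ) * a ^ 2 + (1 + 1 / (th * κ)) * d ^ 2 := by
      have hp : 0 < th * κ := mul_pos hth hκ0
      have h2 : 0 ≤ (1 / (th * κ)) * (th * κ * a - d) ^ 2 := by positivity
      have h3 : (1 / (th * κ)) * (th * κ * a - d) ^ 2 =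
          th * κ * a ^ 2 - 2 * a * d + 1 / (th * κ) * d ^ 2 := by
        field_simp
        ring
      nlinarith
    have h2 : th * κ * a ^ 2 ≤ th * (‖v‖ ^ 2 - a ^ 2) := by
      have h3 : κ * a ^ 2 ≤ κ * ‖v‖ ^ 2 := by
        have : a ^ 2 ≤ ‖v‖ ^ 2 := by
          have : 0 ≤ κ * ‖v‖ ^ 2 := by positivity
          linarith
        exact mul_le_mul_of_nonneg_left this hκ0.le
      have h4 : κ * a ^ 2 ≤ ‖v‖ ^ 2 - a ^ 2 := h3.trans hk
      calc th * κ * a ^ 2 = th * (κ * a ^ 2) := by ring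
        _ ≤ _ := mul_le_mul_of_nonneg_left h4 hth.le
    have h5 : (1 + 1 / (th * κ)) * d ^ 2 ≤ (1 + 1 / (th * κ)) *
        (2 * (VS V x - ell V q.1 x) ^ 2 + 2 * (VS V x - ell V q.2 x) ^ 2) :=
      mul_le_mul_of_nonneg_left hd2 (by positivity)
    simp only [hx]
    nlinarith
  have i34 : Integrable (fun q : E n × E n => 2 * (VS V x - ell V q.1 x) ^ 2 +
      2 * (VS V x - ell V q.2 x) ^ 2) P := (i3.const_mul 2).add (i4.const_mul 2)
  have i34' : Integrable (fun q : E n × E n => (1 + 1 / (th * κ)) *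
      (2 * (VS V x - ell V q.1 x) ^ 2 + 2 * (VS V x - ell V q.2 x) ^ 2)) P := i34.const_mul _
  have i1' : Integrable (fun q : E n × E n => (1 - th) *
      (‖gradient V q.1 - gradient V q.2‖ ^ 2 - (psi V q.1 - psi V q.2) ^ 2)) P := i1.const_mul _
  rw [integral_sub i1' i34', integral_const_mul, integral_const_mul,
    integral_add (i3.const_mul 2) (i4.const_mul 2),
    integral_const_mul, integral_const_mul, e3, e4] at key
  rw [hc]
  have hb2 : 0 < b / 2 := by positivity
  have := mul_le_mul_of_nonneg_left key hb2.le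
  nlinarith [this]

/-- comparison of `Tt` with the tangential variance at `z0` -/
theorem Tt_lower (hn : 0 < n) {V W : E n → ℝ} {lam M : ℝ} (h : Pt n V W lam M) {b : ℝ}
    (hb : 0 < b) (x : E n) {z0 : E n} (hz0 : z0 ∈ sphere (0 : E n) 1) {r : ℝ} (hr : 0 < r) :
    b * ∫ z, (‖gradient V z - pb b V x‖ ^ 2 - (inner ℝ z0 (gradient V z - pb b V x)) ^ 2)
      ∂(gib b V x) - 4 * M ^ 2 * (b * (gib b V x).real {z | r ≤ ‖z - z0‖})
    ≤ (1 + 8 * M ^ 2 * r / lam ^ 2) * Tt b V x := by
  have hV := h.hV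
  have := gib_prob hn hV b x
  have hM : 0 < M := lt_of_lt_of_le one_pos h.one_le
  have hl := h.lam_pos
  set κ : ℝ := lam ^ 2 / (4 * M ^ 2) with hκ
  have hκ0 : 0 < κ := by positivity
  have hz01 : ‖z0‖ = 1 := by simpa using hz0
  set A : Set (E n) := {z | r ≤ ‖z - z0‖} with hA
  have hAm : MeasurableSet A := (isClosed_le continuous_const (by fun_prop)).measurableSet
  have hIi : Integrable (A.indicator (fun _ => (1 : ℝ))) (gib b V x) :=
    (integrable_const 1).indicator hAm
  rw [Tt_prod hn hV, Tc_prod hn hV b x z0]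
  set P := (gib b V x).prod (gib b V x) with hP
  have i1 := gib_prod_int hn hV b x (cont_Tt hV)
  have i2 := gib_prod_int hn hV b x (cont_Tc hV z0)
  have i3 : Integrable (fun q : E n × E n => A.indicator (fun _ => (1 : ℝ)) q.1) P :=
    hIi.comp_fst _
  have i4 : Integrable (fun q : E n × E n => A.indicator (fun _ => (1 : ℝ)) q.2) P :=
    hIi.comp_snd _
  have eI : ∫ z, A.indicator (fun _ => (1 : ℝ)) z ∂(gib b V x) = (gib b V x).real A := by
    rw [integral_indicator hAm]
    simp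
  have e3 := int_fst' hn hV b x hIi
  have e4 := int_snd' hn hV b x hIi
  rw [eI] at e3 e4
  have hc : 1 + 8 * M ^ 2 * r / lam ^ 2 = 1 + 2 * r / κ := by
    rw [hκ]
    field_simp
    ring
  have key : ∫ q, (‖gradient V q.1 - gradient V q.2‖ ^ 2
      - (inner ℝ z0 (gradient V q.1 - gradient V q.2)) ^ 2) ∂P ≤
      ∫ q, ((1 + 2 * r / κ) * (‖gradient V q.1 - gradient V q.2‖ ^ 2
      - (psi V q.1 - psi V q.2) ^ 2) + 4 * M ^ 2 * (A.indicator (fun _ => (1 : ℝ)) q.1 +
        A.indicator (fun _ => (1 : ℝ)) q.2)) ∂P := by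
    refine integral_mono_ae i2 ((i1.const_mul _).add ((i3.add i4).const_mul _)) ?_
    filter_upwards [gib_prod_ae hn hV b x] with q hq
    have hk := kappa h hq.1 hq.2
    rw [← hκ] at hk
    obtain ⟨b1, b2⟩ := psi_between h (sphere_subset_closedBall hq.1)
      (sphere_subset_closedBall hq.2)
    have hv2 : ‖gradient V q.1 - gradient V q.2‖ ≤ 2 * M := by
      have h1 := h.b1 _ (sphere_subset_closedBall hq.1)
      have h2 := h.b1 _ (sphere_subset_closedBall hq.2)
      rw [← norm_grad] at h1 h2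
      exact (norm_sub_le _ _).trans (by linarith)
    set v := gradient V q.1 - gradient V q.2 with hv
    set a := psi V q.1 - psi V q.2 with ha
    have hT : 0 ≤ lam / 2 * ‖q.1 - q.2‖ ^ 2 := by positivity
    have ha2 : a ^ 2 ≤ ‖v‖ ^ 2 := by
      have : 0 ≤ κ * ‖v‖ ^ 2 := by positivity
      linarith
    have hnn : 0 ≤ ‖v‖ ^ 2 - a ^ 2 := by linarith
    have hp : 0 ≤ 2 * r / κ := by positivity
    by_cases hf : q.1 ∈ A ∨ q.2 ∈ A
    · have h1 : (1 : ℝ) ≤ A.indicator (fun _ => (1 : ℝ)) q.1 +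
          A.indicator (fun _ => (1 : ℝ)) q.2 := by
        have p1 : 0 ≤ A.indicator (fun _ => (1 : ℝ)) q.1 := indicator_nonneg (by simp) _
        have p2 : 0 ≤ A.indicator (fun _ => (1 : ℝ)) q.2 := indicator_nonneg (by simp) _
        rcases hf with h2 | h2
        · rw [indicator_of_mem h2]; linarith
        · rw [indicator_of_mem h2]; linarith
      have h2 : ‖v‖ ^ 2 ≤ 4 * M ^ 2 := by
        have := pow_le_pow_left₀ (norm_nonneg _) hv2 2
        linarith [show (2 * M) ^ 2 = 4 * M ^ 2 by ring]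
      have h3 : 4 * M ^ 2 * 1 ≤ 4 * M ^ 2 * (A.indicator (fun _ => (1 : ℝ)) q.1 +
          A.indicator (fun _ => (1 : ℝ)) q.2) := mul_le_mul_of_nonneg_left h1 (by positivity)
      have h4 : 0 ≤ (1 + 2 * r / κ) * (‖v‖ ^ 2 - a ^ 2) := by positivity
      nlinarith [sq_nonneg (inner ℝ z0 v)]
    · push Not at hf
      rw [indicator_of_notMem hf.1, indicator_of_notMem hf.2]
      have n1 : ‖q.1 - z0‖ < r := not_le.mp hf.1
      have n2 : ‖q.2 - z0‖ < r := not_le.mp hf.2
      have hz : |inner ℝ (q.1 - z0) v| ≤ r * ‖v‖ :=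
        (abs_real_inner_le_norm _ _).trans (mul_le_mul_of_nonneg_right n1.le (norm_nonneg _))
      have hy : |inner ℝ (q.2 - z0) v| ≤ r * ‖v‖ :=
        (abs_real_inner_le_norm _ _).trans (mul_le_mul_of_nonneg_right n2.le (norm_nonneg _))
      rw [inner_sub_left] at hz hy
      have hz' := abs_le.mp hz
      have hy' := abs_le.mp hy
      have hdiff : |a - inner ℝ z0 v| ≤ r * ‖v‖ := by
        rw [abs_le]
        constructor <;> linarith
      have hs : |inner ℝ z0 v| ≤ ‖v‖ := by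
        have := abs_real_inner_le_norm z0 v
        rwa [hz01, one_mul] at this
      have haa : |a| ≤ ‖v‖ := abs_le_of_sq_le_sq ha2 (norm_nonneg _) |> fun h => h
      have hsum : |a + inner ℝ z0 v| ≤ 2 * ‖v‖ := (abs_add_le _ _).trans (by linarith)
      have hprod : a ^ 2 - (inner ℝ z0 v) ^ 2 ≤ 2 * r * ‖v‖ ^ 2 := by
        have h1 : a ^ 2 - (inner ℝ z0 v) ^ 2 = (a - inner ℝ z0 v) * (a + inner ℝ z0 v) := by ring
        rw [h1]
        refine (le_abs_self _).trans ?_
        rw [abs_mul]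
        have := mul_le_mul hdiff hsum (abs_nonneg _) (by positivity)
        linarith [show r * ‖v‖ * (2 * ‖v‖) = 2 * r * ‖v‖ ^ 2 by ring]
      have hk2 : ‖v‖ ^ 2 ≤ (‖v‖ ^ 2 - a ^ 2) / κ := by
        rw [le_div_iff₀ hκ0]
        linarith
      have h5 : 2 * r * ‖v‖ ^ 2 ≤ 2 * r * ((‖v‖ ^ 2 - a ^ 2) / κ) :=
        mul_le_mul_of_nonneg_left hk2 (by positivity)
      have h6 : 2 * r * ((‖v‖ ^ 2 - a ^ 2) / κ) = 2 * r / κ * (‖v‖ ^ 2 - a ^ 2) := by ring
      nlinarith
  have i34 : Integrable (fun q : E n × E n => A.indicator (fun _ => (1 : ℝ)) q.1 +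
        A.indicator (fun _ => (1 : ℝ)) q.2) P := i3.add i4
  have i34' : Integrable (fun q : E n × E n => 4 * M ^ 2 * (A.indicator (fun _ => (1 : ℝ)) q.1 +
        A.indicator (fun _ => (1 : ℝ)) q.2)) P := i34.const_mul _
  have i1' : Integrable (fun q : E n × E n => (1 + 2 * r / κ) *
      (‖gradient V q.1 - gradient V q.2‖ ^ 2 - (psi V q.1 - psi V q.2) ^ 2)) P := i1.const_mul _
  rw [integral_add i1' i34', integral_const_mul,
    integral_const_mul, integral_add i3 i4, e3, e4] at key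
  rw [hc]
  have hb2 : 0 < b / 2 := by positivity
  have := mul_le_mul_of_nonneg_left key hb2.le
  nlinarith [this]

end Pool.Agent.H21.CE
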