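import Mathlib

/-!
# The inequality of Santalo type for sections: definitions

`E n` is the Euclidean space, `B` the closed unit ball, `S` the unit sphere.
-/

open MeasureTheory Set Filter Topology Metric
open scoped ContDiff

namespace Pool.Agent.H21.CE

/-- The Euclidean space. -/
abbrev E (n : ℕ) := EuclideanSpace ℝ (Fin n)

variable {n : ℕ}

/-- The standard basis vectors. -/
noncomputable def eb (i : Fin n) : E n := EuclideanSpace.single i (1 : ℝ)

/-- The Hessian. -/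
noncomputable def hs (f : E n → ℝ) (x v w : E n) : ℝ := fderiv ℝ (fderiv ℝ f) x v w

/-- The third derivative. -/
noncomputable def d3 (f : E n → ℝ) (x u v w : E n) : ℝ :=
  fderiv ℝ (fderiv ℝ (fderiv ℝ f)) x u v w

/-- The trace of `(I - x xᵀ) D²f`. -/
noncomputable def L2 (f : E n → ℝ) (x : E n) : ℝ := ∑ i, hs f x (eb i) (eb i) - hs f x x x

/-- The generator: the projection of the Laplacian of the sphere of dimension `n + 1`. -/
noncomputable def Lop (f : E n → ℝ) (x : E n) : ℝ := L2 f x - ((n : ℝ) + 1) * fderiv ℝ f x x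

/-- The velocity of the potential. -/
noncomputable def Fop (V : E n → ℝ) (x : E n) : ℝ :=
  L2 V x - ((n : ℝ) + 1) * fderiv ℝ V x x - ‖gradient V x‖ ^ 2 + (fderiv ℝ V x x) ^ 2

/-- The time derivative. -/
noncomputable def vd (V : ℝ → E n → ℝ) (t : ℝ) (x : E n) : ℝ := deriv (fun s => V s x) t

/-- The tangent plane of `V` at `z`, evaluated at `x`. -/
noncomputable def ell (V : E n → ℝ) (z x : E n) : ℝ := V z + fderiv ℝ V z (x - z)

/-- The Legendre transform of `V` at the gradient of `V` at `z`. -/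
noncomputable def psi (V : E n → ℝ) (z : E n) : ℝ := fderiv ℝ V z z - V z

/-- The rotation fields. -/
noncomputable def Jm (i j : Fin n) (z : E n) : E n := z i • eb j - z j • eb i

/-- The rotation invariant measure of the sphere. -/
noncomputable def rho (n : ℕ) : Measure (E n) :=
  Measure.map (fun y : E n => ‖y‖⁻¹ • y) (volume.restrict (closedBall (0 : E n) 1))

/-- The partition function. -/
noncomputable def Zf (b : ℝ) (V : E n → ℝ) (x : E n) : ℝ :=
  ∫ z, Real.exp (b * ell V z x) ∂(rho n)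

/-- The Gibbs measure. -/
noncomputable def gib (b : ℝ) (V : E n → ℝ) (x : E n) : Measure (E n) :=
  (rho n).tilted (fun z => b * ell V z x)

/-- The soft maximum of the tangent planes. -/
noncomputable def Psi (b : ℝ) (V : E n → ℝ) (x : E n) : ℝ := (1 / b) * Real.log (Zf b V x)

/-- The mean slope (the gradient of the soft maximum). -/
noncomputable def pb (b : ℝ) (V : E n → ℝ) (x : E n) : E n := ∫ z, gradient V z ∂(gib b V x)

/-- The maximum of the tangent planes at the sphere. -/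
noncomputable def VS (V : E n → ℝ) (x : E n) : ℝ :=
  sSup ((fun z => ell V z x) '' sphere (0 : E n) 1)

/-- The trace of `(I - x xᵀ) D²Ψ`. -/
noncomputable def Tg (b : ℝ) (V : E n → ℝ) (x : E n) : ℝ :=
  b * ∫ z, (‖gradient V z - pb b V x‖ ^ 2 - (inner ℝ x (gradient V z - pb b V x)) ^ 2)
    ∂(gib b V x)

/-- The growth rate of the exterior mass. -/
noncomputable def gfun (b : ℝ) (V W : E n → ℝ) (x : E n) : ℝ :=
  Tg b V x - ((n : ℝ) + 1) * inner ℝ x (pb b V x) - ‖pb b V x‖ ^ 2 + (inner ℝ x (pb b V x)) ^ 2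
    - ∫ z, ell W z x ∂(gib b V x)

/-- The velocity inside. -/
noncomputable def uin (V : E n → ℝ) (x : E n) : E n := gradient V x - (fderiv ℝ V x x) • x

/-- The velocity outside. -/
noncomputable def uout (b : ℝ) (V : E n → ℝ) (x : E n) : E n :=
  pb b V x - (inner ℝ x (pb b V x)) • x

/-- The weight, with a constant `s` added to the soft maximum. -/
noncomputable def wt (b s : ℝ) (V : E n → ℝ) (x : E n) : ℝ :=
  if ‖x‖ ≤ 1 then Real.exp (-V x) else Real.exp (-(Psi b V x + s))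

/-- The limit weight. -/
noncomputable def wS (V : E n → ℝ) (x : E n) : ℝ :=
  if ‖x‖ ≤ 1 then Real.exp (-V x) else Real.exp (-VS V x)

/-- The integrand of the variance bound. -/
noncomputable def Qf (V : E n → ℝ) (i j : Fin n) (z0 x z : E n) : ℝ :=
  2 * hs V z (Jm i j z) (Jm i j z0) - hs V z (Jm i j z) (Jm i j z)
    + d3 V z (Jm i j z) (Jm i j z) (x - z) + hs V z (Jm i j (Jm i j z)) (x - z)

/-- Potential `V` and time derivative `W` at a fixed time, with bounds. -/
structure Pt (n : ℕ) (V W : E n → ℝ) (lam M : ℝ) : Prop where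
  hV : ContDiff ℝ ∞ V
  hW : ContDiff ℝ ∞ W
  even : ∀ x, V (-x) = V x
  lam_pos : 0 < lam
  one_le : 1 ≤ M
  conv : ∀ z ∈ closedBall (0 : E n) 1, ∀ w, lam * ‖w‖ ^ 2 ≤ hs V z w w
  bV : ∀ z ∈ closedBall (0 : E n) 1, |V z| ≤ M
  b1 : ∀ z ∈ closedBall (0 : E n) 1, ‖fderiv ℝ V z‖ ≤ M
  b2 : ∀ z ∈ closedBall (0 : E n) 1, ‖fderiv ℝ (fderiv ℝ V) z‖ ≤ M
  bW : ∀ z ∈ closedBall (0 : E n) 1, |W z| ≤ M
  bW1 : ∀ z ∈ closedBall (0 : E n) 1, ‖fderiv ℝ W z‖ ≤ M
  pde : ∀ z ∈ closedBall (0 : E n) 1, ∀ᶠ x in 𝓝 z, W x = Fop V x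

/-- A solution of the flow on `[0, T]`. -/
structure Flow (n : ℕ) (V : ℝ → E n → ℝ) (T lam : ℝ) : Prop where
  smooth : ContDiff ℝ ∞ (fun q : ℝ × E n => V q.1 q.2)
  even : ∀ t x, V t (-x) = V t x
  lam_pos : 0 < lam
  conv : ∀ t ∈ Icc (0 : ℝ) T, ∀ z ∈ closedBall (0 : E n) 1, ∀ w,
    lam * ‖w‖ ^ 2 ≤ hs (V t) z w w
  pde : ∀ t ∈ Icc (0 : ℝ) T, ∀ z ∈ closedBall (0 : E n) 1, ∀ᶠ x in 𝓝 z,
    vd V t x = Fop (V t) x

/-- A symmetric pair in the relation, inside the ball of radius `R`. -/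
structure Pair (n : ℕ) (R : ℝ) (K L : Set (E n)) : Prop where
  mK : MeasurableSet K
  mL : MeasurableSet L
  sK : ∀ x ∈ K, -x ∈ K
  sL : ∀ x ∈ L, -x ∈ L
  bK : K ⊆ closedBall 0 R
  bL : L ⊆ closedBall 0 R
  rel : ∀ x ∈ K, ∀ y ∈ L, inner ℝ x y ≤ (1 : ℝ)

/-- Spectral functions: finite sums of even smooth eigenfunctions of `Lop`. -/
def Spec (f : E n → ℝ) : Prop :=
  ∃ (N : ℕ) (g : ℕ → E n → ℝ), (∀ j, ContDiff ℝ ∞ (g j)) ∧ (∀ j x, g j (-x) = g j x) ∧
    (∀ j x, Lop (g j) x = -((j : ℝ) * (j + n)) * g j x) ∧ (∀ x, g 0 x = g 0 0) ∧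
    ∀ x, f x = ∑ j ∈ Finset.range N, g j x

/-- The solution of the linear flow. -/
noncomputable def fl (N : ℕ) (g : ℕ → E n → ℝ) (t : ℝ) (x : E n) : ℝ :=
  ∑ j ∈ Finset.range N, Real.exp (-((j : ℝ) * (j + n)) * t) * g j x

/-- The initial potential. -/
noncomputable def Pp {m : ℕ} (b : Fin m → E n) (N : ℕ) (e : ℝ) (x : E n) : ℝ :=
  ∑ i, (inner ℝ (b i) x) ^ (2 * N) + e * ‖x‖ ^ 2

lemma inner_grad (V : E n → ℝ) (x v : E n) : inner ℝ (gradient V x) v = fderiv ℝ V x v := by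
  rw [gradient, InnerProductSpace.toDual_symm_apply]

lemma grad_inner (V : E n → ℝ) (x v : E n) : inner ℝ v (gradient V x) = fderiv ℝ V x v := by
  rw [real_inner_comm, inner_grad]

lemma norm_grad (V : E n → ℝ) (x : E n) : ‖gradient V x‖ = ‖fderiv ℝ V x‖ := by
  rw [gradient, LinearIsometryEquiv.norm_map]

lemma cont_grad {V : E n → ℝ} (hV : ContDiff ℝ ∞ V) : Continuous (gradient V) := by
  have h1 : Continuous (fderiv ℝ V) := hV.continuous_fderiv (by simp)
  exact (InnerProductSpace.toDual ℝ (E n)).symm.continuous.comp h1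

lemma cont_ell {V : E n → ℝ} (hV : ContDiff ℝ ∞ V) :
    Continuous (fun q : E n × E n => ell V q.1 q.2) := by
  have h1 : Continuous (fderiv ℝ V) := hV.continuous_fderiv (by simp)
  unfold ell
  exact (hV.continuous.comp continuous_fst).add
    ((h1.comp continuous_fst).clm_apply (continuous_snd.sub continuous_fst))

lemma ell_eq (V : E n → ℝ) (z x : E n) : ell V z x = inner ℝ (gradient V z) x - psi V z := by
  rw [ell, psi, inner_grad, map_sub]
  ring

lemma norm_eb (i : Fin n) : ‖(eb i : E n)‖ = 1 := by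
  simp [eb]

lemma inner_eb (i : Fin n) (x : E n) : inner ℝ (eb i) x = x i := by
  simp [eb, EuclideanSpace.inner_single_left]

lemma inner_eb' (i : Fin n) (x : E n) : inner ℝ x (eb i) = x i := by
  rw [real_inner_comm, inner_eb]

lemma sum_eb (x : E n) : ∑ i, x i • (eb i : E n) = x := by
  have h := (EuclideanSpace.basisFun (Fin n) ℝ).sum_repr x
  simpa [eb] using h

end Pool.Agent.H21.CE
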