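import Pool.Agent.H21.CE.Defs

/-!
# A lower bound for the determinant of a small perturbation of the identity
-/

open MeasureTheory Set Filter Topology Metric
open scoped ContDiff

namespace Pool.Agent.H21.CE

variable {n : ℕ}

private noncomputable def s1_phi (n : ℕ) (B : E n →L[ℝ] E n) : ℝ :=
  (ContinuousLinearMap.id ℝ (E n) + B).det - 1
    - LinearMap.trace ℝ (E n) (B : E n →ₗ[ℝ] E n)

private noncomputable def s1_mat (n : ℕ) (B : E n →L[ℝ] E n) : Matrix (Fin n) (Fin n) ℝ :=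
  LinearMap.toMatrix (EuclideanSpace.basisFun (Fin n) ℝ).toBasis
    (EuclideanSpace.basisFun (Fin n) ℝ).toBasis (B : E n →ₗ[ℝ] E n)

private lemma s1_entry (B : E n →L[ℝ] E n) (i j : Fin n) :
    s1_mat n B i j = (EuclideanSpace.proj i : E n →L[ℝ] ℝ)
      (B (EuclideanSpace.basisFun (Fin n) ℝ j)) := by
  simp [s1_mat, LinearMap.toMatrix_apply]

private lemma s1_det (B : E n →L[ℝ] E n) :
    (ContinuousLinearMap.id ℝ (E n) + B).det = (1 + s1_mat n B).det := by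
  have h1 : ((ContinuousLinearMap.id ℝ (E n) + B : E n →L[ℝ] E n) : E n →ₗ[ℝ] E n)
      = LinearMap.id + (B : E n →ₗ[ℝ] E n) := rfl
  rw [ContinuousLinearMap.det, h1,
    ← LinearMap.det_toMatrix (EuclideanSpace.basisFun (Fin n) ℝ).toBasis, map_add,
    LinearMap.toMatrix_id, s1_mat]

private lemma s1_trace (B : E n →L[ℝ] E n) :
    LinearMap.trace ℝ (E n) (B : E n →ₗ[ℝ] E n) = (s1_mat n B).trace := by
  rw [LinearMap.trace_eq_matrix_trace ℝ (EuclideanSpace.basisFun (Fin n) ℝ).toBasis, s1_mat]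

private lemma s1_smul (B : E n →L[ℝ] E n) (s : ℝ) : s1_mat n (s • B) = s • s1_mat n B := by
  ext i j
  rw [Matrix.smul_apply, s1_entry, s1_entry, ← map_smul]
  rfl

private lemma s1_smooth (n : ℕ) : ContDiff ℝ 2 (s1_phi n) := by
  have h1 : ∀ i j : Fin n, ContDiff ℝ 2 (fun B : E n →L[ℝ] E n => s1_mat n B i j) := by
    intro i j
    simp only [s1_entry]
    fun_prop
  have h2 : ContDiff ℝ 2 (fun B : E n →L[ℝ] E n => (1 + s1_mat n B).det) := by
    simp only [Matrix.det_apply', Matrix.add_apply]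
    apply ContDiff.sum
    intro σ _
    apply contDiff_const.mul
    apply contDiff_prod
    intro i _
    exact contDiff_const.add (h1 _ _)
  have h3 : ContDiff ℝ 2 (fun B : E n →L[ℝ] E n => (s1_mat n B).trace) := by
    simp only [Matrix.trace, Matrix.diag_apply]
    apply ContDiff.sum
    intro i _
    exact h1 _ _
  have h4 : s1_phi n = fun B => (1 + s1_mat n B).det - 1 - (s1_mat n B).trace := by
    funext B
    rw [s1_phi, s1_det, s1_trace]
  rw [h4]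
  exact (h2.sub contDiff_const).sub h3

private lemma s1_line (B : E n →L[ℝ] E n) : ∃ p : Polynomial ℝ, ∀ s : ℝ,
    s1_phi n (s • B) = p.eval s * s ^ 2 := by
  refine ⟨(Matrix.det (1 + (Polynomial.X : Polynomial ℝ) •
    (s1_mat n B).map Polynomial.C)).divX.divX, fun s => ?_⟩
  rw [s1_phi, s1_det, s1_trace, s1_smul, Matrix.det_one_add_smul, Matrix.trace_smul, smul_eq_mul,
    mul_comm s]
  ring

private lemma s1_fderiv (n : ℕ) : fderiv ℝ (s1_phi n) 0 = 0 := by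
  ext B
  obtain ⟨p, hp⟩ := s1_line B
  have h1 : HasDerivAt (fun s : ℝ => s1_phi n (s • B)) (fderiv ℝ (s1_phi n) 0 B) 0 := by
    have h2 : HasFDerivAt (s1_phi n) (fderiv ℝ (s1_phi n) 0) ((0 : ℝ) • B) := by
      have h5 : (0 : ℝ) • B = 0 := zero_smul ℝ B
      rw [h5]
      exact ((s1_smooth n).differentiable (by norm_num)).differentiableAt.hasFDerivAt
    have h3 : HasDerivAt (fun s : ℝ => s • B) ((1 : ℝ) • B) 0 := (hasDerivAt_id (0 : ℝ)).smul_const B
    rw [one_smul] at h3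
    exact h2.comp_hasDerivAt (0 : ℝ) h3
  have h2 : HasDerivAt (fun s : ℝ => s1_phi n (s • B)) 0 0 := by
    have h3 : (fun s : ℝ => s1_phi n (s • B)) = fun s => p.eval s * s ^ 2 := by
      funext s
      exact hp s
    rw [h3]
    have h4 : HasDerivAt (fun s => p.eval s * s ^ 2) _ 0 :=
      (p.hasDerivAt (0 : ℝ)).mul (hasDerivAt_pow 2 (0 : ℝ))
    refine h4.congr_deriv ?_
    simp
  rw [h1.unique h2]
  rfl

private lemma s1_gen {X : Type*} [NormedAddCommGroup X] [NormedSpace ℝ X]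
    [FiniteDimensional ℝ X] {f : X → ℝ} (hs : ContDiff ℝ 2 f) (h0 : f 0 = 0)
    (h1 : fderiv ℝ f 0 = 0) (M : ℝ) : ∃ C ≥ 0, ∀ B : X, ‖B‖ ≤ M → |f B| ≤ C * ‖B‖ ^ 2 := by
  have hp : ProperSpace X := FiniteDimensional.proper ℝ _
  have hd1 : Differentiable ℝ f := hs.differentiable (by norm_num)
  have hc1 : ContDiff ℝ 1 (fderiv ℝ f) := hs.fderiv_right (by norm_num)
  have hc3 : LocallyLipschitz (fderiv ℝ f) := hc1.locallyLipschitz
  obtain ⟨K, hK⟩ := (hc3.locallyLipschitzOn).exists_lipschitzOnWith_of_compact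
    (isCompact_closedBall (0 : X) M)
  refine ⟨K, K.2, ?_⟩
  intro B hB
  have hM : 0 ≤ M := le_trans (norm_nonneg _) hB
  have h2 : ∀ B' : X, ‖B'‖ ≤ M → ‖fderiv ℝ f B'‖ ≤ K * ‖B'‖ := by
    intro B' hB'
    have h3 := hK.dist_le_mul B' (by simpa using hB') 0 (by simpa using hM)
    rw [h1, dist_zero_right, dist_zero_right] at h3
    exact h3
  have h3 := (convex_closedBall (0 : X) ‖B‖).norm_image_sub_le_of_norm_fderiv_le
      (f := f) (C := K * ‖B‖) (x := 0) (y := B)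
      (fun x _ => hd1.differentiableAt)
      (fun x hx => by
        have hx' : ‖x‖ ≤ ‖B‖ := by simpa using hx
        exact le_trans (h2 x (le_trans hx' hB))
          (mul_le_mul_of_nonneg_left hx' K.2))
      (by simp) (by simp)
  rw [h0, sub_zero, sub_zero, Real.norm_eq_abs] at h3
  calc |f B| ≤ K * ‖B‖ * ‖B‖ := h3
    _ = K * ‖B‖ ^ 2 := by ring

private lemma s1_quad (n : ℕ) (M : ℝ) : ∃ C ≥ 0, ∀ B : E n →L[ℝ] E n, ‖B‖ ≤ M →
    |s1_phi n B| ≤ C * ‖B‖ ^ 2 := by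
  apply s1_gen (s1_smooth n) _ (s1_fderiv n) M
  obtain ⟨p, hp⟩ := s1_line (0 : E n →L[ℝ] E n)
  have h4 := hp 0
  have h5 : (0 : ℝ) • (0 : E n →L[ℝ] E n) = 0 := by
    ext v
    simp
  rw [h5] at h4
  rw [h4]
  ring

theorem det_lower (n : ℕ) (M : ℝ) : ∃ C > 0, ∀ A : E n →L[ℝ] E n, ‖A‖ ≤ M →
    ∀ d ∈ Icc (0 : ℝ) 1,
      1 + d * LinearMap.trace ℝ (E n) (A : E n →ₗ[ℝ] E n) - C * d ^ 2
        ≤ (ContinuousLinearMap.id ℝ (E n) + d • A).det := by
  obtain ⟨C, hC, hq⟩ := s1_quad n M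
  refine ⟨C * M ^ 2 + 1, by positivity, ?_⟩
  intro A hA d hd
  have hM : 0 ≤ M := le_trans (norm_nonneg _) hA
  have h1 : ‖d • A‖ ≤ d * M := by
    rw [norm_smul, Real.norm_eq_abs, abs_of_nonneg hd.1]
    exact mul_le_mul_of_nonneg_left hA hd.1
  have h2 : ‖d • A‖ ≤ M := le_trans h1 (by nlinarith [hd.2])
  have h3 := hq (d • A) h2
  have h4 : LinearMap.trace ℝ (E n) ((d • A : E n →L[ℝ] E n) : E n →ₗ[ℝ] E n)
      = d * LinearMap.trace ℝ (E n) (A : E n →ₗ[ℝ] E n) := by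
    rw [s1_trace, s1_trace, s1_smul, Matrix.trace_smul, smul_eq_mul]
  rw [s1_phi, h4] at h3
  have h5 := (abs_le.mp h3).1
  have h6 : C * ‖d • A‖ ^ 2 ≤ C * (d * M) ^ 2 :=
    mul_le_mul_of_nonneg_left (pow_le_pow_left₀ (norm_nonneg _) h1 2) hC
  have h7 : C * (d * M) ^ 2 = C * M ^ 2 * d ^ 2 := by ring
  have h8 : 0 ≤ d ^ 2 := sq_nonneg d
  have h9 : (C * M ^ 2 + 1) * d ^ 2 = C * M ^ 2 * d ^ 2 + d ^ 2 := by ring
  rw [h9]
  linarith

end Pool.Agent.H21.CE
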