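import Pool.Agent.H21.CE.Defs

/-!
# The integral of `Lop g` over the ball is zero
-/

open MeasureTheory Set Filter Topology Metric
open scoped ContDiff

namespace Pool.Agent.H21.CE

variable {n : ℕ}

/-- The integral of a derivative of a compactly supported function is zero. -/
lemma a3_int_zero {h : E n → ℝ} (hh : ContDiff ℝ 1 h) (hc : HasCompactSupport h) (v : E n) :
    ∫ x, fderiv ℝ h x v = 0 := by
  have h1 := integral_mul_fderiv_eq_neg_fderiv_mul_of_integrable (μ := (volume : Measure (E n)))
    (f := fun _ : E n => (1 : ℝ)) (g := h) (v := v) (by simp) (by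
      have h2 : Continuous (fun x => fderiv ℝ h x v) :=
        (hh.continuous_fderiv (by simp)).clm_apply continuous_const
      have h3 : HasCompactSupport (fun x => fderiv ℝ h x v) := hc.fderiv_apply (𝕜 := ℝ) v
      simpa using h2.integrable_of_hasCompactSupport h3) (by
      simpa using hh.continuous.integrable_of_hasCompactSupport hc)
    (fun x _ => differentiableAt_const _)
    (fun x _ => (hh.differentiable (by simp)) x)
  simpa using h1

/-- Components of the vector field. -/
noncomputable def a3F (g : E n → ℝ) (i : Fin n) (x : E n) : ℝ :=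
  fderiv ℝ g x (eb i) - fderiv ℝ g x x * inner ℝ (eb i) x

lemma a3_fd {g : E n → ℝ} (hg : ContDiff ℝ ∞ g) (x : E n) :
    HasFDerivAt (fderiv ℝ g) (fderiv ℝ (fderiv ℝ g) x) x :=
  ((contDiff_infty_iff_fderiv.1 hg).2.differentiable (by simp) x).hasFDerivAt

lemma a3_smooth {g : E n → ℝ} (hg : ContDiff ℝ ∞ g) (i : Fin n) : ContDiff ℝ 1 (a3F g i) := by
  have h1 : ContDiff ℝ 1 (fderiv ℝ g) :=
    (contDiff_infty_iff_fderiv.1 hg).2.of_le (by exact_mod_cast le_top)
  unfold a3F
  exact (h1.clm_apply contDiff_const).sub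
    ((h1.clm_apply contDiff_id).mul (contDiff_const.inner ℝ contDiff_id))

lemma a3_deriv {g : E n → ℝ} (hg : ContDiff ℝ ∞ g) (i : Fin n) (x : E n) :
    fderiv ℝ (a3F g i) x (eb i) = hs g x (eb i) (eb i)
      - (hs g x (eb i) x + fderiv ℝ g x (eb i)) * x i - fderiv ℝ g x x := by
  have h1 := a3_fd hg x
  have h2 : HasFDerivAt (fun y => fderiv ℝ g y (eb i))
      ((fderiv ℝ (fderiv ℝ g) x).flip (eb i)) x := by
    have := h1.clm_apply (hasFDerivAt_const (eb i : E n) x)
    refine this.congr_fderiv ?_
    ext v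
    simp
  have h3 : HasFDerivAt (fun y => fderiv ℝ g y y)
      ((fderiv ℝ (fderiv ℝ g) x).flip x + fderiv ℝ g x) x := by
    have := h1.clm_apply (hasFDerivAt_id x)
    refine this.congr_fderiv ?_
    ext v
    simp [add_comm]
  have h4 : HasFDerivAt (fun y : E n => inner ℝ (eb i) y) (innerSL ℝ (eb i : E n)) x :=
    (innerSL ℝ (eb i : E n)).hasFDerivAt
  have h5 := h2.sub (h3.mul h4)
  have h6 : HasFDerivAt (a3F g i) _ x := h5
  rw [h6.fderiv]
  simp only [sub_apply, add_apply,
    smul_apply, ContinuousLinearMap.flip_apply, innerSL_apply_apply,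
    smul_eq_mul, hs, inner_eb]
  have h7 : (eb i : E n) i = 1 := by simp [eb]
  rw [h7]
  ring

lemma a3_sum_inner (g : E n → ℝ) (x : E n) :
    ∑ i, a3F g i x * x i = fderiv ℝ g x x * (1 - ‖x‖ ^ 2) := by
  have h1 : fderiv ℝ g x x = ∑ i, fderiv ℝ g x (eb i) * x i := by
    conv_lhs => rw [← sum_eb x]
    rw [map_sum]
    refine Finset.sum_congr rfl fun i _ => ?_
    rw [map_smul, smul_eq_mul, mul_comm, sum_eb]
  have h2 : ‖x‖ ^ 2 = ∑ i, x i * x i := by
    rw [EuclideanSpace.norm_sq_eq]
    refine Finset.sum_congr rfl fun i _ => ?_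
    rw [Real.norm_eq_abs, sq_abs, sq]
  simp only [a3F, inner_eb, sub_mul, Finset.sum_sub_distrib]
  rw [← h1, mul_sub, mul_one, h2, Finset.mul_sum]
  congr 1
  refine Finset.sum_congr rfl fun i _ => ?_
  ring

lemma a3_sum_deriv {g : E n → ℝ} (hg : ContDiff ℝ ∞ g) (x : E n) :
    ∑ i, fderiv ℝ (a3F g i) x (eb i) = Lop g x := by
  have h1 : fderiv ℝ g x x = ∑ i, fderiv ℝ g x (eb i) * x i := by
    conv_lhs => rw [← sum_eb x]
    rw [map_sum]
    refine Finset.sum_congr rfl fun i _ => ?_
    rw [map_smul, smul_eq_mul, mul_comm, sum_eb]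
  have h2 : hs g x x x = ∑ i, hs g x (eb i) x * x i := by
    have h3 : fderiv ℝ (fderiv ℝ g) x x = ∑ i, x i • fderiv ℝ (fderiv ℝ g) x (eb i) := by
      conv_lhs => rw [← sum_eb x]
      rw [map_sum]
      refine Finset.sum_congr rfl fun i _ => ?_
      rw [map_smul, sum_eb]
    unfold hs
    rw [h3, sum_apply]
    refine Finset.sum_congr rfl fun i _ => ?_
    rw [smul_apply, smul_eq_mul, mul_comm]
  rw [Lop, L2, h2]
  simp only [a3_deriv hg, Finset.sum_sub_distrib, add_mul, Finset.sum_add_distrib]
  rw [← h1, Finset.sum_const, Finset.card_univ, Fintype.card_fin, nsmul_eq_mul]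
  ring

/-- The cut-off. -/
noncomputable def a3u (k : ℕ) (x : E n) : ℝ := ((k : ℝ) + 1) * (1 - ‖x‖ ^ 2)

lemma a3u_deriv (k : ℕ) (x : E n) :
    HasFDerivAt (a3u (n := n) k) (-(2 * ((k : ℝ) + 1)) • innerSL ℝ x) x := by
  have h1 : HasFDerivAt (fun y : E n => ‖y‖ ^ 2) (2 • (innerSL ℝ x)) x :=
    (hasStrictFDerivAt_norm_sq x).hasFDerivAt
  have h2 := (h1.const_sub 1).const_mul ((k : ℝ) + 1)
  refine h2.congr_fderiv ?_
  ext v
  simp
  ring

lemma a3u_smooth (k : ℕ) : ContDiff ℝ 1 (a3u (n := n) k) := by
  unfold a3u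
  exact contDiff_const.mul (contDiff_const.sub (contDiff_norm_sq ℝ))

/-- The derivative of the smooth transition vanishes for `s ≤ 0`... -/
lemma a3_st_neg {s : ℝ} (hs : s < 0) : deriv Real.smoothTransition s = 0 := by
  have h1 : Real.smoothTransition =ᶠ[𝓝 s] fun _ => (0 : ℝ) := by
    filter_upwards [Iio_mem_nhds hs] with r hr
    exact Real.smoothTransition.zero_of_nonpos (le_of_lt hr)
  rw [h1.deriv_eq, deriv_const]

lemma a3_st_gt {s : ℝ} (hs : 1 < s) : deriv Real.smoothTransition s = 0 := by
  have h1 : Real.smoothTransition =ᶠ[𝓝 s] fun _ => (1 : ℝ) := by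
    filter_upwards [Ioi_mem_nhds hs] with r hr
    exact Real.smoothTransition.one_of_one_le (le_of_lt hr)
  rw [h1.deriv_eq, deriv_const]

lemma a3_st_bound : ∃ C : ℝ, 0 ≤ C ∧ ∀ s : ℝ, |s * deriv Real.smoothTransition s| ≤ C := by
  have h1 : Continuous (deriv Real.smoothTransition) :=
    (Real.smoothTransition.contDiff (n := 1)).continuous_deriv (by simp)
  have h2 : Continuous (fun s : ℝ => s * deriv Real.smoothTransition s) :=
    continuous_id.mul h1
  obtain ⟨C, hC⟩ := (isCompact_Icc (a := (0 : ℝ)) (b := 1)).exists_bound_of_continuousOn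
    h2.continuousOn
  refine ⟨max C 0, le_max_right _ _, fun s => ?_⟩
  rcases lt_or_ge s 0 with h | h
  · rw [a3_st_neg h]; simp
  rcases lt_or_ge 1 s with h' | h'
  · rw [a3_st_gt h']; simp
  exact (hC s ⟨h, h'⟩).trans (le_max_left _ _)

/-- The identity for a fixed cut-off. -/
lemma a3_cut {g : E n → ℝ} (hg : ContDiff ℝ ∞ g) (k : ℕ) :
    ∫ x, (Real.smoothTransition (a3u k x) * Lop g x
      - 2 * (a3u k x * deriv Real.smoothTransition (a3u k x)) * fderiv ℝ g x x) = 0 := by
  set st := Real.smoothTransition with hst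
  have hst1 : ContDiff ℝ 1 st := Real.smoothTransition.contDiff (n := 1)
  have hch : ContDiff ℝ 1 (fun x : E n => st (a3u k x)) := hst1.comp (a3u_smooth k)
  have hsm : ∀ i, ContDiff ℝ 1 (fun x : E n => st (a3u k x) * a3F g i x) := fun i =>
    hch.mul (a3_smooth hg i)
  have hcs : ∀ i, HasCompactSupport (fun x : E n => st (a3u k x) * a3F g i x) := by
    intro i
    refine HasCompactSupport.intro (isCompact_closedBall (0 : E n) 1) fun x hx => ?_
    have h1 : 1 < ‖x‖ := by simpa using hx
    have h2 : a3u k x ≤ 0 := by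
      unfold a3u
      exact mul_nonpos_of_nonneg_of_nonpos (by positivity) (by nlinarith)
    simp only [hst, Real.smoothTransition.zero_of_nonpos h2, zero_mul]
  have hder : ∀ i (x : E n), fderiv ℝ (fun x : E n => st (a3u k x) * a3F g i x) x (eb i)
      = st (a3u k x) * fderiv ℝ (a3F g i) x (eb i)
        - 2 * ((k : ℝ) + 1) * deriv st (a3u k x) * (a3F g i x * x i) := by
    intro i x
    have h1 : HasDerivAt st (deriv st (a3u k x)) (a3u k x) :=
      ((hst1.differentiable (by simp)) _).hasDerivAt
    have h2 := h1.comp_hasFDerivAt x (a3u_deriv k x)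
    have h3 : HasFDerivAt (a3F g i) (fderiv ℝ (a3F g i) x) x :=
      (((a3_smooth hg i).differentiable (by simp)) x).hasFDerivAt
    have h4 := h2.mul h3
    have h5 : HasFDerivAt (fun x : E n => st (a3u k x) * a3F g i x) _ x := h4
    rw [h5.fderiv]
    simp only [add_apply, smul_apply, smul_eq_mul,
      innerSL_apply_apply, Function.comp, inner_eb']
    ring
  have hsum : ∀ x : E n, st (a3u k x) * Lop g x
      - 2 * (a3u k x * deriv st (a3u k x)) * fderiv ℝ g x x
      = ∑ i, fderiv ℝ (fun x : E n => st (a3u k x) * a3F g i x) x (eb i) := by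
    intro x
    simp only [hder, Finset.sum_sub_distrib, ← Finset.mul_sum]
    rw [a3_sum_deriv hg, a3_sum_inner]
    simp only [a3u]
    ring
  simp only [hsum]
  rw [integral_finsetSum]
  · exact Finset.sum_eq_zero fun i _ => a3_int_zero (hsm i) (hcs i) (eb i)
  · intro i _
    have h2 : Continuous (fun x => fderiv ℝ (fun x : E n => st (a3u k x) * a3F g i x) x (eb i)) :=
      ((hsm i).continuous_fderiv (by simp)).clm_apply continuous_const
    exact h2.integrable_of_hasCompactSupport ((hcs i).fderiv_apply (𝕜 := ℝ) (eb i))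

lemma a3_Lop_cont {g : E n → ℝ} (hg : ContDiff ℝ ∞ g) : Continuous (Lop g) := by
  have h1 : ContDiff ℝ 1 (fderiv ℝ g) :=
    (contDiff_infty_iff_fderiv.1 hg).2.of_le (by exact_mod_cast le_top)
  have h2 : Continuous (fderiv ℝ (fderiv ℝ g)) := h1.continuous_fderiv (by simp)
  unfold Lop L2 hs
  refine ((continuous_finsetSum _ fun i _ => ?_).sub ?_).sub ?_
  · exact (h2.clm_apply continuous_const).clm_apply continuous_const
  · exact (h2.clm_apply continuous_id).clm_apply continuous_id
  · exact continuous_const.mul (h1.continuous.clm_apply continuous_id)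

theorem int_Lop {g : E n → ℝ} (hg : ContDiff ℝ ∞ g) :
    ∫ x in closedBall (0 : E n) 1, Lop g x = 0 := by
  obtain ⟨C, hC0, hC⟩ := a3_st_bound
  have hD : Continuous (fun x : E n => fderiv ℝ g x x) :=
    (hg.continuous_fderiv (by simp)).clm_apply continuous_id
  have hL := a3_Lop_cont hg
  have hst0 : Continuous Real.smoothTransition := Real.smoothTransition.continuous
  have hst1 : Continuous (deriv Real.smoothTransition) :=
    (Real.smoothTransition.contDiff (n := 1)).continuous_deriv (by simp)
  have hu : ∀ k, Continuous (a3u (n := n) k) := fun k => (a3u_smooth k).continuous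
  -- the limit
  have hlim : Tendsto (fun k : ℕ => ∫ x : E n, (Real.smoothTransition (a3u k x) * Lop g x
      - 2 * (a3u k x * deriv Real.smoothTransition (a3u k x)) * fderiv ℝ g x x)) atTop
      (𝓝 (∫ x, (ball (0 : E n) 1).indicator (Lop g) x)) := by
    refine tendsto_integral_of_dominated_convergence
      (fun x => (closedBall (0 : E n) 1).indicator
        (fun x => |Lop g x| + 2 * C * |fderiv ℝ g x x|) x) ?_ ?_ ?_ ?_
    · intro k
      refine Continuous.aestronglyMeasurable ?_
      exact ((hst0.comp (hu k)).mul hL).sub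
        ((continuous_const.mul ((hu k).mul (hst1.comp (hu k)))).mul hD)
    · rw [integrable_indicator_iff measurableSet_closedBall]
      refine ContinuousOn.integrableOn_compact (isCompact_closedBall 0 1) ?_
      exact (hL.abs.add (continuous_const.mul hD.abs)).continuousOn
    · intro k
      refine Eventually.of_forall fun x => ?_
      by_cases hx : x ∈ closedBall (0 : E n) 1
      · rw [indicator_of_mem hx, Real.norm_eq_abs]
        refine (abs_sub _ _).trans ?_
        refine add_le_add ?_ ?_
        · rw [abs_mul, abs_of_nonneg (Real.smoothTransition.nonneg _)]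
          exact mul_le_of_le_one_left (abs_nonneg _) (Real.smoothTransition.le_one _)
        · rw [abs_mul, abs_mul, abs_two]
          gcongr
          exact hC _
      · rw [indicator_of_notMem hx]
        have h1 : 1 < ‖x‖ := by simpa using hx
        have h2 : a3u k x < 0 := by
          unfold a3u
          exact mul_neg_of_pos_of_neg (by positivity) (by nlinarith)
        rw [Real.smoothTransition.zero_of_nonpos h2.le, a3_st_neg h2]
        simp
    · refine Eventually.of_forall fun x => ?_
      by_cases hx : x ∈ ball (0 : E n) 1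
      · rw [indicator_of_mem hx]
        have h1 : ‖x‖ < 1 := by simpa using hx
        have h2 : 0 < 1 - ‖x‖ ^ 2 := by nlinarith [norm_nonneg x]
        have h3 : Tendsto (fun k : ℕ => a3u k x) atTop atTop := by
          unfold a3u
          exact (tendsto_natCast_atTop_atTop.atTop_add tendsto_const_nhds).atTop_mul_const h2
        refine tendsto_const_nhds.congr' ?_
        filter_upwards [h3.eventually_gt_atTop 1] with k hk
        rw [Real.smoothTransition.one_of_one_le hk.le, a3_st_gt hk]
        simp
      · rw [indicator_of_notMem hx]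
        have h1 : 1 ≤ ‖x‖ := by simpa using hx
        refine tendsto_const_nhds.congr fun k => ?_
        have h2 : a3u k x ≤ 0 := by
          unfold a3u
          exact mul_nonpos_of_nonneg_of_nonpos (by positivity) (by nlinarith)
        rw [Real.smoothTransition.zero_of_nonpos h2]
        rcases h2.lt_or_eq with h | h
        · rw [a3_st_neg h]; simp
        · rw [h]; simp
  have h0 : ∀ k : ℕ, ∫ x : E n, (Real.smoothTransition (a3u k x) * Lop g x
      - 2 * (a3u k x * deriv Real.smoothTransition (a3u k x)) * fderiv ℝ g x x) = 0 :=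
    fun k => a3_cut hg k
  simp only [h0] at hlim
  have h1 := tendsto_nhds_unique hlim tendsto_const_nhds
  rw [integral_indicator measurableSet_ball] at h1
  have h2 : (closedBall (0 : E n) 1 : Set (E n)) =ᵐ[volume] ball (0 : E n) 1 := by
    have h3 := Measure.addHaar_sphere_of_ne_zero (volume : Measure (E n)) 0 one_ne_zero
    refine (ae_eq_set.2 ⟨?_, ?_⟩)
    · refine measure_mono_null ?_ h3
      intro x hx
      have h4 : ‖x‖ ≤ 1 := by simpa using hx.1
      have h5 : 1 ≤ ‖x‖ := by simpa using hx.2
      simp [le_antisymm h4 h5]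
    · rw [sdiff_eq_empty.2 ball_subset_closedBall]
      exact measure_empty
  rw [setIntegral_congr_set h2, h1]

end Pool.Agent.H21.CE
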