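import Pool.Agent.H21.CE.Gib

/-!
# Derivatives of the mean slope and of the exterior velocity
-/

open MeasureTheory Set Filter Topology Metric
open scoped ContDiff

namespace Pool.Agent.H21.CE

variable {n : ℕ}

private lemma s5_ell {V : E n → ℝ} (z x : E n) :
    HasFDerivAt (fun x => ell V z x) (fderiv ℝ V z) x := by
  have h1 : HasFDerivAt (fun x : E n => x - z) (ContinuousLinearMap.id ℝ (E n)) x :=
    (hasFDerivAt_id x).sub_const z
  have h2 : HasFDerivAt (fun x : E n => fderiv ℝ V z (x - z))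
      ((fderiv ℝ V z).comp (ContinuousLinearMap.id ℝ (E n))) x :=
    (fderiv ℝ V z).hasFDerivAt.comp x h1
  rw [ContinuousLinearMap.comp_id] at h2
  exact h2.const_add (V z)

private lemma s5_par (hn : 0 < n) {V : E n → ℝ} (hV : ContDiff ℝ ∞ V) (b : ℝ)
    {F : Type*} [NormedAddCommGroup F] [NormedSpace ℝ F] {k : E n → F} (hk : Continuous k)
    (x0 : E n) :
    Integrable (fun z => (Real.exp (b * ell V z x0) * b) • ((fderiv ℝ V z).smulRight (k z)))
      (rho n) ∧
    HasFDerivAt (fun x => ∫ z, Real.exp (b * ell V z x) • k z ∂(rho n))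
      (∫ z, (Real.exp (b * ell V z x0) * b) • ((fderiv ℝ V z).smulRight (k z)) ∂(rho n)) x0 := by
  have hfd : Continuous (fderiv ℝ V) := hV.continuous_fderiv (by simp)
  have hexp : Continuous (fun q : E n × E n => Real.exp (b * ell V q.1 q.2)) :=
    Real.continuous_exp.comp (continuous_const.mul (cont_ell hV))
  have hsm : Continuous (fun z => (fderiv ℝ V z).smulRight (k z)) := by
    have h1 : Continuous (fun q : (E n →L[ℝ] ℝ) × F => q.1.smulRight q.2) := by
      exact isBoundedBilinearMap_smulRight.continuous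
    exact h1.comp (hfd.prodMk hk)
  have hF'c : Continuous (fun q : E n × E n => (Real.exp (b * ell V q.1 q.2) * b) •
      ((fderiv ℝ V q.1).smulRight (k q.1))) :=
    (hexp.mul continuous_const).smul (hsm.comp continuous_fst)
  have hint : Integrable (fun z => (Real.exp (b * ell V z x0) * b) •
      ((fderiv ℝ V z).smulRight (k z))) (rho n) :=
    rho_int (hF'c.comp (continuous_id.prodMk continuous_const))
  refine ⟨hint, ?_⟩
  obtain ⟨C, hC⟩ := ((isCompact_sphere (0 : E n) 1).prod
    (isCompact_closedBall x0 1)).exists_bound_of_continuousOn hF'c.continuousOn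
  apply hasFDerivAt_integral_of_dominated_of_fderiv_le (bound := fun _ => C)
    (s := closedBall x0 1) (closedBall_mem_nhds x0 one_pos)
    (F' := fun x z => (Real.exp (b * ell V z x) * b) • ((fderiv ℝ V z).smulRight (k z)))
  · refine Eventually.of_forall fun x => ?_
    exact (rho_int ((hexp.comp (continuous_id.prodMk continuous_const)).smul hk)).1
  · exact rho_int ((hexp.comp (continuous_id.prodMk continuous_const)).smul hk)
  · exact hint.1
  · filter_upwards [rho_ae hn] with z hz x hx
    exact hC (z, x) ⟨hz, hx⟩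
  · exact integrable_const _
  · refine Eventually.of_forall fun z x _ => ?_
    have h1 : HasFDerivAt (fun x => b * ell V z x) (b • fderiv ℝ V z) x :=
      (s5_ell z x).const_mul b
    have h2 : HasFDerivAt (fun x => Real.exp (b * ell V z x))
        (Real.exp (b * ell V z x) • (b • fderiv ℝ V z)) x := h1.exp
    have h3 := h2.smul_const (k z)
    refine h3.congr_fderiv ?_
    ext v
    show (Real.exp (b * ell V z x) * (b * fderiv ℝ V z v)) • k z
      = (Real.exp (b * ell V z x) * b) • (fderiv ℝ V z v • k z)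
    rw [smul_smul, mul_assoc]

private lemma s5_gib {V : E n → ℝ} (b : ℝ) (x : E n)
    {F : Type*} [NormedAddCommGroup F] [NormedSpace ℝ F] (k : E n → F) :
    ∫ z, k z ∂(gib b V x) = (Zf b V x)⁻¹ • ∫ z, Real.exp (b * ell V z x) • k z ∂(rho n) := by
  unfold gib
  rw [integral_tilted, ← integral_smul]
  refine integral_congr_ae (Eventually.of_forall fun z => ?_)
  simp only [Zf, smul_smul, div_eq_inv_mul]

theorem pb_deriv (hn : 0 < n) {V : E n → ℝ} (hV : ContDiff ℝ ∞ V) (b : ℝ) (x : E n) :
    ∃ A : E n →L[ℝ] E n, HasFDerivAt (pb b V) A x ∧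
      (∀ v w, inner ℝ (A v) w = b * ∫ z, inner ℝ (gradient V z - pb b V x) v *
        inner ℝ (gradient V z - pb b V x) w ∂(gib b V x)) := by
  have hp := gib_prob hn hV b x
  have hZ := Zf_pos hn hV b x
  have hfd : Continuous (fderiv ℝ V) := hV.continuous_fderiv (by simp)
  have hg := cont_grad hV
  obtain ⟨hI1, hD1⟩ := s5_par hn hV b (k := fun _ : E n => (1 : ℝ)) continuous_const x
  obtain ⟨hI2, hD2⟩ := s5_par hn hV b (k := gradient V) hg x
  have hZe : (fun x => ∫ z, Real.exp (b * ell V z x) • (1 : ℝ) ∂(rho n)) = Zf b V := by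
    funext y
    simp [Zf]
  rw [hZe] at hD1
  have hpe : pb b V = fun y => (Zf b V y)⁻¹ •
      ∫ z, Real.exp (b * ell V z y) • gradient V z ∂(rho n) := by
    funext y
    exact s5_gib b y (gradient V)
  have hinv := (hasDerivAt_inv hZ.ne').comp_hasFDerivAt x hD1
  have hD : HasFDerivAt (fun y => (Zf b V y)⁻¹ •
      ∫ z, Real.exp (b * ell V z y) • gradient V z ∂(rho n)) _ x := hinv.smul hD2
  rw [← hpe] at hD
  refine ⟨_, hD, ?_⟩
  intro v w
  have hc : ∀ u : E n, Continuous (fun z => inner ℝ (gradient V z) u) := fun u =>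
    hg.inner continuous_const
  -- the first derivative of the partition function
  have e1 : (∫ z, (Real.exp (b * ell V z x) * b) • ((fderiv ℝ V z).smulRight (1 : ℝ))
      ∂(rho n)) v = b * (Zf b V x * inner ℝ (pb b V x) v) := by
    rw [ContinuousLinearMap.integral_apply hI1, inner_pb hn hV, gib_eq,
      mul_div_cancel₀ _ hZ.ne', ← integral_const_mul]
    refine integral_congr_ae (Eventually.of_forall fun z => ?_)
    show (Real.exp (b * ell V z x) * b) * (fderiv ℝ V z v * 1)
      = b * (fderiv ℝ V z v * Real.exp (b * ell V z x))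
    ring
  have e2 : inner ℝ ((∫ z, (Real.exp (b * ell V z x) * b) •
      ((fderiv ℝ V z).smulRight (gradient V z)) ∂(rho n)) v) w
      = b * (Zf b V x * ∫ z, inner ℝ (gradient V z) v * inner ℝ (gradient V z) w
        ∂(gib b V x)) := by
    rw [ContinuousLinearMap.integral_apply hI2, real_inner_comm, ← integral_inner, gib_eq,
      mul_div_cancel₀ _ hZ.ne', ← integral_const_mul]
    · refine integral_congr_ae (Eventually.of_forall fun z => ?_)
      show inner ℝ w ((Real.exp (b * ell V z x) * b) • (fderiv ℝ V z v • gradient V z))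
        = b * (inner ℝ (gradient V z) v * inner ℝ (gradient V z) w
          * Real.exp (b * ell V z x))
      rw [inner_smul_right, inner_smul_right, inner_grad, inner_grad, grad_inner]
      ring
    · exact hI2.apply_continuousLinearMap v
  have e3 : (∫ z, Real.exp (b * ell V z x) • gradient V z ∂(rho n)) = Zf b V x • pb b V x := by
    rw [pb, s5_gib b x (gradient V), smul_smul, mul_inv_cancel₀ hZ.ne', one_smul]
  have e4 : ∫ z, inner ℝ (gradient V z - pb b V x) v *
        inner ℝ (gradient V z - pb b V x) w ∂(gib b V x)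
      = (∫ z, inner ℝ (gradient V z) v * inner ℝ (gradient V z) w ∂(gib b V x))
        - inner ℝ (pb b V x) v * inner ℝ (pb b V x) w := by
    have h1 : ∀ z, inner ℝ (gradient V z - pb b V x) v *
        inner ℝ (gradient V z - pb b V x) w
        = inner ℝ (gradient V z) v * inner ℝ (gradient V z) w
          - (inner ℝ (gradient V z) v * inner ℝ (pb b V x) w
          + inner ℝ (pb b V x) v * inner ℝ (gradient V z) w
          - inner ℝ (pb b V x) v * inner ℝ (pb b V x) w) := by
      intro z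
      rw [inner_sub_left, inner_sub_left]
      ring
    have hv : ∫ z, inner ℝ (gradient V z) v ∂(gib b V x) = inner ℝ (pb b V x) v := by
      rw [inner_pb hn hV]
      simp only [inner_grad]
    have hw : ∫ z, inner ℝ (gradient V z) w ∂(gib b V x) = inner ℝ (pb b V x) w := by
      rw [inner_pb hn hV]
      simp only [inner_grad]
    simp only [h1]
    rw [integral_sub, integral_sub, integral_add, integral_mul_const, integral_const_mul, hv, hw,
      integral_const]
    · simp
    · exact gib_int hV b x ((hc v).mul continuous_const)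
    · exact gib_int hV b x (continuous_const.mul (hc w))
    · exact gib_int hV b x (((hc v).mul continuous_const).add (continuous_const.mul (hc w)))
    · exact integrable_const _
    · exact gib_int hV b x ((hc v).mul (hc w))
    · exact gib_int hV b x ((((hc v).mul continuous_const).add
        (continuous_const.mul (hc w))).sub continuous_const)
  rw [e4, e3]
  have e5 : inner ℝ ((Zf b V x)⁻¹ • ((∫ z, (Real.exp (b * ell V z x) * b) •
        ((fderiv ℝ V z).smulRight (gradient V z)) ∂(rho n)) v) +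
      (-(Zf b V x ^ 2)⁻¹ * ((∫ z, (Real.exp (b * ell V z x) * b) •
        ((fderiv ℝ V z).smulRight (1 : ℝ)) ∂(rho n)) v)) • (Zf b V x • pb b V x)) w
      = b * ((∫ z, inner ℝ (gradient V z) v * inner ℝ (gradient V z) w ∂(gib b V x))
        - inner ℝ (pb b V x) v * inner ℝ (pb b V x) w) := by
    rw [inner_add_left, real_inner_smul_left, e2, e1, real_inner_smul_left, real_inner_smul_left]
    have hZ' := hZ.ne'
    field_simp
    ring
  exact e5

private lemma s5_uout {V : E n → ℝ} (b : ℝ) (x : E n) {A : E n →L[ℝ] E n}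
    (hA : HasFDerivAt (pb b V) A x) :
    ∃ A' : E n →L[ℝ] E n, HasFDerivAt (uout b V) A' x ∧
      ∀ v, A' v = A v - (inner ℝ x (pb b V x)) • v
        - (inner ℝ x (A v) + inner ℝ v (pb b V x)) • x := by
  have h1 : HasFDerivAt (fun y : E n => inner ℝ y (pb b V y)) _ x :=
    (hasFDerivAt_id x).inner ℝ hA
  have h2 : HasFDerivAt (fun y : E n => (inner ℝ y (pb b V y)) • y) _ x :=
    h1.smul (hasFDerivAt_id x)
  have h3 : HasFDerivAt (uout b V) _ x := hA.sub h2
  refine ⟨_, h3, fun v => ?_⟩
  show A v - ((inner ℝ x (pb b V x)) • v + (inner ℝ x (A v) + inner ℝ v (pb b V x)) • x)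
    = A v - (inner ℝ x (pb b V x)) • v - (inner ℝ x (A v) + inner ℝ v (pb b V x)) • x
  abel

theorem uout_deriv (hn : 0 < n) {V : E n → ℝ} (hV : ContDiff ℝ ∞ V) (b : ℝ) (x : E n) :
    ∃ A : E n →L[ℝ] E n, HasFDerivAt (uout b V) A x ∧
      LinearMap.trace ℝ (E n) (A : E n →ₗ[ℝ] E n)
        = Tg b V x - ((n : ℝ) + 1) * inner ℝ x (pb b V x) := by
  obtain ⟨A, hA, hA2⟩ := pb_deriv hn hV b x
  obtain ⟨A', hA', hA2'⟩ := s5_uout b x hA
  refine ⟨A', hA', ?_⟩
  rw [LinearMap.trace_eq_sum_inner _ (EuclideanSpace.basisFun (Fin n) ℝ)]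
  have hcg : Continuous (fun z => gradient V z - pb b V x) := (cont_grad hV).sub continuous_const
  have h1 : ∀ i : Fin n, inner ℝ ((EuclideanSpace.basisFun (Fin n) ℝ) i)
      ((A' : E n →ₗ[ℝ] E n) ((EuclideanSpace.basisFun (Fin n) ℝ) i))
      = b * (∫ z, ((gradient V z - pb b V x) i) ^ 2 ∂(gib b V x)) - inner ℝ x (pb b V x)
        - (inner ℝ x (A (x i • eb i)) + (pb b V x) i * x i) := by
    intro i
    have h2 : (EuclideanSpace.basisFun (Fin n) ℝ) i = (eb i : E n) := by
      simp [eb]
    have h3 : inner ℝ (eb i) (A (eb i))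
        = b * ∫ z, ((gradient V z - pb b V x) i) ^ 2 ∂(gib b V x) := by
      rw [real_inner_comm, hA2]
      congr 1
      refine integral_congr_ae (Eventually.of_forall fun z => ?_)
      simp only [inner_eb']
      ring
    rw [h2]
    show inner ℝ (eb i) (A' (eb i)) = _
    rw [hA2', inner_sub_right, inner_sub_right, inner_smul_right, inner_smul_right, h3,
      real_inner_self_eq_norm_sq, norm_eb, inner_eb, inner_eb, map_smul, inner_smul_right]
    ring
  have h8 : ∑ i, inner ℝ x (A (x i • eb i)) = inner ℝ x (A x) := by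
    rw [← inner_sum, ← map_sum, sum_eb]
  rw [Finset.sum_congr rfl (fun i _ => h1 i), Finset.sum_sub_distrib, Finset.sum_sub_distrib,
    Finset.sum_add_distrib, h8, ← Finset.mul_sum, ← integral_finsetSum]
  · have h4 : ∑ i, (pb b V x) i * x i = inner ℝ x (pb b V x) := by
      rw [PiLp.inner_apply]
      refine Finset.sum_congr rfl fun i _ => ?_
      simp
    have h5 : inner ℝ x (A x) = b * ∫ z, (inner ℝ x (gradient V z - pb b V x)) ^ 2
        ∂(gib b V x) := by
      rw [real_inner_comm, hA2]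
      congr 1
      refine integral_congr_ae (Eventually.of_forall fun z => ?_)
      simp only [real_inner_comm]
      ring
    have h6 : ∀ z, ∑ i, ((gradient V z - pb b V x) i) ^ 2 = ‖gradient V z - pb b V x‖ ^ 2 := by
      intro z
      rw [EuclideanSpace.real_norm_sq_eq]
    simp only [h6]
    rw [h4, h5, Tg, integral_sub]
    · simp
      ring
    · exact gib_int hV b x (hcg.norm.pow 2)
    · exact gib_int hV b x ((continuous_const.inner hcg).pow 2)
  · intro i _
    apply gib_int hV b x
    have h7 : Continuous (fun z => inner ℝ (gradient V z - pb b V x) (eb i)) :=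
      hcg.inner continuous_const
    simp only [inner_eb'] at h7
    exact h7.pow 2

/-- uniform bound of the derivative -/
theorem uout_deriv_bound (hn : 0 < n) (lam M R b : ℝ) : ∃ C > 0, ∀ V W : E n → ℝ,
    Pt n V W lam M → ∀ x : E n, ‖x‖ ≤ R → ‖fderiv ℝ (uout b V) x‖ ≤ C := by
  refine ⟨|b| * (4 * M ^ 2) + |R| * |M| + |R| * (|R| * (|b| * (4 * M ^ 2)) + |M|) + 1,
    by positivity, ?_⟩
  intro V W h x hx
  have hM : 0 ≤ M := le_trans zero_le_one h.one_le
  have hR : 0 ≤ R := le_trans (norm_nonneg _) hx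
  rw [abs_of_nonneg hM, abs_of_nonneg hR]
  obtain ⟨A, hA, hA2⟩ := pb_deriv hn h.hV b x
  obtain ⟨A', hA', hA2'⟩ := s5_uout b x hA
  have hp := gib_prob hn h.hV b x
  have hpn := pb_norm hn h b x
  rw [hA'.fderiv]
  have h1 : ∀ v w : E n, |inner ℝ (A v) w| ≤ |b| * (4 * M ^ 2) * (‖v‖ * ‖w‖) := by
    intro v w
    rw [hA2, abs_mul, mul_assoc]
    apply mul_le_mul_of_nonneg_left _ (abs_nonneg _)
    have h2 : ∀ᵐ z ∂(gib b V x), ‖inner ℝ (gradient V z - pb b V x) v *
        inner ℝ (gradient V z - pb b V x) w‖ ≤ 4 * M ^ 2 * (‖v‖ * ‖w‖) := by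
      filter_upwards [gib_ae hn h.hV b x] with z hz
      have h3 : ‖gradient V z - pb b V x‖ ≤ 2 * M := by
        calc ‖gradient V z - pb b V x‖ ≤ ‖gradient V z‖ + ‖pb b V x‖ := norm_sub_le _ _
          _ ≤ M + M := by
              rw [norm_grad]
              exact add_le_add (h.b1 z (sphere_subset_closedBall hz)) hpn
          _ = 2 * M := by ring
      rw [norm_mul, Real.norm_eq_abs, Real.norm_eq_abs]
      have h4 : |inner ℝ (gradient V z - pb b V x) v| ≤ 2 * M * ‖v‖ :=
        le_trans (abs_real_inner_le_norm _ _) (mul_le_mul_of_nonneg_right h3 (norm_nonneg _))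
      have h5 : |inner ℝ (gradient V z - pb b V x) w| ≤ 2 * M * ‖w‖ :=
        le_trans (abs_real_inner_le_norm _ _) (mul_le_mul_of_nonneg_right h3 (norm_nonneg _))
      calc |inner ℝ (gradient V z - pb b V x) v| * |inner ℝ (gradient V z - pb b V x) w|
          ≤ (2 * M * ‖v‖) * (2 * M * ‖w‖) := mul_le_mul h4 h5 (abs_nonneg _) (by positivity)
        _ = 4 * M ^ 2 * (‖v‖ * ‖w‖) := by ring
    have h3 := norm_integral_le_of_norm_le_const h2
    simpa using h3
  have h2 : ∀ v : E n, ‖A v‖ ≤ |b| * (4 * M ^ 2) * ‖v‖ := by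
    intro v
    have h3 := h1 v (A v)
    rw [real_inner_self_eq_norm_sq, abs_of_nonneg (sq_nonneg _)] at h3
    by_cases h4 : ‖A v‖ = 0
    · rw [h4]; positivity
    · have h5 : 0 < ‖A v‖ := lt_of_le_of_ne (norm_nonneg _) (Ne.symm h4)
      have h6 : ‖A v‖ * ‖A v‖ ≤ (|b| * (4 * M ^ 2) * ‖v‖) * ‖A v‖ := by nlinarith
      exact le_of_mul_le_mul_right h6 h5
  apply ContinuousLinearMap.opNorm_le_bound _ (by positivity)
  intro v
  rw [hA2']
  have hAv := h2 v
  have h3 : |inner ℝ x (pb b V x)| ≤ R * M :=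
    le_trans (abs_real_inner_le_norm _ _) (mul_le_mul hx hpn (norm_nonneg _) hR)
  have h4 : |inner ℝ x (A v)| ≤ R * (|b| * (4 * M ^ 2) * ‖v‖) :=
    le_trans (abs_real_inner_le_norm _ _) (mul_le_mul hx hAv (norm_nonneg _) hR)
  have h5 : |inner ℝ v (pb b V x)| ≤ ‖v‖ * M :=
    le_trans (abs_real_inner_le_norm _ _) (mul_le_mul_of_nonneg_left hpn (norm_nonneg _))
  have h6 : ‖(inner ℝ x (pb b V x)) • v‖ ≤ R * M * ‖v‖ := by
    rw [norm_smul, Real.norm_eq_abs]
    exact mul_le_mul_of_nonneg_right h3 (norm_nonneg _)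
  have h7 : ‖(inner ℝ x (A v) + inner ℝ v (pb b V x)) • x‖
      ≤ (R * (|b| * (4 * M ^ 2) * ‖v‖) + ‖v‖ * M) * R := by
    rw [norm_smul, Real.norm_eq_abs]
    exact mul_le_mul (le_trans (abs_add_le _ _) (add_le_add h4 h5)) hx (norm_nonneg _)
      (by positivity)
  calc ‖A v - (inner ℝ x (pb b V x)) • v - (inner ℝ x (A v) + inner ℝ v (pb b V x)) • x‖
      ≤ ‖A v - (inner ℝ x (pb b V x)) • v‖
        + ‖(inner ℝ x (A v) + inner ℝ v (pb b V x)) • x‖ := norm_sub_le _ _
    _ ≤ (‖A v‖ + ‖(inner ℝ x (pb b V x)) • v‖)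
        + ‖(inner ℝ x (A v) + inner ℝ v (pb b V x)) • x‖ :=
          add_le_add (norm_sub_le _ _) le_rfl
    _ ≤ (|b| * (4 * M ^ 2) * ‖v‖ + R * M * ‖v‖)
        + (R * (|b| * (4 * M ^ 2) * ‖v‖) + ‖v‖ * M) * R :=
          add_le_add (add_le_add hAv h6) h7
    _ ≤ (|b| * (4 * M ^ 2) + R * M + R * (R * (|b| * (4 * M ^ 2)) + M) + 1) * ‖v‖ := by
        have h8 : 0 ≤ ‖v‖ := norm_nonneg _
        have h9 : (|b| * (4 * M ^ 2) + R * M + R * (R * (|b| * (4 * M ^ 2)) + M) + 1) * ‖v‖
          = ((|b| * (4 * M ^ 2) * ‖v‖ + R * M * ‖v‖)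
        + (R * (|b| * (4 * M ^ 2) * ‖v‖) + ‖v‖ * M) * R) + ‖v‖ := by ring
        rw [h9]
        linarith

end Pool.Agent.H21.CE
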