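import Pool.Agent.H21.CE.Defs

/-!
# Uniform bounds for the flow (task F1)
-/

open MeasureTheory Set Filter Topology Metric
open scoped ContDiff

namespace Pool.Agent.H21.CE

variable {n : ℕ}

/-- the joint function -/
noncomputable def f1_F (V : ℝ → E n → ℝ) (q : ℝ × E n) : ℝ := V q.1 q.2

theorem f1_vd {V : ℝ → E n → ℝ} (h : ContDiff ℝ ∞ (f1_F V)) (t : ℝ) (x : E n) :
    HasDerivAt (fun s => V s x) (fderiv ℝ (f1_F V) (t, x) (1, 0)) t := by
  have h1 : HasDerivAt (fun s : ℝ => ((s, x) : ℝ × E n)) (1, 0) t :=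
    (hasDerivAt_id t).prodMk (hasDerivAt_const t x)
  have h2 : HasFDerivAt (f1_F V) (fderiv ℝ (f1_F V) (t, x)) (t, x) :=
    (h.differentiable (by simp) _).hasFDerivAt
  exact h2.comp_hasDerivAt t h1

theorem f1_vd_eq {V : ℝ → E n → ℝ} (h : ContDiff ℝ ∞ (f1_F V)) (t : ℝ) (x : E n) :
    vd V t x = fderiv ℝ (f1_F V) (t, x) (1, 0) := (f1_vd h t x).deriv

theorem f1_fd {V : ℝ → E n → ℝ} (h : ContDiff ℝ ∞ (f1_F V)) (t : ℝ) (x : E n) :
    fderiv ℝ (V t) x = (fderiv ℝ (f1_F V) (t, x)).comp (ContinuousLinearMap.inr ℝ ℝ (E n)) := by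
  have h1 : HasFDerivAt (fun y : E n => ((t, y) : ℝ × E n))
      (ContinuousLinearMap.inr ℝ ℝ (E n)) x := hasFDerivAt_prodMk_right t x
  have h2 : HasFDerivAt (f1_F V) (fderiv ℝ (f1_F V) (t, x)) (t, x) :=
    (h.differentiable (by simp) _).hasFDerivAt
  exact (h2.comp x h1).fderiv

theorem f1_sm {V : ℝ → E n → ℝ} (h : ContDiff ℝ ∞ (f1_F V)) (t : ℝ) : ContDiff ℝ ∞ (V t) :=
  h.comp (contDiff_const.prodMk contDiff_id)

theorem f1_dsm {V : ℝ → E n → ℝ} (h : ContDiff ℝ ∞ (f1_F V)) :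
    ContDiff ℝ ∞ (fderiv ℝ (f1_F V)) := h.fderiv_right (by simp)

/-- joint smoothness of the time derivative -/
theorem f1_vd_sm {V : ℝ → E n → ℝ} (h : ContDiff ℝ ∞ (f1_F V)) :
    ContDiff ℝ ∞ (f1_F (vd V)) := by
  have h1 : f1_F (vd V) = fun q => fderiv ℝ (f1_F V) q (1, 0) := by
    ext q
    exact f1_vd_eq h q.1 q.2
  rw [h1]
  exact (f1_dsm h).clm_apply contDiff_const

/-- joint smoothness of the space derivative -/
theorem f1_D1 {V : ℝ → E n → ℝ} (h : ContDiff ℝ ∞ (f1_F V)) :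
    ContDiff ℝ ∞ (fun q : ℝ × E n => fderiv ℝ (V q.1) q.2) := by
  have h1 : (fun q : ℝ × E n => fderiv ℝ (V q.1) q.2) =
      fun q => (fderiv ℝ (f1_F V) q).comp (ContinuousLinearMap.inr ℝ ℝ (E n)) := by
    ext1 q
    exact f1_fd h q.1 q.2
  rw [h1]
  exact (f1_dsm h).clm_comp contDiff_const

/-- joint smoothness of the Hessian -/
theorem f1_D2 {V : ℝ → E n → ℝ} (h : ContDiff ℝ ∞ (f1_F V)) :
    ContDiff ℝ ∞ (fun q : ℝ × E n => fderiv ℝ (fderiv ℝ (V q.1)) q.2) := by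
  have h1 := f1_D1 h
  have h2 : ContDiff ℝ ∞ (Function.uncurry fun (q : ℝ × E n) (x : E n) => fderiv ℝ (V q.1) x) := by
    have h3 : ContDiff ℝ ∞ (fun p : (ℝ × E n) × E n => ((p.1.1, p.2) : ℝ × E n)) :=
      (contDiff_fst.comp contDiff_fst).prodMk contDiff_snd
    exact h1.comp h3
  exact ContDiff.fderiv h2 contDiff_snd (by simp)

theorem Flow.pt {V : ℝ → E n → ℝ} {T lam : ℝ} (h : Flow n V T lam) :
    ∃ M, ∀ t ∈ Icc (0 : ℝ) T, Pt n (V t) (vd V t) lam M := by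
  have hs : ContDiff ℝ ∞ (f1_F V) := h.smooth
  have hw := f1_vd_sm hs
  have hcomp : IsCompact (Icc (0 : ℝ) T ×ˢ closedBall (0 : E n) 1) :=
    isCompact_Icc.prod (isCompact_closedBall 0 1)
  have hb : ∀ {F : Type} [NormedAddCommGroup F] (k : ℝ × E n → F), Continuous k →
      ∃ C, ∀ t ∈ Icc (0 : ℝ) T, ∀ z ∈ closedBall (0 : E n) 1, ‖k (t, z)‖ ≤ C := by
    intro F _ k hk
    obtain ⟨C, hC⟩ := hcomp.exists_bound_of_continuousOn hk.continuousOn
    exact ⟨C, fun t ht z hz => hC (t, z) ⟨ht, hz⟩⟩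
  obtain ⟨C0, h0⟩ := hb (f1_F V) hs.continuous
  obtain ⟨C1, h1⟩ := hb _ (f1_D1 hs).continuous
  obtain ⟨C2, h2⟩ := hb _ (f1_D2 hs).continuous
  obtain ⟨C3, h3⟩ := hb (f1_F (vd V)) hw.continuous
  obtain ⟨C4, h4⟩ := hb _ (f1_D1 hw).continuous
  refine ⟨max 1 (max C0 (max C1 (max C2 (max C3 C4)))), fun t ht => ?_⟩
  refine ⟨f1_sm hs t, f1_sm hw t, h.even t, h.lam_pos, le_max_left _ _, h.conv t ht, ?_, ?_, ?_,
    ?_, ?_, h.pde t ht⟩
  · intro z hz
    exact (h0 t ht z hz).trans (by simp)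
  · intro z hz
    exact (h1 t ht z hz).trans (by simp)
  · intro z hz
    exact (h2 t ht z hz).trans (by simp)
  · intro z hz
    exact (h3 t ht z hz).trans (by simp)
  · intro z hz
    exact (h4 t ht z hz).trans (by simp)

/-- Taylor expansion of order two, uniform on compact convex sets -/
theorem f1_taylor {X : Type*} [NormedAddCommGroup X] [NormedSpace ℝ X] {G : X → ℝ}
    (hG : ContDiff ℝ ∞ G) {Q : Set X} (hQ : IsCompact Q) (hc : Convex ℝ Q) :
    ∃ C ≥ 0, ∀ q ∈ Q, ∀ q' ∈ Q, |G q' - G q - fderiv ℝ G q (q' - q)| ≤ C * ‖q' - q‖ ^ 2 := by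
  have h1 : ContDiff ℝ ∞ (fderiv ℝ G) := hG.fderiv_right (by simp)
  have h2 : ContDiff ℝ ∞ (fderiv ℝ (fderiv ℝ G)) := h1.fderiv_right (by simp)
  obtain ⟨C, hC⟩ := hQ.exists_bound_of_continuousOn (f := fderiv ℝ (fderiv ℝ G))
    h2.continuous.continuousOn
  refine ⟨max C 0, le_max_right _ _, fun q hq q' hq' => ?_⟩
  have hseg : segment ℝ q q' ⊆ Q := hc.segment_subset hq hq'
  have h3 : ∀ z ∈ segment ℝ q q', ‖fderiv ℝ G z - fderiv ℝ G q‖ ≤ max C 0 * ‖q' - q‖ := by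
    intro z hz
    have h4 := hc.norm_image_sub_le_of_norm_fderiv_le (f := fderiv ℝ G) (C := max C 0)
      (fun y _ => h1.differentiable (by simp) y) (fun y hy => (hC y hy).trans (le_max_left _ _))
      hq (hseg hz)
    refine h4.trans (mul_le_mul_of_nonneg_left ?_ (le_max_right _ _))
    obtain ⟨a, b, ha, hb, hab, rfl⟩ := hz
    have h5 : a • q + b • q' - q = b • (q' - q) := by
      have : a = 1 - b := by linarith
      rw [this, sub_smul, one_smul, smul_sub]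
      abel
    rw [h5, norm_smul, Real.norm_of_nonneg hb]
    exact mul_le_of_le_one_left (norm_nonneg _) (by linarith)
  have h6 := (convex_segment q q').norm_image_sub_le_of_norm_fderiv_le' (f := G)
    (fun y _ => hG.differentiable (by simp) y) h3 (left_mem_segment ℝ q q')
    (right_mem_segment ℝ q q')
  rw [Real.norm_eq_abs] at h6
  refine h6.trans (le_of_eq ?_)
  ring

/-- the joint function of the tangent planes -/
noncomputable def f1_G (V : ℝ → E n → ℝ) (q : ℝ × E n × E n) : ℝ := ell (V q.1) q.2.1 q.2.2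

theorem f1_G_sm {V : ℝ → E n → ℝ} (h : ContDiff ℝ ∞ (f1_F V)) : ContDiff ℝ ∞ (f1_G V) := by
  unfold f1_G ell
  have h1 : ContDiff ℝ ∞ (fun q : ℝ × E n × E n => ((q.1, q.2.1) : ℝ × E n)) :=
    contDiff_fst.prodMk (contDiff_fst.comp contDiff_snd)
  have h2 : ContDiff ℝ ∞ (fun q : ℝ × E n × E n => V q.1 q.2.1) := h.comp h1
  have h3 : ContDiff ℝ ∞ (fun q : ℝ × E n × E n => fderiv ℝ (V q.1) q.2.1) :=
    (f1_D1 h).comp h1
  exact h2.add (h3.clm_apply ((contDiff_snd.comp contDiff_snd).sub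
    (contDiff_fst.comp contDiff_snd)))

theorem f1_G_deriv {V : ℝ → E n → ℝ} (h : ContDiff ℝ ∞ (f1_F V)) (t : ℝ) (z x u : E n) :
    fderiv ℝ (f1_G V) (t, z, x) (1, 0, u) = ell (vd V t) z x + fderiv ℝ (V t) z u := by
  -- the path
  have hp : HasDerivAt (fun s : ℝ => ((t + s, z, x + s • u) : ℝ × E n × E n)) (1, 0, u) 0 := by
    have h1 : HasDerivAt (fun s : ℝ => t + s) 1 0 := by
      simpa using (hasDerivAt_id (0 : ℝ)).const_add t
    have h2 : HasDerivAt (fun s : ℝ => x + s • u) u 0 := by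
      simpa using ((hasDerivAt_id (0 : ℝ)).smul_const u).const_add x
    exact h1.prodMk ((hasDerivAt_const (0 : ℝ) z).prodMk h2)
  have h1 : HasDerivAt (fun s : ℝ => f1_G V (t + s, z, x + s • u))
      (fderiv ℝ (f1_G V) (t, z, x) (1, 0, u)) 0 := by
    have h2 : HasFDerivAt (f1_G V) (fderiv ℝ (f1_G V) (t, z, x))
        ((t + 0, z, x + (0 : ℝ) • u) : ℝ × E n × E n) := by
      simpa using ((f1_G_sm h).differentiable (by simp) (t, z, x)).hasFDerivAt
    exact h2.comp_hasDerivAt (0 : ℝ) hp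
  -- direct computation
  have hadd : HasDerivAt (fun s : ℝ => t + s) 1 0 := by
    simpa using (hasDerivAt_id (0 : ℝ)).const_add t
  have h2 : HasDerivAt (fun s : ℝ => V (t + s) z) (vd V t z) 0 := by
    have h3 := f1_vd h t z
    rw [← f1_vd_eq h] at h3
    have h4 : HasDerivAt (fun s => V s z) (vd V t z) (t + 0) := by simpa using h3
    have h5 := h4.comp (0 : ℝ) hadd
    simpa [Function.comp_def] using h5
  have h3 : HasDerivAt (fun s : ℝ => fderiv ℝ (V (t + s)) z)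
      ((fderiv ℝ (fderiv ℝ (f1_F V)) (t, z) (1, 0)).comp
        (ContinuousLinearMap.inr ℝ ℝ (E n))) 0 := by
    have h4 : (fun s : ℝ => fderiv ℝ (V (t + s)) z) = fun s : ℝ =>
        (fderiv ℝ (f1_F V) (t + s, z)).comp (ContinuousLinearMap.inr ℝ ℝ (E n)) := by
      ext1 s
      exact f1_fd h _ _
    rw [h4]
    have h5 : HasDerivAt (fun s : ℝ => ((t + s, z) : ℝ × E n)) (1, 0) 0 :=
      hadd.prodMk (hasDerivAt_const (0 : ℝ) z)
    have h6 : HasFDerivAt (fderiv ℝ (f1_F V)) (fderiv ℝ (fderiv ℝ (f1_F V)) (t, z))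
        ((t + 0, z) : ℝ × E n) := by
      simpa using ((f1_dsm h).differentiable (by simp) (t, z)).hasFDerivAt
    have h7 := h6.comp_hasDerivAt (0 : ℝ) h5
    have h8 := h7.clm_comp (hasDerivAt_const (0 : ℝ) (ContinuousLinearMap.inr ℝ ℝ (E n)))
    simpa using h8
  have h4 : HasDerivAt (fun s : ℝ => x + s • u - z) u 0 := by
    simpa using (((hasDerivAt_id (0 : ℝ)).smul_const u).const_add x).sub_const z
  have h5 := h2.add (h3.clm_apply h4)
  have h6 := h1.unique h5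
  rw [h6]
  unfold ell
  have h7 : fderiv ℝ (vd V t) z (x - z) =
      fderiv ℝ (fderiv ℝ (f1_F V)) (t, z) (0, x - z) (1, 0) := by
    have h8 : fderiv ℝ (vd V t) z = (fderiv ℝ (f1_F (vd V)) (t, z)).comp
        (ContinuousLinearMap.inr ℝ ℝ (E n)) := f1_fd (f1_vd_sm h) t z
    have h9 : f1_F (vd V) = fun q => fderiv ℝ (f1_F V) q (1, 0) := by
      ext q
      exact f1_vd_eq h q.1 q.2
    rw [h8, h9]
    have h10 : HasFDerivAt (fun q => fderiv ℝ (f1_F V) q (1, 0))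
        ((ContinuousLinearMap.apply ℝ ℝ ((1, 0) : ℝ × E n)).comp
          (fderiv ℝ (fderiv ℝ (f1_F V)) (t, z))) (t, z) :=
      (ContinuousLinearMap.apply ℝ ℝ ((1, 0) : ℝ × E n)).hasFDerivAt.comp (t, z)
        ((f1_dsm h).differentiable (by simp) (t, z)).hasFDerivAt
    rw [h10.fderiv]
    rfl
  have hsym : IsSymmSndFDerivAt ℝ (f1_F V) (t, z) :=
    h.contDiffAt.isSymmSndFDerivAt (by
      rw [minSmoothness_of_isRCLikeNormedField]
      norm_cast)
  rw [h7, hsym (0, x - z) (1, 0)]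
  simp
  ring

/-- second order expansion of the tangent planes, uniform -/
theorem ell_exp {V : ℝ → E n → ℝ} {T lam : ℝ} (h : Flow n V T lam) (R M' : ℝ) :
    ∃ C > 0, ∀ t ∈ Icc (0 : ℝ) T, ∀ d ∈ Icc (0 : ℝ) 1, ∀ z ∈ sphere (0 : E n) 1,
      ∀ x : E n, ‖x‖ ≤ R → ∀ u : E n, ‖u‖ ≤ M' →
      |ell (V (t + d)) z (x + d • u) - ell (V t) z x
        - d * (ell (vd V t) z x + fderiv ℝ (V t) z u)| ≤ C * d ^ 2 := by
  have hs : ContDiff ℝ ∞ (f1_F V) := h.smooth
  have hcomp : IsCompact (Icc (0 : ℝ) (T + 1) ×ˢ (closedBall (0 : E n) 1 ×ˢ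
      closedBall (0 : E n) (|R| + |M'|))) :=
    isCompact_Icc.prod ((isCompact_closedBall 0 1).prod (isCompact_closedBall 0 _))
  have hconv : Convex ℝ (Icc (0 : ℝ) (T + 1) ×ˢ (closedBall (0 : E n) 1 ×ˢ
      closedBall (0 : E n) (|R| + |M'|))) :=
    (convex_Icc _ _).prod ((convex_closedBall _ _).prod (convex_closedBall _ _))
  obtain ⟨C, hC0, hC⟩ := f1_taylor (f1_G_sm hs) hcomp hconv
  refine ⟨C * (1 + |M'|) ^ 2 + 1, by positivity, fun t ht d hd z hz x hx u hu => ?_⟩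
  have hz' : z ∈ closedBall (0 : E n) 1 := sphere_subset_closedBall hz
  have hR : ‖x‖ ≤ |R| := hx.trans (le_abs_self R)
  have hM : ‖u‖ ≤ |M'| := hu.trans (le_abs_self M')
  have hq : ((t, z, x) : ℝ × E n × E n) ∈ Icc (0 : ℝ) (T + 1) ×ˢ (closedBall (0 : E n) 1 ×ˢ
      closedBall (0 : E n) (|R| + |M'|)) := by
    refine ⟨⟨ht.1, by simp only; linarith [ht.2]⟩, hz', ?_⟩
    rw [mem_closedBall_zero_iff]
    simp only
    linarith [abs_nonneg M']
  have hdu : ‖d • u‖ ≤ d * |M'| := by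
    rw [norm_smul, Real.norm_of_nonneg hd.1]
    exact mul_le_mul_of_nonneg_left hM hd.1
  have hq' : ((t + d, z, x + d • u) : ℝ × E n × E n) ∈ Icc (0 : ℝ) (T + 1) ×ˢ
      (closedBall (0 : E n) 1 ×ˢ closedBall (0 : E n) (|R| + |M'|)) := by
    refine ⟨⟨?_, ?_⟩, hz', ?_⟩
    · simp only; linarith [ht.1, hd.1]
    · simp only; linarith [ht.2, hd.2]
    · rw [mem_closedBall_zero_iff]
      refine (norm_add_le _ _).trans (add_le_add hR (hdu.trans ?_))
      exact mul_le_of_le_one_left (abs_nonneg _) hd.2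
  have h1 := hC _ hq _ hq'
  have h2 : ((t + d, z, x + d • u) : ℝ × E n × E n) - (t, z, x) = d • (1, 0, u) := by
    simp
  rw [h2, map_smul, f1_G_deriv hs, smul_eq_mul] at h1
  have h3 : ‖d • ((1, 0, u) : ℝ × E n × E n)‖ ≤ d * (1 + |M'|) := by
    rw [norm_smul, Real.norm_of_nonneg hd.1]
    refine mul_le_mul_of_nonneg_left ?_ hd.1
    rw [Prod.norm_def, Prod.norm_def]
    refine max_le ?_ (max_le ?_ ?_)
    · simp
    · simp only [norm_zero]; positivity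
    · simp only; linarith
  have h4 : ‖d • ((1, 0, u) : ℝ × E n × E n)‖ ^ 2 ≤ (d * (1 + |M'|)) ^ 2 :=
    pow_le_pow_left₀ (norm_nonneg _) h3 2
  refine h1.trans ?_
  have h5 := mul_le_mul_of_nonneg_left h4 hC0
  have h6 : 0 ≤ d ^ 2 := sq_nonneg d
  nlinarith

end Pool.Agent.H21.CE
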