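import Pool.Agent.H21.CE.Rho

/-!
# Gibbs measures of the tangent planes
-/

open MeasureTheory Set Filter Topology Metric
open scoped ContDiff

namespace Pool.Agent.H21.CE

variable {n : ℕ}

private lemma g1_cont_ell {V : E n → ℝ} (hV : ContDiff ℝ ∞ V) (x : E n) :
    Continuous (fun z : E n => ell V z x) :=
  (cont_ell hV).comp (continuous_id.prodMk continuous_const)

private lemma g1_cont_exp {V : E n → ℝ} (hV : ContDiff ℝ ∞ V) (b : ℝ) (x : E n) :
    Continuous (fun z : E n => Real.exp (b * ell V z x)) :=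
  Real.continuous_exp.comp (continuous_const.mul (g1_cont_ell hV x))

private lemma g1_int_exp {V : E n → ℝ} (hV : ContDiff ℝ ∞ V) (b : ℝ) (x : E n) :
    Integrable (fun z : E n => Real.exp (b * ell V z x)) (rho n) :=
  rho_int (g1_cont_exp hV b x)

private lemma g1_neZero (hn : 0 < n) : NeZero (rho n) := by
  refine ⟨fun h => ?_⟩
  have h1 := rho_pos hn
  rw [h] at h1
  simp at h1

theorem Zf_pos (hn : 0 < n) {V : E n → ℝ} (hV : ContDiff ℝ ∞ V) (b : ℝ) (x : E n) :
    0 < Zf b V x := by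
  have := g1_neZero hn
  exact integral_exp_pos (g1_int_exp hV b x)

theorem gib_prob (hn : 0 < n) {V : E n → ℝ} (hV : ContDiff ℝ ∞ V) (b : ℝ) (x : E n) :
    IsProbabilityMeasure (gib b V x) := by
  have := g1_neZero hn
  exact isProbabilityMeasure_tilted (g1_int_exp hV b x)

theorem gib_ae (hn : 0 < n) {V : E n → ℝ} (hV : ContDiff ℝ ∞ V) (b : ℝ) (x : E n) :
    ∀ᵐ z ∂(gib b V x), z ∈ sphere (0 : E n) 1 := by
  have h1 : gib b V x ≪ rho n := tilted_absolutelyContinuous _ _
  exact h1.ae_le (rho_ae hn)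

theorem gib_int {F : Type*} [NormedAddCommGroup F] [NormedSpace ℝ F] {V : E n → ℝ}
    (hV : ContDiff ℝ ∞ V) (b : ℝ) (x : E n) {h : E n → F} (hh : Continuous h) :
    Integrable h (gib b V x) := by
  refine (integrable_tilted_iff (g1_int_exp hV b x) h).mpr ?_
  exact rho_int ((g1_cont_exp hV b x).smul hh)

theorem gib_eq (V : E n → ℝ) (b : ℝ) (x : E n) (h : E n → ℝ) :
    ∫ z, h z ∂(gib b V x) = (∫ z, h z * Real.exp (b * ell V z x) ∂(rho n)) / Zf b V x := by
  unfold gib
  rw [integral_tilted, ← integral_div]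
  refine integral_congr_ae (Eventually.of_forall fun z => ?_)
  simp only [smul_eq_mul, Zf]
  ring

private lemma g1_grad_neg {V : E n → ℝ} (hV : ContDiff ℝ ∞ V) (he : ∀ x, V (-x) = V x)
    (z : E n) : fderiv ℝ V (-z) = -fderiv ℝ V z := by
  have h1 : (fun y => V (-y)) = V := funext he
  have h2 : HasFDerivAt V (fderiv ℝ V (-z)) (-z) :=
    ((hV.differentiable (by simp)) (-z)).hasFDerivAt
  have h3 : HasFDerivAt (fun y : E n => V (-y))
      ((fderiv ℝ V (-z)).comp (-(ContinuousLinearMap.id ℝ (E n)))) z := by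
    exact h2.comp z (hasFDerivAt_id z).neg
  rw [h1] at h3
  have h4 := h3.fderiv
  rw [h4]
  ext v
  simp

private lemma g1_ell_neg {V : E n → ℝ} (hV : ContDiff ℝ ∞ V) (he : ∀ x, V (-x) = V x)
    (z x : E n) : ell V (-z) (-x) = ell V z x := by
  unfold ell
  rw [he, g1_grad_neg hV he]
  have : (-x - -z : E n) = -(x - z) := by abel
  rw [this]
  simp

private lemma g1_Zf_neg {V : E n → ℝ} (hV : ContDiff ℝ ∞ V) (he : ∀ x, V (-x) = V x) (b : ℝ)
    (x : E n) : Zf b V (-x) = Zf b V x := by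
  unfold Zf
  rw [← rho_neg (fun z => Real.exp (b * ell V z (-x)))]
  refine integral_congr_ae (Eventually.of_forall fun z => ?_)
  simp only [g1_ell_neg hV he]

theorem gib_neg {V : E n → ℝ} (hV : ContDiff ℝ ∞ V) (he : ∀ x, V (-x) = V x) (b : ℝ) (x : E n)
    {F : Type*} [NormedAddCommGroup F] [NormedSpace ℝ F] (h : E n → F) :
    ∫ z, h z ∂(gib b V (-x)) = ∫ z, h (-z) ∂(gib b V x) := by
  unfold gib
  rw [integral_tilted, integral_tilted]
  have h1 : (∫ z, Real.exp (b * ell V z (-x)) ∂(rho n)) =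
      ∫ z, Real.exp (b * ell V z x) ∂(rho n) := g1_Zf_neg hV he b x
  rw [h1, ← rho_neg (fun z => (Real.exp (b * ell V z (-x)) /
    ∫ z, Real.exp (b * ell V z x) ∂(rho n)) • h z)]
  refine integral_congr_ae (Eventually.of_forall fun z => ?_)
  simp only [g1_ell_neg hV he]

theorem Psi_neg {V : E n → ℝ} (hV : ContDiff ℝ ∞ V) (he : ∀ x, V (-x) = V x) (b : ℝ) (x : E n) :
    Psi b V (-x) = Psi b V x := by
  unfold Psi
  rw [g1_Zf_neg hV he]

theorem pb_neg {V : E n → ℝ} (hV : ContDiff ℝ ∞ V) (he : ∀ x, V (-x) = V x) (b : ℝ) (x : E n) :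
    pb b V (-x) = -pb b V x := by
  unfold pb
  rw [gib_neg hV he b x (fun z => gradient V z), ← integral_neg]
  refine integral_congr_ae (Eventually.of_forall fun z => ?_)
  simp only [gradient, g1_grad_neg hV he, map_neg]

theorem inner_pb (hn : 0 < n) {V : E n → ℝ} (hV : ContDiff ℝ ∞ V) (b : ℝ) (x y : E n) :
    inner ℝ (pb b V x) y = ∫ z, fderiv ℝ V z y ∂(gib b V x) := by
  unfold pb
  have h1 : Integrable (fun z => gradient V z) (gib b V x) := gib_int hV b x (cont_grad hV)
  rw [real_inner_comm, ← integral_inner h1]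
  refine integral_congr_ae (Eventually.of_forall fun z => ?_)
  simp only [grad_inner]

theorem pb_norm (hn : 0 < n) {V W : E n → ℝ} {lam M : ℝ} (h : Pt n V W lam M) (b : ℝ)
    (x : E n) : ‖pb b V x‖ ≤ M := by
  have := gib_prob hn h.hV b x
  unfold pb
  have h1 : ∀ᵐ z ∂(gib b V x), ‖gradient V z‖ ≤ M := by
    filter_upwards [gib_ae hn h.hV b x] with z hz
    rw [norm_grad]
    exact h.b1 z (sphere_subset_closedBall hz)
  have h2 := norm_integral_le_of_norm_le_const h1
  simpa using h2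

/-- Jensen. -/
theorem Psi_convex (hn : 0 < n) {V : E n → ℝ} (hV : ContDiff ℝ ∞ V) {b : ℝ} (hb : 0 < b)
    (x y : E n) : Psi b V x + inner ℝ (pb b V x) (y - x) ≤ Psi b V y := by
  have hp := gib_prob hn hV b x
  have hfd : Continuous (fderiv ℝ V) := hV.continuous_fderiv (by simp)
  have hc : Continuous (fun z : E n => b * fderiv ℝ V z (y - x)) :=
    continuous_const.mul (hfd.clm_apply continuous_const)
  have hce : Continuous (fun z : E n => Real.exp (b * fderiv ℝ V z (y - x))) :=
    Real.continuous_exp.comp hc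
  have h1 : Real.exp (∫ z, b * fderiv ℝ V z (y - x) ∂(gib b V x)) ≤
      ∫ z, Real.exp (b * fderiv ℝ V z (y - x)) ∂(gib b V x) :=
    convexOn_exp.map_integral_le Real.continuous_exp.continuousOn isClosed_univ
      (Eventually.of_forall fun _ => mem_univ _) (gib_int hV b x hc) (gib_int hV b x hce)
  have hZx := Zf_pos hn hV b x
  have hZy := Zf_pos hn hV b y
  have h2 : (∫ z, Real.exp (b * fderiv ℝ V z (y - x)) ∂(gib b V x)) = Zf b V y / Zf b V x := by
    rw [gib_eq]
    congr 1
    unfold Zf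
    refine integral_congr_ae (Eventually.of_forall fun z => ?_)
    simp only
    rw [← Real.exp_add]
    congr 1
    unfold ell
    have : y - z = (y - x) + (x - z) := by abel
    rw [this, map_add]
    ring
  have h3 : (∫ z, b * fderiv ℝ V z (y - x) ∂(gib b V x)) = b * inner ℝ (pb b V x) (y - x) := by
    rw [inner_pb hn hV, integral_const_mul]
  rw [h2, h3] at h1
  have h4 : b * inner ℝ (pb b V x) (y - x) ≤ Real.log (Zf b V y) - Real.log (Zf b V x) := by
    rw [← Real.log_div hZy.ne' hZx.ne']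
    exact (Real.le_log_iff_exp_le (div_pos hZy hZx)).mpr h1
  unfold Psi
  have h5 : b * ((1 / b) * Real.log (Zf b V x) + inner ℝ (pb b V x) (y - x)) ≤
      b * ((1 / b) * Real.log (Zf b V y)) := by
    have e1 : b * ((1 / b) * Real.log (Zf b V x)) = Real.log (Zf b V x) := by
      field_simp
    have e2 : b * ((1 / b) * Real.log (Zf b V y)) = Real.log (Zf b V y) := by
      field_simp
    rw [mul_add, e1, e2]
    linarith
  exact le_of_mul_le_mul_left h5 hb

end Pool.Agent.H21.CE
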