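import Pool.Agent.H21.CE.Rho
import Pool.Agent.H21.CE.Gib

/-! Task F2: continuity of the growth rate in time and space, and of the soft maximum. -/

open MeasureTheory Set Filter Topology Metric
open scoped ContDiff

namespace Pool.Agent.H21.CE

variable {n : ℕ}

lemma f2_restrict (hn : 0 < n) : (rho n).restrict (sphere (0 : E n) 1) = rho n :=
  Measure.restrict_eq_self_of_ae_mem (rho_ae hn)

/-- parametric integrals with respect to `rho` are continuous -/
lemma f2_rho (hn : 0 < n) {X : Type*} [TopologicalSpace X] [FirstCountableTopology X]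
    [LocallyCompactSpace X] {F : Type*} [NormedAddCommGroup F] [NormedSpace ℝ F]
    {H : X → E n → F} (hH : Continuous (Function.uncurry H)) :
    Continuous (fun q : X => ∫ z, H q z ∂(rho n)) := by
  have h := continuous_parametric_integral_of_continuous (μ := rho n) hH
    (isCompact_sphere (0 : E n) 1)
  simpa only [f2_restrict hn] using h

/-- the integral with respect to the Gibbs measure -/
lemma f2_gib (V : E n → ℝ) (b : ℝ) (x : E n) {F : Type*} [NormedAddCommGroup F]
    [NormedSpace ℝ F] (k : E n → F) :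
    ∫ z, k z ∂(gib b V x) = (Zf b V x)⁻¹ • ∫ z, Real.exp (b * ell V z x) • k z ∂(rho n) := by
  rw [gib, integral_tilted, ← integral_smul]
  refine integral_congr_ae (Eventually.of_forall fun z => ?_)
  simp only [smul_smul, Zf, div_eq_inv_mul]

section flow

variable {V : ℝ → E n → ℝ}

lemma f2_fd (h : ContDiff ℝ ∞ (fun q : ℝ × E n => V q.1 q.2)) :
    ContDiff ℝ ∞ (fun q : ℝ × E n => fderiv ℝ (V q.1) q.2) := by
  have h1 : ContDiff ℝ ∞ (Function.uncurry (fun q : ℝ × E n => V q.1)) := by
    have : ContDiff ℝ ∞ (fun p : (ℝ × E n) × E n => (p.1.1, p.2)) := by fun_prop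
    exact h.comp this
  exact ContDiff.fderiv h1 contDiff_snd (by simp)

lemma f2_slice (h : ContDiff ℝ ∞ (fun q : ℝ × E n => V q.1 q.2)) (t : ℝ) :
    ContDiff ℝ ∞ (V t) := by
  have : ContDiff ℝ ∞ (fun x : E n => (t, x)) := by fun_prop
  exact h.comp this

lemma f2_vd (h : ContDiff ℝ ∞ (fun q : ℝ × E n => V q.1 q.2)) :
    ContDiff ℝ ∞ (fun q : ℝ × E n => vd V q.1 q.2) := by
  have h1 : ContDiff ℝ ∞ (Function.uncurry (fun (q : ℝ × E n) (s : ℝ) => V s q.2)) := by
    have : ContDiff ℝ ∞ (fun p : (ℝ × E n) × ℝ => (p.2, p.1.2)) := by fun_prop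
    exact h.comp this
  have h2 : ContDiff ℝ ∞ (fun q : ℝ × E n => fderiv ℝ (fun s => V s q.2) q.1) :=
    ContDiff.fderiv h1 contDiff_fst (by simp)
  have h3 : ContDiff ℝ ∞ (fun q : ℝ × E n => fderiv ℝ (fun s => V s q.2) q.1 1) :=
    h2.clm_apply contDiff_const
  simpa only [vd, fderiv_apply_one_eq_deriv] using h3

lemma f2_grad (h : ContDiff ℝ ∞ (fun q : ℝ × E n => V q.1 q.2)) :
    Continuous (fun q : ℝ × E n => gradient (V q.1) q.2) :=
  (InnerProductSpace.toDual ℝ (E n)).symm.continuous.comp (f2_fd h).continuous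

lemma f2_ell (h : ContDiff ℝ ∞ (fun q : ℝ × E n => V q.1 q.2)) :
    Continuous (fun p : (ℝ × E n) × E n => ell (V p.1.1) p.2 p.1.2) := by
  have e : Continuous (fun p : (ℝ × E n) × E n => (p.1.1, p.2)) := by fun_prop
  have h1 := h.continuous.comp e
  have h2 := (f2_fd h).continuous.comp e
  exact h1.add (h2.clm_apply (by fun_prop))

lemma f2_Zf (hn : 0 < n) (h : ContDiff ℝ ∞ (fun q : ℝ × E n => V q.1 q.2)) (b : ℝ) :
    Continuous (fun q : ℝ × E n => Zf b (V q.1) q.2) := by
  refine f2_rho hn (H := fun (q : ℝ × E n) (z : E n) => Real.exp (b * ell (V q.1) z q.2)) ?_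
  exact Real.continuous_exp.comp (continuous_const.mul (f2_ell h))

/-- Gibbs integrals depend continuously on time and space -/
lemma f2_int (hn : 0 < n) (h : ContDiff ℝ ∞ (fun q : ℝ × E n => V q.1 q.2)) (b : ℝ)
    {F : Type*} [NormedAddCommGroup F] [NormedSpace ℝ F] {H : ℝ × E n → E n → F}
    (hH : Continuous (Function.uncurry H)) :
    Continuous (fun q : ℝ × E n => ∫ z, H q z ∂(gib b (V q.1) q.2)) := by
  simp only [f2_gib]
  refine ((f2_Zf hn h b).inv₀ fun q => (Zf_pos hn (f2_slice h q.1) b q.2).ne').smul ?_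
  refine f2_rho hn (H := fun (q : ℝ × E n) (z : E n) => Real.exp (b * ell (V q.1) z q.2) • H q z) ?_
  exact (Real.continuous_exp.comp (continuous_const.mul (f2_ell h))).smul hH

lemma f2_pb (hn : 0 < n) (h : ContDiff ℝ ∞ (fun q : ℝ × E n => V q.1 q.2)) (b : ℝ) :
    Continuous (fun q : ℝ × E n => pb b (V q.1) q.2) := by
  refine f2_int hn h b (H := fun (q : ℝ × E n) (z : E n) => gradient (V q.1) z) ?_
  exact (f2_grad h).comp (by fun_prop : Continuous (fun p : (ℝ × E n) × E n => (p.1.1, p.2)))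

end flow

theorem gfun_cont (hn : 0 < n) {V : ℝ → E n → ℝ}
    (h : ContDiff ℝ ∞ (fun q : ℝ × E n => V q.1 q.2)) (b : ℝ) :
    Continuous (fun q : ℝ × E n => gfun b (V q.1) (vd V q.1) q.2) := by
  have hp := f2_pb hn h b
  have hg : Continuous (fun p : (ℝ × E n) × E n => gradient (V p.1.1) p.2) :=
    (f2_grad h).comp (by fun_prop : Continuous (fun p : (ℝ × E n) × E n => (p.1.1, p.2)))
  have hd : Continuous (fun p : (ℝ × E n) × E n =>
      gradient (V p.1.1) p.2 - pb b (V p.1.1) p.1.2) := hg.sub (hp.comp continuous_fst)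
  have hT : Continuous (fun q : ℝ × E n => Tg b (V q.1) q.2) := by
    refine continuous_const.mul (f2_int hn h b
      (H := fun (q : ℝ × E n) (z : E n) => ‖gradient (V q.1) z - pb b (V q.1) q.2‖ ^ 2
        - (inner ℝ q.2 (gradient (V q.1) z - pb b (V q.1) q.2)) ^ 2) ?_)
    exact (hd.norm.pow 2).sub (((continuous_snd.comp continuous_fst).inner hd).pow 2)
  have hW : Continuous (fun q : ℝ × E n => ∫ z, ell (vd V q.1) z q.2 ∂(gib b (V q.1) q.2)) :=
    f2_int hn h b (H := fun (q : ℝ × E n) (z : E n) => ell (vd V q.1) z q.2) (f2_ell (f2_vd h))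
  have hi : Continuous (fun q : ℝ × E n => inner ℝ q.2 (pb b (V q.1) q.2)) :=
    continuous_snd.inner hp
  exact (((hT.sub (continuous_const.mul hi)).sub (hp.norm.pow 2)).add (hi.pow 2)).sub hW

theorem Psi_cont (hn : 0 < n) {V : E n → ℝ} (hV : ContDiff ℝ ∞ V) (b : ℝ) :
    Continuous (Psi b V) := by
  have hZ : Continuous (Zf b V) := by
    refine f2_rho hn (H := fun (q : E n) (z : E n) => Real.exp (b * ell V z q)) ?_
    exact Real.continuous_exp.comp (continuous_const.mul
      ((cont_ell hV).comp (by fun_prop : Continuous (fun p : E n × E n => (p.2, p.1)))))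
  exact continuous_const.mul (hZ.log fun x => (Zf_pos hn hV b x).ne')

/-- the error functional -/
noncomputable def etaf (b R : ℝ) (V W : E n → ℝ) : ℝ :=
  ∫ x in closedBall (0 : E n) R \ ball (0 : E n) 1, max (-gfun b V W x) 0

end Pool.Agent.H21.CE
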