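import Pool.Agent.H21.CE.PsiB

/-!
# The Gibbs measure concentrates at the maximum: second moment of the gap
-/

set_option autoImplicit false

open MeasureTheory Set Filter Topology Metric
open scoped ContDiff

namespace Pool.Agent.H21.CE

variable {n : ℕ}

namespace Gap

lemma sq_exp (t : ℝ) (ht : 0 ≤ t) : t ^ 2 * Real.exp (-t) ≤ 8 * Real.exp (-(t / 2)) := by
  have h1 : t / 4 + 1 ≤ Real.exp (t / 4) := Real.add_one_le_exp _
  have h2 : (t / 4 + 1) ^ 2 ≤ Real.exp (t / 4) ^ 2 := by gcongr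
  have h3 : Real.exp (t / 4) ^ 2 = Real.exp (t / 2) := by
    rw [← Real.exp_nat_mul]; congr 1; push_cast; ring
  have h4 : 1 + t / 2 + (t / 2) ^ 2 / 2 ≤ Real.exp (t / 2) :=
    Real.quadratic_le_exp_of_nonneg (by positivity)
  have h5 : t ^ 2 ≤ 8 * Real.exp (t / 2) := by nlinarith
  have h6 : Real.exp (-t) = Real.exp (-(t / 2)) * Real.exp (-(t / 2)) := by
    rw [← Real.exp_add]; congr 1; ring
  have h7 : Real.exp (t / 2) * Real.exp (-(t / 2)) = 1 := by
    rw [← Real.exp_add]; simp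
  calc t ^ 2 * Real.exp (-t) ≤ 8 * Real.exp (t / 2) * Real.exp (-t) := by gcongr
    _ = 8 * (Real.exp (t / 2) * Real.exp (-(t / 2))) * Real.exp (-(t / 2)) := by rw [h6]; ring
    _ = 8 * Real.exp (-(t / 2)) := by rw [h7]; ring

/-- pointwise bound -/
lemma ptw_bound (t m : ℝ) (ht : 0 ≤ t) (_hm : 0 ≤ m) :
    t ^ 2 * Real.exp (-t) ≤ m ^ 2 * Real.exp (-t) + 8 * Real.exp (-(m / 2)) := by
  rcases le_or_gt t m with h | h
  · have : t ^ 2 * Real.exp (-t) ≤ m ^ 2 * Real.exp (-t) := by gcongr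
    have h2 := Real.exp_pos (-(m / 2))
    linarith
  · have h1 := sq_exp t ht
    have h2 : Real.exp (-(t / 2)) ≤ Real.exp (-(m / 2)) := by
      apply Real.exp_le_exp.2; linarith
    have h3 : 0 ≤ m ^ 2 * Real.exp (-t) := by positivity
    linarith

lemma lim (A B : ℝ) : Tendsto (fun b : ℝ => (A * (Real.log b) ^ 2 + B) / b) atTop (𝓝 0) := by
  have h1 : Tendsto (fun b : ℝ => Real.log b ^ 2 / b) atTop (𝓝 0) := by
    have := (Real.isLittleO_pow_log_id_atTop (n := 2)).tendsto_div_nhds_zero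
    simpa using this
  have h2 : Tendsto (fun b : ℝ => 1 / b) atTop (𝓝 0) := by
    simpa using tendsto_inv_atTop_zero (𝕜 := ℝ)
  have h3 := (h1.const_mul A).add (h2.const_mul B)
  simp only [mul_zero, add_zero] at h3
  refine h3.congr fun b => ?_
  ring

end Gap

theorem gap_small (hn : 0 < n) (lam M R : ℝ) (e : ℝ) (he : 0 < e) : ∃ b0 ≥ (1 : ℝ),
    ∀ V W : E n → ℝ, Pt n V W lam M → ∀ b ≥ b0, ∀ x : E n, ‖x‖ ≤ R →
      b * ∫ z, (VS V x - ell V z x) ^ 2 ∂(gib b V x) ≤ e := by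
  obtain ⟨c, hc, hZ⟩ := Zf_lower hn lam M R
  set r := (rho n).real univ with hr
  have hr0 : 0 < r := rho_pos hn
  have hlim := Gap.lim (4 * (n : ℝ) ^ 2) (8 * r / c)
  obtain ⟨b1, hb1⟩ := (hlim.eventually (gt_mem_nhds he)).exists_forall_of_atTop
  refine ⟨max b1 1, le_max_right _ _, fun V W h b hb x hx => ?_⟩
  have hb1' : b1 ≤ b := (le_max_left _ _).trans hb
  have hb1'' : 1 ≤ b := (le_max_right _ _).trans hb
  have hb0 : 0 < b := by linarith
  refine le_trans ?_ (hb1 b hb1').le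
  have hZp : 0 < Zf b V x := Zf_pos hn h.hV b x
  have hZl := hZ V W h b hb1'' x hx
  set m := 2 * (n : ℝ) * Real.log b with hm
  have hlog : 0 ≤ Real.log b := Real.log_nonneg hb1''
  have hm0 : 0 ≤ m := by positivity
  set S := VS V x with hS
  rw [gib_eq]
  -- pointwise on the sphere
  have hpt : ∀ᵐ z ∂(rho n), (S - ell V z x) ^ 2 * Real.exp (b * ell V z x) ≤
      (1 / b ^ 2) * (m ^ 2 * Real.exp (b * ell V z x) +
        8 * Real.exp (-(m / 2)) * Real.exp (b * S)) := by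
    filter_upwards [rho_ae hn] with z hz
    have h1 : 0 ≤ S - ell V z x := sub_nonneg.2 (ell_le_VS' h.hV x hz)
    have h2 := Gap.ptw_bound (b * (S - ell V z x)) m (by positivity) hm0
    have h3 : Real.exp (b * ell V z x) = Real.exp (-(b * (S - ell V z x))) * Real.exp (b * S) := by
      rw [← Real.exp_add]; congr 1; ring
    rw [h3]
    have h4 : (S - ell V z x) ^ 2 = (1 / b ^ 2) * (b * (S - ell V z x)) ^ 2 := by
      field_simp
    rw [h4]
    have h5 : 0 ≤ (1 / b ^ 2) * Real.exp (b * S) := by positivity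
    calc 1 / b ^ 2 * (b * (S - ell V z x)) ^ 2 * (Real.exp (-(b * (S - ell V z x))) * Real.exp (b * S))
        = (1 / b ^ 2 * Real.exp (b * S)) * ((b * (S - ell V z x)) ^ 2 *
          Real.exp (-(b * (S - ell V z x)))) := by ring
      _ ≤ (1 / b ^ 2 * Real.exp (b * S)) * (m ^ 2 * Real.exp (-(b * (S - ell V z x))) +
          8 * Real.exp (-(m / 2))) := by gcongr
      _ = _ := by ring
  have hcl : Continuous (fun z => ell V z x) := VSm.cont_ell_z h.hV x
  have hce : Continuous (fun z => Real.exp (b * ell V z x)) := by fun_prop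
  have i1 : Integrable (fun z => (S - ell V z x) ^ 2 * Real.exp (b * ell V z x)) (rho n) :=
    rho_int (by fun_prop)
  have i2 : Integrable (fun z => (1 / b ^ 2) * (m ^ 2 * Real.exp (b * ell V z x) +
        8 * Real.exp (-(m / 2)) * Real.exp (b * S))) (rho n) :=
    rho_int (by fun_prop)
  have i3 : Integrable (fun z => Real.exp (b * ell V z x)) (rho n) := rho_int hce
  have hle := integral_mono_ae i1 i2 hpt
  have heq : ∫ z, (1 / b ^ 2) * (m ^ 2 * Real.exp (b * ell V z x) +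
        8 * Real.exp (-(m / 2)) * Real.exp (b * S)) ∂(rho n) =
      (1 / b ^ 2) * (m ^ 2 * Zf b V x + 8 * Real.exp (-(m / 2)) * Real.exp (b * S) * r) := by
    rw [integral_const_mul, integral_add (i3.const_mul _) (integrable_const _), integral_const_mul,
      integral_const, smul_eq_mul]
    rw [hr]
    unfold Zf
    ring
  rw [heq] at hle
  have hexp : Real.exp (-(m / 2)) = (b ^ n)⁻¹ := by
    rw [hm, show -(2 * (n : ℝ) * Real.log b / 2) = -((n : ℝ) * Real.log b) by ring, Real.exp_neg,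
      Real.exp_nat_mul, Real.exp_log hb0]
  rw [hexp] at hle
  -- use the lower bound for the partition function
  have hS2 : (b ^ n)⁻¹ * Real.exp (b * S) ≤ Zf b V x / c := by
    rw [le_div_iff₀ hc]
    calc (b ^ n)⁻¹ * Real.exp (b * S) * c = c * (b ^ n)⁻¹ * Real.exp (b * S) := by ring
      _ ≤ Zf b V x := hZl
  have hfin : ∫ z, (S - ell V z x) ^ 2 * Real.exp (b * ell V z x) ∂(rho n) ≤
      (1 / b ^ 2) * (m ^ 2 + 8 * r / c) * Zf b V x := by
    refine hle.trans ?_
    have : 8 * (b ^ n)⁻¹ * Real.exp (b * S) * r ≤ 8 * r / c * Zf b V x := by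
      calc 8 * (b ^ n)⁻¹ * Real.exp (b * S) * r = 8 * r * ((b ^ n)⁻¹ * Real.exp (b * S)) := by ring
        _ ≤ 8 * r * (Zf b V x / c) := by gcongr
        _ = _ := by ring
    calc (1 / b ^ 2) * (m ^ 2 * Zf b V x + 8 * (b ^ n)⁻¹ * Real.exp (b * S) * r)
        ≤ (1 / b ^ 2) * (m ^ 2 * Zf b V x + 8 * r / c * Zf b V x) := by gcongr
      _ = _ := by ring
  calc b * ((∫ z, (S - ell V z x) ^ 2 * Real.exp (b * ell V z x) ∂(rho n)) / Zf b V x)
      ≤ b * (((1 / b ^ 2) * (m ^ 2 + 8 * r / c) * Zf b V x) / Zf b V x) := by gcongr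
    _ = (m ^ 2 + 8 * r / c) / b := by field_simp
    _ = (4 * (n : ℝ) ^ 2 * Real.log b ^ 2 + 8 * r / c) / b := by rw [hm]; ring

end Pool.Agent.H21.CE
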