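import Pool.Agent.H21.CE.Dbl
import Pool.Agent.H21.CE.Gap

/-!
# Task G12: the uniform lower bound of the growth rate
-/

open MeasureTheory Set Filter Topology Metric
open scoped ContDiff

namespace Pool.Agent.H21.CE

variable {n : ℕ}

theorem g_low (hn : 0 < n) (lam M R : ℝ) : ∃ C > 0, ∃ b0 ≥ (1 : ℝ), ∀ V W : E n → ℝ,
    Pt n V W lam M → ∀ b ≥ b0, ∀ x : E n, ‖x‖ ≤ R → -C ≤ gfun b V W x := by
  set A : ℝ := 1 + 4 * M ^ 2 / (1 / 2 * lam ^ 2) with hA
  have hA0 : 0 < A := by positivity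
  obtain ⟨b0, hb0, hgap⟩ := gap_small hn lam M R (1 / (2 * A)) (by positivity)
  refine ⟨1 + ((n : ℝ) + 1) * (|R| * |M|) + M ^ 2 + (|M| + |M| * (|R| + 1)), by positivity, b0,
    hb0, fun V W h b hb x hx => ?_⟩
  have hb1 : 0 < b := by linarith
  have hR : 0 ≤ R := (norm_nonneg x).trans hx
  have hM : 0 ≤ M := by linarith [h.one_le]
  rw [abs_of_nonneg hR, abs_of_nonneg hM]
  have := gib_prob hn h.hV b x
  have e1 := Tg_lower hn h hb1 x (th := 1 / 2) (by norm_num)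
  have e2 := Tt_nonneg hn h hb1 x
  have e3 := hgap V W h b hb x hx
  rw [← hA] at e1
  have e4 : A * (2 * b * ∫ z, (VS V x - ell V z x) ^ 2 ∂(gib b V x)) ≤ 1 := by
    have e5 : A * (2 * b * ∫ z, (VS V x - ell V z x) ^ 2 ∂(gib b V x)) =
        2 * A * (b * ∫ z, (VS V x - ell V z x) ^ 2 ∂(gib b V x)) := by ring
    rw [e5]
    calc 2 * A * (b * ∫ z, (VS V x - ell V z x) ^ 2 ∂(gib b V x)) ≤ 2 * A * (1 / (2 * A)) :=
          mul_le_mul_of_nonneg_left e3 (by positivity)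
      _ = 1 := by field_simp
  have e5 : -1 ≤ Tg b V x := by linarith
  have e6 : ‖pb b V x‖ ≤ M := pb_norm hn h b x
  have e7 : |inner ℝ x (pb b V x)| ≤ R * M := by
    calc |inner ℝ x (pb b V x)| ≤ ‖x‖ * ‖pb b V x‖ := abs_real_inner_le_norm _ _
      _ ≤ R * M := mul_le_mul hx e6 (norm_nonneg _) hR
  have e8 : ‖pb b V x‖ ^ 2 ≤ M ^ 2 := pow_le_pow_left₀ (norm_nonneg _) e6 2
  have e9 : |∫ z, ell W z x ∂(gib b V x)| ≤ M + M * (R + 1) := by
    have e10 : ∀ᵐ z ∂(gib b V x), ‖ell W z x‖ ≤ M + M * (R + 1) := by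
      filter_upwards [gib_ae hn h.hV b x] with z hz
      have hz1 : ‖z‖ = 1 := by simpa using hz
      have hzB : z ∈ closedBall (0 : E n) 1 := by simp [hz1]
      rw [ell]
      calc ‖W z + fderiv ℝ W z (x - z)‖ ≤ ‖W z‖ + ‖fderiv ℝ W z (x - z)‖ := norm_add_le _ _
        _ ≤ M + ‖fderiv ℝ W z‖ * ‖x - z‖ :=
            add_le_add (h.bW z hzB) ((fderiv ℝ W z).le_opNorm _)
        _ ≤ M + M * (R + 1) := by
            have h1 : ‖x - z‖ ≤ R + 1 := by
              calc ‖x - z‖ ≤ ‖x‖ + ‖z‖ := norm_sub_le _ _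
                _ ≤ R + 1 := by rw [hz1]; linarith
            have h2 : ‖fderiv ℝ W z‖ * ‖x - z‖ ≤ M * (R + 1) :=
              mul_le_mul (h.bW1 z hzB) h1 (norm_nonneg _) hM
            linarith
    have e11 := norm_integral_le_of_norm_le_const e10
    rw [probReal_univ, mul_one] at e11
    exact e11
  have e12 := abs_le.mp e7
  have e13 := abs_le.mp e9
  have e14 : ((n : ℝ) + 1) * inner ℝ x (pb b V x) ≤ ((n : ℝ) + 1) * (R * M) :=
    mul_le_mul_of_nonneg_left e12.2 (by positivity)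
  unfold gfun
  nlinarith [sq_nonneg (inner ℝ x (pb b V x))]

end Pool.Agent.H21.CE
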