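import Pool.Agent.H21.CE.RhoIbp
import Pool.Agent.H21.CE.Gib

/-!
# The variance bound for rotations
-/

open MeasureTheory Set Filter Topology Metric
open scoped ContDiff

namespace Pool.Agent.H21.CE

variable {n : ℕ}

/-- `Jm i j` as a continuous linear map -/
noncomputable def g7_J (i j : Fin n) : E n →L[ℝ] E n :=
  (EuclideanSpace.proj i).smulRight (eb j) - (EuclideanSpace.proj j).smulRight (eb i)

theorem g7_J_apply (i j : Fin n) (z : E n) : g7_J i j z = Jm i j z := by
  simp [g7_J, Jm]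

section smooth

variable {V : E n → ℝ}

theorem g7_d1 (hV : ContDiff ℝ ∞ V) : ContDiff ℝ ∞ (fderiv ℝ V) :=
  hV.fderiv_right (by simp)

theorem g7_d2 (hV : ContDiff ℝ ∞ V) : ContDiff ℝ ∞ (fderiv ℝ (fderiv ℝ V)) :=
  (g7_d1 hV).fderiv_right (by simp)

theorem g7_ell (hV : ContDiff ℝ ∞ V) (x : E n) : ContDiff ℝ ∞ (fun z => ell V z x) := by
  unfold ell
  exact hV.add ((g7_d1 hV).clm_apply (contDiff_const.sub contDiff_id))

/-- the derivative of the tangent plane with respect to the point of contact -/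
theorem g7_ell_deriv (hV : ContDiff ℝ ∞ V) (x z w : E n) :
    fderiv ℝ (fun z => ell V z x) z w = hs V z w (x - z) := by
  have h1 : HasFDerivAt V (fderiv ℝ V z) z :=
    (hV.differentiable (by simp)).differentiableAt.hasFDerivAt
  have h2 : HasFDerivAt (fderiv ℝ V) (fderiv ℝ (fderiv ℝ V) z) z :=
    ((g7_d1 hV).differentiable (by simp)).differentiableAt.hasFDerivAt
  have h3 : HasFDerivAt (fun z : E n => x - z) (-(ContinuousLinearMap.id ℝ (E n))) z :=
    (hasFDerivAt_id z).const_sub x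
  have h4 := h1.add (h2.clm_apply h3)
  have h5 : (fun z => ell V z x) = V + fun y => (fderiv ℝ V y) (x - y) := by
    funext z
    rfl
  rw [h5, h4.fderiv]
  simp [hs]

/-- the rotation derivative of the tangent plane -/
noncomputable def g7_k2 (V : E n → ℝ) (i j : Fin n) (x z : E n) : ℝ :=
  hs V z (Jm i j z) (x - z)

theorem g7_k2_cd (hV : ContDiff ℝ ∞ V) (i j : Fin n) (x : E n) :
    ContDiff ℝ ∞ (g7_k2 V i j x) := by
  have h1 : g7_k2 V i j x = fun z => fderiv ℝ (fderiv ℝ V) z (g7_J i j z) (x - z) := by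
    funext z
    rw [g7_k2, hs, g7_J_apply]
  rw [h1]
  exact ((g7_d2 hV).clm_apply (g7_J i j).contDiff).clm_apply (contDiff_const.sub contDiff_id)

theorem g7_k2_deriv (hV : ContDiff ℝ ∞ V) (i j : Fin n) (x z : E n) :
    fderiv ℝ (g7_k2 V i j x) z (Jm i j z) = d3 V z (Jm i j z) (Jm i j z) (x - z)
      + hs V z (Jm i j (Jm i j z)) (x - z) - hs V z (Jm i j z) (Jm i j z) := by
  have h1 : g7_k2 V i j x = fun z => fderiv ℝ (fderiv ℝ V) z (g7_J i j z) (x - z) := by
    funext z
    rw [g7_k2, hs, g7_J_apply]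
  have h2 : HasFDerivAt (fderiv ℝ (fderiv ℝ V)) (fderiv ℝ (fderiv ℝ (fderiv ℝ V)) z) z :=
    ((g7_d2 hV).differentiable (by simp)).differentiableAt.hasFDerivAt
  have h3 : HasFDerivAt (fun z => g7_J i j z) (g7_J i j) z := (g7_J i j).hasFDerivAt
  have h4 : HasFDerivAt (fun z : E n => x - z) (-(ContinuousLinearMap.id ℝ (E n))) z :=
    (hasFDerivAt_id z).const_sub x
  have h5 := (h2.clm_apply h3).clm_apply h4
  rw [h1, h5.fderiv]
  simp only [_root_.add_apply, ContinuousLinearMap.comp_apply,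
    ContinuousLinearMap.flip_apply, _root_.neg_apply, ContinuousLinearMap.id_apply,
    g7_J_apply, hs, d3, map_neg]
  ring

theorem g7_k1_deriv (hV : ContDiff ℝ ∞ V) (p v z w : E n) :
    fderiv ℝ (fun z => inner ℝ (gradient V z - p) v) z w = hs V z w v := by
  have h1 : (fun z => inner ℝ (gradient V z - p) v) = fun z => fderiv ℝ V z v - inner ℝ p v := by
    funext z
    rw [inner_sub_left, inner_grad]
  have h2 : HasFDerivAt (fderiv ℝ V) (fderiv ℝ (fderiv ℝ V) z) z :=
    ((g7_d1 hV).differentiable (by simp)).differentiableAt.hasFDerivAt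
  have h3 := (h2.clm_apply (hasFDerivAt_const v z)).sub_const (inner ℝ p v)
  rw [h1, h3.fderiv]
  simp [hs]

theorem g7_k1_cd (hV : ContDiff ℝ ∞ V) (p v : E n) :
    ContDiff ℝ ∞ (fun z => inner ℝ (gradient V z - p) v) := by
  have h1 : (fun z => inner ℝ (gradient V z - p) v) = fun z => fderiv ℝ V z v - inner ℝ p v := by
    funext z
    rw [inner_sub_left, inner_grad]
  rw [h1]
  exact ((g7_d1 hV).clm_apply contDiff_const).sub contDiff_const

/-- integration by parts for the Gibbs measure -/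
theorem g7_ibp (hV : ContDiff ℝ ∞ V) (b : ℝ) (x : E n) (i j : Fin n)
    {k : E n → ℝ} (hk : ContDiff ℝ ∞ k) :
    ∫ z, fderiv ℝ k z (Jm i j z) ∂(gib b V x)
      = -(b * ∫ z, k z * g7_k2 V i j x z ∂(gib b V x)) := by
  have hell := g7_ell hV x
  have hJ : Continuous (fun z : E n => Jm i j z) := by
    have : (fun z : E n => Jm i j z) = fun z => g7_J i j z := by
      funext z
      rw [g7_J_apply]
    rw [this]
    exact (g7_J i j).continuous
  have hexp : Continuous (fun z => Real.exp (b * ell V z x)) :=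
    Real.continuous_exp.comp (continuous_const.mul hell.continuous)
  have hdk : Continuous (fun z => fderiv ℝ k z (Jm i j z)) :=
    (hk.continuous_fderiv (by simp)).clm_apply hJ
  have hkk : Continuous (fun z => k z * g7_k2 V i j x z) :=
    hk.continuous.mul (g7_k2_cd hV i j x).continuous
  have h1 : ∀ z, fderiv ℝ (fun z => k z * Real.exp (b * ell V z x)) z (Jm i j z)
      = fderiv ℝ k z (Jm i j z) * Real.exp (b * ell V z x)
        + b * ((k z * g7_k2 V i j x z) * Real.exp (b * ell V z x)) := by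
    intro z
    have hk1 : HasFDerivAt k (fderiv ℝ k z) z :=
      (hk.differentiable (by simp)).differentiableAt.hasFDerivAt
    have he1 : HasFDerivAt (fun z => ell V z x) (fderiv ℝ (fun z => ell V z x) z) z :=
      (hell.differentiable (by simp)).differentiableAt.hasFDerivAt
    have he2 := (he1.const_mul b).exp
    have h2 : HasFDerivAt (fun z => k z * Real.exp (b * ell V z x))
        (k z • Real.exp (b * ell V z x) • b • fderiv ℝ (fun z => ell V z x) z
          + Real.exp (b * ell V z x) • fderiv ℝ k z) z := hk1.mul he2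
    rw [h2.fderiv]
    simp only [_root_.add_apply, _root_.smul_apply, smul_eq_mul, g7_ell_deriv hV, g7_k2]
    ring
  have h2 := rho_ibp (h := fun z => k z * Real.exp (b * ell V z x))
    ((hk.mul (Real.contDiff_exp.comp (contDiff_const.mul hell))).of_le (by simp)) i j
  simp only [h1] at h2
  have i1 : Integrable (fun z => fderiv ℝ k z (Jm i j z) * Real.exp (b * ell V z x)) (rho n) :=
    rho_int (hdk.mul hexp)
  have i2 : Integrable (fun z => b * (k z * g7_k2 V i j x z * Real.exp (b * ell V z x)))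
      (rho n) := (rho_int (hkk.mul hexp)).const_mul b
  rw [integral_add i1 i2, integral_const_mul] at h2
  rw [gib_eq, gib_eq]
  have h3 : ∫ z, fderiv ℝ k z (Jm i j z) * Real.exp (b * ell V z x) ∂(rho n)
      = -(b * ∫ z, k z * g7_k2 V i j x z * Real.exp (b * ell V z x) ∂(rho n)) := by linarith
  rw [h3]
  ring

theorem g7_Qf (hV : ContDiff ℝ ∞ V) (i j : Fin n) (z0 x z : E n) (p : E n) :
    Qf V i j z0 x z = 2 * fderiv ℝ (fun z => inner ℝ (gradient V z - p) (Jm i j z0)) z (Jm i j z)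
      + fderiv ℝ (g7_k2 V i j x) z (Jm i j z) := by
  rw [g7_k1_deriv hV, g7_k2_deriv hV, Qf]
  ring

end smooth

theorem vari (hn : 0 < n) {V : E n → ℝ} (hV : ContDiff ℝ ∞ V) {b : ℝ} (hb : 0 < b)
    (x z0 : E n) (i j : Fin n) :
    ∫ z, Qf V i j z0 x z ∂(gib b V x) ≤
      b * ∫ z, (inner ℝ (gradient V z - pb b V x) (Jm i j z0)) ^ 2 ∂(gib b V x) := by
  have _ := hn
  set p := pb b V x with hp
  have hJ : Continuous (fun z : E n => Jm i j z) := by
    have : (fun z : E n => Jm i j z) = fun z => g7_J i j z := by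
      funext z
      rw [g7_J_apply]
    rw [this]
    exact (g7_J i j).continuous
  have hk1 := g7_k1_cd hV p (Jm i j z0)
  have hk2 := g7_k2_cd hV i j x
  have c1 := hk1.continuous
  have c2 := hk2.continuous
  have d1 : Continuous (fun z =>
      fderiv ℝ (fun z => inner ℝ (gradient V z - p) (Jm i j z0)) z (Jm i j z)) :=
    (hk1.continuous_fderiv (by simp)).clm_apply hJ
  have d2 : Continuous (fun z => fderiv ℝ (g7_k2 V i j x) z (Jm i j z)) :=
    (hk2.continuous_fderiv (by simp)).clm_apply hJ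
  have e1 := g7_ibp hV b x i j hk1
  have e2 := g7_ibp hV b x i j hk2
  have h1 : ∫ z, Qf V i j z0 x z ∂(gib b V x)
      = 2 * ∫ z, fderiv ℝ (fun z => inner ℝ (gradient V z - p) (Jm i j z0)) z (Jm i j z)
          ∂(gib b V x) + ∫ z, fderiv ℝ (g7_k2 V i j x) z (Jm i j z) ∂(gib b V x) := by
    have : ∀ z, Qf V i j z0 x z = 2 * fderiv ℝ (fun z => inner ℝ (gradient V z - p)
        (Jm i j z0)) z (Jm i j z) + fderiv ℝ (g7_k2 V i j x) z (Jm i j z) :=
      fun z => g7_Qf hV i j z0 x z p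
    simp only [this]
    rw [integral_add ((gib_int hV b x d1).const_mul 2) (gib_int hV b x d2), integral_const_mul]
  have h2 : 0 ≤ ∫ z, (inner ℝ (gradient V z - p) (Jm i j z0) + g7_k2 V i j x z) ^ 2
      ∂(gib b V x) := integral_nonneg fun z => sq_nonneg _
  have h3 : ∫ z, (inner ℝ (gradient V z - p) (Jm i j z0) + g7_k2 V i j x z) ^ 2 ∂(gib b V x)
      = ∫ z, (inner ℝ (gradient V z - p) (Jm i j z0)) ^ 2 ∂(gib b V x)
        + 2 * ∫ z, inner ℝ (gradient V z - p) (Jm i j z0) * g7_k2 V i j x z ∂(gib b V x)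
        + ∫ z, g7_k2 V i j x z * g7_k2 V i j x z ∂(gib b V x) := by
    have : ∀ z, (inner ℝ (gradient V z - p) (Jm i j z0) + g7_k2 V i j x z) ^ 2
        = (inner ℝ (gradient V z - p) (Jm i j z0)) ^ 2
          + 2 * (inner ℝ (gradient V z - p) (Jm i j z0) * g7_k2 V i j x z)
          + g7_k2 V i j x z * g7_k2 V i j x z := fun z => by ring
    simp only [this]
    have i1 : Integrable (fun z => (inner ℝ (gradient V z - p) (Jm i j z0) : ℝ) ^ 2)
      (gib b V x) := gib_int hV b x (c1.pow 2)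
    have i2 : Integrable (fun z => 2 * (inner ℝ (gradient V z - p) (Jm i j z0)
      * g7_k2 V i j x z)) (gib b V x) := (gib_int hV b x (c1.mul c2)).const_mul 2
    have i3 : Integrable (fun z => g7_k2 V i j x z * g7_k2 V i j x z) (gib b V x) :=
      gib_int hV b x (c2.mul c2)
    have i4 : Integrable (fun z => (inner ℝ (gradient V z - p) (Jm i j z0) : ℝ) ^ 2
      + 2 * (inner ℝ (gradient V z - p) (Jm i j z0) * g7_k2 V i j x z)) (gib b V x) := i1.add i2
    rw [integral_add i4 i3, integral_add i1 i2, integral_const_mul]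
  rw [h3] at h2
  rw [h1, e1, e2]
  have h4 := mul_nonneg hb.le h2
  linarith

theorem g7_inner_J (i j : Fin n) (q z : E n) : inner ℝ q (Jm i j z) = z i * q j - z j * q i := by
  rw [Jm, inner_sub_right, inner_smul_right, inner_smul_right, inner_eb', inner_eb']

theorem g7_sum_J (q z : E n) : ∑ i, ∑ j, (inner ℝ q (Jm i j z)) ^ 2
    = 2 * (‖z‖ ^ 2 * ‖q‖ ^ 2 - (inner ℝ z q) ^ 2) := by
  have h1 : ‖z‖ ^ 2 = ∑ i, z i ^ 2 := EuclideanSpace.real_norm_sq_eq z
  have h2 : ‖q‖ ^ 2 = ∑ i, q i ^ 2 := EuclideanSpace.real_norm_sq_eq q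
  have h3 : (inner ℝ z q : ℝ) = ∑ i, z i * q i := by
    rw [PiLp.inner_apply]
    refine Finset.sum_congr rfl fun i _ => ?_
    simp [mul_comm]
  have h4 : ∀ i j : Fin n, (inner ℝ q (Jm i j z)) ^ 2
      = z i ^ 2 * q j ^ 2 + q i ^ 2 * z j ^ 2 - 2 * ((z i * q i) * (z j * q j)) := by
    intro i j
    rw [g7_inner_J]
    ring
  simp only [h4, Finset.sum_add_distrib, Finset.sum_sub_distrib, ← Finset.mul_sum,
    ← Finset.sum_mul]
  rw [h1, h2, h3]
  ring

theorem vari_sum (hn : 0 < n) {V : E n → ℝ} (hV : ContDiff ℝ ∞ V) {b : ℝ} (hb : 0 < b)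
    (x : E n) {z0 : E n} (hz0 : z0 ∈ sphere (0 : E n) 1) :
    (1 / 2) * ∑ i, ∑ j, ∫ z, Qf V i j z0 x z ∂(gib b V x) ≤
      b * ∫ z, (‖gradient V z - pb b V x‖ ^ 2 - (inner ℝ z0 (gradient V z - pb b V x)) ^ 2)
        ∂(gib b V x) := by
  set p := pb b V x with hp
  have hz : ‖z0‖ = 1 := by simpa using hz0
  have h1 : ∀ z : E n, ‖gradient V z - p‖ ^ 2 - (inner ℝ z0 (gradient V z - p)) ^ 2
      = (1 / 2) * ∑ i, ∑ j, (inner ℝ (gradient V z - p) (Jm i j z0)) ^ 2 := by
    intro z
    rw [g7_sum_J, hz]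
    ring
  have h2 : ∫ z, (‖gradient V z - p‖ ^ 2 - (inner ℝ z0 (gradient V z - p)) ^ 2) ∂(gib b V x)
      = (1 / 2) * ∑ i, ∑ j, ∫ z, (inner ℝ (gradient V z - p) (Jm i j z0)) ^ 2 ∂(gib b V x) := by
    simp only [h1]
    rw [integral_const_mul, integral_finsetSum]
    · congr 1
      refine Finset.sum_congr rfl fun i _ => ?_
      rw [integral_finsetSum]
      intro j _
      exact gib_int hV b x ((g7_k1_cd hV p (Jm i j z0)).continuous.pow 2)
    · intro i _
      refine integrable_finsetSum _ fun j _ => ?_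
      exact gib_int hV b x ((g7_k1_cd hV p (Jm i j z0)).continuous.pow 2)
  rw [h2]
  have h3 : ∑ i, ∑ j, ∫ z, Qf V i j z0 x z ∂(gib b V x)
      ≤ ∑ i, ∑ j, b * ∫ z, (inner ℝ (gradient V z - p) (Jm i j z0)) ^ 2 ∂(gib b V x) :=
    Finset.sum_le_sum fun i _ => Finset.sum_le_sum fun j _ => vari hn hV hb x z0 i j
  simp only [← Finset.mul_sum] at h3
  linarith

end Pool.Agent.H21.CE
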