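import Pool.Agent.H21.CE.Gam
import Pool.Agent.H21.CE.Gap
import Pool.Agent.H21.CE.Dbl
import Pool.Agent.H21.CE.Vari
import Pool.Agent.H21.CE.Conc

open MeasureTheory Set Filter Topology Metric
open scoped ContDiff

namespace Pool.Agent.H21.CE

variable {n : ℕ}

/-! ## The pointwise exterior inequality -/

private lemma g11_J (i j : Fin n) : ContDiff ℝ ∞ (fun z : E n => Jm i j z) := by
  have h1 : (fun z : E n => Jm i j z)
      = fun z => (inner ℝ (eb i) z) • eb j - (inner ℝ (eb j) z) • eb i := by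
    funext z
    rw [inner_eb, inner_eb, Jm]
  rw [h1]
  exact ((contDiff_const.inner ℝ contDiff_id).smul contDiff_const).sub
    ((contDiff_const.inner ℝ contDiff_id).smul contDiff_const)

private lemma g11_Qf {V : E n → ℝ} (hV : ContDiff ℝ ∞ V) (i j : Fin n) (z0 x : E n) :
    Continuous (Qf V i j z0 x) := by
  have hJ := g11_J (n := n) i j
  have hJJ : ContDiff ℝ ∞ (fun z : E n => Jm i j (Jm i j z)) := hJ.comp hJ
  have hxz : ContDiff ℝ ∞ (fun z : E n => x - z) := contDiff_const.sub contDiff_id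
  have h1 : Continuous (fun z => hs V z (Jm i j z) (Jm i j z0)) :=
    (cd_hs hV hJ contDiff_const).continuous
  have h2 : Continuous (fun z => hs V z (Jm i j z) (Jm i j z)) := (cd_hs hV hJ hJ).continuous
  have h3 : Continuous (fun z => d3 V z (Jm i j z) (Jm i j z) (x - z)) :=
    (cd_d3 hV hJ hJ hxz).continuous
  have h4 : Continuous (fun z => hs V z (Jm i j (Jm i j z)) (x - z)) :=
    (cd_hs hV hJJ hxz).continuous
  unfold Qf
  exact (((continuous_const.mul h1).sub h2).add h3).add h4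

/-- the trace, in the limit -/
private lemma g11_Tg (hn : 0 < n) {V W : E n → ℝ} {lam M : ℝ} (h : Pt n V W lam M) {x z0 : E n}
    (hz0 : z0 ∈ sphere (0 : E n) 1)
    (hu : ∀ z ∈ sphere (0 : E n) 1, z ≠ z0 → ell V z x < ell V z0 x) {e : ℝ} (he : 0 < e) :
    ∀ᶠ b : ℝ in atTop, (1 / 2) * ∑ i, ∑ j, Qf V i j z0 x z0 - e ≤ Tg b V x := by
  set a : ℝ := (1 / 2) * ∑ i, ∑ j, Qf V i j z0 x z0 with ha
  set k : ℝ := 8 * M ^ 2 / lam ^ 2 with hk
  have hlam := h.lam_pos
  have hk0 : 0 ≤ k := by positivity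
  set ap : ℝ := max a 0 with hap
  have hap0 : 0 ≤ ap := le_max_right _ _
  have haap : a ≤ ap := le_max_left _ _
  -- the small parameter
  set s : ℝ := min 1 (e / (4 * ((1 + k) * (ap + 1)))) with hs
  have hs0 : 0 < s := by
    apply lt_min one_pos
    positivity
  have hs1 : s ≤ 1 := min_le_left _ _
  have hs2 : s * ((1 + k) * (ap + 1)) ≤ e / 4 := by
    have h1 : s ≤ e / (4 * ((1 + k) * (ap + 1))) := min_le_right _ _
    have h2 : 0 < (1 + k) * (ap + 1) := by positivity
    calc s * ((1 + k) * (ap + 1)) ≤ e / (4 * ((1 + k) * (ap + 1))) * ((1 + k) * (ap + 1)) :=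
          mul_le_mul_of_nonneg_right h1 h2.le
      _ = e / 4 := by field_simp
  -- the constant of the gap term
  set D : ℝ := 1 + 4 * M ^ 2 / (s * lam ^ 2) with hD
  have hD0 : 0 < D := by positivity
  obtain ⟨b0, hb0, hgap⟩ := gap_small hn lam M ‖x‖ (e / (8 * D)) (by positivity)
  -- the left side of the variance inequality
  have hA : Tendsto (fun b : ℝ => (1 / 2) * ∑ i, ∑ j, ∫ z, Qf V i j z0 x z ∂(gib b V x)
      - 4 * M ^ 2 * (b * (gib b V x).real {z | s ≤ ‖z - z0‖})) atTop (𝓝 (a - 4 * M ^ 2 * 0)) := by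
    apply Tendsto.sub
    · apply Tendsto.const_mul
      apply tendsto_finsetSum
      intro i _
      apply tendsto_finsetSum
      intro j _
      exact conc hn h hz0 hu (g11_Qf h.hV i j z0 x)
    · exact (conc_mass hn h hz0 hu hs0).const_mul _
  rw [mul_zero, sub_zero] at hA
  have hA1 : ∀ᶠ b : ℝ in atTop, a - e / 4 < (1 / 2) * ∑ i, ∑ j, ∫ z, Qf V i j z0 x z ∂(gib b V x)
      - 4 * M ^ 2 * (b * (gib b V x).real {z | s ≤ ‖z - z0‖}) :=
    hA.eventually_const_lt (by linarith)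
  filter_upwards [hA1, eventually_ge_atTop b0, eventually_gt_atTop 0] with b h1 hb hbp
  have h2 := vari_sum hn h.hV hbp x hz0
  have h3 := Tt_lower hn h hbp x hz0 hs0
  have h4 := Tt_nonneg hn h hbp x
  have h5 := Tg_lower hn h hbp x hs0
  have h6 := hgap V W h b hb x le_rfl
  set t : ℝ := Tt b V x with ht
  have h7 : a - e / 4 ≤ (1 + k * s) * t := by
    have e1 : (1 + 8 * M ^ 2 * s / lam ^ 2) = 1 + k * s := by rw [hk]; ring
    rw [e1] at h3
    linarith
  have h8 : D * (2 * b * ∫ z, (VS V x - ell V z x) ^ 2 ∂(gib b V x)) ≤ e / 4 := by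
    have e1 : D * (2 * b * ∫ z, (VS V x - ell V z x) ^ 2 ∂(gib b V x))
        = (2 * D) * (b * ∫ z, (VS V x - ell V z x) ^ 2 ∂(gib b V x)) := by ring
    rw [e1]
    calc (2 * D) * (b * ∫ z, (VS V x - ell V z x) ^ 2 ∂(gib b V x))
        ≤ (2 * D) * (e / (8 * D)) := mul_le_mul_of_nonneg_left h6 (by positivity)
      _ = e / 4 := by field_simp; ring
  -- `(1 - s) t ≥ a - e / 2`
  have h9 : a - e / 2 ≤ (1 - s) * t := by
    by_cases hta : t ≤ ap + 1
    · have e1 : (1 + k * s) * t - (1 - s) * t = s * ((1 + k) * t) := by ring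
      have e2 : s * ((1 + k) * t) ≤ s * ((1 + k) * (ap + 1)) := by
        apply mul_le_mul_of_nonneg_left _ hs0.le
        apply mul_le_mul_of_nonneg_left hta (by positivity)
      linarith
    · push Not at hta
      by_cases hs3 : s * (ap + 1) ≤ e / 4
      · have e1 : (1 - s) * (ap + 1) ≤ (1 - s) * t :=
          mul_le_mul_of_nonneg_left hta.le (by linarith)
        nlinarith
      · exfalso
        apply hs3
        have e2 : s * (ap + 1) ≤ s * ((1 + k) * (ap + 1)) := by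
          apply mul_le_mul_of_nonneg_left _ hs0.le
          nlinarith
        linarith
  linarith

theorem ptw (hn : 0 < n) {V W : E n → ℝ} {lam M : ℝ} (h : Pt n V W lam M) {x z0 : E n}
    (hx : 1 ≤ ‖x‖) (hz0 : z0 ∈ sphere (0 : E n) 1)
    (hu : ∀ z ∈ sphere (0 : E n) 1, z ≠ z0 → ell V z x < ell V z0 x) {e : ℝ} (he : 0 < e) :
    ∀ᶠ b : ℝ in atTop, -e ≤ gfun b V W x := by
  -- `z0` is the maximizer
  have hm : ell V z0 x = VS V x := by
    obtain ⟨z, hz, hz1⟩ := VS_max hn h.hV x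
    by_cases hzz : z = z0
    · rw [← hzz, hz1]
    · have h1 := hu z hz hzz
      have h2 := ell_le_VS' h.hV x hz0
      linarith
  have hG := Gam_nonneg h hx hz0 hm
  -- limits
  have hp : Tendsto (fun b : ℝ => pb b V x) atTop (𝓝 (gradient V z0)) :=
    conc hn h hz0 hu (cont_grad h.hV)
  have hxp : Tendsto (fun b : ℝ => (inner ℝ x (pb b V x) : ℝ)) atTop
      (𝓝 (inner ℝ x (gradient V z0))) := tendsto_const_nhds.inner hp
  have hW : Tendsto (fun b : ℝ => ∫ z, ell W z x ∂(gib b V x)) atTop (𝓝 (ell W z0 x)) := by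
    apply conc hn h hz0 hu (k := fun z => ell W z x)
    exact (cont_ell h.hW).comp (by fun_prop : Continuous (fun z : E n => (z, x)))
  have hR : Tendsto (fun b : ℝ => - ((n : ℝ) + 1) * inner ℝ x (pb b V x) - ‖pb b V x‖ ^ 2
      + (inner ℝ x (pb b V x)) ^ 2 - ∫ z, ell W z x ∂(gib b V x)) atTop
      (𝓝 (- ((n : ℝ) + 1) * inner ℝ x (gradient V z0) - ‖gradient V z0‖ ^ 2
      + (inner ℝ x (gradient V z0)) ^ 2 - ell W z0 x)) :=
    (((hxp.const_mul _).sub (hp.norm.pow 2)).add (hxp.pow 2)).sub hW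
  have hR1 := hR.eventually_const_lt (u := - ((n : ℝ) + 1) * inner ℝ x (gradient V z0)
    - ‖gradient V z0‖ ^ 2 + (inner ℝ x (gradient V z0)) ^ 2 - ell W z0 x - e / 2) (by linarith)
  filter_upwards [g11_Tg hn h hz0 hu (half_pos he), hR1] with b h1 h2
  rw [gfun]
  linarith

end Pool.Agent.H21.CE
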