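import Pool.Agent.H21.CE.VSm

open MeasureTheory Set Filter Topology Metric
open scoped ContDiff

namespace Pool.Agent.H21.CE

variable {n : ℕ}

private lemma g9_ell (V : E n → ℝ) (z x : E n) : HasFDerivAt (ell V z) (fderiv ℝ V z) x := by
  have h1 : HasFDerivAt (fun x : E n => x - z) (ContinuousLinearMap.id ℝ (E n)) x :=
    (hasFDerivAt_id x).sub_const z
  have h2 : HasFDerivAt (fun x : E n => fderiv ℝ V z (x - z))
      ((fderiv ℝ V z).comp (ContinuousLinearMap.id ℝ (E n))) x :=
    (fderiv ℝ V z).hasFDerivAt.comp x h1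
  rw [ContinuousLinearMap.comp_id] at h2
  exact h2.const_add (V z)

private lemma g9_max {V : E n → ℝ} (hV : ContDiff ℝ ∞ V) {x z : E n}
    (hz : z ∈ sphere (0 : E n) 1) (hd : DifferentiableAt ℝ (VS V) x)
    (hm : ell V z x = VS V x) : fderiv ℝ (VS V) x = fderiv ℝ V z := by
  have h1 : IsLocalMin (fun y => VS V y - ell V z y) x := by
    apply Filter.Eventually.of_forall
    intro y
    have h2 := ell_le_VS' hV y hz
    show VS V x - ell V z x ≤ VS V y - ell V z y
    rw [hm]
    linarith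
  have h2 : HasFDerivAt (fun y => VS V y - ell V z y) (fderiv ℝ (VS V) x - fderiv ℝ V z) x :=
    hd.hasFDerivAt.sub (g9_ell V z x)
  have h3 := h1.hasFDerivAt_eq_zero h2
  exact sub_eq_zero.1 h3

theorem uni (hn : 0 < n) {V W : E n → ℝ} {lam M : ℝ} (h : Pt n V W lam M) :
    ∀ᵐ x : E n, ∀ z ∈ sphere (0 : E n) 1, ∀ y ∈ sphere (0 : E n) 1,
      ell V z x = VS V x → ell V y x = VS V x → z = y := by
  have hM : 0 ≤ M := zero_le_one.trans h.one_le
  have hL : LipschitzWith (Real.toNNReal M) (VS V) := by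
    apply LipschitzWith.of_dist_le_mul
    intro x y
    rw [Real.coe_toNNReal M hM, dist_eq_norm, dist_eq_norm, Real.norm_eq_abs]
    exact VS_lip hn h x y
  filter_upwards [hL.ae_differentiableAt (μ := volume)] with x hx z hz y hy h1 h2
  have h3 := g9_max h.hV hz hx h1
  have h4 := g9_max h.hV hy hx h2
  have h5 : gradient V z = gradient V y := by
    rw [gradient, gradient, ← h3, ← h4]
  have h6 := grad_mono h (sphere_subset_closedBall hz) (sphere_subset_closedBall hy)
  rw [h5, sub_self, inner_zero_left] at h6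
  have h7 : ‖z - y‖ ^ 2 ≤ 0 := by
    by_contra hc
    push Not at hc
    nlinarith [h.lam_pos]
  have h8 : ‖z - y‖ = 0 := by
    have := sq_nonneg ‖z - y‖
    exact pow_eq_zero_iff (two_ne_zero) |>.1 (le_antisymm h7 this)
  exact sub_eq_zero.1 (norm_eq_zero.1 h8)

end Pool.Agent.H21.CE
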