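import Pool.Agent.H21.CE.VSm
import Pool.Agent.H21.CE.Uni
import Pool.Agent.H21.CE.Ptw
import Pool.Agent.H21.CE.Low
import Pool.Agent.H21.CE.FlowB
import Pool.Agent.H21.CE.Gcont

/-!
# The error of the exterior inequality tends to zero
-/

open MeasureTheory Set Filter Topology Metric
open scoped ContDiff

namespace Pool.Agent.H21.CE

variable {n : ℕ}

/-- the shell -/
private lemma f3_compact (R : ℝ) : IsCompact (closedBall (0 : E n) R \ ball (0 : E n) 1) :=
  (isCompact_closedBall 0 R).diff isOpen_ball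

/-- left Riemann sums of a continuous function -/
private lemma f3_riemann {f : ℝ → ℝ} (hf : Continuous f) {T : ℝ} (hT : 0 < T) {e : ℝ}
    (he : 0 < e) : ∃ N0 : ℕ, ∀ N ≥ N0,
      T / N * ∑ j ∈ Finset.range N, f (j * (T / N)) ≤ (∫ t in (0 : ℝ)..T, f t) + e := by
  have hu : UniformContinuousOn f (Icc 0 T) :=
    isCompact_Icc.uniformContinuousOn_of_continuous hf.continuousOn
  rw [Metric.uniformContinuousOn_iff] at hu
  obtain ⟨d, hd, hdf⟩ := hu (e / T) (div_pos he hT)
  obtain ⟨N1, hN1⟩ := exists_nat_gt (T / d)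
  refine ⟨N1 + 1, fun N hN => ?_⟩
  have hNr : T / d < N := hN1.trans_le (by exact_mod_cast (Nat.le_succ N1).trans hN)
  have hN0 : (0 : ℝ) < N := (div_pos hT hd).trans hNr
  set s : ℝ := T / N with hs
  have hs0 : 0 < s := div_pos hT hN0
  have hsd : s < d := by
    rw [hs, div_lt_iff₀ hN0]
    rwa [div_lt_iff₀ hd, mul_comm] at hNr
  have hNs : (N : ℝ) * s = T := by
    rw [hs]
    field_simp
  have h1 : ∫ t in (0 : ℝ)..T, f t =
      ∑ j ∈ Finset.range N, ∫ t in (j * s : ℝ)..((j + 1 : ℕ) * s : ℝ), f t := by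
    rw [intervalIntegral.sum_integral_adjacent_intervals (a := fun j : ℕ => (j : ℝ) * s)]
    · simp [hNs]
    · intro k _
      exact hf.intervalIntegrable _ _
  rw [h1, Finset.mul_sum, ← sub_le_iff_le_add', ← Finset.sum_sub_distrib]
  have h2 : ∀ j ∈ Finset.range N, s * f (j * s) -
      (∫ t in (j * s : ℝ)..((j + 1 : ℕ) * s : ℝ), f t) ≤ s * (e / T) := by
    intro j hj
    have hj' : (j : ℝ) + 1 ≤ N := by exact_mod_cast Finset.mem_range.1 hj
    have hle : (j * s : ℝ) ≤ ((j + 1 : ℕ) * s : ℝ) := by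
      push_cast
      linarith
    have h3 : ∫ _ in (j * s : ℝ)..((j + 1 : ℕ) * s : ℝ), (f (j * s) - e / T) ≤
        ∫ t in (j * s : ℝ)..((j + 1 : ℕ) * s : ℝ), f t := by
      apply intervalIntegral.integral_mono_on hle (by simp) (hf.intervalIntegrable _ _)
      intro t ht
      push_cast at ht
      have hj0 : (0 : ℝ) ≤ j * s := by positivity
      have hj1 : ((j : ℝ) + 1) * s ≤ T := by
        rw [← hNs]
        exact mul_le_mul_of_nonneg_right hj' hs0.le
      have h4 := hdf (j * s) ⟨hj0, by linarith [ht.1, ht.2]⟩ t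
        ⟨hj0.trans ht.1, ht.2.trans hj1⟩ (by
          rw [Real.dist_eq, abs_sub_comm, abs_of_nonneg (by linarith [ht.1])]
          linarith [ht.2])
      rw [Real.dist_eq] at h4
      linarith [(abs_lt.1 h4).2]
    rw [intervalIntegral.integral_const, smul_eq_mul] at h3
    push_cast at h3 ⊢
    have e1 : ((j : ℝ) + 1) * s - j * s = s := by ring
    rw [e1] at h3
    linarith
  calc _ ≤ ∑ _j ∈ Finset.range N, s * (e / T) := Finset.sum_le_sum h2
    _ = e := by
      rw [Finset.sum_const, Finset.card_range, nsmul_eq_mul, ← mul_assoc, hNs]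
      field_simp

/-- the integral over the shell for fixed time -/
private lemma f3_time (hn : 0 < n) {V : ℝ → E n → ℝ} {T lam : ℝ} (h : Flow n V T lam) (R : ℝ)
    {M : ℝ} {t : ℝ} (hp : Pt n (V t) (vd V t) lam M) {C b0 : ℝ}
    (hC : ∀ b ≥ b0, ∀ x : E n, ‖x‖ ≤ R → -C ≤ gfun b (V t) (vd V t) x) (hC0 : 0 < C) :
    Tendsto (fun b : ℝ => etaf b R (V t) (vd V t)) atTop (𝓝 0) := by
  have hms : MeasurableSet (closedBall (0 : E n) R \ ball (0 : E n) 1) :=
    (f3_compact R).measurableSet
  have hcont : ∀ b, Continuous (fun x : E n => gfun b (V t) (vd V t) x) := by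
    intro b
    have h1 := gfun_cont hn h.smooth b
    have h2 : Continuous (fun x : E n => ((t, x) : ℝ × E n)) := by fun_prop
    have h3 := h1.comp h2
    exact h3
  suffices key : Tendsto (fun b : ℝ => ∫ x in closedBall (0 : E n) R \ ball (0 : E n) 1,
      max (-gfun b (V t) (vd V t) x) 0) atTop
      (𝓝 (∫ _ in closedBall (0 : E n) R \ ball (0 : E n) 1, (0 : ℝ))) by
    rw [integral_zero] at key
    exact key
  apply tendsto_integral_filter_of_dominated_convergence (fun _ => C)
  · exact Eventually.of_forall fun b =>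
      (((hcont b).neg.max continuous_const).aestronglyMeasurable)
  · filter_upwards [eventually_ge_atTop b0] with b hb
    rw [ae_restrict_iff' hms]
    refine Eventually.of_forall fun x hx => ?_
    have h1 := hC b hb x (mem_closedBall_zero_iff.1 hx.1)
    rw [Real.norm_eq_abs, abs_of_nonneg (le_max_right _ _)]
    exact max_le (by linarith) hC0.le
  · have : IsFiniteMeasure (volume.restrict (closedBall (0 : E n) R \ ball (0 : E n) 1)) :=
      ⟨by
        rw [Measure.restrict_apply_univ]
        exact (f3_compact R).measure_lt_top⟩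
    exact integrable_const _
  · rw [ae_restrict_iff' hms]
    filter_upwards [uni hn hp] with x hx hxA
    have hx1 : 1 ≤ ‖x‖ := by
      have := hxA.2
      rw [mem_ball_zero_iff, not_lt] at this
      exact this
    obtain ⟨z0, hz0, hz0e⟩ := VS_max hn hp.hV x
    have hu : ∀ z ∈ sphere (0 : E n) 1, z ≠ z0 → ell (V t) z x < ell (V t) z0 x := by
      intro z hz hne
      refine lt_of_le_of_ne ?_ fun heq => hne (hx z hz z0 hz0 (heq.trans hz0e) hz0e)
      rw [hz0e]
      exact ell_le_VS' hp.hV x hz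
    rw [Metric.tendsto_atTop']
    intro e he
    obtain ⟨B, hB⟩ := (ptw hn hp hx1 hz0 hu (half_pos he)).exists_forall_of_atTop
    refine ⟨B, fun b hb => ?_⟩
    rw [Real.dist_eq, sub_zero, abs_of_nonneg (le_max_right _ _)]
    exact max_lt (by linarith [hB b hb.le]) he

private lemma f3_cont (hn : 0 < n) {V : ℝ → E n → ℝ} {T lam : ℝ} (h : Flow n V T lam)
    (b R : ℝ) : Continuous (fun t : ℝ => etaf b R (V t) (vd V t)) := by
  unfold etaf
  apply continuous_parametric_integral_of_continuous _ (f3_compact R)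
  exact (gfun_cont hn h.smooth b).neg.max continuous_const

theorem err_small (hn : 0 < n) {V : ℝ → E n → ℝ} {T lam : ℝ} (hT : 0 < T)
    (h : Flow n V T lam) (R : ℝ) {e : ℝ} (he : 0 < e) :
    ∃ b0 ≥ (1 : ℝ), ∀ b ≥ b0, ∃ N0 : ℕ, ∀ N ≥ N0,
      T / N * ∑ j ∈ Finset.range N, etaf b R (V (j * (T / N))) (vd V (j * (T / N))) ≤ e := by
  obtain ⟨M, hM⟩ := h.pt
  obtain ⟨C, hC0, b1, hb1, hC⟩ := g_low (n := n) hn lam M R
  have hfin : volume (closedBall (0 : E n) R \ ball (0 : E n) 1) < ⊤ :=
    (f3_compact R).measure_lt_top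
  have hlim : Tendsto (fun b : ℝ => ∫ t in (0 : ℝ)..T, etaf b R (V t) (vd V t)) atTop
      (𝓝 (∫ t in (0 : ℝ)..T, (0 : ℝ))) := by
    apply intervalIntegral.tendsto_integral_filter_of_dominated_convergence
      (fun _ => C * volume.real (closedBall (0 : E n) R \ ball (0 : E n) 1))
    · exact Eventually.of_forall fun b => (f3_cont hn h b R).aestronglyMeasurable
    · filter_upwards [eventually_ge_atTop b1] with b hb
      refine Eventually.of_forall fun t ht => ?_
      rw [uIoc_of_le hT.le] at ht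
      have hp := hM t ⟨ht.1.le, ht.2⟩
      unfold etaf
      apply norm_setIntegral_le_of_norm_le_const hfin
      intro x hx
      have h1 := hC (V t) (vd V t) hp b hb x (mem_closedBall_zero_iff.1 hx.1)
      rw [Real.norm_eq_abs, abs_of_nonneg (le_max_right _ _)]
      exact max_le (by linarith) hC0.le
    · exact intervalIntegrable_const
    · refine Eventually.of_forall fun t ht => ?_
      rw [uIoc_of_le hT.le] at ht
      have hp := hM t ⟨ht.1.le, ht.2⟩
      exact f3_time hn h R hp (fun b hb x hx => hC (V t) (vd V t) hp b hb x hx) hC0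
  rw [intervalIntegral.integral_zero] at hlim
  obtain ⟨B, hB⟩ := (hlim.eventually_lt_const (half_pos he)).exists_forall_of_atTop
  refine ⟨max B 1, le_max_right _ _, fun b hb => ?_⟩
  obtain ⟨N0, hN0⟩ := f3_riemann (f3_cont hn h b R) hT (half_pos he)
  refine ⟨N0, fun N hN => (hN0 N hN).trans ?_⟩
  linarith [hB b ((le_max_left _ _).trans hb)]

end Pool.Agent.H21.CE
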