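import Pool.Agent.H21.CE.Defs

/-!
# Task A7: a smooth extension of the logarithm, and the equation for the logarithm
-/

open MeasureTheory Set Filter Topology Metric
open scoped ContDiff

namespace Pool.Agent.H21.CE

variable {n : ℕ}

/-- a smooth function of the line equal to minus the logarithm above m -/
theorem exists_slog {m : ℝ} (hm : 0 < m) :
    ∃ th : ℝ → ℝ, ContDiff ℝ ∞ th ∧ ∀ s, m / 2 < s → th s = -Real.log s := by
  refine ⟨fun s => -(Real.smoothTransition ((s - m / 4) / (m / 4)) * Real.log s), ?_, ?_⟩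
  · rw [contDiff_iff_contDiffAt]
    intro s
    rcases lt_or_ge s (m / 4) with hs | hs
    · have h1 : (fun s => -(Real.smoothTransition ((s - m / 4) / (m / 4)) * Real.log s))
          =ᶠ[𝓝 s] fun _ => (0 : ℝ) := by
        filter_upwards [Iio_mem_nhds hs] with t ht
        have ht' : t < m / 4 := ht
        rw [Real.smoothTransition.zero_of_nonpos
          (div_nonpos_of_nonpos_of_nonneg (by linarith) (by linarith)), zero_mul, neg_zero]
      exact contDiffAt_const.congr_of_eventuallyEq h1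
    · have hs0 : s ≠ 0 := by
        have : 0 < s := by linarith
        exact this.ne'
      have h1 : ContDiffAt ℝ ∞ (fun s : ℝ => Real.smoothTransition ((s - m / 4) / (m / 4))) s := by
        have h2 : ContDiff ℝ ∞ (fun s : ℝ => (s - m / 4) / (m / 4)) := by fun_prop
        exact (Real.smoothTransition.contDiff.comp h2).contDiffAt
      exact (h1.mul (Real.contDiffAt_log.mpr hs0)).neg
  · intro s hs
    have h1 : 1 ≤ (s - m / 4) / (m / 4) := by
      rw [le_div_iff₀ (by linarith)]
      linarith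
    simp only [Real.smoothTransition.one_of_one_le h1, one_mul]

private theorem a7_sum (f : E n → ℝ) (x : E n) :
    ∑ i, (fderiv ℝ f x (eb i)) ^ 2 = ‖fderiv ℝ f x‖ ^ 2 := by
  rw [← norm_grad, EuclideanSpace.real_norm_sq_eq]
  refine Finset.sum_congr rfl fun i _ => ?_
  rw [← inner_eb, grad_inner]

theorem log_pde {f : E n → ℝ} (hf : ContDiff ℝ ∞ f) {x : E n} (hx : 0 < f x) :
    Fop (fun y => -Real.log (f y)) x = -(Lop f x) / f x := by
  have hd : Differentiable ℝ f := hf.differentiable (by simp)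
  have hd2 : Differentiable ℝ (fderiv ℝ f) :=
    (hf.fderiv_right (m := 1) (by norm_cast)).differentiable (by simp)
  have hne : f x ≠ 0 := hx.ne'
  have h1 : ∀ y : E n, 0 < f y →
      HasFDerivAt (fun y => -Real.log (f y)) (-((f y)⁻¹ • fderiv ℝ f y)) y := by
    intro y hy
    exact ((hd y).hasFDerivAt.log hy.ne').neg
  have h2 : ∀ᶠ y in 𝓝 x, 0 < f y := hf.continuous.continuousAt.eventually (lt_mem_nhds hx)
  have h3 : fderiv ℝ (fun y => -Real.log (f y)) =ᶠ[𝓝 x]
      fun y => (-(f y)⁻¹) • fderiv ℝ f y := by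
    filter_upwards [h2] with y hy
    rw [(h1 y hy).fderiv, neg_smul]
  have h4 : HasFDerivAt (fun y => -(f y)⁻¹) (((f x) ^ 2)⁻¹ • fderiv ℝ f x) x := by
    have h5 : HasDerivAt (fun t : ℝ => -t⁻¹) (((f x) ^ 2)⁻¹) (f x) := by
      have := (hasDerivAt_inv hne).neg
      rwa [neg_neg] at this
    exact h5.comp_hasFDerivAt x (hd x).hasFDerivAt
  have h5 := h4.smul (hd2 x).hasFDerivAt
  have h6 : fderiv ℝ (fderiv ℝ (fun y => -Real.log (f y))) x =
      (-(f x)⁻¹) • fderiv ℝ (fderiv ℝ f) x +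
        ((((f x) ^ 2)⁻¹) • fderiv ℝ f x).smulRight (fderiv ℝ f x) := by
    rw [h3.fderiv_eq]
    exact h5.fderiv
  have h7 : ∀ v w : E n, hs (fun y => -Real.log (f y)) x v w =
      -(f x)⁻¹ * hs f x v w + ((f x) ^ 2)⁻¹ * (fderiv ℝ f x v * fderiv ℝ f x w) := by
    intro v w
    unfold hs
    rw [h6]
    simp only [ContinuousLinearMap.add_apply, ContinuousLinearMap.smul_apply,
      ContinuousLinearMap.smulRight_apply, smul_eq_mul]
    ring
  have h8 : fderiv ℝ (fun y => -Real.log (f y)) x = (-(f x)⁻¹) • fderiv ℝ f x := by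
    rw [(h1 x hx).fderiv, neg_smul]
  have h9 : ‖fderiv ℝ (fun y => -Real.log (f y)) x‖ ^ 2 =
      ((f x) ^ 2)⁻¹ * ‖fderiv ℝ f x‖ ^ 2 := by
    rw [h8, norm_smul, mul_pow, norm_neg, norm_inv, Real.norm_of_nonneg hx.le, inv_pow]
  unfold Fop Lop L2
  rw [norm_grad, h9]
  simp only [h7]
  rw [Finset.sum_add_distrib, ← Finset.mul_sum, ← Finset.mul_sum]
  have h10 : ∑ i, fderiv ℝ f x (eb i) * fderiv ℝ f x (eb i) = ‖fderiv ℝ f x‖ ^ 2 := by
    rw [← a7_sum]
    exact Finset.sum_congr rfl fun i _ => by ring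
  rw [h10, h8]
  simp only [ContinuousLinearMap.smul_apply, smul_eq_mul]
  field_simp
  ring

end Pool.Agent.H21.CE
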