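import Pool.Agent.H21.CE.Touch
import Pool.Agent.H21.CE.MinL

/-!
# The linear flow: smoothness, evenness, time derivative, positivity (task A6)
-/

open MeasureTheory Set Filter Topology Metric
open scoped ContDiff

namespace Pool.Agent.H21.CE

variable {n : ℕ}

/-! ## the linear flow -/

theorem a6_fderiv_sum (N : ℕ) (c : ℕ → ℝ) {g : ℕ → E n → ℝ} (hg : ∀ j, ContDiff ℝ ∞ (g j)) :
    fderiv ℝ (fun x => ∑ j ∈ Finset.range N, c j * g j x) =
      fun x => ∑ j ∈ Finset.range N, c j • fderiv ℝ (g j) x := by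
  ext1 x
  have h1 : ∀ j, DifferentiableAt ℝ (g j) x := fun j =>
    (hg j).differentiable (by simp) x
  have h2 : HasFDerivAt (fun x => ∑ j ∈ Finset.range N, c j * g j x)
      (∑ j ∈ Finset.range N, c j • fderiv ℝ (g j) x) x :=
    HasFDerivAt.fun_sum fun j _ => (h1 j).hasFDerivAt.const_mul (c j)
  exact h2.fderiv

theorem a6_fderiv2_sum (N : ℕ) (c : ℕ → ℝ) {g : ℕ → E n → ℝ} (hg : ∀ j, ContDiff ℝ ∞ (g j))
    (x : E n) :
    fderiv ℝ (fderiv ℝ (fun x => ∑ j ∈ Finset.range N, c j * g j x)) x =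
      ∑ j ∈ Finset.range N, c j • fderiv ℝ (fderiv ℝ (g j)) x := by
  rw [a6_fderiv_sum N c hg]
  have h1 : ∀ j, DifferentiableAt ℝ (fderiv ℝ (g j)) x := fun j =>
    (((hg j).fderiv_right (m := ∞) (by simp)).differentiable (by simp)) x
  have h2 : HasFDerivAt (fun x => ∑ j ∈ Finset.range N, c j • fderiv ℝ (g j) x)
      (∑ j ∈ Finset.range N, c j • fderiv ℝ (fderiv ℝ (g j)) x) x :=
    HasFDerivAt.fun_sum fun j _ => (h1 j).hasFDerivAt.const_smul (c j)
  exact h2.fderiv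

theorem a6_Lop_sum (N : ℕ) (c : ℕ → ℝ) {g : ℕ → E n → ℝ} (hg : ∀ j, ContDiff ℝ ∞ (g j))
    (x : E n) : Lop (fun x => ∑ j ∈ Finset.range N, c j * g j x) x =
      ∑ j ∈ Finset.range N, c j * Lop (g j) x := by
  have h1 := congrFun (a6_fderiv_sum N c hg) x
  have h2 := a6_fderiv2_sum N c hg x
  have h3 : ∀ v w, hs (fun x => ∑ j ∈ Finset.range N, c j * g j x) x v w =
      ∑ j ∈ Finset.range N, c j * hs (g j) x v w := by
    intro v w
    unfold hs
    rw [h2]
    simp
  have h4 : ∀ v, fderiv ℝ (fun x => ∑ j ∈ Finset.range N, c j * g j x) x v =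
      ∑ j ∈ Finset.range N, c j * fderiv ℝ (g j) x v := by
    intro v
    rw [h1]
    simp
  unfold Lop L2
  rw [h4]
  simp only [h3]
  rw [Finset.sum_comm, ← Finset.sum_sub_distrib, Finset.mul_sum, ← Finset.sum_sub_distrib]
  refine Finset.sum_congr rfl fun j _ => ?_
  rw [← Finset.mul_sum]
  ring

theorem fl_facts (N : ℕ) {g : ℕ → E n → ℝ} (hg : ∀ j, ContDiff ℝ ∞ (g j))
    (hev : ∀ j x, g j (-x) = g j x)
    (hL : ∀ j x, Lop (g j) x = -((j : ℝ) * (j + n)) * g j x) :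
    ContDiff ℝ ∞ (fun q : ℝ × E n => fl N g q.1 q.2) ∧ (∀ t x, fl N g t (-x) = fl N g t x) ∧
    (∀ t x, HasDerivAt (fun s => fl N g s x) (Lop (fl N g t) x) t) := by
  refine ⟨?_, ?_, ?_⟩
  · unfold fl
    refine ContDiff.sum fun j _ => ?_
    exact (Real.contDiff_exp.comp (contDiff_const.mul contDiff_fst)).mul
      ((hg j).comp contDiff_snd)
  · intro t x
    unfold fl
    simp only [hev]
  · intro t x
    have h1 : Lop (fl N g t) x = ∑ j ∈ Finset.range N,
        Real.exp (-((j : ℝ) * (j + n)) * t) * Lop (g j) x :=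
      a6_Lop_sum N (fun j => Real.exp (-((j : ℝ) * (j + n)) * t)) hg x
    rw [h1]
    unfold fl
    refine HasDerivAt.fun_sum fun j _ => ?_
    rw [hL]
    have h2 : HasDerivAt (fun s : ℝ => -((j : ℝ) * (j + n)) * s) (-((j : ℝ) * (j + n))) t := by
      simpa using (hasDerivAt_id t).const_mul (-((j : ℝ) * (j + n)))
    have h3 := (h2.exp).mul_const (g j x)
    refine h3.congr_deriv ?_
    ring

theorem posit {f : ℝ → E n → ℝ} (hf : ContDiff ℝ ∞ (fun q : ℝ × E n => f q.1 q.2)) {T : ℝ}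
    (hd : ∀ t x, HasDerivAt (fun s => f s x) (Lop (f t) x) t)
    (h0 : ∀ x ∈ closedBall (0 : E n) 1, 0 < f 0 x) :
    ∃ m > 0, ∀ t ∈ Icc 0 T, ∀ x ∈ closedBall (0 : E n) 1, m ≤ f t x := by
  have hcomp : IsCompact (closedBall (0 : E n) 1) := isCompact_closedBall 0 1
  have hslice : ∀ t, ContDiff ℝ ∞ (f t) := fun t =>
    hf.comp (contDiff_const.prodMk contDiff_id)
  obtain ⟨x0, hx0, hmin⟩ := hcomp.exists_isMinOn ⟨0, by simp⟩
    (hslice 0).continuous.continuousOn
  have hm0 := h0 x0 hx0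
  refine ⟨f 0 x0 / 2 * Real.exp (-T), by positivity, fun t ht x hx => ?_⟩
  have key := first_touch hcomp (T := T)
    (fun t x => f t x - f 0 x0 / 2 * Real.exp (-t)) ?_ ?_ ?_ t ht x hx
  · have h1 : Real.exp (-T) ≤ Real.exp (-t) := Real.exp_le_exp.2 (by linarith [ht.2])
    have h2 : f 0 x0 / 2 * Real.exp (-T) ≤ f 0 x0 / 2 * Real.exp (-t) :=
      mul_le_mul_of_nonneg_left h1 (by linarith)
    linarith
  · refine Continuous.continuousOn ?_
    exact hf.continuous.sub (by fun_prop)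
  · intro y hy
    have h1 : f 0 x0 ≤ f 0 y := hmin hy
    simp only [neg_zero, Real.exp_zero, mul_one]
    linarith
  · intro s hs y hy hz hpos
    have hmin' : ∀ z ∈ closedBall (0 : E n) 1, f s y ≤ f s z := by
      intro z hz'
      have := hpos z hz'
      linarith
    have h1 := (min_lemma ((hslice s).of_le (by norm_cast)) hy hmin'
      (c := (n : ℝ) + 1) (by linarith)).1
    have h2 : HasDerivAt (fun s => f s y - f 0 x0 / 2 * Real.exp (-s))
        (Lop (f s) y - f 0 x0 / 2 * (Real.exp (-s) * -1)) s :=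
      (hd s y).sub (((hasDerivAt_neg s).exp).const_mul _)
    refine ⟨_, ?_, h2⟩
    have h3 : 0 < f 0 x0 / 2 * Real.exp (-s) := by positivity
    have h4 : 0 ≤ Lop (f s) y := h1
    linarith

end Pool.Agent.H21.CE
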