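import Pool.Agent.H21.CE.Div
import Pool.Agent.H21.CE.Posi
import Pool.Agent.H21.CE.LogF
import Pool.Agent.H21.CE.Conv

/-!
# Existence of the flow
-/

open MeasureTheory Set Filter Topology Metric
open scoped ContDiff

namespace Pool.Agent.H21.CE

variable {n : ℕ}

lemma hs_congr {f g : E n → ℝ} {x : E n} (h : f =ᶠ[𝓝 x] g) (v w : E n) :
    hs f x v w = hs g x v w := by
  unfold hs
  rw [h.fderiv.fderiv_eq]

lemma L2_congr {f g : E n → ℝ} {x : E n} (h : f =ᶠ[𝓝 x] g) : L2 f x = L2 g x := by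
  unfold L2
  rw [hs_congr h]
  congr 1
  exact Finset.sum_congr rfl (fun i _ => hs_congr h _ _)

lemma Fop_congr {f g : E n → ℝ} {x : E n} (h : f =ᶠ[𝓝 x] g) : Fop f x = Fop g x := by
  unfold Fop
  rw [L2_congr h, norm_grad, norm_grad, h.fderiv_eq]

/-- the limit of the value at the origin is the mean -/
lemma fl_mean {N : ℕ} {g : ℕ → E n → ℝ} (hn : 0 < n) (hg : ∀ j, ContDiff ℝ ∞ (g j))
    (hL : ∀ j x, Lop (g j) x = -((j : ℝ) * (j + n)) * g j x) (h0 : ∀ x, g 0 x = g 0 0)
    (hN : 0 < N) {f : E n → ℝ} (hf : ∀ x, f x = ∑ j ∈ Finset.range N, g j x) :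
    (∫ x in closedBall (0 : E n) 1, f x) / volume.real (closedBall (0 : E n) 1) = g 0 0 := by
  have hi : ∀ j, IntegrableOn (g j) (closedBall (0 : E n) 1) := fun j =>
    (hg j).continuous.continuousOn.integrableOn_compact (isCompact_closedBall _ _)
  have hz : ∀ j, j ≠ 0 → ∫ x in closedBall (0 : E n) 1, g j x = 0 := by
    intro j hj
    have h1 := int_Lop (hg j)
    have h2 : ∀ x, Lop (g j) x = -((j : ℝ) * (j + n)) * g j x := hL j
    simp only [h2] at h1
    rw [integral_const_mul] at h1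
    have h3 : (0 : ℝ) < (j : ℝ) * (j + n) := by
      have : (0 : ℝ) < j := by exact_mod_cast Nat.pos_of_ne_zero hj
      positivity
    rcases mul_eq_zero.mp h1 with h4 | h4
    · linarith
    · exact h4
  have hv : 0 < volume.real (closedBall (0 : E n) 1) := by
    rw [Measure.real, ENNReal.toReal_pos_iff]
    exact ⟨measure_closedBall_pos _ _ one_pos, measure_closedBall_lt_top⟩
  have h1 : ∫ x in closedBall (0 : E n) 1, f x =
      g 0 0 * volume.real (closedBall (0 : E n) 1) := by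
    simp only [hf]
    rw [integral_finset_sum _ (fun j _ => hi j)]
    rw [Finset.sum_eq_single_of_mem 0 (Finset.mem_range.mpr hN) (fun j _ hj => hz j hj)]
    rw [setIntegral_congr_fun measurableSet_closedBall (fun x _ => h0 x), setIntegral_const,
      smul_eq_mul, mul_comm]
  rw [h1, mul_div_assoc, div_self hv.ne', mul_one]

lemma fl_lim {N : ℕ} {g : ℕ → E n → ℝ} (hN : 0 < N) :
    Tendsto (fun T => fl N g T 0) atTop (𝓝 (g 0 0)) := by
  unfold fl
  have h1 : ∀ j ∈ Finset.range N, Tendsto (fun T : ℝ => Real.exp (-((j : ℝ) * (j + n)) * T) *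
      g j 0) atTop (𝓝 (if j = 0 then g 0 0 else 0)) := by
    intro j _
    by_cases hj : j = 0
    · subst hj
      simp
    · rw [if_neg hj]
      have h3 : (0 : ℝ) < (j : ℝ) * (j + n) := by
        have : (0 : ℝ) < j := by exact_mod_cast Nat.pos_of_ne_zero hj
        positivity
      have h4 : Tendsto (fun T : ℝ => Real.exp (-((j : ℝ) * (j + n)) * T)) atTop (𝓝 0) := by
        refine Real.tendsto_exp_atBot.comp ?_
        exact tendsto_id.const_mul_atTop_of_neg (by linarith)
      simpa using h4.mul_const (g j 0)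
  have h2 := tendsto_finset_sum (Finset.range N) h1
  rwa [Finset.sum_ite_eq' (Finset.range N) 0 (fun _ => g 0 0),
    if_pos (Finset.mem_range.mpr hN)] at h2

theorem exists_flow (hn : 0 < n) {f : E n → ℝ} (hS : Spec f)
    (hpos : ∀ x ∈ closedBall (0 : E n) 1, 0 < f x) {m : ℝ} (hm : 0 < m)
    (hconv : ∀ x ∈ closedBall (0 : E n) 1, ∀ w,
      m * ‖w‖ ^ 2 ≤ hs (fun y => -Real.log (f y)) x w w) :
    ∃ c : ℝ → ℝ, Tendsto c atTop
        (𝓝 ((∫ x in closedBall (0 : E n) 1, f x) / volume.real (closedBall (0 : E n) 1))) ∧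
      ∀ T > 0, ∃ (V : ℝ → E n → ℝ) (lam : ℝ), Flow n V T lam ∧
        (∀ x ∈ closedBall (0 : E n) 1, ∀ᶠ y in 𝓝 x, V 0 y = -Real.log (f y)) ∧
        Real.exp (-V T 0) = c T := by
  obtain ⟨N, g, hg, hev, hL, h0, hf⟩ := hS
  have hN : 0 < N := by
    rcases Nat.eq_zero_or_pos N with h | h
    · exfalso
      have h1 := hpos 0 (by simp)
      rw [hf 0, h] at h1
      simp at h1
    · exact h
  obtain ⟨k1, k2, k3⟩ := fl_facts N hg hev hL
  have hF0 : ∀ x, fl N g 0 x = f x := by
    intro x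
    rw [hf x]
    unfold fl
    exact Finset.sum_congr rfl (fun j _ => by simp)
  refine ⟨fun T => fl N g T 0, ?_, ?_⟩
  · rw [fl_mean hn hg hL h0 hN hf]
    exact fl_lim hN
  · intro T hT
    have hFs : ∀ t, ContDiff ℝ ∞ (fl N g t) := fun t =>
      k1.comp (contDiff_const.prodMk contDiff_id)
    obtain ⟨m', hm', hmF⟩ := posit (T := T) k1 k3 (fun x hx => by
      rw [hF0]; exact hpos x hx)
    obtain ⟨th, hth, hlog⟩ := exists_slog hm'
    set V : ℝ → E n → ℝ := fun t x => th (fl N g t x) with hV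
    have hVs : ContDiff ℝ ∞ (fun q : ℝ × E n => V q.1 q.2) := hth.comp k1
    have hVe : ∀ t x, V t (-x) = V t x := fun t x => by
      simp only [hV, k2]
    have hopen : ∀ t, ∀ x, m' / 2 < fl N g t x → ∀ᶠ y in 𝓝 x, m' / 2 < fl N g t y :=
      fun t x hx => (hFs t).continuous.continuousAt.eventually (lt_mem_nhds hx)
    have hloc : ∀ t, ∀ x, m' / 2 < fl N g t x →
        V t =ᶠ[𝓝 x] fun y => -Real.log (fl N g t y) := by
      intro t x hx
      filter_upwards [hopen t x hx] with y hy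
      exact hlog _ hy
    have hmB : ∀ t ∈ Icc 0 T, ∀ x ∈ closedBall (0 : E n) 1, m' / 2 < fl N g t x :=
      fun t ht x hx => by linarith [hmF t ht x hx]
    have hpde : ∀ t ∈ Icc (0 : ℝ) T, ∀ z ∈ closedBall (0 : E n) 1, ∀ᶠ x in 𝓝 z,
        vd V t x = Fop (V t) x := by
      intro t ht z hz
      filter_upwards [hopen t z (hmB t ht z hz)] with x hx
      have hxp : 0 < fl N g t x := by linarith
      rw [Fop_congr (hloc t x hx), log_pde (hFs t) hxp]
      unfold vd
      have h1 : HasDerivAt (fun s => -Real.log (fl N g s x))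
          (-(Lop (fl N g t) x / fl N g t x)) t := ((k3 t x).log hxp.ne').neg
      have h2 : (fun s => V s x) =ᶠ[𝓝 t] fun s => -Real.log (fl N g s x) := by
        have hc : ContinuousAt (fun s => fl N g s x) t := (k3 t x).continuousAt
        filter_upwards [hc.eventually (lt_mem_nhds hx)] with s hs
        exact hlog _ hs
      rw [h2.deriv_eq, h1.deriv, neg_div]
    have hV0 : ∀ x ∈ closedBall (0 : E n) 1, V 0 =ᶠ[𝓝 x] fun y => -Real.log (f y) := by
      intro x hx
      have h1 := hloc 0 x (hmB 0 ⟨le_rfl, hT.le⟩ x hx)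
      simpa only [hF0] using h1
    obtain ⟨lam, hlam, hconv'⟩ := conv_preserved (T := T) hVs hVe hpde hm (fun z hz w => by
      rw [hs_congr (hV0 z hz)]
      exact hconv z hz w)
    refine ⟨V, lam, ⟨hVs, hVe, hlam, hconv', hpde⟩, hV0, ?_⟩
    have h1 := hmB T ⟨hT.le, le_rfl⟩ 0 (by simp)
    have h2 : V T 0 = -Real.log (fl N g T 0) := hlog _ h1
    rw [h2, neg_neg, Real.exp_log (by linarith)]

end Pool.Agent.H21.CE
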