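import Pool.Agent.H21.CE.Rho
import Pool.Agent.H21.CE.Gib
import Pool.Agent.H21.CE.VSm

/-!
# Bounds for the soft maximum
-/

open MeasureTheory Set Filter Topology Metric
open scoped ContDiff

namespace Pool.Agent.H21.CE

variable {n : ℕ}

/-- the tangent planes are Lipschitz in the point of contact -/
theorem g3_lip {V W : E n → ℝ} {lam M : ℝ} (h : Pt n V W lam M) {R : ℝ} {x : E n}
    (hx : ‖x‖ ≤ R) {y z : E n} (hy : y ∈ closedBall (0 : E n) 1)
    (hz : z ∈ closedBall (0 : E n) 1) : |ell V y x - ell V z x| ≤ M * (R + 1) * ‖y - z‖ := by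
  have hd1 : ContDiff ℝ ∞ (fderiv ℝ V) := h.hV.fderiv_right (by simp)
  have hR : 0 ≤ R := (norm_nonneg x).trans hx
  have hM : 0 ≤ M := zero_le_one.trans h.one_le
  have hder : ∀ w ∈ closedBall (0 : E n) 1, HasFDerivWithinAt (fun z => ell V z x)
      (fderiv ℝ V w + ((fderiv ℝ V w).comp (-(ContinuousLinearMap.id ℝ (E n)))
        + (fderiv ℝ (fderiv ℝ V) w).flip (x - w))) (closedBall (0 : E n) 1) w := by
    intro w _
    have h1 : HasFDerivAt V (fderiv ℝ V w) w :=
      (h.hV.differentiable (by simp)).differentiableAt.hasFDerivAt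
    have h2 : HasFDerivAt (fderiv ℝ V) (fderiv ℝ (fderiv ℝ V) w) w :=
      (hd1.differentiable (by simp)).differentiableAt.hasFDerivAt
    have h3 : HasFDerivAt (fun z : E n => x - z) (-(ContinuousLinearMap.id ℝ (E n))) w :=
      (hasFDerivAt_id w).const_sub x
    exact (h1.add (h2.clm_apply h3)).hasFDerivWithinAt
  have hbound : ∀ w ∈ closedBall (0 : E n) 1, ‖fderiv ℝ V w
      + ((fderiv ℝ V w).comp (-(ContinuousLinearMap.id ℝ (E n)))
        + (fderiv ℝ (fderiv ℝ V) w).flip (x - w))‖ ≤ M * (R + 1) := by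
    intro w hw
    have e1 : fderiv ℝ V w + ((fderiv ℝ V w).comp (-(ContinuousLinearMap.id ℝ (E n)))
        + (fderiv ℝ (fderiv ℝ V) w).flip (x - w)) = (fderiv ℝ (fderiv ℝ V) w).flip (x - w) := by
      ext v
      simp
    rw [e1]
    have hw1 : ‖w‖ ≤ 1 := by simpa using hw
    calc ‖(fderiv ℝ (fderiv ℝ V) w).flip (x - w)‖
        ≤ ‖(fderiv ℝ (fderiv ℝ V) w).flip‖ * ‖x - w‖ := ContinuousLinearMap.le_opNorm _ _
      _ = ‖fderiv ℝ (fderiv ℝ V) w‖ * ‖x - w‖ := by rw [ContinuousLinearMap.opNorm_flip]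
      _ ≤ M * (R + 1) := by
        apply mul_le_mul (h.b2 w hw) _ (norm_nonneg _) hM
        exact (norm_sub_le _ _).trans (add_le_add hx hw1)
  have h4 := (convex_closedBall (0 : E n) 1).norm_image_sub_le_of_norm_hasFDerivWithin_le
    hder hbound hz hy
  simpa [Real.norm_eq_abs] using h4

theorem g3_cont {V : E n → ℝ} (hV : ContDiff ℝ ∞ V) (b : ℝ) (x : E n) :
    Continuous (fun z => Real.exp (b * ell V z x)) :=
  Real.continuous_exp.comp (continuous_const.mul
    ((cont_ell hV).comp (continuous_id.prodMk continuous_const)))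

/-- mass bound -/
theorem Zf_lower (hn : 0 < n) (lam M R : ℝ) : ∃ c > 0, ∀ V W : E n → ℝ, Pt n V W lam M →
    ∀ b : ℝ, 1 ≤ b → ∀ x : E n, ‖x‖ ≤ R →
      c * (b ^ n)⁻¹ * Real.exp (b * VS V x) ≤ Zf b V x := by
  obtain ⟨c, hc, hball⟩ := rho_ball (n := n) hn
  refine ⟨c * Real.exp (-(M * (R + 1))), by positivity, ?_⟩
  intro V W h b hb x hx
  have hb0 : 0 < b := zero_lt_one.trans_le hb
  obtain ⟨z0, hz0, hmax⟩ := VS_max hn h.hV x
  have hbr : b⁻¹ ∈ Ioc (0 : ℝ) 1 := ⟨by positivity, inv_le_one_of_one_le₀ hb⟩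
  have h1 := hball z0 hz0 b⁻¹ hbr
  have hint : Integrable (fun z => Real.exp (b * ell V z x)) (rho n) := rho_int (g3_cont h.hV b x)
  have h2 : Real.exp (b * VS V x - M * (R + 1)) * (rho n).real (ball z0 b⁻¹)
      ≤ ∫ z in ball z0 b⁻¹, Real.exp (b * ell V z x) ∂(rho n) := by
    have h3 : ∫ z in ball z0 b⁻¹, Real.exp (b * VS V x - M * (R + 1)) ∂(rho n)
        = Real.exp (b * VS V x - M * (R + 1)) * (rho n).real (ball z0 b⁻¹) := by
      rw [setIntegral_const, smul_eq_mul, mul_comm]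
    rw [← h3]
    apply setIntegral_mono_on_ae (integrableOn_const (by finiteness)) hint.integrableOn
      measurableSet_ball
    filter_upwards [rho_ae (n := n) hn] with z hz hzb
    apply Real.exp_le_exp.mpr
    have hz1 : z ∈ closedBall (0 : E n) 1 := sphere_subset_closedBall hz
    have hz01 : z0 ∈ closedBall (0 : E n) 1 := sphere_subset_closedBall hz0
    have h4 := g3_lip h hx hz1 hz01
    rw [hmax] at h4
    have hM : 0 ≤ M := zero_le_one.trans h.one_le
    have hR : 0 ≤ R := (norm_nonneg x).trans hx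
    have h5 : ‖z - z0‖ ≤ b⁻¹ := by
      rw [← dist_eq_norm]
      exact (mem_ball.mp hzb).le
    have h6 : M * (R + 1) * ‖z - z0‖ ≤ M * (R + 1) * b⁻¹ :=
      mul_le_mul_of_nonneg_left h5 (by positivity)
    have h7 : VS V x - M * (R + 1) * b⁻¹ ≤ ell V z x := by
      have := (abs_le.mp h4).1
      linarith
    have h8 := mul_le_mul_of_nonneg_left h7 hb0.le
    have h9 : b * (VS V x - M * (R + 1) * b⁻¹) = b * VS V x - M * (R + 1) := by
      field_simp
    linarith
  have h3 : ∫ z in ball z0 b⁻¹, Real.exp (b * ell V z x) ∂(rho n) ≤ Zf b V x :=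
    setIntegral_le_integral hint (Filter.Eventually.of_forall fun z => (Real.exp_pos _).le)
  refine le_trans ?_ (h2.trans h3)
  rw [Real.exp_sub, Real.exp_neg]
  have h4 : 0 ≤ Real.exp (b * VS V x) / Real.exp (M * (R + 1)) := by positivity
  calc c * (Real.exp (M * (R + 1)))⁻¹ * (b ^ n)⁻¹ * Real.exp (b * VS V x)
      = Real.exp (b * VS V x) / Real.exp (M * (R + 1)) * (c * b⁻¹ ^ n) := by
        rw [inv_pow]
        ring
    _ ≤ _ := mul_le_mul_of_nonneg_left h1 h4

theorem Psi_le (hn : 0 < n) (lam M R : ℝ) : ∃ C > 0, ∀ V W : E n → ℝ, Pt n V W lam M →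
    ∀ b : ℝ, 1 ≤ b → ∀ x : E n, Psi b V x ≤ VS V x + C / b := by
  refine ⟨|Real.log ((rho n).real univ)| + 1, by positivity, ?_⟩
  intro V W h b hb x
  have hb0 : 0 < b := zero_lt_one.trans_le hb
  have hint : Integrable (fun z => Real.exp (b * ell V z x)) (rho n) := rho_int (g3_cont h.hV b x)
  have h1 : Zf b V x ≤ Real.exp (b * VS V x) * (rho n).real univ := by
    have h2 : ∫ _ : E n, Real.exp (b * VS V x) ∂(rho n)
        = Real.exp (b * VS V x) * (rho n).real univ := by
      rw [integral_const, smul_eq_mul, mul_comm]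
    rw [← h2]
    apply integral_mono_ae hint (integrable_const _)
    filter_upwards [rho_ae (n := n) hn] with z hz
    apply Real.exp_le_exp.mpr
    exact mul_le_mul_of_nonneg_left (ell_le_VS' h.hV x hz) hb0.le
  have h2 := Zf_pos hn h.hV b x
  have h3 := Real.log_le_log h2 h1
  rw [Real.log_mul (Real.exp_pos _).ne' (rho_pos hn).ne', Real.log_exp] at h3
  have h4 := le_abs_self (Real.log ((rho n).real univ))
  unfold Psi
  rw [one_div, inv_mul_le_iff₀ hb0, mul_add, mul_div_cancel₀ _ hb0.ne']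
  linarith

theorem le_Psi (hn : 0 < n) (lam M R : ℝ) : ∃ C > 0, ∀ V W : E n → ℝ, Pt n V W lam M →
    ∀ b : ℝ, 1 ≤ b → ∀ x : E n, ‖x‖ ≤ R → VS V x - C * (1 + Real.log b) / b ≤ Psi b V x := by
  obtain ⟨c, hc, hZ⟩ := Zf_lower hn lam M R
  refine ⟨|Real.log c| + n + 1, by positivity, ?_⟩
  intro V W h b hb x hx
  have hb0 : 0 < b := zero_lt_one.trans_le hb
  have hlb : 0 ≤ Real.log b := Real.log_nonneg hb
  have h1 := hZ V W h b hb x hx
  have h2 : 0 < c * (b ^ n)⁻¹ * Real.exp (b * VS V x) := by positivity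
  have h3 := Real.log_le_log h2 h1
  rw [Real.log_mul (by positivity) (by positivity), Real.log_mul hc.ne' (by positivity),
    Real.log_inv, Real.log_pow, Real.log_exp] at h3
  have h4 := neg_abs_le (Real.log c)
  unfold Psi
  have h5 : VS V x - (|Real.log c| + n + 1) * (1 + Real.log b) / b
      = (1 / b) * (b * VS V x - (|Real.log c| + n + 1) * (1 + Real.log b)) := by
    field_simp
  rw [h5]
  apply mul_le_mul_of_nonneg_left _ (by positivity)
  refine le_trans ?_ h3
  have h6 : 0 ≤ |Real.log c| * Real.log b := mul_nonneg (abs_nonneg _) hlb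
  have h7 : (0 : ℝ) ≤ n := Nat.cast_nonneg n
  nlinarith

end Pool.Agent.H21.CE
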