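import Pool.Agent.H21.CE.Defs
import Pool.Agent.H82.Ten.TenUnc

/-!
# The inequality of Blaschke and Santalo for symmetric sets
-/

open MeasureTheory Set Filter Topology Metric
open scoped ENNReal

namespace Pool.Agent.H21.CE

variable {n : ℕ}

theorem san_pair (hn : 0 < n) {R : ℝ} {K L : Set (E n)} (h : Pair n R K L) :
    volume K * volume L ≤ volume (closedBall (0 : E n) 1) ^ 2 := by
  have hmp : MeasurePreserving (WithLp.toLp 2 : (Fin n → ℝ) → E n) :=
    PiLp.volume_preserving_toLp (Fin n)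
  have hdot : ∀ x y : Fin n → ℝ, inner ℝ (WithLp.toLp 2 x : E n) (WithLp.toLp 2 y) = x ⬝ᵥ y := by
    intro x y
    rw [EuclideanSpace.inner_toLp_toLp]
    simp [dotProduct_comm]
  set R' : ℝ := max R 0 with hR'
  set T : Set (Fin n → ℝ) := Set.pi univ (fun _ => Icc (-R') R') with hT
  have hTc : IsCompact T := isCompact_univ_pi (fun _ => isCompact_Icc)
  have hTconv : Convex ℝ T := convex_pi (fun _ _ => convex_Icc _ _)
  have hTu : ∀ x ∈ T, ∀ ε : Fin n → ℝ, (∀ i, ε i = 1 ∨ ε i = -1) →
      (fun i => ε i * x i) ∈ T := by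
    intro x hx ε hε i hi
    have h1 := hx i hi
    rcases hε i with h2 | h2
    · simpa [h2] using h1
    · simp only [h2, neg_mul, one_mul]
      exact ⟨by linarith [h1.2], by linarith [h1.1]⟩
  have hG := H82.Ten.GG_unc hTconv hTc hTu
  have hsub : ∀ A : Set (E n), A ⊆ closedBall 0 R →
      (WithLp.toLp 2 : (Fin n → ℝ) → E n) ⁻¹' A ⊆ T := by
    intro A hA x hx i _
    have h1 : ‖(WithLp.toLp 2 x : E n)‖ ≤ R := by simpa using hA hx
    have h2 : ‖x i‖ ≤ ‖(WithLp.toLp 2 x : E n)‖ := by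
      simpa using PiLp.norm_apply_le (WithLp.toLp 2 x : E n) i
    have h3 : |x i| ≤ R' := by
      rw [← Real.norm_eq_abs]
      exact h2.trans (h1.trans (le_max_left _ _))
    exact abs_le.mp h3
  have hc : ∀ c : ℝ, 1 < c → volume K * volume L ≤
      ENNReal.ofReal (c ^ n) ^ 2 * volume (closedBall (0 : E n) 1) ^ 2 := by
    intro c hc
    have h1 := hG (c ^ 1) ((WithLp.toLp 2 : (Fin n → ℝ) → E n) ⁻¹' K)
      ((WithLp.toLp 2 : (Fin n → ℝ) → E n) ⁻¹' L) (hmp.measurable h.mK) (hmp.measurable h.mL)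
      (fun x hx => by
        have := h.sK _ hx
        simpa using this)
      (fun x hx => by
        have := h.sL _ hx
        simpa using this)
      (hsub K h.bK) (hsub L h.bL)
      (fun x hx y hy => by
        rw [← hdot]
        have := h.rel _ hx _ hy
        linarith [pow_one c])
    rw [hmp.measure_preimage h.mK.nullMeasurableSet,
      hmp.measure_preimage h.mL.nullMeasurableSet] at h1
    refine h1.trans ?_
    have h2 : {x : Fin n → ℝ | x ∈ T ∧ x ⬝ᵥ x < c ^ 1} ⊆
        (WithLp.toLp 2 : (Fin n → ℝ) → E n) ⁻¹' (closedBall (0 : E n) c) := by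
      rintro x ⟨-, hx⟩
      rw [← hdot, real_inner_self_eq_norm_sq, pow_one] at hx
      simp only [mem_preimage, mem_closedBall, dist_zero_right]
      nlinarith [norm_nonneg (WithLp.toLp 2 x : E n)]
    have h3 : volume {x : Fin n → ℝ | x ∈ T ∧ x ⬝ᵥ x < c ^ 1} ≤
        ENNReal.ofReal (c ^ n) * volume (closedBall (0 : E n) 1) := by
      refine (measure_mono h2).trans ?_
      rw [hmp.measure_preimage measurableSet_closedBall.nullMeasurableSet]
      have h4 := Measure.addHaar_closedBall' (volume : Measure (E n)) 0 (by linarith : 0 ≤ c)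
      rw [h4, finrank_euclideanSpace_fin]
    calc volume {x : Fin n → ℝ | x ∈ T ∧ x ⬝ᵥ x < c ^ 1} ^ 2
        ≤ (ENNReal.ofReal (c ^ n) * volume (closedBall (0 : E n) 1)) ^ 2 := by gcongr
      _ = _ := by rw [mul_pow]
  have hlim : Tendsto (fun c : ℝ => ENNReal.ofReal (c ^ n) ^ 2 *
      volume (closedBall (0 : E n) 1) ^ 2) (𝓝[>] 1)
      (𝓝 (ENNReal.ofReal (1 ^ n) ^ 2 * volume (closedBall (0 : E n) 1) ^ 2)) := by
    have hfin : volume (closedBall (0 : E n) 1) ^ 2 ≠ ∞ :=
      ENNReal.pow_ne_top (measure_closedBall_lt_top).ne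
    refine ENNReal.Tendsto.mul_const ?_ (Or.inr hfin)
    refine ENNReal.Tendsto.pow ?_
    refine ENNReal.tendsto_ofReal ?_
    exact ((continuous_pow n).tendsto 1).mono_left nhdsWithin_le_nhds
  simp only [one_pow, ENNReal.ofReal_one, one_mul] at hlim
  refine ge_of_tendsto hlim ?_
  filter_upwards [self_mem_nhdsWithin] with c hc'
  exact hc c hc'

end Pool.Agent.H21.CE
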