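import Pool.Agent.H21.CE.Gib
import Pool.Agent.H21.CE.VSm
import Pool.Agent.H21.CE.PsiB

/-!
# Task S3: almost monotonicity of the slope field, weights along rays
-/

open MeasureTheory Set Filter Topology Metric
open scoped ContDiff

namespace Pool.Agent.H21.CE

variable {n : ℕ}

/-- the slope field -/
noncomputable def qf (b : ℝ) (V : E n → ℝ) (x : E n) : E n :=
  if ‖x‖ ≤ 1 then gradient V x else pb b V x

private theorem s3_err {C b : ℝ} (hC : 0 < C) (hb : 1 ≤ b) :
    C / b ≤ C * (1 + Real.log b) / b ∧ 0 ≤ C * (1 + Real.log b) / b := by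
  have hl : 0 ≤ Real.log b := Real.log_nonneg hb
  have hb0 : 0 < b := by linarith
  constructor
  · apply div_le_div_of_nonneg_right _ hb0.le
    nlinarith
  · positivity

private theorem s3_mixed (hn : 0 < n) {V W : E n → ℝ} {lam M R C1 C2 : ℝ}
    (h : Pt n V W lam M) {b : ℝ} (hb : 1 ≤ b) (hC1 : 0 < C1)
    (h1 : ∀ x : E n, Psi b V x ≤ VS V x + C1 / b)
    (h2 : ∀ x : E n, ‖x‖ ≤ R → VS V x - C2 * (1 + Real.log b) / b ≤ Psi b V x)
    {x y : E n} (hx : ‖x‖ ≤ 1) (hy : 1 < ‖y‖) (hyR : ‖y‖ ≤ R) :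
    -((C1 + C2) * (1 + Real.log b) / b) ≤ inner ℝ (gradient V x - pb b V y) (x - y) := by
  have hb0 : 0 < b := by linarith
  have hxB : x ∈ closedBall (0 : E n) 1 := by simpa using hx
  have e1 := Psi_convex hn h.hV hb0 y x
  have e2 := h1 x
  have e3 := VS_le_V hn h hxB
  have e4 := ell_le_VS h hy.le hxB
  have e5 := h2 y hyR
  rw [ell, ← inner_grad] at e4
  have e6 : inner ℝ (gradient V x - pb b V y) (x - y) =
      -(inner ℝ (gradient V x) (y - x)) - inner ℝ (pb b V y) (x - y) := by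
    rw [inner_sub_left, ← inner_neg_right, neg_sub]
  have e7 := (s3_err hC1 hb).1
  have e8 : (C1 + C2) * (1 + Real.log b) / b =
      C1 * (1 + Real.log b) / b + C2 * (1 + Real.log b) / b := by ring
  rw [e6, e8]
  linarith

theorem qf_mono (hn : 0 < n) (lam M R : ℝ) : ∃ C > 0, ∀ V W : E n → ℝ, Pt n V W lam M →
    ∀ b : ℝ, 1 ≤ b → ∀ x y : E n, ‖x‖ ≤ R → ‖y‖ ≤ R →
      -(C * (1 + Real.log b) / b) ≤ inner ℝ (qf b V x - qf b V y) (x - y) := by
  obtain ⟨C1, hC1, h1⟩ := Psi_le hn lam M R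
  obtain ⟨C2, hC2, h2⟩ := le_Psi hn lam M R
  refine ⟨C1 + C2, by linarith, fun V W h b hb x y hx hy => ?_⟩
  have hb0 : 0 < b := by linarith
  have hneg : -((C1 + C2) * (1 + Real.log b) / b) ≤ 0 := by
    have := (s3_err (add_pos hC1 hC2) hb).2
    linarith
  unfold qf
  by_cases hx1 : ‖x‖ ≤ 1
  · by_cases hy1 : ‖y‖ ≤ 1
    · rw [if_pos hx1, if_pos hy1]
      have e1 := grad_mono h (x := x) (z := y) (by simpa using hx1) (by simpa using hy1)
      have e2 : 0 ≤ lam * ‖x - y‖ ^ 2 := mul_nonneg h.lam_pos.le (by positivity)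
      linarith
    · rw [if_pos hx1, if_neg hy1]
      exact s3_mixed hn h hb hC1 (h1 V W h b hb) (h2 V W h b hb) hx1 (not_le.mp hy1) hy
  · by_cases hy1 : ‖y‖ ≤ 1
    · rw [if_neg hx1, if_pos hy1]
      have e1 := s3_mixed hn h hb hC1 (h1 V W h b hb) (h2 V W h b hb) hy1 (not_le.mp hx1) hx
      have e2 : inner ℝ (pb b V x - gradient V y) (x - y) =
          inner ℝ (gradient V y - pb b V x) (y - x) := by
        rw [← neg_sub (gradient V y), ← neg_sub y x, inner_neg_neg]
      rw [e2]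
      exact e1
    · rw [if_neg hx1, if_neg hy1]
      have e1 := Psi_convex hn h.hV hb0 x y
      have e2 := Psi_convex hn h.hV hb0 y x
      have e3 : inner ℝ (pb b V x - pb b V y) (x - y) =
          -(inner ℝ (pb b V x) (y - x)) - inner ℝ (pb b V y) (x - y) := by
        rw [inner_sub_left, ← inner_neg_right, neg_sub]
      rw [e3]
      linarith

theorem qf_norm (hn : 0 < n) {V W : E n → ℝ} {lam M : ℝ} (h : Pt n V W lam M) (b : ℝ)
    (x : E n) : ‖qf b V x‖ ≤ M := by
  unfold qf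
  split_ifs with hx
  · rw [norm_grad]
    exact h.b1 x (by simpa using hx)
  · exact pb_norm hn h b x

private theorem s3_fd_neg {V : E n → ℝ} (hV : ContDiff ℝ ∞ V) (he : ∀ x, V (-x) = V x)
    (x : E n) : fderiv ℝ V (-x) = -fderiv ℝ V x := by
  have hd : Differentiable ℝ V := hV.differentiable (by simp)
  have h1 : HasFDerivAt V (fderiv ℝ V (-x)) (-x) := (hd (-x)).hasFDerivAt
  have h2 : HasFDerivAt (fun y : E n => -y) (-(ContinuousLinearMap.id ℝ (E n))) x :=
    (hasFDerivAt_id x).neg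
  have h3 : HasFDerivAt (fun y => V (-y))
      ((fderiv ℝ V (-x)).comp (-(ContinuousLinearMap.id ℝ (E n)))) x := h1.comp x h2
  have h4 : (fun y => V (-y)) = V := funext he
  rw [h4] at h3
  have h5 := h3.fderiv
  rw [h5]
  ext v
  simp

theorem qf_neg {V : E n → ℝ} (hV : ContDiff ℝ ∞ V) (he : ∀ x, V (-x) = V x) (b : ℝ) (x : E n) :
    qf b V (-x) = -qf b V x := by
  unfold qf
  rw [norm_neg]
  split_ifs with hx
  · rw [gradient, gradient, s3_fd_neg hV he, map_neg]
  · exact pb_neg hV he b x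

private theorem s3_ray {f : E n → ℝ} {x : E n} {c : ℝ} (hc : c ∈ Icc (0 : ℝ) 1)
    (he : f (-x) = f x) (gl : E n → ℝ)
    (hgl : ∀ (t : ℝ) (v : E n), gl (t • v) = t * gl v)
    (h1 : f (c • x) + gl ((1 - c) • x) ≤ f x)
    (h2 : f (c • x) + gl ((-(1 + c)) • x) ≤ f (-x)) : f (c • x) ≤ f x := by
  rw [hgl] at h1 h2
  rw [he] at h2
  rcases le_total 0 (gl x) with h | h
  · have : 0 ≤ (1 - c) * gl x := mul_nonneg (by linarith [hc.2]) h
    linarith
  · have : 0 ≤ -(1 + c) * gl x := mul_nonneg_of_nonpos_of_nonpos (by linarith [hc.1]) h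
    linarith

private theorem s3_psi_ray (hn : 0 < n) {V W : E n → ℝ} {lam M : ℝ} (h : Pt n V W lam M)
    {b : ℝ} (hb : 0 < b) {x : E n} {c : ℝ} (hc : c ∈ Icc (0 : ℝ) 1) :
    Psi b V (c • x) ≤ Psi b V x := by
  apply s3_ray (f := Psi b V) hc (Psi_neg h.hV h.even b x)
    (fun v => inner ℝ (pb b V (c • x)) v)
  · intro t v
    rw [inner_smul_right]
  · have e1 := Psi_convex hn h.hV hb (c • x) x
    have e2 : x - c • x = (1 - c) • x := by rw [sub_smul, one_smul]
    rw [e2] at e1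
    exact e1
  · have e1 := Psi_convex hn h.hV hb (c • x) (-x)
    have e2 : -x - c • x = (-(1 + c)) • x := by rw [neg_smul, add_smul, one_smul]; abel
    rw [e2] at e1
    exact e1

private theorem s3_V_ray {V W : E n → ℝ} {lam M : ℝ} (h : Pt n V W lam M)
    {x : E n} (hx : ‖x‖ ≤ 1) {c : ℝ} (hc : c ∈ Icc (0 : ℝ) 1) :
    V (c • x) ≤ V x := by
  have hcx : c • x ∈ closedBall (0 : E n) 1 := by
    rw [mem_closedBall_zero_iff, norm_smul, Real.norm_of_nonneg hc.1]
    calc c * ‖x‖ ≤ 1 * 1 := mul_le_mul hc.2 hx (norm_nonneg _) (by norm_num)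
      _ = 1 := one_mul 1
  have hxB : x ∈ closedBall (0 : E n) 1 := by simpa using hx
  have hxB' : -x ∈ closedBall (0 : E n) 1 := by simpa using hx
  apply s3_ray (f := V) hc (h.even x) (fun v => fderiv ℝ V (c • x) v)
  · intro t v
    rw [map_smul, smul_eq_mul]
  · have e1 := conv_ell h hxB hcx
    have e2 : x - c • x = (1 - c) • x := by rw [sub_smul, one_smul]
    have e3 : 0 ≤ lam / 2 * ‖x - c • x‖ ^ 2 :=
      mul_nonneg (by linarith [h.lam_pos]) (by positivity)
    rw [ell] at e1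
    rw [← e2]
    linarith
  · have e1 := conv_ell h hxB' hcx
    have e2 : -x - c • x = (-(1 + c)) • x := by rw [neg_smul, add_smul, one_smul]; abel
    have e3 : 0 ≤ lam / 2 * ‖-x - c • x‖ ^ 2 :=
      mul_nonneg (by linarith [h.lam_pos]) (by positivity)
    rw [ell] at e1
    rw [← e2]
    linarith

/-- weights increase along rays towards the origin -/
theorem wt_ray (hn : 0 < n) (lam M R : ℝ) : ∃ C > 0, ∀ V W : E n → ℝ, Pt n V W lam M →
    ∀ b : ℝ, 1 ≤ b → ∀ s : ℝ, C * (1 + Real.log b) / b ≤ s → ∀ x : E n,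
      ∀ c ∈ Icc (0 : ℝ) 1, wt b s V x ≤ wt b s V (c • x) := by
  obtain ⟨C, hC, h2⟩ := le_Psi hn lam M 1
  refine ⟨C, hC, fun V W h b hb s hs x c hc => ?_⟩
  have hb0 : 0 < b := by linarith
  have hncx : ‖c • x‖ = c * ‖x‖ := by rw [norm_smul, Real.norm_of_nonneg hc.1]
  unfold wt
  by_cases hx : ‖x‖ ≤ 1
  · have hcx : ‖c • x‖ ≤ 1 := by
      rw [hncx]
      calc c * ‖x‖ ≤ 1 * 1 := mul_le_mul hc.2 hx (norm_nonneg _) (by norm_num)
        _ = 1 := one_mul 1
    rw [if_pos hx, if_pos hcx, Real.exp_le_exp]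
    have := s3_V_ray h hx hc
    linarith
  · by_cases hcx : ‖c • x‖ ≤ 1
    · rw [if_neg hx, if_pos hcx, Real.exp_le_exp]
      have hx0 : 0 < ‖x‖ := by linarith
      have hxne : ‖x‖ ≠ 0 := hx0.ne'
      set u : E n := ‖x‖⁻¹ • x with hu
      have hun : ‖u‖ = 1 := by
        rw [hu, norm_smul, norm_inv, norm_norm]
        exact inv_mul_cancel₀ hxne
      have e1 : V (c • x) ≤ V u := by
        have e2 : c • x = (c * ‖x‖) • u := by
          rw [hu, smul_smul, mul_assoc, mul_inv_cancel₀ hxne, mul_one]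
        rw [e2]
        apply s3_V_ray h hun.le
        exact ⟨mul_nonneg hc.1 hx0.le, by rw [← hncx]; exact hcx⟩
      have e3 : V u ≤ VS V u := by
        have e4 := V_le_VS h hun.ge
        rw [hun, inv_one, one_smul] at e4
        exact e4
      have e5 := h2 V W h b hb u hun.le
      have e6 : Psi b V u ≤ Psi b V x := by
        apply s3_psi_ray hn h hb0
        constructor
        · positivity
        · exact inv_le_one_of_one_le₀ (by linarith)
      linarith
    · rw [if_neg hx, if_neg hcx, Real.exp_le_exp]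
      have := s3_psi_ray hn h hb0 (x := x) hc
      linarith

end Pool.Agent.H21.CE
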