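import Pool.Agent.H21.CE.VSm
import Pool.Agent.H21.CE.Mon
import Pool.Agent.H21.CE.Gcont

/-!
# Measurability and integrability of the weights
-/

open MeasureTheory Set Filter Topology Metric
open scoped ContDiff

namespace Pool.Agent.H21.CE

variable {n : ℕ}

lemma wi_norm_set : MeasurableSet {x : E n | ‖x‖ ≤ 1} :=
  measurableSet_le continuous_norm.measurable measurable_const

theorem wt_meas (hn : 0 < n) {V : E n → ℝ} (hV : ContDiff ℝ ∞ V) (b s : ℝ) :
    Measurable (wt b s V) := by
  unfold wt
  refine Measurable.ite wi_norm_set ?_ ?_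
  · exact (Real.continuous_exp.comp hV.continuous.neg).measurable
  · exact (Real.continuous_exp.comp (((Psi_cont hn hV b).add continuous_const).neg)).measurable

theorem VS_cont (hn : 0 < n) {V W : E n → ℝ} {lam M : ℝ} (h : Pt n V W lam M) :
    Continuous (VS V) := by
  have h1 : LipschitzWith (Real.toNNReal M) (VS V) := by
    refine LipschitzWith.of_dist_le_mul fun x y => ?_
    rw [Real.dist_eq, dist_eq_norm, Real.coe_toNNReal M (by linarith [h.one_le])]
    exact VS_lip hn h x y
  exact h1.continuous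

theorem wS_meas (hn : 0 < n) {V W : E n → ℝ} {lam M : ℝ} (h : Pt n V W lam M) :
    Measurable (wS V) := by
  unfold wS
  refine Measurable.ite wi_norm_set ?_ ?_
  · exact (Real.continuous_exp.comp h.hV.continuous.neg).measurable
  · exact (Real.continuous_exp.comp (VS_cont hn h).neg).measurable

theorem wt_pos (b s : ℝ) (V : E n → ℝ) (x : E n) : 0 < wt b s V x := by
  unfold wt
  split_ifs
  · exact Real.exp_pos _
  · exact Real.exp_pos _

theorem wS_pos (V : E n → ℝ) (x : E n) : 0 < wS V x := by
  unfold wS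
  split_ifs
  · exact Real.exp_pos _
  · exact Real.exp_pos _

/-- exterior points: the maximum of the tangent planes is at least the value at the centre -/
theorem V0_le_VS {V W : E n → ℝ} {lam M : ℝ} (h : Pt n V W lam M) {x : E n}
    (hx : 1 ≤ ‖x‖) : V 0 ≤ VS V x := by
  have h1 := V_le_VS h hx
  have h2 : ‖x‖⁻¹ • x ∈ closedBall (0 : E n) 1 := by
    rw [mem_closedBall_zero_iff, norm_smul, norm_inv, norm_norm,
      inv_mul_cancel₀ (by linarith : ‖x‖ ≠ 0)]
  exact (V_zero_le h h2).1.trans h1

theorem wS_le {V W : E n → ℝ} {lam M : ℝ} (h : Pt n V W lam M) (x : E n) :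
    wS V x ≤ Real.exp (-V 0) := by
  unfold wS
  split_ifs with hx
  · rw [Real.exp_le_exp]
    have := (V_zero_le h (x := x) (by simpa using hx)).1
    linarith
  · rw [Real.exp_le_exp]
    have := V0_le_VS h (x := x) (by linarith [not_le.mp hx])
    linarith

theorem wS_intOn (hn : 0 < n) {V W : E n → ℝ} {lam M : ℝ} (h : Pt n V W lam M) {K : Set (E n)}
    {R : ℝ} (hK : K ⊆ closedBall 0 R) : IntegrableOn (wS V) K := by
  have hfin : volume K < ⊤ := (measure_mono hK).trans_lt (isCompact_closedBall _ _).measure_lt_top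
  refine Measure.integrableOn_of_bounded (M := Real.exp (-V 0)) hfin.ne
    (wS_meas hn h).aestronglyMeasurable ?_
  refine Eventually.of_forall fun x => ?_
  rw [Real.norm_eq_abs, abs_of_pos (wS_pos V x)]
  exact wS_le h x

theorem wt_le_zero (hn : 0 < n) (lam M : ℝ) : ∃ C > 0, ∀ V W : E n → ℝ, Pt n V W lam M →
    ∀ b : ℝ, 1 ≤ b → ∀ s : ℝ, C * (1 + Real.log b) / b ≤ s → ∀ x : E n,
      wt b s V x ≤ Real.exp (-V 0) := by
  obtain ⟨C, hC, H⟩ := wt_ray hn lam M 1
  refine ⟨C, hC, fun V W h b hb s hs x => ?_⟩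
  have h1 := H V W h b hb s hs x 0 ⟨le_rfl, zero_le_one⟩
  rw [zero_smul] at h1
  have h2 : wt b s V 0 = Real.exp (-V 0) := by
    unfold wt
    rw [if_pos (by simp)]
  rwa [h2] at h1

theorem wt_intOn (hn : 0 < n) {V W : E n → ℝ} {lam M : ℝ} (h : Pt n V W lam M) (b s : ℝ)
    {K : Set (E n)} {R : ℝ} (hK : K ⊆ closedBall 0 R) : IntegrableOn (wt b s V) K := by
  have hc1 : Continuous (fun x : E n => Real.exp (-V x)) :=
    Real.continuous_exp.comp h.hV.continuous.neg
  have hc2 : Continuous (fun x : E n => Real.exp (-(Psi b V x + s))) :=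
    Real.continuous_exp.comp (((Psi_cont hn h.hV b).add continuous_const).neg)
  obtain ⟨A1, hA1⟩ := (isCompact_closedBall (0 : E n) R).exists_bound_of_continuousOn
    hc1.continuousOn
  obtain ⟨A2, hA2⟩ := (isCompact_closedBall (0 : E n) R).exists_bound_of_continuousOn
    hc2.continuousOn
  have hfin : volume (closedBall (0 : E n) R) < ⊤ := (isCompact_closedBall _ _).measure_lt_top
  have hI : IntegrableOn (wt b s V) (closedBall (0 : E n) R) := by
    refine Measure.integrableOn_of_bounded (M := max A1 A2) hfin.ne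
      (wt_meas hn h.hV b s).aestronglyMeasurable ?_
    rw [ae_restrict_iff' measurableSet_closedBall]
    refine Eventually.of_forall fun x hx => ?_
    unfold wt
    split_ifs
    · exact (hA1 x hx).trans (le_max_left _ _)
    · exact (hA2 x hx).trans (le_max_right _ _)
  exact hI.mono_set hK

end Pool.Agent.H21.CE
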