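import Pool.Agent.H21.CE.Ones
import Pool.Agent.H21.CE.San
import Pool.Agent.H21.CE.Err
import Pool.Agent.H21.CE.PsiB
import Pool.Agent.H21.CE.FlowB
import Pool.Agent.H21.CE.WInt

/-!
# Iteration of the step and the inequality along the flow
-/

open MeasureTheory Set Filter Topology Metric
open scoped ContDiff

namespace Pool.Agent.H21.CE

variable {n : ℕ}

/-- iteration of the one step statement -/
theorem s10_iter {V : ℝ → E n → ℝ} {T : ℝ} (hT : 0 < T) {R b s C1 C2 d0 : ℝ}
    (hone : ∀ t ∈ Icc (0 : ℝ) T, ∀ d ∈ Ioo (0 : ℝ) d0, t + d ≤ T →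
      ∀ K L : Set (E n), Pair n R K L → ∃ K' L' : Set (E n), Pair n R K' L' ∧
        (∫ x in K, wt b s (V t) x) - d * (C1 * (etaf b R (V t) (vd V t)
          + (1 + Real.log b) / b)) - C2 * d ^ 2 ≤ ∫ x in K', wt b s (V (t + d)) x ∧
        (∫ x in L, wt b s (V t) x) - d * (C1 * (etaf b R (V t) (vd V t)
          + (1 + Real.log b) / b)) - C2 * d ^ 2 ≤ ∫ x in L', wt b s (V (t + d)) x)
    {N : ℕ} (hN : 0 < N) (hNd : T / N < d0) {K L : Set (E n)} (hP : Pair n R K L) :
    ∀ j ≤ N, ∃ K' L' : Set (E n), Pair n R K' L' ∧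
      (∫ x in K, wt b s (V 0) x) - ∑ i ∈ Finset.range j, ((T / N) *
        (C1 * (etaf b R (V (i * (T / N))) (vd V (i * (T / N))) + (1 + Real.log b) / b))
          + C2 * (T / N) ^ 2) ≤ ∫ x in K', wt b s (V (j * (T / N))) x ∧
      (∫ x in L, wt b s (V 0) x) - ∑ i ∈ Finset.range j, ((T / N) *
        (C1 * (etaf b R (V (i * (T / N))) (vd V (i * (T / N))) + (1 + Real.log b) / b))
          + C2 * (T / N) ^ 2) ≤ ∫ x in L', wt b s (V (j * (T / N))) x := by
  have hN' : (0 : ℝ) < N := by exact_mod_cast hN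
  have hd : 0 < T / N := div_pos hT hN'
  intro j
  induction j with
  | zero =>
    intro _
    refine ⟨K, L, hP, ?_, ?_⟩ <;> simp
  | succ j ih =>
    intro hj
    obtain ⟨K1, L1, hP1, h1, h2⟩ := ih (by omega)
    have hjN : ((j : ℝ) + 1) * (T / N) ≤ T := by
      have h3 : ((j : ℝ) + 1) ≤ N := by exact_mod_cast hj
      calc ((j : ℝ) + 1) * (T / N) ≤ N * (T / N) := by gcongr
        _ = T := by field_simp
    have ht : (j : ℝ) * (T / N) ∈ Icc (0 : ℝ) T := by
      constructor
      · positivity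
      · nlinarith
    obtain ⟨K2, L2, hP2, h3, h4⟩ := hone _ ht (T / N) ⟨hd, hNd⟩ (by linarith) K1 L1 hP1
    have he : (j : ℝ) * (T / N) + T / N = ((j + 1 : ℕ) : ℝ) * (T / N) := by
      push_cast; ring
    rw [he] at h3 h4
    refine ⟨K2, L2, hP2, ?_, ?_⟩
    · rw [Finset.sum_range_succ]
      linarith
    · rw [Finset.sum_range_succ]
      linarith

theorem s10_mono {R R' : ℝ} (hR : R ≤ R') {K L : Set (E n)} (h : Pair n R K L) :
    Pair n R' K L :=
  ⟨h.mK, h.mL, h.sK, h.sL, h.bK.trans (closedBall_subset_closedBall hR),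
    h.bL.trans (closedBall_subset_closedBall hR), h.rel⟩

/-- `(1 + log b) / b → 0` -/
theorem s10_log : Tendsto (fun b : ℝ => (1 + Real.log b) / b) atTop (𝓝 0) := by
  have h1 : Tendsto (fun b : ℝ => 1 / b) atTop (𝓝 0) := by
    simpa using tendsto_inv_atTop_zero (𝕜 := ℝ)
  have h2 : Tendsto (fun b : ℝ => Real.log b / b) atTop (𝓝 0) := by
    have := Real.isLittleO_log_id_atTop.tendsto_div_nhds_zero
    simpa using this
  have h3 := h1.add h2
  rw [add_zero] at h3
  refine h3.congr fun b => ?_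
  rw [add_div]

/-- the final mass bound -/
theorem s10_fin (hn : 0 < n) {V W : E n → ℝ} {lam M : ℝ} (h : Pt n V W lam M) {b s : ℝ}
    (hle : ∀ x, wt b s V x ≤ Real.exp (-V 0)) {R : ℝ} {K : Set (E n)}
    (hK : K ⊆ closedBall 0 R) (hm : MeasurableSet K) :
    ∫ x in K, wt b s V x ≤ Real.exp (-V 0) * volume.real K := by
  have hfin : volume K < ⊤ := (measure_mono hK).trans_lt (isCompact_closedBall _ _).measure_lt_top
  have h1 : ∫ x in K, wt b s V x ≤ ∫ x in K, Real.exp (-V 0) := by
    refine setIntegral_mono_on (wt_intOn hn h b s hK) ?_ hm fun x _ => hle x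
    exact integrableOn_const hfin.ne
  refine h1.trans (le_of_eq ?_)
  rw [setIntegral_const, smul_eq_mul, mul_comm]

/-- comparison of the weights at the start -/
theorem s10_start (hn : 0 < n) {V W : E n → ℝ} {lam M : ℝ} (h : Pt n V W lam M) {b s e : ℝ}
    (hs : 0 ≤ e) (hle : ∀ x, Psi b V x + s ≤ VS V x + e) {R : ℝ} {K : Set (E n)}
    (hK : K ⊆ closedBall 0 R) (hm : MeasurableSet K) :
    Real.exp (-e) * ∫ x in K, wS V x ≤ ∫ x in K, wt b s V x := by
  rw [← integral_const_mul]
  refine setIntegral_mono_on ((wS_intOn hn h hK).const_mul _) (wt_intOn hn h b s hK) hm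
    fun x _ => ?_
  unfold wS wt
  split_ifs with hx
  · rw [← Real.exp_add, Real.exp_le_exp]
    linarith
  · rw [← Real.exp_add, Real.exp_le_exp]
    have := hle x
    linarith

theorem flow_ineq (hn : 0 < n) {V : ℝ → E n → ℝ} {T lam : ℝ} (hT : 0 < T)
    (h : Flow n V T lam) {R : ℝ} {K L : Set (E n)} (hP : Pair n R K L) :
    (∫ x in K, wS (V 0) x) * (∫ x in L, wS (V 0) x) ≤
      (Real.exp (-V T 0) * volume.real (closedBall (0 : E n) 1)) ^ 2 := by
  obtain ⟨M, hM⟩ := h.pt
  set R' : ℝ := max R 1 with hR'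
  have hR1 : 1 ≤ R' := le_max_right _ _
  have hP' : Pair n R' K L := s10_mono (le_max_left _ _) hP
  set IK : ℝ := ∫ x in K, wS (V 0) x with hIK
  set IL : ℝ := ∫ x in L, wS (V 0) x with hIL
  set Q : ℝ := (Real.exp (-V T 0) * volume.real (closedBall (0 : E n) 1)) ^ 2 with hQ
  have hQ0 : 0 ≤ Q := by positivity
  have hIK0 : 0 ≤ IK := integral_nonneg fun x => (wS_pos _ x).le
  have hIL0 : 0 ≤ IL := integral_nonneg fun x => (wS_pos _ x).le
  have h0T : (0 : ℝ) ∈ Icc (0 : ℝ) T := ⟨le_rfl, hT.le⟩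
  have hTT : T ∈ Icc (0 : ℝ) T := ⟨hT.le, le_rfl⟩
  obtain ⟨C1, hC1, hone⟩ := one_step hn h R' hR1
  obtain ⟨C3, hC3, hwt⟩ := wt_le_zero hn lam M
  obtain ⟨C4, hC4, hPsi⟩ := Psi_le hn lam M R'
  -- the main claim
  have key : ∀ e > 0, e ≤ 1 → ∃ a c : ℝ, 0 ≤ a ∧ 0 ≤ c ∧ a * c ≤ Q ∧
      Real.exp (-e) * IK - (C1 + T + 1) * e ≤ a ∧ Real.exp (-e) * IL - (C1 + T + 1) * e ≤ c := by
    intro e he he1
    obtain ⟨b0, hb0, herr⟩ := err_small hn hT h R' he
    -- choose b
    have hlog := s10_log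
    have hev1 : ∀ᶠ b : ℝ in atTop, (1 + Real.log b) / b ≤ e / (2 * (C1 + C3)) := by
      have hpos : 0 < e / (2 * (C1 + C3)) := by positivity
      filter_upwards [hlog.eventually (gt_mem_nhds hpos)] with b hb using le_of_lt hb
    have hev1' : ∀ᶠ b : ℝ in atTop, C1 * ((1 + Real.log b) / b) ≤ e := by
      filter_upwards [hev1] with b hb
      have h5 : 0 < C1 + C3 := by positivity
      calc C1 * ((1 + Real.log b) / b) ≤ C1 * (e / (2 * (C1 + C3))) := by gcongr
        _ = (C1 / (C1 + C3)) * (e / 2) := by field_simp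
        _ ≤ 1 * (e / 2) := by
          gcongr
          rw [div_le_one h5]; linarith
        _ ≤ e := by linarith
    have hev2 : ∀ᶠ b : ℝ in atTop, C4 / b ≤ e / 2 := by
      have h5 : Tendsto (fun b : ℝ => C4 / b) atTop (𝓝 0) := tendsto_const_nhds.div_atTop tendsto_id
      filter_upwards [h5.eventually (gt_mem_nhds (half_pos he))] with b hb using le_of_lt hb
    obtain ⟨b, hb1, hb1', hb2, hb3, hb4⟩ := (hev1.and (hev1'.and (hev2.and
      ((eventually_ge_atTop b0).and (eventually_ge_atTop (1:ℝ)))))).exists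
    set lb : ℝ := (1 + Real.log b) / b with hlb
    have hlb0 : 0 ≤ lb := div_nonneg (by linarith [Real.log_nonneg hb4]) (by linarith)
    set s : ℝ := (C1 + C3) * lb with hs
    have hs1 : C1 * (1 + Real.log b) / b ≤ s := by
      rw [mul_div_assoc, hs]
      nlinarith
    have hs3 : C3 * (1 + Real.log b) / b ≤ s := by
      rw [mul_div_assoc, hs]
      nlinarith
    have hse : s ≤ e / 2 := by
      rw [hs]
      calc (C1 + C3) * lb ≤ (C1 + C3) * (e / (2 * (C1 + C3))) := by gcongr
        _ = e / 2 := by field_simp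
    obtain ⟨C2, hC2, d0, hd0, hstep⟩ := hone b hb4 s hs1 (by linarith)
    obtain ⟨N0, hN0⟩ := herr b hb3
    -- choose N
    have hevN1 : ∀ᶠ N : ℕ in atTop, T / N < d0 := by
      have h5 : Tendsto (fun N : ℕ => T / (N : ℝ)) atTop (𝓝 0) :=
        tendsto_const_div_atTop_nhds_zero_nat T
      exact h5.eventually (gt_mem_nhds hd0)
    have hevN2 : ∀ᶠ N : ℕ in atTop, C2 * (T * (T / N)) < e := by
      have h5 : Tendsto (fun N : ℕ => C2 * (T * (T / (N : ℝ)))) atTop (𝓝 (C2 * (T * 0))) :=
        ((tendsto_const_div_atTop_nhds_zero_nat T).const_mul T).const_mul C2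
      rw [mul_zero, mul_zero] at h5
      exact h5.eventually (gt_mem_nhds he)
    obtain ⟨N, hN1, hN2, hN3, hN4⟩ := (hevN1.and (hevN2.and
      ((eventually_ge_atTop N0).and (eventually_gt_atTop 0)))).exists
    have hN4' : (0 : ℝ) < N := by exact_mod_cast hN4
    obtain ⟨K', L', hPN, hK', hL'⟩ := s10_iter hT hstep hN4 hN1 hP' N le_rfl
    have hNT : (N : ℝ) * (T / N) = T := by field_simp
    rw [hNT] at hK' hL'
    -- the total error
    have hsum : ∑ i ∈ Finset.range N, ((T / N) *
        (C1 * (etaf b R' (V (i * (T / N))) (vd V (i * (T / N))) + (1 + Real.log b) / b))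
          + C2 * (T / N) ^ 2) ≤ (C1 + T + 1) * e := by
      have h5 : ∑ i ∈ Finset.range N, ((T / N) *
        (C1 * (etaf b R' (V (i * (T / N))) (vd V (i * (T / N))) + (1 + Real.log b) / b))
          + C2 * (T / N) ^ 2) = C1 * (T / N * ∑ i ∈ Finset.range N,
            etaf b R' (V (i * (T / N))) (vd V (i * (T / N)))) + T * (C1 * lb)
            + C2 * (T * (T / N)) := by
        have h6 : ∀ i : ℕ, (T / N) * (C1 * (etaf b R' (V (i * (T / N))) (vd V (i * (T / N)))
            + (1 + Real.log b) / b)) + C2 * (T / N) ^ 2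
            = C1 * (T / N) * etaf b R' (V (i * (T / N))) (vd V (i * (T / N)))
              + ((T / N) * (C1 * lb) + C2 * (T / N) ^ 2) := by
          intro i; rw [← hlb]; ring
        simp only [h6]
        rw [Finset.sum_add_distrib, Finset.sum_const, Finset.card_range, nsmul_eq_mul,
          ← Finset.mul_sum]
        have h7 : (N : ℝ) * (T / N * (C1 * lb) + C2 * (T / N) ^ 2)
            = ((N : ℝ) * (T / N)) * (C1 * lb) + C2 * (((N : ℝ) * (T / N)) * (T / N)) := by ring
        rw [h7, hNT]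
        ring
      rw [h5]
      have h6 := hN0 N hN3
      have h7 : C1 * (T / N * ∑ i ∈ Finset.range N,
            etaf b R' (V (i * (T / N))) (vd V (i * (T / N)))) ≤ C1 * e := by gcongr
      have h8 : T * (C1 * lb) ≤ T * e := by gcongr
      linarith
    refine ⟨Real.exp (-V T 0) * volume.real K', Real.exp (-V T 0) * volume.real L',
      by positivity, by positivity, ?_, ?_, ?_⟩
    · have h5 := san_pair hn hPN
      have hfK : volume K' < ⊤ :=
        (measure_mono hPN.bK).trans_lt (isCompact_closedBall _ _).measure_lt_top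
      have hfL : volume L' < ⊤ :=
        (measure_mono hPN.bL).trans_lt (isCompact_closedBall _ _).measure_lt_top
      have hfB : volume (closedBall (0 : E n) 1) < ⊤ := (isCompact_closedBall _ _).measure_lt_top
      have h6 : volume.real K' * volume.real L' ≤ volume.real (closedBall (0 : E n) 1) ^ 2 := by
        unfold Measure.real
        rw [← ENNReal.toReal_mul, ← ENNReal.toReal_pow]
        exact ENNReal.toReal_mono (ENNReal.pow_ne_top hfB.ne) h5
      rw [hQ]
      have h7 : 0 ≤ Real.exp (-V T 0) ^ 2 := by positivity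
      calc Real.exp (-V T 0) * volume.real K' * (Real.exp (-V T 0) * volume.real L')
          = Real.exp (-V T 0) ^ 2 * (volume.real K' * volume.real L') := by ring
        _ ≤ Real.exp (-V T 0) ^ 2 * volume.real (closedBall (0 : E n) 1) ^ 2 := by gcongr
        _ = _ := by ring
    · have h5 := s10_start hn (hM 0 h0T) (b := b) (s := s) he.le (fun x => by
        have := hPsi (V 0) (vd V 0) (hM 0 h0T) b hb4 x
        linarith) hP'.bK hP'.mK
      have h6 := s10_fin hn (hM T hTT) (fun x => hwt (V T) (vd V T) (hM T hTT) b hb4 s hs3 x)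
        hPN.bK hPN.mK
      linarith
    · have h5 := s10_start hn (hM 0 h0T) (b := b) (s := s) he.le (fun x => by
        have := hPsi (V 0) (vd V 0) (hM 0 h0T) b hb4 x
        linarith) hP'.bL hP'.mL
      have h6 := s10_fin hn (hM T hTT) (fun x => hwt (V T) (vd V T) (hM T hTT) b hb4 s hs3 x)
        hPN.bL hPN.mL
      linarith
  -- the limit
  rcases hIK0.eq_or_lt with h5 | h5
  · rw [← h5, zero_mul]; exact hQ0
  rcases hIL0.eq_or_lt with h6 | h6
  · rw [← h6, mul_zero]; exact hQ0
  have hlim : ∀ I : ℝ, Tendsto (fun e : ℝ => Real.exp (-e) * I - (C1 + T + 1) * e) (𝓝[>] 0)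
      (𝓝 I) := by
    intro I
    have hc : Continuous (fun e : ℝ => Real.exp (-e) * I - (C1 + T + 1) * e) := by fun_prop
    have := hc.tendsto 0
    simp only [neg_zero, Real.exp_zero, one_mul, mul_zero, sub_zero] at this
    exact this.mono_left nhdsWithin_le_nhds
  refine le_of_tendsto ((hlim IK).mul (hlim IL)) ?_
  have h7 := (hlim IK).eventually (lt_mem_nhds h5)
  have h8 := (hlim IL).eventually (lt_mem_nhds h6)
  have h9 : ∀ᶠ e : ℝ in 𝓝[>] 0, 0 < e ∧ e ≤ 1 := by
    filter_upwards [Ioc_mem_nhdsGT (zero_lt_one' ℝ)] with e he using he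
  filter_upwards [h7, h8, h9] with e he1 he2 he3
  obtain ⟨a, c, ha, hc, hac, h10, h11⟩ := key e he3.1 he3.2
  exact (mul_le_mul h10 h11 he2.le ha).trans hac

end Pool.Agent.H21.CE
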