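import Pool.Agent.H21.CE.Exi
import Pool.Agent.H21.CE.Iter

/-!
# The functional inequality for spectral functions
-/

open MeasureTheory Set Filter Topology Metric
open scoped ContDiff

namespace Pool.Agent.H21.CE

variable {n : ℕ}

lemma cont_VS {V : E n → ℝ} (hV : ContDiff ℝ ∞ V) : Continuous (VS V) := by
  have h1 : Continuous (fun q : E n × E n => ell V q.2 q.1) := (cont_ell hV).comp continuous_swap
  exact (isCompact_sphere (0 : E n) 1).continuous_sSup (f := fun x z => ell V z x) h1

/-- the limit weight of a smooth potential is integrable on bounded sets -/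
theorem wS_int {V : E n → ℝ} (hV : ContDiff ℝ ∞ V) (R : ℝ) :
    IntegrableOn (wS V) (closedBall (0 : E n) R) := by
  have c1 : Continuous (fun x => Real.exp (-V x)) := Real.continuous_exp.comp hV.continuous.neg
  have c2 : Continuous (fun x => Real.exp (-VS V x)) := Real.continuous_exp.comp (cont_VS hV).neg
  have i1 : IntegrableOn (fun x => Real.exp (-V x) + Real.exp (-VS V x))
      (closedBall (0 : E n) R) :=
    (c1.add c2).continuousOn.integrableOn_compact (isCompact_closedBall _ _)
  refine i1.mono' ?_ ?_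
  · refine (Measurable.ite ?_ c1.measurable c2.measurable).aestronglyMeasurable
    exact (isClosed_le continuous_norm continuous_const).measurableSet
  · refine Eventually.of_forall (fun x => ?_)
    rw [Real.norm_eq_abs]
    unfold wS
    split_ifs
    · rw [abs_of_pos (Real.exp_pos _)]
      linarith [Real.exp_pos (-VS V x)]
    · rw [abs_of_pos (Real.exp_pos _)]
      linarith [Real.exp_pos (-V x)]

/-- the limit weight depends only on the potential near the ball -/
lemma wS_congr {V W : E n → ℝ} (h : ∀ x ∈ closedBall (0 : E n) 1, V =ᶠ[𝓝 x] W) : wS V = wS W := by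
  have h1 : VS V = VS W := by
    funext x
    unfold VS
    congr 1
    refine image_congr (fun z hz => ?_)
    have h2 := h z (sphere_subset_closedBall hz)
    unfold ell
    rw [h2.eq_of_nhds, h2.fderiv_eq]
  funext x
  unfold wS
  split_ifs with hx
  · rw [(h x (by simpa using hx)).eq_of_nhds]
  · rw [h1]

/-- integrability of the limit weight of a spectral function -/
theorem wS_log_int (hn : 0 < n) {f : E n → ℝ} (hS : Spec f)
    (hpos : ∀ x ∈ closedBall (0 : E n) 1, 0 < f x) {m : ℝ} (hm : 0 < m)
    (hconv : ∀ x ∈ closedBall (0 : E n) 1, ∀ w,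
      m * ‖w‖ ^ 2 ≤ hs (fun y => -Real.log (f y)) x w w) (R : ℝ) :
    IntegrableOn (wS (fun y => -Real.log (f y))) (closedBall (0 : E n) R) := by
  obtain ⟨c, hc, hV⟩ := exists_flow hn hS hpos hm hconv
  obtain ⟨V, lam, hF, hV0, hcT⟩ := hV 1 one_pos
  rw [← wS_congr hV0]
  exact wS_int (hF.smooth.comp (contDiff_const.prodMk contDiff_id)) R

theorem func_ineq (hn : 0 < n) {f : E n → ℝ} (hS : Spec f)
    (hpos : ∀ x ∈ closedBall (0 : E n) 1, 0 < f x) {m : ℝ} (hm : 0 < m)
    (hconv : ∀ x ∈ closedBall (0 : E n) 1, ∀ w,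
      m * ‖w‖ ^ 2 ≤ hs (fun y => -Real.log (f y)) x w w)
    {R : ℝ} {K L : Set (E n)} (hP : Pair n R K L) :
    (∫ x in K, wS (fun y => -Real.log (f y)) x) * (∫ x in L, wS (fun y => -Real.log (f y)) x)
      ≤ (∫ x in closedBall (0 : E n) 1, f x) ^ 2 := by
  obtain ⟨c, hc, hV⟩ := exists_flow hn hS hpos hm hconv
  have hv : 0 < volume.real (closedBall (0 : E n) 1) := by
    rw [Measure.real, ENNReal.toReal_pos_iff]
    exact ⟨measure_closedBall_pos _ _ one_pos, measure_closedBall_lt_top⟩
  have h1 : Tendsto (fun T => (c T * volume.real (closedBall (0 : E n) 1)) ^ 2) atTop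
      (𝓝 ((∫ x in closedBall (0 : E n) 1, f x) ^ 2)) := by
    have h2 := (hc.mul_const (volume.real (closedBall (0 : E n) 1))).pow 2
    rwa [div_mul_cancel₀ _ hv.ne'] at h2
  refine ge_of_tendsto h1 ?_
  filter_upwards [eventually_gt_atTop 0] with T hT
  obtain ⟨V, lam, hF, hV0, hcT⟩ := hV T hT
  rw [← hcT, ← wS_congr hV0]
  exact flow_ineq hn hT hF hP

end Pool.Agent.H21.CE
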