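import Pool.Agent.H21.CE.Ini
import Pool.Agent.H21.CE.Ft

/-! Task D2: the initial functions `(1 - P/k)^k` and the exponential inequality. -/

open MeasureTheory Set Filter Topology Metric
open scoped ContDiff

namespace Pool.Agent.H21.CE

variable {n : ℕ}

lemma d2_pow (N : ℕ) (s t : ℝ) :
    s ^ (2 * N) + ((2 * N : ℕ) : ℝ) * s ^ (2 * N - 1) * (t - s) ≤ t ^ (2 * N) := by
  have hc : ConvexOn ℝ univ (fun x : ℝ => x ^ (2 * N)) := (even_two_mul N).convexOn_pow
  have hd : HasDerivAt (fun x : ℝ => x ^ (2 * N)) (((2 * N : ℕ) : ℝ) * s ^ (2 * N - 1)) s :=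
    hasDerivAt_pow _ _
  rcases lt_trichotomy s t with h | h | h
  · have := hc.le_slope_of_hasDerivAt (mem_univ s) (mem_univ t) h hd
    rw [slope_def_field, le_div_iff₀ (sub_pos.2 h)] at this
    linarith
  · subst h
    simp
  · have := hc.slope_le_of_hasDerivAt (mem_univ t) (mem_univ s) h hd
    rw [slope_def_field, div_le_iff₀ (sub_pos.2 h)] at this
    linarith

section P

variable {m : ℕ} (b : Fin m → E n) (N : ℕ) (e : ℝ)

/-- the derivative of `Pp` -/
noncomputable def d2D (x : E n) : E n →L[ℝ] ℝ :=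
  ∑ i, (((2 * N : ℕ) : ℝ) * (inner ℝ (b i) x) ^ (2 * N - 1)) • innerSL ℝ (b i)
    + (2 * e) • innerSL ℝ x

/-- the inner product as a linear map into the dual -/
noncomputable def d2L (n : ℕ) : E n →L[ℝ] (E n →L[ℝ] ℝ) :=
  LinearMap.toContinuousLinearMap
    { toFun := fun x => innerSL ℝ x
      map_add' := fun x y => by simp
      map_smul' := fun c x => by simp }

lemma d2L_apply (x : E n) : d2L n x = innerSL ℝ x := rfl

/-- the second derivative of `Pp` -/
noncomputable def d2DD (x : E n) : E n →L[ℝ] (E n →L[ℝ] ℝ) :=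
  ∑ i, ((((2 * N : ℕ) : ℝ) * (((2 * N - 1 : ℕ) : ℝ) * (inner ℝ (b i) x) ^ (2 * N - 1 - 1)))
      • innerSL ℝ (b i)).smulRight (innerSL ℝ (b i)) + (2 * e) • d2L n

lemma d2_inner (c : E n) (x : E n) :
    HasFDerivAt (fun y : E n => inner ℝ c y) (innerSL ℝ c) x :=
  (innerSL ℝ c).hasFDerivAt

lemma d2_hasD (x : E n) : HasFDerivAt (Pp b N e) (d2D b N e x) x := by
  unfold Pp d2D
  refine HasFDerivAt.add (HasFDerivAt.fun_sum fun i _ => ?_) ?_
  · exact (hasDerivAt_pow (2 * N) (inner ℝ (b i) x)).comp_hasFDerivAt x (d2_inner (b i) x)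
  · have h := (hasStrictFDerivAt_norm_sq x).hasFDerivAt.const_mul e
    have h2 : e • (2 : ℕ) • innerSL ℝ x = (2 * e) • innerSL ℝ x := by
      rw [← Nat.cast_smul_eq_nsmul ℝ, smul_smul]
      congr 1
      push_cast
      ring
    exact h2 ▸ h

lemma d2_hasDD (x : E n) : HasFDerivAt (d2D b N e) (d2DD b N e x) x := by
  unfold d2D d2DD
  refine HasFDerivAt.add (HasFDerivAt.fun_sum fun i _ => ?_) ?_
  · have h := ((hasDerivAt_pow (2 * N - 1) (inner ℝ (b i) x)).comp_hasFDerivAt x
      (d2_inner (b i) x)).const_mul ((2 * N : ℕ) : ℝ)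
    rw [smul_smul] at h
    exact h.smul_const (innerSL ℝ (b i))
  · exact (d2L n).hasFDerivAt.const_smul (2 * e)

lemma d2_cont : Continuous (Pp b N e) :=
  continuous_iff_continuousAt.2 fun x => (d2_hasD b N e x).continuousAt

lemma d2_contD : Continuous (d2D b N e) :=
  continuous_iff_continuousAt.2 fun x => (d2_hasDD b N e x).continuousAt

lemma d2_Pnonneg {e : ℝ} (he : 0 < e) (x : E n) : 0 ≤ Pp b N e x := by
  unfold Pp
  have : ∀ i, 0 ≤ (inner ℝ (b i) x : ℝ) ^ (2 * N) := fun i => (even_two_mul N).pow_nonneg _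
  have h2 := Finset.sum_nonneg fun i (_ : i ∈ Finset.univ) => this i
  positivity

lemma d2_DDlower (x w : E n) : 2 * e * ‖w‖ ^ 2 ≤ d2DD b N e x w w := by
  have h : d2DD b N e x w w = ∑ i, (((2 * N : ℕ) : ℝ) * (((2 * N - 1 : ℕ) : ℝ) *
      (inner ℝ (b i) x) ^ (2 * N - 1 - 1)) * (inner ℝ (b i) w) * (inner ℝ (b i) w))
      + 2 * e * ‖w‖ ^ 2 := by
    simp [d2DD, d2L_apply, mul_assoc]
  rw [h]
  have h3 : 0 ≤ ∑ i, (((2 * N : ℕ) : ℝ) * (((2 * N - 1 : ℕ) : ℝ) *
      (inner ℝ (b i) x) ^ (2 * N - 1 - 1)) * (inner ℝ (b i) w) * (inner ℝ (b i) w)) := by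
    refine Finset.sum_nonneg fun i _ => ?_
    have he' : Even (2 * N - 1 - 1) := ⟨N - 1, by omega⟩
    have h1 := he'.pow_nonneg (inner ℝ (b i) x : ℝ)
    have h2 := mul_self_nonneg (inner ℝ (b i) w : ℝ)
    rw [mul_assoc]
    positivity
  linarith

/-- tangent plane inequality -/
lemma d2_tangent {e : ℝ} (he : 0 < e) (z x : E n) :
    Pp b N e z + d2D b N e z (x - z) ≤ Pp b N e x := by
  have h : d2D b N e z (x - z) = ∑ i, (((2 * N : ℕ) : ℝ) * (inner ℝ (b i) z) ^ (2 * N - 1)
      * (inner ℝ (b i) x - inner ℝ (b i) z)) + 2 * e * inner ℝ z (x - z) := by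
    simp [d2D, inner_sub_right]
  rw [h]
  unfold Pp
  have h1 : ∑ i, ((inner ℝ (b i) z : ℝ) ^ (2 * N) + ((2 * N : ℕ) : ℝ) *
      (inner ℝ (b i) z) ^ (2 * N - 1) * (inner ℝ (b i) x - inner ℝ (b i) z)) ≤
      ∑ i, (inner ℝ (b i) x : ℝ) ^ (2 * N) :=
    Finset.sum_le_sum fun i _ => d2_pow N _ _
  rw [Finset.sum_add_distrib] at h1
  have h2 : ‖z‖ ^ 2 + 2 * inner ℝ z (x - z) ≤ ‖x‖ ^ 2 := by
    have h3 := norm_add_sq_real z (x - z)
    rw [add_sub_cancel] at h3
    nlinarith [sq_nonneg ‖x - z‖]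
  nlinarith

end P

section u

variable {m : ℕ} (b : Fin m → E n) (N : ℕ) (e : ℝ) (k : ℕ)

/-- the potential of the initial function -/
noncomputable def d2V (y : E n) : ℝ := -Real.log ((1 - Pp b N e y / k) ^ k)

lemma d2_hasV (hk : 0 < k) {y : E n} (hy : Pp b N e y < k) :
    HasFDerivAt (d2V b N e k) ((1 - Pp b N e y / k)⁻¹ • d2D b N e y) y := by
  have hk' : (0 : ℝ) < k := by exact_mod_cast hk
  have hu : 0 < 1 - Pp b N e y / k := by
    rw [sub_pos, div_lt_one hk']
    exact hy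
  have h1 : HasFDerivAt (fun y => 1 - Pp b N e y / k) (-((k : ℝ)⁻¹ • d2D b N e y)) y := by
    have := ((d2_hasD b N e y).const_mul ((k : ℝ)⁻¹)).const_sub 1
    simpa only [div_eq_inv_mul] using this
  have h2 := ((h1.log hu.ne').const_mul (k : ℝ)).neg
  have h3 : d2V b N e k = fun y => -((k : ℝ) * Real.log (1 - Pp b N e y / k)) := by
    funext y
    rw [d2V, Real.log_pow]
  have h4 : -((k : ℝ) • ((1 - Pp b N e y / k)⁻¹ • -((k : ℝ)⁻¹ • d2D b N e y))) =
      (1 - Pp b N e y / k)⁻¹ • d2D b N e y := by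
    rw [smul_neg, smul_neg, neg_neg, smul_smul, smul_smul]
    congr 1
    field_simp
  rw [h3, ← h4]
  exact h2

lemma d2_hasVV (hk : 0 < k) {x : E n} (hx : Pp b N e x < k) (w : E n) :
    hs (d2V b N e k) x w w = (1 - Pp b N e x / k)⁻¹ * d2DD b N e x w w +
      ((1 - Pp b N e x / k) ^ 2)⁻¹ * ((k : ℝ)⁻¹ * d2D b N e x w) * d2D b N e x w := by
  have hk' : (0 : ℝ) < k := by exact_mod_cast hk
  have hu : 0 < 1 - Pp b N e x / k := by
    rw [sub_pos, div_lt_one hk']
    exact hx
  have h1 : HasFDerivAt (fun y => 1 - Pp b N e y / k) (-((k : ℝ)⁻¹ • d2D b N e x)) x := by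
    have := ((d2_hasD b N e x).const_mul ((k : ℝ)⁻¹)).const_sub 1
    simpa only [div_eq_inv_mul] using this
  have h2 := (hasDerivAt_inv hu.ne').comp_hasFDerivAt x h1
  have h3 := h2.smul (d2_hasDD b N e x)
  have h4 : fderiv ℝ (d2V b N e k) =ᶠ[𝓝 x]
      fun y => (1 - Pp b N e y / k)⁻¹ • d2D b N e y := by
    have : ∀ᶠ y in 𝓝 x, Pp b N e y < k :=
      (d2_cont b N e).continuousAt.eventually_lt continuousAt_const hx
    exact this.mono fun y hy => (d2_hasV b N e k hk hy).fderiv
  have h5 : HasFDerivAt (fun y => (1 - Pp b N e y / k)⁻¹ • d2D b N e y) _ x := h3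
  rw [hs, h4.fderiv_eq, h5.fderiv]
  simp

end u

/-- the initial function: positivity and convexity on the ball -/
theorem init_conv {m : ℕ} (b : Fin m → E n) (N : ℕ) {e : ℝ} (he : 0 < e) : ∃ k0 : ℕ,
    ∀ k ≥ k0, (∀ x ∈ closedBall (0 : E n) 1, 0 < (1 - Pp b N e x / k) ^ k) ∧
      ∀ x ∈ closedBall (0 : E n) 1, ∀ w,
        2 * e * ‖w‖ ^ 2 ≤ hs (fun y => -Real.log ((1 - Pp b N e y / k) ^ k)) x w w := by
  obtain ⟨C, hC⟩ := (isCompact_closedBall (0 : E n) 1).exists_bound_of_continuousOn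
    (d2_cont b N e).continuousOn
  obtain ⟨k0, hk0⟩ := exists_nat_gt C
  refine ⟨k0 + 1, fun k hk => ?_⟩
  have hk1 : 0 < k := by omega
  have hk' : (0 : ℝ) < k := by exact_mod_cast hk1
  have hlt : ∀ x ∈ closedBall (0 : E n) 1, Pp b N e x < k := by
    intro x hx
    have h1 := hC x hx
    have h2 : (k0 : ℝ) ≤ k := by exact_mod_cast (by omega : k0 ≤ k)
    exact lt_of_le_of_lt (le_of_abs_le h1) (lt_of_lt_of_le hk0 h2)
  have hu : ∀ x ∈ closedBall (0 : E n) 1, 0 < 1 - Pp b N e x / k := by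
    intro x hx
    rw [sub_pos, div_lt_one hk']
    exact hlt x hx
  refine ⟨fun x hx => pow_pos (hu x hx) k, fun x hx w => ?_⟩
  have h := d2_hasVV b N e k hk1 (hlt x hx) w
  change 2 * e * ‖w‖ ^ 2 ≤ hs (d2V b N e k) x w w
  rw [h]
  have h1 : 1 ≤ (1 - Pp b N e x / k)⁻¹ := by
    rw [one_le_inv₀ (hu x hx)]
    have := d2_Pnonneg b N he x
    have : 0 ≤ Pp b N e x / k := by positivity
    linarith
  have h2 := d2_DDlower b N e x w
  have h3 : 0 ≤ d2DD b N e x w w := le_trans (by positivity) h2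
  have h4 : 0 ≤ ((1 - Pp b N e x / k) ^ 2)⁻¹ * ((k : ℝ)⁻¹ * d2D b N e x w) * d2D b N e x w := by
    have : ((1 - Pp b N e x / k) ^ 2)⁻¹ * ((k : ℝ)⁻¹ * d2D b N e x w) * d2D b N e x w =
      ((1 - Pp b N e x / k) ^ 2)⁻¹ * (k : ℝ)⁻¹ * (d2D b N e x w) ^ 2 := by ring
    rw [this]
    positivity
  nlinarith

/-- comparison of the limit weight with `exp (-P)` -/
theorem init_VS (hn : 0 < n) {m : ℕ} (b : Fin m → E n) (N : ℕ) (hN : 1 ≤ N) {e : ℝ} (he : 0 < e) (R : ℝ)
    {d : ℝ} (hd : 0 < d) : ∃ k0 : ℕ, ∀ k ≥ k0, ∀ x : E n, ‖x‖ ≤ R →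
      Real.exp (-(Pp b N e x + d)) ≤ wS (fun y => -Real.log ((1 - Pp b N e y / k) ^ k)) x := by
  obtain ⟨C, hC⟩ := (isCompact_closedBall (0 : E n) 1).exists_bound_of_continuousOn
    (d2_cont b N e).continuousOn
  obtain ⟨D, hD⟩ := (isCompact_closedBall (0 : E n) 1).exists_bound_of_continuousOn
    (d2_contD b N e).continuousOn
  have hC0 : 0 ≤ C := le_trans (norm_nonneg _) (hC 0 (by simp))
  have hD0 : 0 ≤ D := le_trans (norm_nonneg _) (hD 0 (by simp))
  obtain ⟨k0, hk0⟩ := exists_nat_gt (C + C * (C + D * (|R| + 1)) / d)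
  refine ⟨k0, fun k hk x hx => ?_⟩
  have hkr : C + C * (C + D * (|R| + 1)) / d < k :=
    lt_of_lt_of_le hk0 (by exact_mod_cast hk)
  have hq : 0 ≤ C * (C + D * (|R| + 1)) / d := by positivity
  have hCk : C < k := by linarith
  have hk' : (0 : ℝ) < k := lt_of_le_of_lt hC0 hCk
  have hk1 : 0 < k := by exact_mod_cast hk'
  set tau : ℝ := C / (k - C) with htau
  have hkC : 0 < (k : ℝ) - C := by linarith
  have htau0 : 0 ≤ tau := by positivity
  have htd : tau * (C + D * (|R| + 1)) ≤ d := by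
    rw [htau, div_mul_eq_mul_div, div_le_iff₀ hkC]
    have h1 : C * (C + D * (|R| + 1)) / d ≤ k - C := by linarith
    rw [div_le_iff₀ hd] at h1
    linarith
  have hP : ∀ z ∈ closedBall (0 : E n) 1, Pp b N e z ≤ C := fun z hz => le_of_abs_le (hC z hz)
  have hlt : ∀ z ∈ closedBall (0 : E n) 1, Pp b N e z < k := fun z hz =>
    lt_of_le_of_lt (hP z hz) hCk
  have hu : ∀ z ∈ closedBall (0 : E n) 1, 0 < 1 - Pp b N e z / k := by
    intro z hz
    rw [sub_pos, div_lt_one hk']
    exact hlt z hz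
  have hui : ∀ z ∈ closedBall (0 : E n) 1, (1 - Pp b N e z / k)⁻¹ ≤ 1 + tau := by
    intro z hz
    have h1 := hu z hz
    have h2 : 1 + tau = k / (k - C) := by
      rw [htau]
      field_simp
      ring
    rw [h2, inv_le_comm₀ h1 (by positivity), inv_div, div_le_iff₀ hk']
    have h3 := hP z hz
    have h4 : (1 - Pp b N e z / k) * k = k - Pp b N e z := by field_simp
    rw [h4]
    linarith
  have hu1 : ∀ z ∈ closedBall (0 : E n) 1, 1 ≤ (1 - Pp b N e z / k)⁻¹ := by
    intro z hz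
    rw [one_le_inv₀ (hu z hz)]
    have := d2_Pnonneg b N he z
    have : 0 ≤ Pp b N e z / k := by positivity
    linarith
  have hV : ∀ z ∈ closedBall (0 : E n) 1, d2V b N e k z ≤ Pp b N e z + tau * C := by
    intro z hz
    have h0 := hu z hz
    have h1 := Real.one_sub_inv_le_log_of_pos h0
    have h2 : d2V b N e k z = -((k : ℝ) * Real.log (1 - Pp b N e z / k)) := by
      rw [d2V, Real.log_pow]
    have h3 : (k : ℝ) * ((1 - Pp b N e z / k)⁻¹ - 1) = Pp b N e z * (1 - Pp b N e z / k)⁻¹ := by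
      have h4 : (k : ℝ) * (1 - Pp b N e z / k) = k - Pp b N e z := by field_simp
      have h5 : (1 - Pp b N e z / k) * (1 - Pp b N e z / k)⁻¹ = 1 := mul_inv_cancel₀ h0.ne'
      have h6 : (k : ℝ) * ((1 - Pp b N e z / k) * (1 - Pp b N e z / k)⁻¹) =
          (k - Pp b N e z) * (1 - Pp b N e z / k)⁻¹ := by rw [← mul_assoc, h4]
      rw [h5] at h6
      linarith
    have h7 := hui z hz
    have h8 := hP z hz
    have h9 := d2_Pnonneg b N he z
    rw [h2]
    have h10 : -((k : ℝ) * Real.log (1 - Pp b N e z / k)) ≤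
        (k : ℝ) * ((1 - Pp b N e z / k)⁻¹ - 1) := by nlinarith
    rw [h3] at h10
    have h11 : Pp b N e z * (1 - Pp b N e z / k)⁻¹ ≤ Pp b N e z * (1 + tau) :=
      mul_le_mul_of_nonneg_left h7 h9
    nlinarith
  have hmain : ∀ z ∈ closedBall (0 : E n) 1, ell (d2V b N e k) z x ≤ Pp b N e x + d := by
    intro z hz
    have h1 := hV z hz
    have h2 := d2_tangent b N he z x
    have h3 : ell (d2V b N e k) z x =
        d2V b N e k z + (1 - Pp b N e z / k)⁻¹ * d2D b N e z (x - z) := by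
      rw [ell, (d2_hasV b N e k hk1 (hlt z hz)).fderiv]
      simp
    have h4 : d2D b N e z (x - z) ≤ D * (|R| + 1) := by
      refine le_trans (le_abs_self _) (le_trans ((d2D b N e z).le_opNorm (x - z)) ?_)
      refine mul_le_mul (hD z hz) ?_ (norm_nonneg _) hD0
      have h5 : ‖z‖ ≤ 1 := by simpa using hz
      exact le_trans (norm_sub_le x z) (add_le_add (le_trans hx (le_abs_self R)) h5)
    have h6 := hu1 z hz
    have h7 := hui z hz
    have h8 : (1 - Pp b N e z / k)⁻¹ * d2D b N e z (x - z) ≤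
        d2D b N e z (x - z) + tau * (D * (|R| + 1)) := by
      have h9 : ((1 - Pp b N e z / k)⁻¹ - 1) * d2D b N e z (x - z) ≤
          ((1 - Pp b N e z / k)⁻¹ - 1) * (D * (|R| + 1)) :=
        mul_le_mul_of_nonneg_left h4 (by linarith)
      have h10 : ((1 - Pp b N e z / k)⁻¹ - 1) * (D * (|R| + 1)) ≤ tau * (D * (|R| + 1)) :=
        mul_le_mul_of_nonneg_right (by linarith) (by positivity)
      nlinarith
    rw [h3]
    nlinarith
  change Real.exp (-(Pp b N e x + d)) ≤ wS (d2V b N e k) x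
  unfold wS
  split_ifs with h
  · have hxB : x ∈ closedBall (0 : E n) 1 := by simpa using h
    have h1 := hmain x hxB
    rw [ell, sub_self, map_zero, add_zero] at h1
    exact Real.exp_le_exp.2 (by linarith)
  · refine Real.exp_le_exp.2 (neg_le_neg ?_)
    unfold VS
    refine csSup_le ?_ ?_
    · refine ⟨_, ⟨eb ⟨0, hn⟩, ?_, rfl⟩⟩
      rw [mem_sphere_zero_iff_norm, norm_eb]
    · rintro _ ⟨z, hz, rfl⟩
      exact hmain z (sphere_subset_closedBall hz)

lemma d2_wS_int {m : ℕ} (b : Fin m → E n) (N : ℕ) {e : ℝ} (he : 0 < e) {R : ℝ} {K : Set (E n)}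
    (hK : MeasurableSet K) (hKR : K ⊆ closedBall 0 R) : ∃ k0 : ℕ, ∀ k ≥ k0,
      IntegrableOn (wS (d2V b N e k)) K := by
  obtain ⟨C, hC⟩ := (isCompact_closedBall (0 : E n) 1).exists_bound_of_continuousOn
    (d2_cont b N e).continuousOn
  have hC0 : 0 ≤ C := le_trans (norm_nonneg _) (hC 0 (by simp))
  obtain ⟨k0, hk0⟩ := exists_nat_gt C
  refine ⟨k0, fun k hk => ?_⟩
  have hCk : C < k := lt_of_lt_of_le hk0 (by exact_mod_cast hk)
  have hk' : (0 : ℝ) < k := lt_of_le_of_lt hC0 hCk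
  have hk1 : 0 < k := by exact_mod_cast hk'
  have hlt : ∀ z ∈ closedBall (0 : E n) 1, Pp b N e z < k := fun z hz =>
    lt_of_le_of_lt (le_of_abs_le (hC z hz)) hCk
  have hu : ∀ z ∈ closedBall (0 : E n) 1, 1 - Pp b N e z / k ≠ 0 := by
    intro z hz
    have : Pp b N e z / k < 1 := (div_lt_one hk').2 (hlt z hz)
    linarith
  have hVc : ContinuousOn (d2V b N e k) (closedBall (0 : E n) 1) := by
    intro z hz
    exact (d2_hasV b N e k hk1 (hlt z hz)).continuousAt.continuousWithinAt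
  have hVS : Continuous (VS (d2V b N e k)) := by
    let F : E n → sphere (0 : E n) 1 → ℝ := fun x z =>
      d2V b N e k z + (1 - Pp b N e z / k)⁻¹ * d2D b N e z (x - z)
    have hF : Continuous (Function.uncurry F) := by
      have hz : ∀ z : sphere (0 : E n) 1, (z : E n) ∈ closedBall (0 : E n) 1 := fun z =>
        sphere_subset_closedBall z.2
      have h1 : Continuous (fun z : sphere (0 : E n) 1 => d2V b N e k z) :=
        hVc.comp_continuous continuous_subtype_val hz
      have h2 : Continuous (fun z : sphere (0 : E n) 1 => (1 - Pp b N e z / k)⁻¹) := by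
        refine Continuous.inv₀ ?_ fun z => hu z (hz z)
        exact continuous_const.sub (((d2_cont b N e).comp continuous_subtype_val).div_const _)
      have h3 : Continuous (fun q : E n × sphere (0 : E n) 1 => d2D b N e q.2 (q.1 - q.2)) :=
        ((d2_contD b N e).comp (continuous_subtype_val.comp continuous_snd)).clm_apply
          (continuous_fst.sub (continuous_subtype_val.comp continuous_snd))
      exact (h1.comp continuous_snd).add ((h2.comp continuous_snd).mul h3)
    have hF2 : Continuous ↿F := hF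
    have h4 := IsCompact.continuous_sSup (f := F) isCompact_univ hF2
    have h5 : VS (d2V b N e k) = fun x => sSup (F x '' univ) := by
      funext x
      unfold VS
      congr 1
      ext y
      constructor
      · rintro ⟨z, hz, rfl⟩
        refine ⟨⟨z, hz⟩, mem_univ _, ?_⟩
        simp only [F, ell,
          (d2_hasV b N e k hk1 (hlt z (sphere_subset_closedBall hz))).fderiv]
        simp
      · rintro ⟨z, -, rfl⟩
        refine ⟨z, z.2, ?_⟩
        simp only [F, ell,
          (d2_hasV b N e k hk1 (hlt z (sphere_subset_closedBall z.2))).fderiv]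
        simp
    rw [h5]
    exact h4
  have e1 : IntegrableOn (wS (d2V b N e k)) (K ∩ closedBall 0 1) := by
    have h1 : IntegrableOn (fun x => Real.exp (-d2V b N e k x)) (closedBall (0 : E n) 1) :=
      (Real.continuous_exp.comp_continuousOn hVc.neg).integrableOn_compact
        (isCompact_closedBall _ _)
    refine IntegrableOn.congr_fun (h1.mono_set inter_subset_right) ?_
      (hK.inter measurableSet_closedBall)
    intro x hx
    have : ‖x‖ ≤ 1 := by simpa using hx.2
    simp only [wS, if_pos this]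
  have e2 : IntegrableOn (wS (d2V b N e k)) (K \ closedBall 0 1) := by
    have h1 : IntegrableOn (fun x => Real.exp (-VS (d2V b N e k) x)) (closedBall (0 : E n) R) :=
      (Real.continuous_exp.comp hVS.neg).continuousOn.integrableOn_compact
        (isCompact_closedBall _ _)
    refine IntegrableOn.congr_fun (h1.mono_set (sdiff_subset.trans hKR)) ?_
      (hK.diff measurableSet_closedBall)
    intro x hx
    have : ¬ ‖x‖ ≤ 1 := by simpa using hx.2
    simp only [wS, if_neg this]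
  have := e1.union e2
  rwa [inter_union_sdiff] at this

theorem exp_ineq (hn : 0 < n) {m : ℕ} (b : Fin m → E n) (N : ℕ) (hN : 1 ≤ N) {e : ℝ} (he : 0 < e)
    {R : ℝ} {K L : Set (E n)} (hP : Pair n R K L) :
    (∫ x in K, Real.exp (-Pp b N e x)) * (∫ x in L, Real.exp (-Pp b N e x))
      ≤ (∫ x in closedBall (0 : E n) 1, Real.exp (-Pp b N e x)) ^ 2 := by
  set a1 := ∫ x in K, Real.exp (-Pp b N e x) with ha1
  set a2 := ∫ x in L, Real.exp (-Pp b N e x) with ha2
  set a3 := ∫ x in closedBall (0 : E n) 1, Real.exp (-Pp b N e x) with ha3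
  have hc : Continuous (fun x => Real.exp (-Pp b N e x)) :=
    Real.continuous_exp.comp (d2_cont b N e).neg
  have ha1n : 0 ≤ a1 := integral_nonneg fun x => (Real.exp_pos _).le
  have ha2n : 0 ≤ a2 := integral_nonneg fun x => (Real.exp_pos _).le
  have key : ∀ d : ℝ, 0 < d → (Real.exp (-d) * a1) * (Real.exp (-d) * a2) ≤ a3 ^ 2 := by
    intro d hd
    obtain ⟨k1, hk1⟩ := init_conv b N he
    obtain ⟨k2, hk2⟩ := init_VS hn b N hN he R hd
    obtain ⟨k3, hk3⟩ := d2_wS_int b N he hP.mK hP.bK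
    obtain ⟨k4, hk4⟩ := d2_wS_int b N he hP.mL hP.bL
    obtain ⟨C, hC⟩ := (isCompact_closedBall (0 : E n) 1).exists_bound_of_continuousOn
      (d2_cont b N e).continuousOn
    obtain ⟨k5, hk5⟩ := exists_nat_gt C
    set k := k1 + k2 + k3 + k4 + k5 with hk
    have c1 := hk1 k (by omega)
    have c2 := hk2 k (by omega)
    have c3 := hk3 k (by omega)
    have c4 := hk4 k (by omega)
    have h := func_ineq hn (spec_init b N k e) c1.1 (by positivity : 0 < 2 * e) c1.2 hP
    have hlow : ∀ Q : Set (E n), MeasurableSet Q → Q ⊆ closedBall 0 R →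
        IntegrableOn (wS (d2V b N e k)) Q →
        Real.exp (-d) * ∫ x in Q, Real.exp (-Pp b N e x) ≤ ∫ x in Q, wS (d2V b N e k) x := by
      intro Q hQ hQR hQi
      rw [← integral_const_mul]
      refine setIntegral_mono_on ?_ hQi hQ ?_
      · exact ((hc.continuousOn.integrableOn_compact
          (isCompact_closedBall (0 : E n) R)).mono_set hQR).const_mul _
      · intro x hx
        have h1 := c2 x (by simpa using hQR hx)
        rw [← Real.exp_add]
        refine le_trans (le_of_eq ?_) h1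
        congr 1
        ring
    have l1 := hlow K hP.mK hP.bK c3
    have l2 := hlow L hP.mL hP.bL c4
    have u1 : ∫ x in closedBall (0 : E n) 1, (1 - Pp b N e x / k) ^ k ≤ a3 := by
      refine setIntegral_mono_on ?_ (hc.continuousOn.integrableOn_compact
        (isCompact_closedBall _ _)) measurableSet_closedBall ?_
      · exact ((continuous_const.sub ((d2_cont b N e).div_const _)).pow
          k).continuousOn.integrableOn_compact (isCompact_closedBall _ _)
      · intro x hx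
        refine Real.one_sub_div_pow_le_exp_neg ?_
        have h1 := le_of_abs_le (hC x hx)
        have h2 : (k5 : ℝ) ≤ k := by exact_mod_cast (by omega : k5 ≤ k)
        linarith
    have u0 : 0 ≤ ∫ x in closedBall (0 : E n) 1, (1 - Pp b N e x / k) ^ k :=
      setIntegral_nonneg measurableSet_closedBall fun x hx => (c1.1 x hx).le
    calc (Real.exp (-d) * a1) * (Real.exp (-d) * a2)
        ≤ (∫ x in K, wS (d2V b N e k) x) * (∫ x in L, wS (d2V b N e k) x) :=
          mul_le_mul l1 l2 (by positivity) (le_trans (by positivity) l1)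
      _ ≤ _ := h
      _ ≤ a3 ^ 2 := pow_le_pow_left₀ u0 u1 2
  have hlim : Tendsto (fun d : ℝ => (Real.exp (-d) * a1) * (Real.exp (-d) * a2)) (𝓝[>] 0)
      (𝓝 (a1 * a2)) := by
    have h1 : Continuous (fun d : ℝ => (Real.exp (-d) * a1) * (Real.exp (-d) * a2)) := by
      fun_prop
    have h2 := h1.tendsto 0
    simp only [neg_zero, Real.exp_zero, one_mul] at h2
    exact h2.mono_left nhdsWithin_le_nhds
  exact le_of_tendsto hlim (eventually_mem_nhdsWithin.mono fun d hd => key d hd)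

end Pool.Agent.H21.CE
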