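import Pool.Agent.H21.CE.Cvx

/-!
# The initial function: positivity, convexity, comparison
-/

open MeasureTheory Set Filter Topology Metric
open scoped ContDiff

namespace Pool.Agent.H21.CE

variable {n : ℕ}

lemma ea_smooth {m : ℕ} (b : Fin m → E n) (N : ℕ) (e : ℝ) : ContDiff ℝ ∞ (Pp b N e) := by
  unfold Pp
  refine ContDiff.add (ContDiff.sum fun i _ => ?_) (contDiff_const.mul (contDiff_norm_sq ℝ))
  exact (contDiff_const.inner ℝ contDiff_id).pow _

lemma ea_nonneg {m : ℕ} (b : Fin m → E n) (N : ℕ) {e : ℝ} (he : 0 < e) (x : E n) :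
    0 ≤ Pp b N e x := by
  unfold Pp
  refine add_nonneg (Finset.sum_nonneg fun i _ => ?_) (by positivity)
  rw [pow_mul]
  positivity

lemma ea_line {m : ℕ} (b : Fin m → E n) (N : ℕ) (e : ℝ) (x w : E n) (s : ℝ) :
    fderiv ℝ (Pp b N e) (x + s • w) w = ∑ i, (2 * N : ℕ) * (inner ℝ (b i) x
      + s * inner ℝ (b i) w) ^ (2 * N - 1) * inner ℝ (b i) w
      + e * (2 * inner ℝ x w + 2 * s * ‖w‖ ^ 2) := by
  have h1 := hasDerivAt_line (ea_smooth b N e) x w s
  refine h1.unique ?_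
  have h2 : (fun s : ℝ => Pp b N e (x + s • w)) = fun s : ℝ =>
      ∑ i, (inner ℝ (b i) x + s * inner ℝ (b i) w) ^ (2 * N)
        + e * (‖x‖ ^ 2 + 2 * s * inner ℝ x w + s ^ 2 * ‖w‖ ^ 2) := by
    funext s
    unfold Pp
    congr 1
    · refine Finset.sum_congr rfl fun i _ => ?_
      rw [inner_add_right, inner_smul_right]
    · rw [norm_add_sq_real, inner_smul_right, norm_smul, mul_pow, Real.norm_eq_abs, sq_abs]
      ring
  rw [h2]
  refine HasDerivAt.add (HasDerivAt.fun_sum fun i _ => ?_) ?_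
  · have h3 : HasDerivAt (fun s : ℝ => inner ℝ (b i) x + s * inner ℝ (b i) w)
        (inner ℝ (b i) w) s := by
      simpa using ((hasDerivAt_id s).mul_const (inner ℝ (b i) w)).const_add (inner ℝ (b i) x)
    exact h3.pow (2 * N)
  · have h3 : HasDerivAt (fun s : ℝ => ‖x‖ ^ 2 + 2 * s * inner ℝ x w + s ^ 2 * ‖w‖ ^ 2)
        (2 * inner ℝ x w + 2 * s * ‖w‖ ^ 2) s := by
      have h4 : HasDerivAt (fun s : ℝ => 2 * s * inner ℝ x w) (2 * inner ℝ x w) s := by
        simpa using ((hasDerivAt_id s).const_mul 2).mul_const (inner ℝ x w)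
      have h5 : HasDerivAt (fun s : ℝ => s ^ 2 * ‖w‖ ^ 2) (2 * s * ‖w‖ ^ 2) s := by
        simpa using (hasDerivAt_pow 2 s).mul_const (‖w‖ ^ 2)
      exact (h4.const_add (‖x‖ ^ 2)).add h5
    exact h3.const_mul e

lemma ea_hs {m : ℕ} (b : Fin m → E n) (N : ℕ) (e : ℝ) (x w : E n) :
    2 * e * ‖w‖ ^ 2 ≤ hs (Pp b N e) x w w := by
  have h1 := hasDerivAt_line2 (ea_smooth b N e) x w w 0
  have h2 : (fun s : ℝ => fderiv ℝ (Pp b N e) (x + s • w) w) = fun s : ℝ =>
      ∑ i, (2 * N : ℕ) * (inner ℝ (b i) x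
      + s * inner ℝ (b i) w) ^ (2 * N - 1) * inner ℝ (b i) w
      + e * (2 * inner ℝ x w + 2 * s * ‖w‖ ^ 2) := by
    funext s
    exact ea_line b N e x w s
  rw [h2, zero_smul, add_zero] at h1
  have h3 : HasDerivAt (fun s : ℝ =>
      ∑ i, ((2 * N : ℕ) : ℝ) * (inner ℝ (b i) x
      + s * inner ℝ (b i) w) ^ (2 * N - 1) * inner ℝ (b i) w
      + e * (2 * inner ℝ x w + 2 * s * ‖w‖ ^ 2))
      (∑ i, ((2 * N : ℕ) : ℝ) * (((2 * N - 1 : ℕ) : ℝ) * (inner ℝ (b i) x
        + 0 * inner ℝ (b i) w) ^ (2 * N - 1 - 1) * inner ℝ (b i) w) * inner ℝ (b i) w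
      + e * (2 * ‖w‖ ^ 2)) 0 := by
    refine HasDerivAt.add (HasDerivAt.fun_sum fun i _ => ?_) ?_
    · have h3 : HasDerivAt (fun s : ℝ => inner ℝ (b i) x + s * inner ℝ (b i) w)
          (inner ℝ (b i) w) 0 := by
        simpa using ((hasDerivAt_id (0:ℝ)).mul_const (inner ℝ (b i) w)).const_add
          (inner ℝ (b i) x)
      exact ((h3.pow (2 * N - 1)).const_mul _).mul_const _
    · have h4 : HasDerivAt (fun s : ℝ => 2 * inner ℝ x w + 2 * s * ‖w‖ ^ 2) (2 * ‖w‖ ^ 2) 0 := by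
        simpa using (((hasDerivAt_id (0:ℝ)).const_mul 2).mul_const (‖w‖ ^ 2)).const_add
          (2 * inner ℝ x w)
      exact h4.const_mul e
  rw [h1.unique h3]
  have h4 : 0 ≤ ∑ i, ((2 * N : ℕ) : ℝ) * (((2 * N - 1 : ℕ) : ℝ) * (inner ℝ (b i) x
        + 0 * inner ℝ (b i) w) ^ (2 * N - 1 - 1) * inner ℝ (b i) w) * inner ℝ (b i) w := by
    refine Finset.sum_nonneg fun i _ => ?_
    have h5 : 2 * N - 1 - 1 = 2 * (N - 1) := by omega
    rw [h5, pow_mul]
    have h6 : 0 ≤ ((inner ℝ (b i) x + 0 * inner ℝ (b i) w) ^ 2) ^ (N - 1) := by positivity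
    have h7 : ((2 * N : ℕ) : ℝ) * (((2 * N - 1 : ℕ) : ℝ) * ((inner ℝ (b i) x
        + 0 * inner ℝ (b i) w) ^ 2) ^ (N - 1) * inner ℝ (b i) w) * inner ℝ (b i) w
        = ((2 * N : ℕ) : ℝ) * ((2 * N - 1 : ℕ) : ℝ) * (((inner ℝ (b i) x
        + 0 * inner ℝ (b i) w) ^ 2) ^ (N - 1)) * (inner ℝ (b i) w) ^ 2 := by ring
    rw [h7]
    positivity
  linarith

/-- tangent planes of the convex function -/
lemma ea_tangent {m : ℕ} (b : Fin m → E n) (N : ℕ) {e : ℝ} (he : 0 < e) (z x : E n) :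
    Pp b N e z + fderiv ℝ (Pp b N e) z (x - z) ≤ Pp b N e x := by
  set P := Pp b N e with hP
  have hsm : ContDiff ℝ ∞ P := ea_smooth b N e
  have h1 : ∀ s ∈ Icc (0 : ℝ) 1, fderiv ℝ P z (x - z) ≤ fderiv ℝ P (z + s • (x - z)) (x - z) := by
    intro s hs
    have h2 := le_of_deriv_nonneg_unit (fun s => hasDerivAt_line2 hsm z (x - z) (x - z) s) hs
      (fun s _ => by
        have := ea_hs b N e (z + s • (x - z)) (x - z)
        have h3 : 0 ≤ 2 * e * ‖x - z‖ ^ 2 := by positivity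
        linarith)
    simpa using h2
  have h2 := le_of_deriv_nonneg_unit (k := fun s => P (z + s • (x - z)) - s * fderiv ℝ P z (x - z))
    (k' := fun s => fderiv ℝ P (z + s • (x - z)) (x - z) - fderiv ℝ P z (x - z))
    (fun s => by
      have h3 := hasDerivAt_line hsm z (x - z) s
      have h4 : HasDerivAt (fun s : ℝ => s * fderiv ℝ P z (x - z)) (fderiv ℝ P z (x - z)) s := by
        simpa using (hasDerivAt_id s).mul_const (fderiv ℝ P z (x - z))
      exact h3.sub h4) (t := 1) ⟨zero_le_one, le_rfl⟩ (fun s hs => by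
        have := h1 s hs
        linarith)
  simp only [zero_smul, add_zero, zero_mul, sub_zero, one_smul, one_mul, add_sub_cancel] at h2
  linarith

/-- derivative data of `-log (1 - P/k)^k` -/
lemma ea_log {P : E n → ℝ} (hP : ContDiff ℝ ∞ P) {k : ℕ} (hk : 0 < k) {x : E n}
    (hx : 0 < 1 - P x / k) :
    (∀ v, fderiv ℝ (fun y => -Real.log ((1 - P y / k) ^ k)) x v
      = (1 - P x / k)⁻¹ * fderiv ℝ P x v) ∧
    ∀ w, hs (fun y => -Real.log ((1 - P y / k) ^ k)) x w w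
      = (1 - P x / k)⁻¹ * hs P x w w + ((1 - P x / k) ^ 2 * k)⁻¹ * (fderiv ℝ P x w) ^ 2 := by
  have hk' : (0 : ℝ) < k := by exact_mod_cast hk
  set u : E n → ℝ := fun y => 1 - P y / k with hu
  have hus : ContDiff ℝ ∞ u := contDiff_const.sub (hP.div_const _)
  have hud : Differentiable ℝ u := hus.differentiable (by simp)
  have hPd : Differentiable ℝ P := hP.differentiable (by simp)
  have hPd2 : Differentiable ℝ (fderiv ℝ P) :=
    (hP.fderiv_right (m := 1) (by norm_cast)).differentiable (by simp)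
  have hfu : ∀ y, HasFDerivAt u (-((k : ℝ)⁻¹ • fderiv ℝ P y)) y := by
    intro y
    have h1 := ((hPd y).hasFDerivAt.mul_const ((k : ℝ)⁻¹)).const_sub 1
    exact h1
  have h1 : ∀ y : E n, 0 < u y →
      HasFDerivAt (fun y => -Real.log ((u y) ^ k)) ((u y)⁻¹ • fderiv ℝ P y) y := by
    intro y hy
    have h2 := ((hfu y).log hy.ne').const_mul (-(k : ℝ))
    have h3 : (fun y => -Real.log ((u y) ^ k)) = fun y => -(k : ℝ) * Real.log (u y) := by
      funext y
      rw [Real.log_pow]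
      ring
    rw [h3]
    refine h2.congr_fderiv ?_
    ext v
    simp only [ContinuousLinearMap.smul_apply, ContinuousLinearMap.neg_apply, smul_eq_mul]
    field_simp
  have h2 : ∀ᶠ y in 𝓝 x, 0 < u y := hus.continuous.continuousAt.eventually (lt_mem_nhds hx)
  have h3 : fderiv ℝ (fun y => -Real.log ((u y) ^ k)) =ᶠ[𝓝 x]
      fun y => (u y)⁻¹ • fderiv ℝ P y := by
    filter_upwards [h2] with y hy
    rw [(h1 y hy).fderiv]
  have hux : 0 < u x := hx
  have h4 : HasFDerivAt (fun y => (u y)⁻¹) (((u x ^ 2)⁻¹ * (k : ℝ)⁻¹) • fderiv ℝ P x) x := by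
    have h5 := (hasDerivAt_inv hux.ne').comp_hasFDerivAt x (hfu x)
    refine h5.congr_fderiv ?_
    ext v
    simp only [ContinuousLinearMap.smul_apply, ContinuousLinearMap.neg_apply, smul_eq_mul]
    ring
  have h5 := h4.smul (hPd2 x).hasFDerivAt
  have h6 : fderiv ℝ (fderiv ℝ (fun y => -Real.log ((u y) ^ k))) x =
      (u x)⁻¹ • fderiv ℝ (fderiv ℝ P) x +
        (((u x ^ 2)⁻¹ * (k : ℝ)⁻¹) • fderiv ℝ P x).smulRight (fderiv ℝ P x) := by
    rw [h3.fderiv_eq]
    exact h5.fderiv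
  refine ⟨fun v => ?_, fun w => ?_⟩
  · rw [(h1 x hux).fderiv, ContinuousLinearMap.smul_apply, smul_eq_mul]
  · unfold hs
    rw [h6]
    simp only [ContinuousLinearMap.add_apply, ContinuousLinearMap.smul_apply,
      ContinuousLinearMap.smulRight_apply, smul_eq_mul]
    rw [mul_inv]
    ring

/-- bounds on the ball -/
lemma ea_bounds {m : ℕ} (b : Fin m → E n) (N : ℕ) (e : ℝ) : ∃ A : ℝ, 0 < A ∧
    ∀ x ∈ closedBall (0 : E n) 1, Pp b N e x ≤ A ∧ ‖fderiv ℝ (Pp b N e) x‖ ≤ A := by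
  have h1 : Continuous (Pp b N e) := (ea_smooth b N e).continuous
  have h2 : Continuous (fderiv ℝ (Pp b N e)) := (ea_smooth b N e).continuous_fderiv (by simp)
  obtain ⟨A1, hA1⟩ := (isCompact_closedBall (0 : E n) 1).exists_bound_of_continuousOn
    h1.continuousOn
  obtain ⟨A2, hA2⟩ := (isCompact_closedBall (0 : E n) 1).exists_bound_of_continuousOn
    h2.continuousOn
  refine ⟨max 1 (max A1 A2), lt_of_lt_of_le one_pos (le_max_left _ _), fun x hx => ⟨?_, ?_⟩⟩
  · exact ((Real.le_norm_self _).trans (hA1 x hx)).trans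
      ((le_max_left _ _).trans (le_max_right _ _))
  · exact (hA2 x hx).trans ((le_max_right _ _).trans (le_max_right _ _))

/-- the initial function: positivity and convexity on the ball -/
theorem init_conv {m : ℕ} (b : Fin m → E n) (N : ℕ) {e : ℝ} (he : 0 < e) : ∃ k0 : ℕ,
    ∀ k ≥ k0, (∀ x ∈ closedBall (0 : E n) 1, 0 < (1 - Pp b N e x / k) ^ k) ∧
      ∀ x ∈ closedBall (0 : E n) 1, ∀ w,
        2 * e * ‖w‖ ^ 2 ≤ hs (fun y => -Real.log ((1 - Pp b N e y / k) ^ k)) x w w := by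
  obtain ⟨A, hA, hb⟩ := ea_bounds b N e
  obtain ⟨k0, hk0⟩ := exists_nat_gt A
  refine ⟨k0, fun k hk => ?_⟩
  have hk1 : A < k := hk0.trans_le (by exact_mod_cast hk)
  have hk2 : (0 : ℝ) < k := hA.trans hk1
  have hk3 : 0 < k := by exact_mod_cast hk2
  have hu : ∀ x ∈ closedBall (0 : E n) 1, 0 < 1 - Pp b N e x / k := by
    intro x hx
    have h1 := (hb x hx).1
    rw [sub_pos, div_lt_one hk2]
    linarith
  refine ⟨fun x hx => pow_pos (hu x hx) k, fun x hx w => ?_⟩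
  rw [(ea_log (ea_smooth b N e) hk3 (hu x hx)).2 w]
  have h1 := ea_hs b N e x w
  have h2 : 1 ≤ (1 - Pp b N e x / k)⁻¹ := by
    rw [one_le_inv₀ (hu x hx)]
    have := ea_nonneg b N he x
    have h3 : 0 ≤ Pp b N e x / k := by positivity
    linarith
  have h3 : 0 ≤ hs (Pp b N e) x w w := le_trans (by positivity) h1
  have h4 : 0 ≤ ((1 - Pp b N e x / k) ^ 2 * k)⁻¹ * (fderiv ℝ (Pp b N e) x w) ^ 2 := by
    have := hu x hx
    positivity
  nlinarith

end Pool.Agent.H21.CE
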