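import Pool.Agent.H21.CE.ExpoA

/-!
# The initial function: comparison of the limit weight
-/

open MeasureTheory Set Filter Topology Metric
open scoped ContDiff

namespace Pool.Agent.H21.CE

variable {n : ℕ}

/-- comparison of the limit weight with `exp (-P)` -/
theorem init_VS (hn : 0 < n) {m : ℕ} (b : Fin m → E n) (N : ℕ) (hN : 1 ≤ N) {e : ℝ} (he : 0 < e) (R : ℝ)
    {d : ℝ} (hd : 0 < d) : ∃ k0 : ℕ, ∀ k ≥ k0, ∀ x : E n, ‖x‖ ≤ R →
      Real.exp (-(Pp b N e x + d)) ≤ wS (fun y => -Real.log ((1 - Pp b N e y / k) ^ k)) x := by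
  obtain ⟨A, hA, hb⟩ := ea_bounds b N e
  set P := Pp b N e with hP
  have hsm : ContDiff ℝ ∞ P := ea_smooth b N e
  obtain ⟨k0, hk0⟩ := exists_nat_gt (A + A ^ 2 * (2 + |R|) / d)
  refine ⟨k0, fun k hk x hx => ?_⟩
  have hkk : A + A ^ 2 * (2 + |R|) / d < k := hk0.trans_le (by exact_mod_cast hk)
  have hq0 : 0 ≤ A ^ 2 * (2 + |R|) / d := by positivity
  have hk1 : A < k := by linarith
  have hk2 : (0 : ℝ) < k := hA.trans hk1
  have hk3 : 0 < k := by exact_mod_cast hk2
  have hkA : 0 < (k : ℝ) - A := by linarith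
  have hq : A ^ 2 * (2 + |R|) / (k - A) ≤ d := by
    rw [div_le_iff₀ hkA]
    have h1 : A ^ 2 * (2 + |R|) / d ≤ k - A := by linarith
    rw [div_le_iff₀ hd] at h1
    linarith
  have hu : ∀ z ∈ closedBall (0 : E n) 1, 0 < 1 - P z / k := by
    intro z hz
    have h1 := (hb z hz).1
    rw [sub_pos, div_lt_one hk2]
    linarith
  -- the value
  have hval : ∀ z ∈ closedBall (0 : E n) 1,
      -Real.log ((1 - P z / k) ^ k) ≤ P z + A ^ 2 / (k - A) := by
    intro z hz
    have h0 := ea_nonneg b N he z
    have hzA := (hb z hz).1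
    have h1 := Real.one_sub_inv_le_log_of_pos (hu z hz)
    rw [Real.log_pow]
    have h2 : -((k : ℝ) * Real.log (1 - P z / k)) ≤ k * ((1 - P z / k)⁻¹ - 1) := by
      nlinarith
    refine h2.trans ?_
    have h3 : (k : ℝ) * ((1 - P z / k)⁻¹ - 1) = P z + P z ^ 2 / (k - P z) := by
      have h4 : (k : ℝ) - P z ≠ 0 := by
        have : 0 < (k : ℝ) - P z := by linarith
        exact this.ne'
      have h5 : 1 - P z / k = (k - P z) / k := by field_simp
      rw [h5, inv_div]
      field_simp
      ring
    rw [h3]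
    have h4 : P z ^ 2 / (k - P z) ≤ A ^ 2 / (k - A) := by
      have h0' : 0 ≤ P z := h0
      gcongr
    linarith
  unfold wS
  split_ifs with hx1
  · rw [Real.exp_le_exp]
    have hxB : x ∈ closedBall (0 : E n) 1 := by simpa using hx1
    have h1 := hval x hxB
    have h2 : A ^ 2 / (k - A) ≤ d := by
      refine le_trans ?_ hq
      gcongr
      nlinarith [abs_nonneg R, sq_nonneg A]
    linarith
  · rw [Real.exp_le_exp, neg_le_neg_iff]
    unfold VS
    refine csSup_le ?_ ?_
    · have : (sphere (0 : E n) 1).Nonempty := by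
        haveI : Nonempty (Fin n) := ⟨⟨0, hn⟩⟩
        haveI : Nontrivial (E n) := inferInstance
        exact NormedSpace.sphere_nonempty.mpr zero_le_one
      exact this.image _
    · rintro _ ⟨z, hz, rfl⟩
      have hzB : z ∈ closedBall (0 : E n) 1 := sphere_subset_closedBall hz
      have hzn : ‖z‖ = 1 := by simpa using hz
      have hlog := (ea_log hsm hk3 (hu z hzB)).1 (x - z)
      simp only [ell]
      rw [hlog]
      have h1 := hval z hzB
      have h2 := ea_tangent b N he z x
      have h0 := ea_nonneg b N he z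
      obtain ⟨hzA, hzD⟩ := hb z hzB
      have h3 : (1 - P z / k)⁻¹ = 1 + P z / (k - P z) := by
        have h4 : (k : ℝ) - P z ≠ 0 := by
          have : 0 < (k : ℝ) - P z := by linarith
          exact this.ne'
        have h5 : 1 - P z / k = (k - P z) / k := by field_simp
        rw [h5, inv_div]
        field_simp
        ring
      have h4 : P z / (k - P z) ≤ A / (k - A) := by
        have h0' : 0 ≤ P z := h0
        gcongr
      have h4' : 0 ≤ P z / (k - P z) := div_nonneg h0 (by linarith)
      have h5 : fderiv ℝ P z (x - z) ≤ A * (|R| + 1) := by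
        refine (Real.le_norm_self _).trans ((ContinuousLinearMap.le_opNorm _ _).trans ?_)
        have h6 : ‖x - z‖ ≤ |R| + 1 := by
          refine (norm_sub_le _ _).trans ?_
          rw [hzn]
          linarith [le_abs_self R]
        gcongr
      have h6 : P z / (k - P z) * fderiv ℝ P z (x - z) ≤ A / (k - A) * (A * (|R| + 1)) := by
        have h7 : 0 ≤ A * (|R| + 1) := by positivity
        calc P z / (k - P z) * fderiv ℝ P z (x - z) ≤ P z / (k - P z) * (A * (|R| + 1)) := by
              gcongr
          _ ≤ A / (k - A) * (A * (|R| + 1)) := by gcongr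
      rw [h3]
      have h7 : A ^ 2 / (k - A) + A / (k - A) * (A * (|R| + 1)) = A ^ 2 * (2 + |R|) / (k - A) := by
        ring
      have h8 : (1 + P z / (k - P z)) * fderiv ℝ P z (x - z)
          = fderiv ℝ P z (x - z) + P z / (k - P z) * fderiv ℝ P z (x - z) := by ring
      rw [h8]
      linarith

end Pool.Agent.H21.CE
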