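import Pool.Agent.H21.CE.Hom

/-!
# Task A2: the initial function is spectral
-/

open MeasureTheory Set Filter Topology Metric
open scoped ContDiff

namespace Pool.Agent.H21.CE

variable {n : ℕ}

private theorem a2_dd {f : E n → ℝ} (hf : ContDiff ℝ ∞ f) : Differentiable ℝ f :=
  hf.differentiable (by simp)

private theorem a2_dd2 {f : E n → ℝ} (hf : ContDiff ℝ ∞ f) : Differentiable ℝ (fderiv ℝ f) :=
  (hf.fderiv_right (m := 1) (by norm_cast)).differentiable (by simp)

private theorem a2_fadd {f g : E n → ℝ} (hf : ContDiff ℝ ∞ f) (hg : ContDiff ℝ ∞ g) :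
    fderiv ℝ (fun x => f x + g x) = fun x => fderiv ℝ f x + fderiv ℝ g x := by
  funext x
  exact fderiv_add (a2_dd hf x) (a2_dd hg x)

private theorem a2_fsmul {f : E n → ℝ} (hf : ContDiff ℝ ∞ f) (c : ℝ) :
    fderiv ℝ (fun x => c * f x) = fun x => c • fderiv ℝ f x := by
  funext x
  exact fderiv_const_mul (a2_dd hf x) c

private theorem a2_Lop_add {f g : E n → ℝ} (hf : ContDiff ℝ ∞ f) (hg : ContDiff ℝ ∞ g) (x : E n) :
    Lop (fun x => f x + g x) x = Lop f x + Lop g x := by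
  have h2 : fderiv ℝ (fderiv ℝ (fun x => f x + g x)) x =
      fderiv ℝ (fderiv ℝ f) x + fderiv ℝ (fderiv ℝ g) x := by
    rw [a2_fadd hf hg]
    exact fderiv_add (a2_dd2 hf x) (a2_dd2 hg x)
  unfold Lop L2 hs
  rw [h2, a2_fadd hf hg]
  simp only [add_apply, Finset.sum_add_distrib]
  ring

private theorem a2_Lop_smul {f : E n → ℝ} (hf : ContDiff ℝ ∞ f) (c : ℝ) (x : E n) :
    Lop (fun x => c * f x) x = c * Lop f x := by
  have h2 : fderiv ℝ (fderiv ℝ (fun x => c * f x)) x = c • fderiv ℝ (fderiv ℝ f) x := by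
    rw [a2_fsmul hf c]
    exact fderiv_const_smul (a2_dd2 hf x) c
  unfold Lop L2 hs
  rw [h2, a2_fsmul hf c]
  simp only [smul_apply, smul_eq_mul, ← Finset.mul_sum]
  ring

private theorem a2_Lop_zero (x : E n) : Lop (fun _ => (0 : ℝ)) x = 0 := by
  have h1 : fderiv ℝ (fun _ : E n => (0 : ℝ)) = fun _ => 0 := by
    funext y
    exact fderiv_const_apply 0
  unfold Lop L2 hs
  rw [h1]
  have h2 : fderiv ℝ (fun _ : E n => (0 : E n →L[ℝ] ℝ)) x = 0 := fderiv_const_apply 0
  rw [h2]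
  simp

/-- a spectral function has a representation which vanishes from some index on -/
private theorem a2_ext {f : E n → ℝ} (h : Spec f) :
    ∃ (N : ℕ) (g : ℕ → E n → ℝ), (∀ j, ContDiff ℝ ∞ (g j)) ∧ (∀ j x, g j (-x) = g j x) ∧
    (∀ j x, Lop (g j) x = -((j : ℝ) * (j + n)) * g j x) ∧ (∀ x, g 0 x = g 0 0) ∧
    (∀ j, N ≤ j → g j = fun _ => 0) ∧
    ∀ x, f x = ∑ j ∈ Finset.range N, g j x := by
  obtain ⟨N, g, h1, h2, h3, h4, h5⟩ := h
  refine ⟨N, fun j => if j < N then g j else fun _ => 0, ?_, ?_, ?_, ?_, ?_, ?_⟩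
  · intro j
    dsimp only
    split_ifs
    · exact h1 j
    · exact contDiff_const
  · intro j x
    dsimp only
    split_ifs
    · exact h2 j x
    · rfl
  · intro j x
    dsimp only
    split_ifs
    · exact h3 j x
    · rw [a2_Lop_zero, mul_zero]
  · intro x
    dsimp only
    split_ifs
    · exact h4 x
    · rfl
  · intro j hj
    dsimp only
    rw [if_neg (by omega)]
  · intro x
    rw [h5 x]
    refine Finset.sum_congr rfl fun j hj => ?_
    dsimp only
    rw [if_pos (Finset.mem_range.mp hj)]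

private theorem a2_sum_ext {g : ℕ → E n → ℝ} {N N' : ℕ} (hN : N ≤ N')
    (h : ∀ j, N ≤ j → g j = fun _ => 0) (x : E n) :
    ∑ j ∈ Finset.range N, g j x = ∑ j ∈ Finset.range N', g j x := by
  apply Finset.sum_subset
  · intro j hj
    rw [Finset.mem_range] at hj ⊢
    omega
  · intro j _ hj
    rw [Finset.mem_range, not_lt] at hj
    rw [h j hj]

private theorem a2_add {f g : E n → ℝ} (hf : Spec f) (hg : Spec g) :
    Spec (fun x => f x + g x) := by
  obtain ⟨N1, g1, a1, a2, a3, a4, a5, a6⟩ := a2_ext hf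
  obtain ⟨N2, g2, b1, b2, b3, b4, b5, b6⟩ := a2_ext hg
  refine ⟨max N1 N2, fun j x => g1 j x + g2 j x, fun j => (a1 j).add (b1 j), ?_, ?_, ?_, ?_⟩
  · intro j x
    simp only [a2 j x, b2 j x]
  · intro j x
    rw [a2_Lop_add (a1 j) (b1 j), a3, b3]
    ring
  · intro x
    simp only [a4 x, b4 x]
  · intro x
    dsimp only
    rw [a6, b6, a2_sum_ext (le_max_left N1 N2) a5, a2_sum_ext (le_max_right N1 N2) b5,
      Finset.sum_add_distrib]

private theorem a2_smul {f : E n → ℝ} (hf : Spec f) (c : ℝ) : Spec (fun x => c * f x) := by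
  obtain ⟨N, g, a1, a2, a3, a4, a5⟩ := hf
  refine ⟨N, fun j x => c * g j x, fun j => contDiff_const.mul (a1 j), ?_, ?_, ?_, ?_⟩
  · intro j x
    simp only [a2 j x]
  · intro j x
    rw [a2_Lop_smul (a1 j), a3]
    ring
  · intro x
    simp only [a4 x]
  · intro x
    dsimp only
    rw [a5, Finset.mul_sum]

private theorem a2_zero : Spec (fun _ : E n => (0 : ℝ)) := by
  refine ⟨0, fun _ _ => 0, fun _ => contDiff_const, fun _ _ => rfl, ?_, fun _ => rfl, ?_⟩
  · intro j x
    rw [a2_Lop_zero, mul_zero]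
  · intro x
    simp

/-- homogeneous even smooth functions -/
private def a2_H (n : ℕ) : Set (E n → ℝ) :=
  {p | ContDiff ℝ ∞ p ∧ (∀ x, p (-x) = p x) ∧ ∃ d : ℕ, ∀ (t : ℝ) (x : E n), p (t • x) = t ^ d * p x}

private theorem a2_H_mem {p : E n → ℝ} (hp : p ∈ Submonoid.closure (a2_H n)) : p ∈ a2_H n := by
  induction hp using Submonoid.closure_induction with
  | mem x hx => exact hx
  | one => exact ⟨contDiff_const, fun _ => rfl, 0, fun t x => by simp⟩
  | mul x y _ _ hx hy =>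
    obtain ⟨x1, x2, d1, x3⟩ := hx
    obtain ⟨y1, y2, d2, y3⟩ := hy
    refine ⟨x1.mul y1, ?_, d1 + d2, ?_⟩
    · intro z
      simp only [Pi.mul_apply, x2 z, y2 z]
    · intro t z
      simp only [Pi.mul_apply, x3 t z, y3 t z]
      ring

private theorem a2_spec_adjoin {f : E n → ℝ} (hf : f ∈ Algebra.adjoin ℝ (a2_H n)) : Spec f := by
  have h1 : f ∈ Submodule.span ℝ (Submonoid.closure (a2_H n) : Set (E n → ℝ)) := by
    rw [← Algebra.adjoin_eq_span]
    exact hf
  clear hf
  induction h1 using Submodule.span_induction with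
  | mem x hx =>
    obtain ⟨p1, p2, d, p3⟩ := a2_H_mem hx
    obtain ⟨g, q1, q2, q3, q4, q5⟩ := spec_hom p1 d p2 p3
    exact ⟨d + 1, g, q1, q2, q3, q4, q5⟩
  | zero => exact a2_zero
  | add x y _ _ hx hy => exact a2_add hx hy
  | smul c x _ hx => exact a2_smul hx c

theorem spec_init {m : ℕ} (b : Fin m → E n) (N k : ℕ) (e : ℝ) :
    Spec (fun x : E n => (1 - Pp b N e x / k) ^ k) := by
  apply a2_spec_adjoin
  have h1 : ∀ i, (fun x : E n => (inner ℝ (b i) x) ^ (2 * N)) ∈ Algebra.adjoin ℝ (a2_H n) := by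
    intro i
    apply Algebra.subset_adjoin
    refine ⟨?_, ?_, 2 * N, ?_⟩
    · exact ((innerSL ℝ (b i)).contDiff).pow _
    · intro x
      dsimp only
      rw [inner_neg_right, Even.neg_pow ⟨N, by ring⟩]
    · intro t x
      dsimp only
      rw [inner_smul_right, mul_pow]
  have h2 : (fun x : E n => ‖x‖ ^ 2) ∈ Algebra.adjoin ℝ (a2_H n) := by
    apply Algebra.subset_adjoin
    refine ⟨contDiff_norm_sq ℝ, ?_, 2, ?_⟩
    · intro x
      dsimp only
      rw [norm_neg]
    · intro t x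
      dsimp only
      rw [norm_smul, mul_pow, Real.norm_eq_abs, sq_abs]
  have h3 : (Pp b N e : E n → ℝ) ∈ Algebra.adjoin ℝ (a2_H n) := by
    have h4 : (Pp b N e : E n → ℝ) = (∑ i, fun x : E n => (inner ℝ (b i) x) ^ (2 * N)) +
        e • (fun x : E n => ‖x‖ ^ 2) := by
      funext x
      simp [Pp, Finset.sum_apply]
    rw [h4]
    exact add_mem (sum_mem fun i _ => h1 i) (Subalgebra.smul_mem _ h2 e)
  have h5 : (fun x : E n => (1 - Pp b N e x / k) ^ k) =
      (1 - (k : ℝ)⁻¹ • (Pp b N e : E n → ℝ)) ^ k := by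
    funext x
    simp only [Pi.pow_apply, Pi.sub_apply, Pi.one_apply, Pi.smul_apply, smul_eq_mul]
    rw [div_eq_inv_mul]
  rw [h5]
  exact pow_mem (sub_mem (one_mem _) (Subalgebra.smul_mem _ h3 _)) k

end Pool.Agent.H21.CE
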