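import Pool.Agent.H21.CE.Ft
import Pool.Agent.H21.CE.Ini

/-!
# The inequality for the weight `exp (-P)`
-/

open MeasureTheory Set Filter Topology Metric
open scoped ContDiff

namespace Pool.Agent.H21.CE

variable {n : ℕ}

private lemma x3_contP {m : ℕ} (b : Fin m → E n) (N : ℕ) (e : ℝ) : Continuous (Pp b N e) := by
  unfold Pp
  fun_prop

private lemma x3_cont {m : ℕ} (b : Fin m → E n) (N : ℕ) (e : ℝ) :
    Continuous (fun x => Real.exp (-Pp b N e x)) :=
  Real.continuous_exp.comp (x3_contP b N e).neg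

private lemma x3_mono {m : ℕ} (b : Fin m → E n) (N : ℕ) {e : ℝ} {R d : ℝ} {K : Set (E n)}
    (mK : MeasurableSet K) (bK : K ⊆ closedBall 0 R) {w : E n → ℝ}
    (hw : IntegrableOn w (closedBall 0 R))
    (h : ∀ x : E n, ‖x‖ ≤ R → Real.exp (-(Pp b N e x + d)) ≤ w x) :
    Real.exp (-d) * (∫ x in K, Real.exp (-Pp b N e x)) ≤ ∫ x in K, w x := by
  rw [← integral_const_mul]
  refine setIntegral_mono_on ?_ (hw.mono_set bK) mK ?_
  · refine Integrable.const_mul ?_ _
    exact ((x3_cont b N e).continuousOn.integrableOn_compact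
      (isCompact_closedBall (0 : E n) R)).mono_set bK
  · intro x hx
    have h1 : ‖x‖ ≤ R := by simpa using bK hx
    refine le_trans (le_of_eq ?_) (h x h1)
    rw [← Real.exp_add]
    congr 1
    ring

/-- the inequality, given the two statements about the initial function -/
theorem exp_ineq_of (hn : 0 < n) {m : ℕ} (b : Fin m → E n) (N : ℕ) {e : ℝ} (he : 0 < e)
    {R : ℝ} {K L : Set (E n)} (hP : Pair n R K L)
    (hS : ∀ k : ℕ, Spec (fun y => (1 - Pp b N e y / k) ^ k))
    (hc : ∃ k0 : ℕ, ∀ k ≥ k0, (∀ x ∈ closedBall (0 : E n) 1, 0 < (1 - Pp b N e x / k) ^ k) ∧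
      ∀ x ∈ closedBall (0 : E n) 1, ∀ w,
        2 * e * ‖w‖ ^ 2 ≤ hs (fun y => -Real.log ((1 - Pp b N e y / k) ^ k)) x w w)
    (hv : ∀ d : ℝ, 0 < d → ∃ k0 : ℕ, ∀ k ≥ k0, ∀ x : E n, ‖x‖ ≤ R →
      Real.exp (-(Pp b N e x + d)) ≤ wS (fun y => -Real.log ((1 - Pp b N e y / k) ^ k)) x) :
    (∫ x in K, Real.exp (-Pp b N e x)) * (∫ x in L, Real.exp (-Pp b N e x))
      ≤ (∫ x in closedBall (0 : E n) 1, Real.exp (-Pp b N e x)) ^ 2 := by
  obtain ⟨k1, hk1⟩ := hc
  obtain ⟨C, hC⟩ := (isCompact_closedBall (0 : E n) 1).exists_bound_of_continuousOn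
    (x3_contP b N e).continuousOn
  obtain ⟨k2, hk2⟩ := exists_nat_ge C
  set a := ∫ x in K, Real.exp (-Pp b N e x) with ha
  set c := ∫ x in L, Real.exp (-Pp b N e x) with hc'
  have ha0 : 0 ≤ a := integral_nonneg (fun x => (Real.exp_pos _).le)
  have hc0 : 0 ≤ c := integral_nonneg (fun x => (Real.exp_pos _).le)
  have key : ∀ d : ℝ, 0 < d → (Real.exp (-d) * a) * (Real.exp (-d) * c) ≤
      (∫ x in closedBall (0 : E n) 1, Real.exp (-Pp b N e x)) ^ 2 := by
    intro d hd
    obtain ⟨k3, hk3⟩ := hv d hd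
    obtain ⟨k, hk⟩ : ∃ k : ℕ, k1 ≤ k ∧ k2 ≤ k ∧ k3 ≤ k ∧ 1 ≤ k :=
      ⟨k1 + k2 + k3 + 1, by omega, by omega, by omega, by omega⟩
    obtain ⟨hp, hcv⟩ := hk1 k hk.1
    have h2e : 0 < 2 * e := by linarith
    have hI := func_ineq hn (hS k) hp h2e hcv hP
    have hW := wS_log_int hn (hS k) hp h2e hcv R
    have hA := x3_mono b N hP.mK hP.bK hW (hk3 k hk.2.2.1)
    have hB := x3_mono b N hP.mL hP.bL hW (hk3 k hk.2.2.1)
    have hf0 : 0 ≤ ∫ x in closedBall (0 : E n) 1, (1 - Pp b N e x / k) ^ k :=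
      setIntegral_nonneg isClosed_closedBall.measurableSet (fun x hx => (hp x hx).le)
    have hf : (∫ x in closedBall (0 : E n) 1, (1 - Pp b N e x / k) ^ k) ≤
        ∫ x in closedBall (0 : E n) 1, Real.exp (-Pp b N e x) := by
      refine setIntegral_mono_on ?_ ?_ isClosed_closedBall.measurableSet ?_
      · have h0 : Continuous (fun x => (1 - Pp b N e x / k) ^ k) :=
          (continuous_const.sub ((x3_contP b N e).div_const _)).pow k
        exact h0.continuousOn.integrableOn_compact (isCompact_closedBall (0 : E n) 1)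
      · exact (x3_cont b N e).continuousOn.integrableOn_compact
          (isCompact_closedBall (0 : E n) 1)
      · intro x hx
        refine Real.one_sub_div_pow_le_exp_neg ?_
        have h1 := hC x hx
        rw [Real.norm_eq_abs] at h1
        have h2 : (k2 : ℝ) ≤ k := by exact_mod_cast hk.2.1
        linarith [le_abs_self (Pp b N e x)]
    calc (Real.exp (-d) * a) * (Real.exp (-d) * c)
        ≤ _ := mul_le_mul hA hB (mul_nonneg (Real.exp_pos _).le hc0)
          (le_trans (mul_nonneg (Real.exp_pos _).le ha0) hA)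
      _ ≤ _ := hI
      _ ≤ _ := pow_le_pow_left₀ hf0 hf 2
  have hlim : Tendsto (fun d : ℝ => (Real.exp (-d) * a) * (Real.exp (-d) * c)) (𝓝[>] 0)
      (𝓝 ((Real.exp (-0) * a) * (Real.exp (-0) * c))) := by
    have hcont : Continuous (fun d : ℝ => (Real.exp (-d) * a) * (Real.exp (-d) * c)) := by
      fun_prop
    exact (hcont.tendsto 0).mono_left nhdsWithin_le_nhds
  have h := le_of_tendsto hlim (by
    filter_upwards [self_mem_nhdsWithin] with d hd
    exact key d hd)
  simpa using h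

end Pool.Agent.H21.CE
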