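import Pool.Agent.H21.CE.FinA

/-!
# A symmetric convex body is an intersection of countably many strips
-/

open MeasureTheory Set Filter Topology Metric
open scoped ContDiff

namespace Pool.Agent.H21.CE

variable {n : ℕ}

theorem body_strips {T : Set (E n)} (h1 : Convex ℝ T) (h2 : IsCompact T)
    (h3 : (interior T).Nonempty) (h4 : ∀ x ∈ T, -x ∈ T) :
    ∃ b : ℕ → E n, T = {x | ∀ i, |inner ℝ (b i) x| ≤ (1 : ℝ)} := by
  set P : Set (E n) := {y : E n | ∀ x ∈ T, inner ℝ y x ≤ (1 : ℝ)} with hP
  have h0P : (0 : E n) ∈ P := by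
    intro x _
    rw [inner_zero_left]
    exact zero_le_one
  have h0T : (0 : E n) ∈ T := by
    obtain ⟨r, hr, hrT⟩ := d4_ball h1 h3 h4
    exact hrT (mem_closedBall_self hr.le)
  have : Nonempty P := ⟨⟨0, h0P⟩⟩
  obtain ⟨u, hu⟩ := TopologicalSpace.exists_dense_seq P
  refine ⟨fun i => (u i : E n), ?_⟩
  ext x
  constructor
  · intro hx i
    rw [abs_le]
    constructor
    · have := (u i).2 (-x) (h4 x hx)
      rw [inner_neg_right] at this
      linarith
    · exact (u i).2 x hx
  · intro hx
    by_contra hxT
    obtain ⟨f, c, hf1, hf2⟩ := geometric_hahn_banach_closed_point h1 h2.isClosed hxT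
    have hc : 0 < c := by
      have := hf1 0 h0T
      simpa using this
    set y : E n := (1 / c) • (InnerProductSpace.toDual ℝ (E n)).symm f with hy
    have hyi : ∀ z, inner ℝ y z = f z / c := by
      intro z
      rw [hy, inner_smul_left, InnerProductSpace.toDual_symm_apply]
      simp only [conj_trivial]
      ring
    have hyP : y ∈ P := by
      intro z hz
      rw [hyi, div_le_one hc]
      exact (hf1 z hz).le
    have hyx : (1 : ℝ) < inner ℝ y x := by
      rw [hyi, one_lt_div hc]
      exact hf2
    have hopen : IsOpen {w : P | (1 : ℝ) < inner ℝ (w : E n) x} :=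
      isOpen_lt continuous_const (continuous_subtype_val.inner continuous_const)
    obtain ⟨i, hi⟩ := hu.exists_mem_open hopen ⟨⟨y, hyP⟩, hyx⟩
    have h5 := hx i
    have h6 := (abs_le.1 h5).2
    exact absurd hi (not_lt.2 h6)

end Pool.Agent.H21.CE
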