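import Pool.Agent.H21.CE.Poly
import Pool.Agent.H21.CE.Strips

/-!
# The section inequality
-/

open MeasureTheory Set Filter Topology Metric

namespace Pool.Agent.H21.CE

/-- The section inequality. -/
theorem main (n : ℕ) (K T : Set (EuclideanSpace ℝ (Fin n))) :
      Convex ℝ K → IsCompact K → (interior K).Nonempty → (∀ x ∈ K, -x ∈ K) →
      Convex ℝ T → IsCompact T → (interior T).Nonempty → (∀ x ∈ T, -x ∈ T) →
      MeasureTheory.volume (K ∩ T) *
          MeasureTheory.volume
            ({y : EuclideanSpace ℝ (Fin n) | ∀ x ∈ K, inner ℝ x y ≤ (1 : ℝ)} ∩ T)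
        ≤ MeasureTheory.volume
            (Metric.closedBall (0 : EuclideanSpace ℝ (Fin n)) 1 ∩ T) ^ 2 :=
  main_of poly_ineq body_strips n K T

end Pool.Agent.H21.CE
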