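import Pool.Agent.H21.CE.Defs

/-!
# The section inequality: conclusion
-/

open MeasureTheory Set Filter Topology Metric
open scoped ContDiff

namespace Pool.Agent.H21.CE

variable {n : ℕ}

/-- a symmetric convex set with interior points contains a ball around the origin -/
lemma d4_ball {K : Set (E n)} (h1 : Convex ℝ K) (h3 : (interior K).Nonempty)
    (h4 : ∀ x ∈ K, -x ∈ K) : ∃ r : ℝ, 0 < r ∧ closedBall (0 : E n) r ⊆ K := by
  obtain ⟨x, hx⟩ := h3
  obtain ⟨e, he, hb⟩ := Metric.isOpen_iff.1 isOpen_interior x hx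
  refine ⟨e / 2, by positivity, ?_⟩
  intro y hy
  rw [mem_closedBall_zero_iff] at hy
  have h5 : x + y ∈ K := by
    refine interior_subset (hb ?_)
    rw [mem_ball, dist_eq_norm, add_sub_cancel_left]
    linarith
  have h6 : x - y ∈ K := by
    refine interior_subset (hb ?_)
    rw [mem_ball, dist_eq_norm, show x - y - x = -y by abel, norm_neg]
    linarith
  have h7 := h1 h5 (h4 _ h6) (by norm_num : (0 : ℝ) ≤ 1 / 2) (by norm_num : (0 : ℝ) ≤ 1 / 2)
    (by norm_num)
  have h8 : (1 / 2 : ℝ) • (x + y) + (1 / 2 : ℝ) • (-(x - y)) = y := by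
    rw [← smul_add, show x + y + -(x - y) = (2 : ℝ) • y by rw [two_smul]; abel, smul_smul]
    norm_num
  rwa [h8] at h7

/-- the polar set -/
lemma d4_polar {K : Set (E n)} {r : ℝ} (hr : 0 < r) (h : closedBall (0 : E n) r ⊆ K) :
    {y : E n | ∀ x ∈ K, inner ℝ x y ≤ (1 : ℝ)} ⊆ closedBall (0 : E n) (1 / r) := by
  intro y hy
  rw [mem_closedBall_zero_iff]
  rcases eq_or_ne y 0 with h0 | h0
  · rw [h0, norm_zero]
    positivity
  · have hny : 0 < ‖y‖ := norm_pos_iff.2 h0
    have h1 : (r / ‖y‖) • y ∈ closedBall (0 : E n) r := by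
      rw [mem_closedBall_zero_iff, norm_smul, Real.norm_of_nonneg (by positivity)]
      exact le_of_eq (by field_simp)
    have h2 := hy _ (h h1)
    rw [inner_smul_left, real_inner_self_eq_norm_sq] at h2
    simp only [conj_trivial] at h2
    rw [le_div_iff₀ hr]
    have h3 : r / ‖y‖ * ‖y‖ ^ 2 = ‖y‖ * r := by field_simp
    linarith

/-- bodies in a pair -/
lemma d4_pair {K : Set (E n)} (h1 : Convex ℝ K) (h2 : IsCompact K)
    (h3 : (interior K).Nonempty) (h4 : ∀ x ∈ K, -x ∈ K) :
    ∃ R : ℝ, Pair n R K {y : E n | ∀ x ∈ K, inner ℝ x y ≤ (1 : ℝ)} := by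
  obtain ⟨r, hr, hrK⟩ := d4_ball h1 h3 h4
  obtain ⟨R0, hR0⟩ := h2.isBounded.subset_closedBall (0 : E n)
  refine ⟨max R0 (1 / r), ⟨h2.measurableSet, ?_, h4, ?_, ?_, ?_, ?_⟩⟩
  · have hc : IsClosed {y : E n | ∀ x ∈ K, inner ℝ x y ≤ (1 : ℝ)} := by
      have : {y : E n | ∀ x ∈ K, inner ℝ x y ≤ (1 : ℝ)}
          = ⋂ x ∈ K, {y : E n | inner ℝ x y ≤ (1 : ℝ)} := by
        ext y
        simp
      rw [this]
      exact isClosed_biInter (fun x _ => isClosed_le (continuous_const.inner continuous_id)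
        continuous_const)
    exact hc.measurableSet
  · intro y hy x hx
    have := hy (-x) (h4 x hx)
    rw [inner_neg_left] at this
    rw [inner_neg_right]
    exact this
  · exact hR0.trans (closedBall_subset_closedBall (le_max_left _ _))
  · exact (d4_polar hr hrK).trans (closedBall_subset_closedBall (le_max_right _ _))
  · intro x hx y hy
    exact hy x hx

/-- The section inequality, from the inequality for polytopes and the description of symmetric
bodies by strips. -/
theorem main_of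
    (hpoly : ∀ {n : ℕ}, 0 < n → ∀ {m : ℕ} (b : Fin m → E n) {R : ℝ} {K L : Set (E n)},
      Pair n R K L →
      volume (K ∩ {x | ∀ i, |inner ℝ (b i) x| ≤ (1 : ℝ)}) *
        volume (L ∩ {x | ∀ i, |inner ℝ (b i) x| ≤ (1 : ℝ)}) ≤
        volume (closedBall (0 : E n) 1 ∩ {x | ∀ i, |inner ℝ (b i) x| ≤ (1 : ℝ)}) ^ 2)
    (hstrips : ∀ {n : ℕ} {T : Set (E n)}, Convex ℝ T → IsCompact T → (interior T).Nonempty →
      (∀ x ∈ T, -x ∈ T) → ∃ b : ℕ → E n, T = {x | ∀ i, |inner ℝ (b i) x| ≤ (1 : ℝ)})
    (n : ℕ) (K T : Set (EuclideanSpace ℝ (Fin n))) :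
      Convex ℝ K → IsCompact K → (interior K).Nonempty → (∀ x ∈ K, -x ∈ K) →
      Convex ℝ T → IsCompact T → (interior T).Nonempty → (∀ x ∈ T, -x ∈ T) →
      MeasureTheory.volume (K ∩ T) *
          MeasureTheory.volume
            ({y : EuclideanSpace ℝ (Fin n) | ∀ x ∈ K, inner ℝ x y ≤ (1 : ℝ)} ∩ T)
        ≤ MeasureTheory.volume
            (Metric.closedBall (0 : EuclideanSpace ℝ (Fin n)) 1 ∩ T) ^ 2 := by
  intro k1 k2 k3 k4 t1 t2 t3 t4
  rcases Nat.eq_zero_or_pos n with h0 | hn
  · subst h0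
    have hu : ∀ S : Set (EuclideanSpace ℝ (Fin 0)), S ∩ T ⊆
        Metric.closedBall (0 : EuclideanSpace ℝ (Fin 0)) 1 ∩ T := by
      intro S x hx
      refine ⟨?_, hx.2⟩
      rw [Subsingleton.elim x 0]
      exact mem_closedBall_self zero_le_one
    rw [sq]
    exact mul_le_mul' (measure_mono (hu _)) (measure_mono (hu _))
  · obtain ⟨R, hP⟩ := d4_pair k1 k2 k3 k4
    obtain ⟨b, hb⟩ := hstrips t1 t2 t3 t4
    set L : Set (E n) := {y : E n | ∀ x ∈ K, inner ℝ x y ≤ (1 : ℝ)} with hL
    set Tm : ℕ → Set (E n) := fun m => {x : E n | ∀ i : Fin m, |inner ℝ (b i) x| ≤ (1 : ℝ)}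
      with hTm
    have hTle : ∀ m, T ⊆ Tm m := by
      intro m x hx
      rw [hb] at hx
      exact fun i => hx i
    have hanti : Antitone Tm := by
      intro m m' hmm x hx i
      exact hx (Fin.castLE hmm i)
    have hI : ⋂ m, (closedBall (0 : E n) 1 ∩ Tm m) = closedBall (0 : E n) 1 ∩ T := by
      rw [← inter_iInter]
      congr 1
      ext x
      rw [mem_iInter]
      constructor
      · intro hx
        rw [hb]
        intro i
        exact hx (i + 1) ⟨i, Nat.lt_succ_self i⟩
      · intro hx m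
        exact hTle m hx
    have hclosed : ∀ m, IsClosed (Tm m) := by
      intro m
      have : Tm m = ⋂ i : Fin m, {x : E n | |inner ℝ (b i) x| ≤ (1 : ℝ)} := by
        ext x
        simp [hTm]
      rw [this]
      exact isClosed_iInter (fun i => isClosed_le
        (continuous_abs.comp (continuous_const.inner continuous_id)) continuous_const)
    have hlim : Tendsto (fun m => volume (closedBall (0 : E n) 1 ∩ Tm m)) atTop
        (𝓝 (volume (closedBall (0 : E n) 1 ∩ T))) := by
      rw [← hI]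
      refine tendsto_measure_iInter_atTop ?_ ?_ ?_
      · intro m
        exact (isClosed_closedBall.inter (hclosed m)).measurableSet.nullMeasurableSet
      · intro m m' hmm
        exact inter_subset_inter_right _ (hanti hmm)
      · exact ⟨0, ((measure_mono inter_subset_left).trans_lt measure_closedBall_lt_top).ne⟩
    have hlim2 : Tendsto (fun m => volume (closedBall (0 : E n) 1 ∩ Tm m) ^ 2) atTop
        (𝓝 (volume (closedBall (0 : E n) 1 ∩ T) ^ 2)) :=
      ((ENNReal.continuous_pow 2).tendsto _).comp hlim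
    refine ge_of_tendsto' hlim2 (fun m => ?_)
    refine le_trans (mul_le_mul' (measure_mono (inter_subset_inter_right _ (hTle m)))
      (measure_mono (inter_subset_inter_right _ (hTle m)))) ?_
    exact hpoly hn (fun i : Fin m => b i) hP

end Pool.Agent.H21.CE
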