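import Pool.Agent.H21.CE.Calc
import Pool.Agent.H21.CE.VSm

/-!
# The exterior inequality at a maximizer
-/

open MeasureTheory Set Filter Topology Metric
open scoped ContDiff

namespace Pool.Agent.H21.CE

variable {n : ℕ}

theorem dFop {V : E n → ℝ} (hV : ContDiff ℝ ∞ V) (x e : E n) :
    fderiv ℝ (Fop V) x e = L2 (fun y => fderiv ℝ V y e) x - 2 * hs V x e x
      - ((n : ℝ) + 1) * (fderiv ℝ V x e + hs V x e x) - 2 * hs V x e (gradient V x)
      + 2 * fderiv ℝ V x x * (fderiv ℝ V x e + hs V x e x) := by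
  have h0 : Fop V = fun y => L2 V y - ((n : ℝ) + 1) * fderiv ℝ V y y - ‖gradient V y‖ ^ 2
      + (fderiv ℝ V y y) ^ 2 := by
    funext y; rfl
  have d1 : DifferentiableAt ℝ (L2 V) x := df (cd_L2 hV) x
  have d2 : DifferentiableAt ℝ (fun y => fderiv ℝ V y y) x := df (cd_eu hV) x
  have d3' : DifferentiableAt ℝ (fun y => ‖gradient V y‖ ^ 2) x := df (cd_gradsq hV) x
  rw [h0, fderiv_fun_add ((d1.fun_sub (d2.const_mul _)).fun_sub d3') (d2.fun_pow 2),
    fderiv_fun_sub (d1.fun_sub (d2.const_mul _)) d3', fderiv_fun_sub d1 (d2.const_mul _),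
    fderiv_const_mul d2, fderiv_fun_pow 2 d2]
  simp only [FunLike.coe_add, FunLike.coe_sub, Pi.add_apply, Pi.sub_apply, smul_apply,
    smul_eq_mul]
  rw [fd_L2 hV, fd_eu hV, fd_gradsq hV]
  ring

/-- value of the trace over the rotation fields -/
lemma sum_J_hs {B : E n →L[ℝ] E n →L[ℝ] ℝ} {z : E n} :
    (1 / 2) * ∑ i, ∑ j, B (Jm i j z) (Jm i j z) = ‖z‖ ^ 2 * ∑ i, B (eb i) (eb i) - B z z := by
  have h1 : B z z = ∑ i, ∑ j, z i * z j * B (eb i) (eb j) := by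
    conv_lhs => rw [lin_eb B z]
    simp only [FunLike.coe_sum, Finset.sum_apply, smul_apply]
    refine Finset.sum_congr rfl fun i _ => ?_
    rw [lin_eb (B (eb i)) z, smul_eq_mul, Finset.mul_sum]
    refine Finset.sum_congr rfl fun j _ => ?_
    rw [smul_eq_mul]
    ring
  have h2 : ∀ i j : Fin n, B (Jm i j z) (Jm i j z) = z i ^ 2 * B (eb j) (eb j)
      - z i * z j * B (eb j) (eb i) - z i * z j * B (eb i) (eb j) + z j ^ 2 * B (eb i) (eb i) := by
    intro i j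
    simp only [Jm, map_sub, map_smul, FunLike.coe_sub, Pi.sub_apply, smul_apply, smul_eq_mul]
    ring
  have h3 : ‖z‖ ^ 2 = ∑ i, z i ^ 2 := by
    rw [EuclideanSpace.norm_eq, Real.sq_sqrt (Finset.sum_nonneg fun i _ => sq_nonneg _)]
    refine Finset.sum_congr rfl fun i _ => ?_
    rw [Real.norm_eq_abs, sq_abs]
  have h4 : ∑ i, ∑ j, z i * z j * B (eb j) (eb i) = ∑ i, ∑ j, z i * z j * B (eb i) (eb j) := by
    rw [Finset.sum_comm]
    refine Finset.sum_congr rfl fun i _ => Finset.sum_congr rfl fun j _ => ?_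
    ring
  have h5 : ∑ i, ∑ j, z i ^ 2 * B (eb j) (eb j) = ‖z‖ ^ 2 * ∑ i, B (eb i) (eb i) := by
    rw [h3, Finset.sum_mul]
    refine Finset.sum_congr rfl fun i _ => ?_
    rw [Finset.mul_sum]
  have h6 : ∑ i, ∑ j, z j ^ 2 * B (eb i) (eb i) = ‖z‖ ^ 2 * ∑ i, B (eb i) (eb i) := by
    rw [Finset.sum_comm]
    exact h5
  simp only [h2, Finset.sum_add_distrib, Finset.sum_sub_distrib]
  rw [h4, h5, h6, ← h1]
  ring

lemma Jm_apply (i j : Fin n) (z : E n) (k : Fin n) :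
    (Jm i j z) k = z i * (if k = j then 1 else 0) - z j * (if k = i then 1 else 0) := by
  simp [Jm, eb]

/-- the sum of the squares of the rotation fields -/
lemma sum_JJ (z : E n) : (1 / 2 : ℝ) • ∑ i, ∑ j, Jm i j (Jm i j z) = -((n : ℝ) - 1) • z := by
  have h2 : ∀ i j : Fin n, Jm i j (Jm i j z) =
      (z i * (if i = j then 1 else 0) - z j) • eb j
        - (z i - z j * (if j = i then 1 else 0)) • eb i := by
    intro i j
    rw [Jm, Jm_apply, Jm_apply]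
    simp
  have h3 : ∀ i : Fin n, ∑ j, Jm i j (Jm i j z) = z i • eb i - z
      - ((n : ℝ) * z i) • eb i + z i • eb i := by
    intro i
    simp only [h2, sub_smul, Finset.sum_sub_distrib, mul_smul]
    rw [sum_eb]
    simp
    module
  simp only [h3, Finset.sum_add_distrib, Finset.sum_sub_distrib, mul_smul]
  rw [← Finset.smul_sum, sum_eb]
  simp
  module

theorem Gam {V W : E n → ℝ} {lam M : ℝ} (h : Pt n V W lam M) {z0 : E n}
    (hz0 : z0 ∈ sphere (0 : E n) 1) (x : E n) :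
    (1 / 2) * ∑ i, ∑ j, Qf V i j z0 x z0 - ((n : ℝ) + 1) * inner ℝ x (gradient V z0)
      - ‖gradient V z0‖ ^ 2 + (inner ℝ x (gradient V z0)) ^ 2 - ell W z0 x
    = 4 * hs V z0 (x - z0) z0 + (inner ℝ (x - z0) (gradient V z0)) ^ 2
      + 2 * hs V z0 (x - z0) (gradient V z0)
      - 2 * inner ℝ z0 (gradient V z0) * hs V z0 (x - z0) z0 := by
  have hV := h.hV
  have hn1 : ‖z0‖ = 1 := by simpa using hz0
  have hzB : z0 ∈ closedBall (0 : E n) 1 := sphere_subset_closedBall hz0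
  have hW := h.pde z0 hzB
  have hW0 : W z0 = Fop V z0 := hW.self_of_nhds
  have hW1 : fderiv ℝ W z0 = fderiv ℝ (Fop V) z0 := Filter.EventuallyEq.fderiv_eq hW
  set s : E n := x - z0 with hs'
  -- the sum over the rotation fields
  have e1 : (1 / 2) * ∑ i, ∑ j, hs V z0 (Jm i j z0) (Jm i j z0)
      = ∑ i, hs V z0 (eb i) (eb i) - hs V z0 z0 z0 := by
    have := sum_J_hs (B := fderiv ℝ (fderiv ℝ V) z0) (z := z0)
    rw [hn1] at this
    simpa [hs] using this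
  have e2 : (1 / 2) * ∑ i, ∑ j, d3 V z0 (Jm i j z0) (Jm i j z0) s
      = ∑ i, d3 V z0 (eb i) (eb i) s - d3 V z0 z0 z0 s := by
    have := sum_J_hs (B := fderiv ℝ (fderiv ℝ (fun y => fderiv ℝ V y s)) z0) (z := z0)
    rw [hn1] at this
    have h3 : ∀ v w : E n, fderiv ℝ (fderiv ℝ (fun y => fderiv ℝ V y s)) z0 v w
        = d3 V z0 v w s := fun v w => hs_dir hV s z0 v w
    simpa [h3] using this
  have e3 : (1 / 2) * ∑ i, ∑ j, hs V z0 (Jm i j (Jm i j z0)) s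
      = -((n : ℝ) - 1) * hs V z0 z0 s := by
    have h3 := congrArg (fun v : E n => hs V z0 v s) (sum_JJ z0)
    simp only [hs, map_smul, map_sum, smul_apply, smul_eq_mul, FunLike.coe_sum,
      Finset.sum_apply] at h3
    simpa [hs] using h3
  have e4 : (1 / 2) * ∑ i, ∑ j, Qf V i j z0 x z0
      = (∑ i, hs V z0 (eb i) (eb i) - hs V z0 z0 z0)
        + (∑ i, d3 V z0 (eb i) (eb i) s - d3 V z0 z0 z0 s)
        + (-((n : ℝ) - 1) * hs V z0 z0 s) := by
    rw [← e1, ← e2, ← e3]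
    simp only [Qf, Finset.sum_add_distrib, Finset.sum_sub_distrib, ← Finset.mul_sum]
    ring
  have e5 : ell W z0 x = Fop V z0 + fderiv ℝ (Fop V) z0 s := by
    rw [ell, hW0, hW1]
  have e6 : inner ℝ x (gradient V z0) = fderiv ℝ V z0 z0 + fderiv ℝ V z0 s := by
    rw [grad_inner, ← map_add, hs']
    congr 1
    abel
  have e7 : L2 (fun y => fderiv ℝ V y s) z0
      = ∑ i, d3 V z0 (eb i) (eb i) s - d3 V z0 z0 z0 s := by
    rw [L2]
    simp only [hs_dir hV]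
  rw [e4, e5, dFop hV, e7, e6, Fop, L2, grad_inner, grad_inner, hs_symm hV z0 z0 s]
  ring

theorem Gam_nonneg_of {V W : E n → ℝ} {lam M : ℝ} (h : Pt n V W lam M) {x : E n}
    {z0 : E n} (hz : z0 ∈ sphere (0 : E n) 1)
    (hf : ∃ t : ℝ, 0 ≤ t ∧ ∀ w, hs V z0 (x - z0) w = t * inner ℝ z0 w) :
    0 ≤ (1 / 2) * ∑ i, ∑ j, Qf V i j z0 x z0 - ((n : ℝ) + 1) * inner ℝ x (gradient V z0)
      - ‖gradient V z0‖ ^ 2 + (inner ℝ x (gradient V z0)) ^ 2 - ell W z0 x := by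
  obtain ⟨t, ht, hw⟩ := hf
  have hn1 : ‖z0‖ = 1 := by simpa using hz
  rw [Gam h hz x, hw, hw, real_inner_self_eq_norm_sq, hn1]
  have : 0 ≤ (inner ℝ (x - z0) (gradient V z0)) ^ 2 := sq_nonneg _
  nlinarith

theorem Gam_nonneg {V W : E n → ℝ} {lam M : ℝ} (h : Pt n V W lam M) {x : E n}
    (hx : 1 ≤ ‖x‖) {z0 : E n} (hz : z0 ∈ sphere (0 : E n) 1) (hm : ell V z0 x = VS V x) :
    0 ≤ (1 / 2) * ∑ i, ∑ j, Qf V i j z0 x z0 - ((n : ℝ) + 1) * inner ℝ x (gradient V z0)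
      - ‖gradient V z0‖ ^ 2 + (inner ℝ x (gradient V z0)) ^ 2 - ell W z0 x :=
  Gam_nonneg_of h hz (first_order h hx hz hm)

end Pool.Agent.H21.CE
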