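import Pool.Agent.H21.CE.FinA

/-!
# The section inequality for general symmetric measurable pairs
-/

open MeasureTheory Set Filter Topology Metric
open scoped ContDiff

namespace Pool.Agent.H21.CE

/-- The section inequality for pairs of symmetric measurable sets with `⟨x, y⟩ ≤ 1`, from the
inequality for polytopes and the description of symmetric bodies by strips. -/
theorem pair_of
    (hpoly : ∀ {n : ℕ}, 0 < n → ∀ {m : ℕ} (b : Fin m → E n) {R : ℝ} {K L : Set (E n)},
      Pair n R K L →
      volume (K ∩ {x | ∀ i, |inner ℝ (b i) x| ≤ (1 : ℝ)}) *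
        volume (L ∩ {x | ∀ i, |inner ℝ (b i) x| ≤ (1 : ℝ)}) ≤
        volume (closedBall (0 : E n) 1 ∩ {x | ∀ i, |inner ℝ (b i) x| ≤ (1 : ℝ)}) ^ 2)
    (hstrips : ∀ {n : ℕ} {T : Set (E n)}, Convex ℝ T → IsCompact T → (interior T).Nonempty →
      (∀ x ∈ T, -x ∈ T) → ∃ b : ℕ → E n, T = {x | ∀ i, |inner ℝ (b i) x| ≤ (1 : ℝ)})
    (n : ℕ) (K L T : Set (EuclideanSpace ℝ (Fin n))) :
      MeasurableSet K → MeasurableSet L → (∀ x ∈ K, -x ∈ K) → (∀ x ∈ L, -x ∈ L) →
      (∀ x ∈ K, ∀ y ∈ L, inner ℝ x y ≤ (1 : ℝ)) →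
      Convex ℝ T → IsCompact T → (interior T).Nonempty → (∀ x ∈ T, -x ∈ T) →
      MeasureTheory.volume (K ∩ T) * MeasureTheory.volume (L ∩ T)
        ≤ MeasureTheory.volume
            (Metric.closedBall (0 : EuclideanSpace ℝ (Fin n)) 1 ∩ T) ^ 2 := by
  intro mK mL sK sL hrel t1 t2 t3 t4
  rcases Nat.eq_zero_or_pos n with h0 | hn
  · subst h0
    have hu : ∀ S : Set (EuclideanSpace ℝ (Fin 0)), S ∩ T ⊆
        Metric.closedBall (0 : EuclideanSpace ℝ (Fin 0)) 1 ∩ T := by
      intro S x hx
      refine ⟨?_, hx.2⟩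
      rw [Subsingleton.elim x 0]
      exact mem_closedBall_self zero_le_one
    rw [sq]
    exact mul_le_mul' (measure_mono (hu _)) (measure_mono (hu _))
  · obtain ⟨R, hR⟩ := t2.isBounded.subset_closedBall (0 : E n)
    have hP : Pair n R (K ∩ T) (L ∩ T) :=
      ⟨mK.inter t2.measurableSet, mL.inter t2.measurableSet,
        fun x hx => ⟨sK x hx.1, t4 x hx.2⟩, fun x hx => ⟨sL x hx.1, t4 x hx.2⟩,
        inter_subset_right.trans hR, inter_subset_right.trans hR,
        fun x hx y hy => hrel x hx.1 y hy.1⟩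
    obtain ⟨b, hb⟩ := hstrips t1 t2 t3 t4
    set Tm : ℕ → Set (E n) := fun m => {x : E n | ∀ i : Fin m, |inner ℝ (b i) x| ≤ (1 : ℝ)}
      with hTm
    have hTle : ∀ m, T ⊆ Tm m := by
      intro m x hx
      rw [hb] at hx
      exact fun i => hx i
    have hanti : Antitone Tm := by
      intro m m' hmm x hx i
      exact hx (Fin.castLE hmm i)
    have hI : ⋂ m, (closedBall (0 : E n) 1 ∩ Tm m) = closedBall (0 : E n) 1 ∩ T := by
      rw [← inter_iInter]
      congr 1
      ext x
      rw [mem_iInter]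
      constructor
      · intro hx
        rw [hb]
        intro i
        exact hx (i + 1) ⟨i, Nat.lt_succ_self i⟩
      · intro hx m
        exact hTle m hx
    have hclosed : ∀ m, IsClosed (Tm m) := by
      intro m
      have : Tm m = ⋂ i : Fin m, {x : E n | |inner ℝ (b i) x| ≤ (1 : ℝ)} := by
        ext x
        simp [hTm]
      rw [this]
      exact isClosed_iInter (fun i => isClosed_le
        (continuous_abs.comp (continuous_const.inner continuous_id)) continuous_const)
    have hlim : Tendsto (fun m => volume (closedBall (0 : E n) 1 ∩ Tm m)) atTop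
        (𝓝 (volume (closedBall (0 : E n) 1 ∩ T))) := by
      rw [← hI]
      refine tendsto_measure_iInter_atTop ?_ ?_ ?_
      · intro m
        exact (isClosed_closedBall.inter (hclosed m)).measurableSet.nullMeasurableSet
      · intro m m' hmm
        exact inter_subset_inter_right _ (hanti hmm)
      · exact ⟨0, ((measure_mono inter_subset_left).trans_lt measure_closedBall_lt_top).ne⟩
    have hlim2 : Tendsto (fun m => volume (closedBall (0 : E n) 1 ∩ Tm m) ^ 2) atTop
        (𝓝 (volume (closedBall (0 : E n) 1 ∩ T) ^ 2)) :=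
      ((ENNReal.continuous_pow 2).tendsto _).comp hlim
    refine ge_of_tendsto' hlim2 (fun m => ?_)
    have hKm : K ∩ T ⊆ (K ∩ T) ∩ Tm m := fun x hx => ⟨hx, hTle m hx.2⟩
    have hLm : L ∩ T ⊆ (L ∩ T) ∩ Tm m := fun x hx => ⟨hx, hTle m hx.2⟩
    refine le_trans (mul_le_mul' (measure_mono hKm) (measure_mono hLm)) ?_
    exact hpoly hn (fun i : Fin m => b i) hP

end Pool.Agent.H21.CE
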