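import Pool.Agent.H21.CE.GenA

/-!
# The section inequality for arbitrary symmetric convex `T`
-/

open MeasureTheory Set Filter Topology Metric
open scoped ContDiff

namespace Pool.Agent.H21.CE

/-- From compact symmetric convex `T` with interior points to all symmetric convex `T`. -/
theorem gen_of {n : ℕ} {K L : Set (EuclideanSpace ℝ (Fin n))}
    (h : ∀ T : Set (EuclideanSpace ℝ (Fin n)),
      Convex ℝ T → IsCompact T → (interior T).Nonempty → (∀ x ∈ T, -x ∈ T) →
      MeasureTheory.volume (K ∩ T) * MeasureTheory.volume (L ∩ T)
        ≤ MeasureTheory.volume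
            (Metric.closedBall (0 : EuclideanSpace ℝ (Fin n)) 1 ∩ T) ^ 2)
    {T : Set (EuclideanSpace ℝ (Fin n))} (hT : Convex ℝ T) (sT : ∀ x ∈ T, -x ∈ T) :
      MeasureTheory.volume (K ∩ T) * MeasureTheory.volume (L ∩ T)
        ≤ MeasureTheory.volume
            (Metric.closedBall (0 : EuclideanSpace ℝ (Fin n)) 1 ∩ T) ^ 2 := by
  set C := closure T with hC
  have hCc : Convex ℝ C := hT.closure
  have hCs : ∀ x ∈ C, -x ∈ C := by
    intro x hx
    have h1 : MapsTo (fun y : EuclideanSpace ℝ (Fin n) => -y) T T := fun y hy => sT y hy
    exact h1.closure continuous_neg hx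
  have hfr : volume (C \ T) = 0 := by
    refine measure_mono_null ?_ (Convex.addHaar_frontier volume hT)
    intro x hx
    exact ⟨hx.1, fun hi => hx.2 (interior_subset hi)⟩
  have hball : volume (closedBall (0 : EuclideanSpace ℝ (Fin n)) 1 ∩ C) ≤
      volume (closedBall (0 : EuclideanSpace ℝ (Fin n)) 1 ∩ T) := by
    calc volume (closedBall (0 : EuclideanSpace ℝ (Fin n)) 1 ∩ C)
        ≤ volume ((closedBall (0 : EuclideanSpace ℝ (Fin n)) 1 ∩ T) ∪ (C \ T)) := by
          refine measure_mono ?_
          intro x hx
          by_cases hxT : x ∈ T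
          · exact Or.inl ⟨hx.1, hxT⟩
          · exact Or.inr ⟨hx.2, hxT⟩
      _ ≤ volume (closedBall (0 : EuclideanSpace ℝ (Fin n)) 1 ∩ T) + volume (C \ T) :=
          measure_union_le _ _
      _ = volume (closedBall (0 : EuclideanSpace ℝ (Fin n)) 1 ∩ T) := by rw [hfr, add_zero]
  rcases (interior C).eq_empty_or_nonempty with hemp | hne
  · -- a convex set without interior points is a null set
    have h0 : volume C = 0 := by
      have h1 : C ⊆ frontier T := by
        intro x hx
        refine ⟨hx, fun hi => ?_⟩
        have : x ∈ interior C := interior_mono subset_closure hi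
        rw [hemp] at this
        exact this
      exact measure_mono_null h1 (Convex.addHaar_frontier volume hT)
    have h2 : volume (K ∩ T) = 0 :=
      measure_mono_null (inter_subset_right.trans subset_closure) h0
    rw [h2, zero_mul]
    exact bot_le
  · set D : ℕ → Set (EuclideanSpace ℝ (Fin n)) := fun m => C ∩ closedBall 0 (m + 1) with hD
    have hz : (0 : EuclideanSpace ℝ (Fin n)) ∈ interior C := by
      obtain ⟨x, hx⟩ := hne
      have hx' : -x ∈ C := hCs x (interior_subset hx)
      have := hCc.combo_interior_self_mem_interior hx hx' (a := 1 / 2) (b := 1 / 2)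
        (by norm_num) (by norm_num) (by norm_num)
      simpa using this
    have hDint : ∀ m, (interior (D m)).Nonempty := by
      intro m
      refine ⟨0, ?_⟩
      rw [hD]
      simp only [interior_inter]
      refine ⟨hz, ?_⟩
      exact interior_mono ball_subset_closedBall (by
        rw [isOpen_ball.interior_eq]
        exact mem_ball_self (by positivity))
    have hDc : ∀ m, IsCompact (D m) := fun m =>
      (isCompact_closedBall _ _).inter_left isClosed_closure
    have hDv : ∀ m, Convex ℝ (D m) := fun m => hCc.inter (convex_closedBall _ _)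
    have hDs : ∀ m, ∀ x ∈ D m, -x ∈ D m := by
      intro m x hx
      refine ⟨hCs x hx.1, ?_⟩
      simpa using hx.2
    have hmono : Monotone D := by
      intro a b hab x hx
      refine ⟨hx.1, closedBall_subset_closedBall ?_ hx.2⟩
      have : (a : ℝ) ≤ b := by exact_mod_cast hab
      linarith
    have hU : ⋃ m, D m = C := by
      rw [hD, ← inter_iUnion]
      refine inter_eq_left.2 (fun x _ => ?_)
      rw [mem_iUnion]
      obtain ⟨m, hm⟩ := exists_nat_ge ‖x‖
      refine ⟨m, ?_⟩
      rw [mem_closedBall, dist_zero_right]
      linarith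
    have hlim : ∀ S : Set (EuclideanSpace ℝ (Fin n)),
        Tendsto (fun m => volume (S ∩ D m)) atTop (𝓝 (volume (S ∩ C))) := by
      intro S
      have h1 : S ∩ C = ⋃ m, S ∩ D m := by rw [← inter_iUnion, hU]
      rw [h1]
      exact tendsto_measure_iUnion_atTop (fun a b hab => inter_subset_inter_right _ (hmono hab))
    have hall : ∀ m, volume (K ∩ D m) * volume (L ∩ D m) ≤
        volume (closedBall (0 : EuclideanSpace ℝ (Fin n)) 1 ∩ T) ^ 2 := by
      intro m
      refine (h (D m) (hDv m) (hDc m) (hDint m) (hDs m)).trans ?_
      refine pow_le_pow_left' ?_ 2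
      exact (measure_mono (inter_subset_inter_right _ inter_subset_left)).trans hball
    have hK : volume (K ∩ T) ≤ volume (K ∩ C) :=
      measure_mono (inter_subset_inter_right _ subset_closure)
    have hL : volume (L ∩ T) ≤ volume (L ∩ C) :=
      measure_mono (inter_subset_inter_right _ subset_closure)
    refine (mul_le_mul' hK hL).trans ?_
    -- use suprema
    have e1 : volume (K ∩ C) = ⨆ m, volume (K ∩ D m) := by
      have h1 : K ∩ C = ⋃ m, K ∩ D m := by rw [← inter_iUnion, hU]
      rw [h1]
      exact Monotone.measure_iUnion (fun a b hab => inter_subset_inter_right _ (hmono hab))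
    have e2 : volume (L ∩ C) = ⨆ m, volume (L ∩ D m) := by
      have h1 : L ∩ C = ⋃ m, L ∩ D m := by rw [← inter_iUnion, hU]
      rw [h1]
      exact Monotone.measure_iUnion (fun a b hab => inter_subset_inter_right _ (hmono hab))
    rw [e1, e2, ENNReal.iSup_mul]
    refine iSup_le (fun a => ?_)
    rw [ENNReal.mul_iSup]
    refine iSup_le (fun b => ?_)
    refine le_trans ?_ (hall (max a b))
    exact mul_le_mul'
      (measure_mono (inter_subset_inter_right _ (hmono (le_max_left a b))))
      (measure_mono (inter_subset_inter_right _ (hmono (le_max_right a b))))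

end Pool.Agent.H21.CE
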