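import Pool.Agent.H21.CE.Defs

/-!
# Homogeneous polynomials are spectral (task A1)
-/

set_option autoImplicit false

open MeasureTheory Set Filter Topology Metric
open scoped ContDiff

namespace Pool.Agent.H21.CE

variable {n : ℕ}

theorem a1_diff {p : E n → ℝ} (hp : ContDiff ℝ ∞ p) : Differentiable ℝ p :=
  hp.differentiable (by simp)

theorem a1_smooth1 {p : E n → ℝ} (hp : ContDiff ℝ ∞ p) : ContDiff ℝ ∞ (fderiv ℝ p) :=
  hp.fderiv_right (by simp)

theorem a1_smooth2 {p : E n → ℝ} (hp : ContDiff ℝ ∞ p) :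
    ContDiff ℝ ∞ (fderiv ℝ (fderiv ℝ p)) :=
  (a1_smooth1 hp).fderiv_right (by simp)

theorem a1_diff1 {p : E n → ℝ} (hp : ContDiff ℝ ∞ p) : Differentiable ℝ (fderiv ℝ p) :=
  (a1_smooth1 hp).differentiable (by simp)

theorem a1_line (c : ℝ) (x v : E n) : HasDerivAt (fun s : ℝ => c • (x + s • v)) (c • v) 0 := by
  have h1 : HasDerivAt (fun s : ℝ => s • v) ((1 : ℝ) • v) 0 := (hasDerivAt_id (0 : ℝ)).smul_const v
  have h2 := (h1.const_add x).const_smul c
  rw [one_smul] at h2
  exact h2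

theorem a1_scal1 {p : E n → ℝ} (hp : ContDiff ℝ ∞ p) (c k : ℝ)
    (h : ∀ x, p (c • x) = k * p x) (x v : E n) :
    c * fderiv ℝ p (c • x) v = k * fderiv ℝ p x v := by
  have e1 : HasDerivAt (fun s : ℝ => p (c • (x + s • v))) (fderiv ℝ p (c • x) (c • v)) 0 := by
    have h1 : HasFDerivAt p (fderiv ℝ p (c • (x + (0 : ℝ) • v))) (c • (x + (0 : ℝ) • v)) :=
      (a1_diff hp _).hasFDerivAt
    have h2 := h1.comp_hasDerivAt (0 : ℝ) (a1_line c x v)
    rw [zero_smul, add_zero] at h2
    exact h2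
  have e2 : HasDerivAt (fun s : ℝ => k * p (x + s • v)) (k * fderiv ℝ p x v) 0 := by
    have h1 : HasFDerivAt p (fderiv ℝ p ((1 : ℝ) • (x + (0 : ℝ) • v)))
        ((1 : ℝ) • (x + (0 : ℝ) • v)) := (a1_diff hp _).hasFDerivAt
    have h2 := (h1.comp_hasDerivAt (0 : ℝ) (a1_line 1 x v)).const_mul k
    simpa [Function.comp_def] using h2
  have e3 : (fun s : ℝ => p (c • (x + s • v))) = fun s : ℝ => k * p (x + s • v) := by
    funext s
    exact h _
  rw [e3] at e1
  have := e1.unique e2
  rw [map_smul, smul_eq_mul] at this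
  exact this

theorem a1_scal2 {p : E n → ℝ} (hp : ContDiff ℝ ∞ p) (c k : ℝ)
    (h : ∀ x, p (c • x) = k * p x) (x v w : E n) :
    c ^ 2 * hs p (c • x) v w = k * hs p x v w := by
  have e1 : HasDerivAt (fun s : ℝ => c * fderiv ℝ p (c • (x + s • v)) w)
      (c * fderiv ℝ (fderiv ℝ p) (c • x) (c • v) w) 0 := by
    have h1 : HasFDerivAt (fderiv ℝ p) (fderiv ℝ (fderiv ℝ p) (c • (x + (0 : ℝ) • v)))
        (c • (x + (0 : ℝ) • v)) := (a1_diff1 hp _).hasFDerivAt
    have h2 := h1.comp_hasDerivAt (0 : ℝ) (a1_line c x v)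
    have h3 := (h2.clm_apply (hasDerivAt_const (0 : ℝ) w)).const_mul c
    simpa [Function.comp_def] using h3
  have e2 : HasDerivAt (fun s : ℝ => k * fderiv ℝ p (x + s • v) w)
      (k * fderiv ℝ (fderiv ℝ p) x v w) 0 := by
    have h1 : HasFDerivAt (fderiv ℝ p) (fderiv ℝ (fderiv ℝ p) ((1 : ℝ) • (x + (0 : ℝ) • v)))
        ((1 : ℝ) • (x + (0 : ℝ) • v)) := (a1_diff1 hp _).hasFDerivAt
    have h2 := h1.comp_hasDerivAt (0 : ℝ) (a1_line 1 x v)
    have h3 := (h2.clm_apply (hasDerivAt_const (0 : ℝ) w)).const_mul k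
    simpa [Function.comp_def] using h3
  have e3 : (fun s : ℝ => c * fderiv ℝ p (c • (x + s • v)) w) =
      fun s : ℝ => k * fderiv ℝ p (x + s • v) w := by
    funext s
    exact a1_scal1 hp c k h _ _
  rw [e3] at e1
  have h4 := e1.unique e2
  rw [map_smul, _root_.smul_apply, smul_eq_mul] at h4
  unfold hs
  rw [← h4]
  ring

theorem a1_euler {p : E n → ℝ} (hp : ContDiff ℝ ∞ p) (d : ℕ)
    (hh : ∀ (t : ℝ) (x : E n), p (t • x) = t ^ d * p x) (t : ℝ) (x : E n) :
    fderiv ℝ p (t • x) x = d * t ^ (d - 1) * p x := by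
  have e0 : HasDerivAt (fun s : ℝ => s • x) x t := by
    simpa using (hasDerivAt_id t).smul_const x
  have e1 : HasDerivAt (fun s : ℝ => p (s • x)) (fderiv ℝ p (t • x) x) t :=
    (a1_diff hp (t • x)).hasFDerivAt.comp_hasDerivAt t e0
  have e2 : HasDerivAt (fun s : ℝ => s ^ d * p x) (d * t ^ (d - 1) * p x) t :=
    (hasDerivAt_pow d t).mul_const (p x)
  have e3 : (fun s : ℝ => p (s • x)) = fun s : ℝ => s ^ d * p x := by
    funext s
    exact hh s x
  rw [e3] at e1
  exact e1.unique e2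

theorem a1_euler2 {p : E n → ℝ} (hp : ContDiff ℝ ∞ p) (d : ℕ)
    (hh : ∀ (t : ℝ) (x : E n), p (t • x) = t ^ d * p x) (x : E n) :
    hs p x x x = d * ((d - 1 : ℕ) : ℝ) * p x := by
  have e0 : HasDerivAt (fun s : ℝ => s • x) x 1 := by
    simpa using (hasDerivAt_id (1 : ℝ)).smul_const x
  have e1 : HasDerivAt (fun s : ℝ => fderiv ℝ p (s • x) x)
      (fderiv ℝ (fderiv ℝ p) ((1 : ℝ) • x) x x) 1 := by
    have h1 := (a1_diff1 hp ((1 : ℝ) • x)).hasFDerivAt.comp_hasDerivAt (1 : ℝ) e0
    have h2 := h1.clm_apply (hasDerivAt_const (1 : ℝ) x)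
    simpa [Function.comp_def] using h2
  have e2 : HasDerivAt (fun s : ℝ => d * s ^ (d - 1) * p x)
      (d * (((d - 1 : ℕ) : ℝ) * 1 ^ (d - 1 - 1)) * p x) 1 :=
    ((hasDerivAt_pow (d - 1) (1 : ℝ)).const_mul (d : ℝ)).mul_const (p x)
  have e3 : (fun s : ℝ => fderiv ℝ p (s • x) x) = fun s : ℝ => d * s ^ (d - 1) * p x := by
    funext s
    exact a1_euler hp d hh s x
  rw [e3] at e1
  have h4 := e1.unique e2
  rw [one_smul, one_pow, mul_one] at h4
  exact h4

/-- The Laplacian. -/
noncomputable def a1_lap (f : E n → ℝ) (x : E n) : ℝ := ∑ i, hs f x (eb i) (eb i)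

theorem a1_lap_smooth {p : E n → ℝ} (hp : ContDiff ℝ ∞ p) : ContDiff ℝ ∞ (a1_lap p) := by
  unfold a1_lap hs
  apply ContDiff.sum
  intro i _
  exact ((a1_smooth2 hp).clm_apply contDiff_const).clm_apply contDiff_const

theorem a1_lap_scal {p : E n → ℝ} (hp : ContDiff ℝ ∞ p) (c k : ℝ)
    (h : ∀ x, p (c • x) = k * p x) (x : E n) : c ^ 2 * a1_lap p (c • x) = k * a1_lap p x := by
  unfold a1_lap
  rw [Finset.mul_sum, Finset.mul_sum]
  exact Finset.sum_congr rfl fun i _ => a1_scal2 hp c k h x _ _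

theorem a1_lap_hom {p : E n → ℝ} (hp : ContDiff ℝ ∞ p) (d : ℕ)
    (hh : ∀ (t : ℝ) (x : E n), p (t • x) = t ^ (d + 2) * p x) (t : ℝ) (x : E n) :
    a1_lap p (t • x) = t ^ d * a1_lap p x := by
  have h1 : ∀ s : ℝ, s ≠ 0 → a1_lap p (s • x) = s ^ d * a1_lap p x := by
    intro s hs0
    have h2 := a1_lap_scal hp s (s ^ (d + 2)) (hh s) x
    have h3 : s ^ 2 ≠ 0 := pow_ne_zero 2 hs0
    apply mul_left_cancel₀ h3
    rw [h2]
    ring
  have hc1 : Continuous fun s : ℝ => a1_lap p (s • x) :=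
    (a1_lap_smooth hp).continuous.comp (continuous_id.smul continuous_const)
  have hc2 : Continuous fun s : ℝ => s ^ d * a1_lap p x := by fun_prop
  have h4 := Continuous.ext_on (dense_compl_singleton (0 : ℝ)) hc1 hc2 (fun s hs0 => h1 s hs0)
  exact congrFun h4 t

theorem a1_Lop_hom {p : E n → ℝ} (hp : ContDiff ℝ ∞ p) (d : ℕ)
    (hh : ∀ (t : ℝ) (x : E n), p (t • x) = t ^ d * p x) (x : E n) :
    Lop p x = a1_lap p x - (d : ℝ) * (d + n) * p x := by
  have h1 := a1_euler hp d hh 1 x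
  rw [one_smul, one_pow, mul_one] at h1
  have h2 := a1_euler2 hp d hh x
  unfold Lop L2
  rw [h1, h2]
  unfold a1_lap
  rcases Nat.eq_zero_or_pos d with h0 | h0
  · subst h0
    simp
  · have h3 : ((d - 1 : ℕ) : ℝ) = (d : ℝ) - 1 := by
      rw [Nat.cast_sub h0, Nat.cast_one]
    rw [h3]
    ring

theorem a1_Lop_add {f g : E n → ℝ} (hf : ContDiff ℝ ∞ f) (hg : ContDiff ℝ ∞ g) (x : E n) :
    Lop (fun y => f y + g y) x = Lop f x + Lop g x := by
  have h1 : fderiv ℝ (fun y => f y + g y) = fun y => fderiv ℝ f y + fderiv ℝ g y := by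
    funext y
    exact fderiv_fun_add (a1_diff hf y) (a1_diff hg y)
  have h2 : ∀ y, fderiv ℝ (fderiv ℝ (fun y => f y + g y)) y =
      fderiv ℝ (fderiv ℝ f) y + fderiv ℝ (fderiv ℝ g) y := by
    intro y
    rw [h1]
    exact fderiv_fun_add (a1_diff1 hf y) (a1_diff1 hg y)
  unfold Lop L2 hs
  rw [h2, h1]
  simp only [_root_.add_apply, Finset.sum_add_distrib]
  ring

theorem a1_Lop_mul {f : E n → ℝ} (hf : ContDiff ℝ ∞ f) (c : ℝ) (x : E n) :
    Lop (fun y => c * f y) x = c * Lop f x := by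
  have h1 : fderiv ℝ (fun y => c * f y) = fun y => c • fderiv ℝ f y := by
    funext y
    exact fderiv_const_mul (a1_diff hf y) c
  have h2 : ∀ y, fderiv ℝ (fderiv ℝ (fun y => c * f y)) y = c • fderiv ℝ (fderiv ℝ f) y := by
    intro y
    rw [h1]
    exact fderiv_fun_const_smul (a1_diff1 hf y) c
  unfold Lop L2 hs
  rw [h2, h1]
  simp only [_root_.smul_apply, smul_eq_mul, ← Finset.mul_sum]
  ring

theorem a1_Lop_zero (x : E n) : Lop (fun _ : E n => (0 : ℝ)) x = 0 := by
  have h := a1_Lop_mul (f := fun _ : E n => (0 : ℝ)) contDiff_const 0 x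
  simpa using h

theorem a1_Lop_sum (N : ℕ) {g : ℕ → E n → ℝ} (hg : ∀ j, ContDiff ℝ ∞ (g j)) (x : E n) :
    Lop (fun y => ∑ j ∈ Finset.range N, g j y) x = ∑ j ∈ Finset.range N, Lop (g j) x := by
  induction N with
  | zero => simpa using a1_Lop_zero x
  | succ N ih =>
    have h1 : (fun y => ∑ j ∈ Finset.range (N + 1), g j y) =
        fun y => (∑ j ∈ Finset.range N, g j y) + g N y := by
      funext y
      exact Finset.sum_range_succ _ _
    rw [h1, a1_Lop_add (ContDiff.sum fun j _ => hg j) (hg N), ih, Finset.sum_range_succ]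

theorem a1_mu_lt (n j d : ℕ) (h : j < d) : (j : ℝ) * (j + n) < (d : ℝ) * (d + n) := by
  have h1 : (j : ℝ) < d := by exact_mod_cast h
  have h2 : (0 : ℝ) ≤ j := Nat.cast_nonneg j
  have h3 : (0 : ℝ) ≤ n := Nat.cast_nonneg n
  nlinarith

theorem spec_hom {p : E n → ℝ} (hp : ContDiff ℝ ∞ p) (d : ℕ) (he : ∀ x, p (-x) = p x)
    (hh : ∀ (t : ℝ) (x : E n), p (t • x) = t ^ d * p x) :
    ∃ g : ℕ → E n → ℝ, (∀ j, ContDiff ℝ ∞ (g j)) ∧ (∀ j x, g j (-x) = g j x) ∧
    (∀ j x, Lop (g j) x = -((j : ℝ) * (j + n)) * g j x) ∧ (∀ x, g 0 x = g 0 0) ∧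
    ∀ x, p x = ∑ j ∈ Finset.range (d + 1), g j x := by
  induction d using Nat.twoStepInduction generalizing p with
  | zero =>
    have h0 : ∀ x, p x = p 0 := by
      intro x
      have := hh 0 x
      rw [zero_smul, pow_zero, one_mul] at this
      exact this.symm
    refine ⟨fun j => if j = 0 then p else fun _ => 0, ?_, ?_, ?_, ?_, ?_⟩
    · intro j
      rcases eq_or_ne j 0 with hj | hj
      · simpa [hj] using hp
      · simpa [hj] using contDiff_const
    · intro j x
      rcases eq_or_ne j 0 with hj | hj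
      · simpa [hj] using he x
      · simp [hj]
    · intro j x
      rcases eq_or_ne j 0 with hj | hj
      · subst hj
        have h1 : p = fun _ => p 0 := funext h0
        simp only [if_true, Nat.cast_zero, zero_mul, neg_zero]
        have h2 := a1_Lop_mul (f := fun _ : E n => (1 : ℝ)) contDiff_const (p 0) x
        have h3 : Lop (fun _ : E n => (1 : ℝ)) x = 0 := by
          unfold Lop L2 hs
          have h4 : fderiv ℝ (fun _ : E n => (1 : ℝ)) = fun _ => 0 := by
            funext y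
            simp
          rw [h4]
          simp
        rw [h1]
        rw [h3, mul_zero] at h2
        simpa using h2
      · simp only [hj, if_false, mul_zero]
        exact a1_Lop_zero x
    · intro x
      simpa using h0 x
    · intro x
      simp
  | one =>
    have h0 : ∀ x, p x = 0 := by
      intro x
      have h1 := hh (-1) x
      rw [neg_one_smul, he, pow_one] at h1
      linarith
    refine ⟨fun _ _ => 0, fun _ => contDiff_const, fun _ _ => rfl, fun j x => ?_, fun _ => rfl,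
      fun x => ?_⟩
    · rw [mul_zero]
      exact a1_Lop_zero x
    · rw [h0 x]
      simp
  | more d ih _ =>
    obtain ⟨h, hs1, hs2, hs3, hs4, hs5⟩ := ih (a1_lap_smooth hp) (by
      intro x
      have h1 := a1_lap_scal hp (-1) 1 (by
        intro y
        rw [neg_one_smul, he, one_mul]) x
      rw [neg_one_smul] at h1
      linarith) (a1_lap_hom hp d hh)
    have hmu : ∀ j ∈ Finset.range (d + 1),
        ((d + 2 : ℕ) : ℝ) * (((d + 2 : ℕ) : ℝ) + n) - (j : ℝ) * (j + n) ≠ 0 := by
      intro j hj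
      have := a1_mu_lt n j (d + 2) (by have := Finset.mem_range.mp hj; omega)
      linarith
    obtain ⟨mu, hmudef⟩ : ∃ mu : ℕ → ℝ, ∀ j, mu j = (j : ℝ) * (j + n) := ⟨_, fun _ => rfl⟩
    have hk : ∀ j, ContDiff ℝ ∞ (fun y => (mu (d + 2) - mu j)⁻¹ * h j y) :=
      fun j => contDiff_const.mul (hs1 j)
    have hS : ContDiff ℝ ∞ (fun y => ∑ j ∈ Finset.range (d + 1), (mu (d + 2) - mu j)⁻¹ * h j y) :=
      ContDiff.sum fun j _ => hk j
    have hG : ContDiff ℝ ∞ (fun y => p y + (-1) *
        ∑ j ∈ Finset.range (d + 1), (mu (d + 2) - mu j)⁻¹ * h j y) :=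
      hp.add (contDiff_const.mul hS)
    refine ⟨fun j => if j < d + 1 then fun y => (mu (d + 2) - mu j)⁻¹ * h j y
      else if j = d + 2 then fun y => p y + (-1) *
        ∑ j ∈ Finset.range (d + 1), (mu (d + 2) - mu j)⁻¹ * h j y
      else fun _ => 0, ?_, ?_, ?_, ?_, ?_⟩
    · intro j
      by_cases h1 : j < d + 1
      · simpa only [h1, if_true] using hk j
      · by_cases h2 : j = d + 2
        · simpa only [h1, h2, if_true, if_false, show ¬ (d + 2 < d + 1) by omega] using hG
        · simpa only [h1, h2, if_false] using contDiff_const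
    · intro j x
      by_cases h1 : j < d + 1
      · simp only [h1, if_true, hs2]
      · by_cases h2 : j = d + 2
        · simp only [h2, if_true, if_false, show ¬ (d + 2 < d + 1) by omega, hs2, he]
        · simp only [h1, h2, if_false]
    · intro j x
      by_cases h1 : j < d + 1
      · simp only [h1, if_true]
        rw [a1_Lop_mul (hs1 j), hs3]
        ring
      · by_cases h2 : j = d + 2
        · simp only [h2, if_true, if_false, show ¬ (d + 2 < d + 1) by omega]
          rw [a1_Lop_add hp (contDiff_const.mul hS), a1_Lop_mul hS, a1_Lop_sum (d + 1) hk,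
            a1_Lop_hom hp (d + 2) hh, hs5 x]
          have h3 : ∑ j ∈ Finset.range (d + 1), Lop (fun y => (mu (d + 2) - mu j)⁻¹ * h j y) x =
              ∑ j ∈ Finset.range (d + 1), (h j x - mu (d + 2) * ((mu (d + 2) - mu j)⁻¹ * h j x)) := by
            apply Finset.sum_congr rfl
            intro j hj
            rw [a1_Lop_mul (hs1 j), hs3, ← hmudef]
            have h4 := hmu j hj
            rw [← hmudef, ← hmudef] at h4
            field_simp
            ring
          rw [h3, Finset.sum_sub_distrib, ← Finset.mul_sum, hmudef (d + 2)]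
          push_cast
          ring
        · simp only [h1, h2, if_false, mul_zero]
          exact a1_Lop_zero x
    · intro x
      simp only [show 0 < d + 1 by omega, if_true]
      rw [hs4 x]
    · intro x
      rw [show d + 2 + 1 = (d + 1) + 1 + 1 by ring, Finset.sum_range_succ, Finset.sum_range_succ]
      have h3 : ∑ j ∈ Finset.range (d + 1), (if j < d + 1 then fun y => (mu (d + 2) - mu j)⁻¹ * h j y
          else if j = d + 2 then fun y => p y + (-1) *
            ∑ j ∈ Finset.range (d + 1), (mu (d + 2) - mu j)⁻¹ * h j y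
          else fun _ => 0 : E n → ℝ) x =
          ∑ j ∈ Finset.range (d + 1), (mu (d + 2) - mu j)⁻¹ * h j x := by
        apply Finset.sum_congr rfl
        intro j hj
        simp only [Finset.mem_range.mp hj, if_true]
      rw [h3]
      simp only [show ¬ (d + 1 < d + 1) by omega, show ¬ (d + 1 = d + 2) by omega,
        show ¬ (d + 1 + 1 < d + 1) by omega, if_false, if_true]
      ring

end Pool.Agent.H21.CE
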