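import Pool.Agent.H21.CE.Det
import Pool.Agent.H21.CE.FlowB

open MeasureTheory Set Filter Topology Metric
open scoped ContDiff

namespace Pool.Agent.H21.CE

variable {n : ℕ}

/-- second order Taylor bound on a ball -/
lemma s4_taylor {G : Type*} [NormedAddCommGroup G] [NormedSpace ℝ G] [FiniteDimensional ℝ G]
    {F : G → ℝ} (hF : ContDiff ℝ ∞ F) (R0 : ℝ) :
    ∃ C > 0, ∀ q ∈ closedBall (0 : G) R0, ∀ q' ∈ closedBall (0 : G) R0,
      |F q' - F q - fderiv ℝ F q (q' - q)| ≤ C * ‖q' - q‖ ^ 2 := by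
  have hd1 : ContDiff ℝ ∞ (fderiv ℝ F) := hF.fderiv_right (by simp)
  have hc2 : Continuous (fderiv ℝ (fderiv ℝ F)) := hd1.continuous_fderiv (by simp)
  obtain ⟨C, hC⟩ := (isCompact_closedBall (0 : G) R0).exists_bound_of_continuousOn
    (f := fderiv ℝ (fderiv ℝ F)) hc2.continuousOn
  refine ⟨max C 1, lt_of_lt_of_le one_pos (le_max_right _ _), ?_⟩
  intro q hq q' hq'
  have hseg : segment ℝ q q' ⊆ closedBall (0 : G) R0 :=
    (convex_closedBall (0 : G) R0).segment_subset hq hq'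
  have hlip : ∀ z ∈ segment ℝ q q', ‖fderiv ℝ F z - fderiv ℝ F q‖ ≤ max C 1 * ‖q' - q‖ := by
    intro z hz
    have h1 : ‖fderiv ℝ F z - fderiv ℝ F q‖ ≤ max C 1 * ‖z - q‖ :=
      (convex_closedBall (0 : G) R0).norm_image_sub_le_of_norm_fderiv_le
        (fun w _ => (hd1.differentiable (by simp)) w)
        (fun w hw => le_trans (hC w hw) (le_max_left _ _)) hq (hseg hz)
    refine le_trans h1 (mul_le_mul_of_nonneg_left ?_ (le_trans zero_le_one (le_max_right _ _)))
    obtain ⟨a, b, ha, hb, hab, rfl⟩ := hz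
    have : a • q + b • q' - q = b • (q' - q) := by
      have ha' : a = 1 - b := by linarith
      rw [ha']
      module
    rw [this, norm_smul, Real.norm_of_nonneg hb]
    have : b ≤ 1 := by linarith
    exact mul_le_of_le_one_left (norm_nonneg _) this
  have h2 := (convex_segment q q').norm_image_sub_le_of_norm_hasFDerivWithin_le'
    (f := F) (f' := fderiv ℝ F) (φ := fderiv ℝ F q)
    (fun z _ => ((hF.differentiable (by simp)) z).hasFDerivAt.hasFDerivWithinAt) hlip
    (left_mem_segment ℝ q q') (right_mem_segment ℝ q q')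
  rw [Real.norm_eq_abs] at h2
  calc |F q' - F q - fderiv ℝ F q (q' - q)| ≤ max C 1 * ‖q' - q‖ * ‖q' - q‖ := h2
    _ = _ := by ring

/-- the derivative of `(t, x) ↦ V t x` -/
lemma s4_dF {V : ℝ → E n → ℝ} (hs : ContDiff ℝ ∞ (fun q : ℝ × E n => V q.1 q.2)) (t : ℝ)
    (x : E n) (a : ℝ) (u : E n) :
    fderiv ℝ (fun q : ℝ × E n => V q.1 q.2) (t, x) (a, u) =
      a * vd V t x + fderiv ℝ (V t) x u := by
  set F := fun q : ℝ × E n => V q.1 q.2 with hFdef
  have hF : HasFDerivAt F (fderiv ℝ F (t, x)) (t, x) :=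
    ((hs.differentiable (by simp)) (t, x)).hasFDerivAt
  have h1 : HasDerivAt (fun s => V s x) (fderiv ℝ F (t, x) (1, 0)) t := by
    have hg : HasDerivAt (fun s : ℝ => (s, x)) ((1 : ℝ), (0 : E n)) t :=
      (hasDerivAt_id t).prodMk (hasDerivAt_const t x)
    exact HasFDerivAt.comp_hasDerivAt t (l := F) (f := fun s : ℝ => (s, x)) hF hg
  have h2 : HasFDerivAt (V t) ((fderiv ℝ F (t, x)).comp (ContinuousLinearMap.inr ℝ ℝ (E n))) x := by
    have hg : HasFDerivAt (fun y : E n => (t, y)) (ContinuousLinearMap.inr ℝ ℝ (E n)) x :=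
      hasFDerivAt_prodMk_right t x
    exact HasFDerivAt.comp x (g := F) (f := fun y : E n => (t, y)) hF hg
  have h3 : (a, u) = a • ((1 : ℝ), (0 : E n)) + ((0 : ℝ), u) := by simp
  rw [h3, map_add, map_smul, vd, h1.deriv, h2.fderiv]
  simp

lemma s4_smooth_t {V : ℝ → E n → ℝ} (hs : ContDiff ℝ ∞ (fun q : ℝ × E n => V q.1 q.2)) (t : ℝ) :
    ContDiff ℝ ∞ (V t) := by
  have : V t = (fun q : ℝ × E n => V q.1 q.2) ∘ (fun y : E n => (t, y)) := rfl
  rw [this]
  exact hs.comp (contDiff_const.prodMk contDiff_id)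

/-- the Riesz map, as a real linear map -/
noncomputable def s4_J (n : ℕ) : (E n →L[ℝ] ℝ) →L[ℝ] E n :=
  ∑ i : Fin n, (ContinuousLinearMap.apply ℝ ℝ (eb i : E n)).smulRight (eb i : E n)

lemma s4_J_eq (L : E n →L[ℝ] ℝ) : s4_J n L = (InnerProductSpace.toDual ℝ (E n)).symm L := by
  have h1 : s4_J n L = ∑ i : Fin n, L (eb i) • (eb i : E n) := by
    simp [s4_J]
  rw [h1]
  conv_rhs => rw [← sum_eb ((InnerProductSpace.toDual ℝ (E n)).symm L)]
  apply Finset.sum_congr rfl
  intro i _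
  congr 1
  rw [← inner_eb', InnerProductSpace.toDual_symm_apply]

/-- the derivative of the interior velocity -/
noncomputable def s4_A (V : E n → ℝ) (x : E n) : E n →L[ℝ] E n :=
  (s4_J n).comp (fderiv ℝ (fderiv ℝ V) x)
    - ((fderiv ℝ V x x) • ContinuousLinearMap.id ℝ (E n)
      + (((fderiv ℝ (fderiv ℝ V) x).flip x) + fderiv ℝ V x).smulRight x)

lemma s4_A_apply (V : E n → ℝ) (x v : E n) :
    s4_A V x v = (InnerProductSpace.toDual ℝ (E n)).symm (fderiv ℝ (fderiv ℝ V) x v)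
      - ((fderiv ℝ V x x) • v + (hs V x v x + fderiv ℝ V x v) • x) := by
  rw [← s4_J_eq]
  simp [s4_A, hs]

lemma s4_uin_deriv {V : E n → ℝ} (hV : ContDiff ℝ ∞ V) (x : E n) :
    HasFDerivAt (uin V) (s4_A V x) x := by
  have hd1 : ContDiff ℝ ∞ (fderiv ℝ V) := hV.fderiv_right (by simp)
  have h1 : HasFDerivAt (fderiv ℝ V) (fderiv ℝ (fderiv ℝ V) x) x :=
    ((hd1.differentiable (by simp)) x).hasFDerivAt
  have h2 : HasFDerivAt (gradient V) ((s4_J n).comp (fderiv ℝ (fderiv ℝ V) x)) x := by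
    have h5 : gradient V = fun y => s4_J n (fderiv ℝ V y) := by
      funext y
      rw [s4_J_eq]; rfl
    rw [h5]
    exact (s4_J n).hasFDerivAt.comp x h1
  have h3 : HasFDerivAt (fun y : E n => fderiv ℝ V y y)
      ((((fderiv ℝ (fderiv ℝ V) x).flip x) + fderiv ℝ V x)) x := by
    have := h1.clm_apply (hasFDerivAt_id x)
    refine this.congr_fderiv ?_
    ext v
    simp [add_comm]
  have h4 := h3.smul (hasFDerivAt_id x)
  exact h2.sub h4

lemma s4_A_norm {V : E n → ℝ} {M : ℝ} (hM : 0 ≤ M) {x : E n} (hx : x ∈ closedBall (0 : E n) 1)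
    (b1 : ‖fderiv ℝ V x‖ ≤ M) (b2 : ‖fderiv ℝ (fderiv ℝ V) x‖ ≤ M) : ‖s4_A V x‖ ≤ 4 * M := by
  have hx1 : ‖x‖ ≤ 1 := by simpa using hx
  refine ContinuousLinearMap.opNorm_le_bound _ (by positivity) ?_
  intro v
  rw [s4_A_apply]
  have e1 : ‖(InnerProductSpace.toDual ℝ (E n)).symm (fderiv ℝ (fderiv ℝ V) x v)‖ ≤ M * ‖v‖ := by
    rw [LinearIsometryEquiv.norm_map]
    exact le_trans ((fderiv ℝ (fderiv ℝ V) x).le_opNorm v)
      (mul_le_mul_of_nonneg_right b2 (norm_nonneg _))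
  have e2 : ‖(fderiv ℝ V x x) • v‖ ≤ M * ‖v‖ := by
    rw [norm_smul]
    refine mul_le_mul_of_nonneg_right ?_ (norm_nonneg _)
    calc ‖fderiv ℝ V x x‖ ≤ ‖fderiv ℝ V x‖ * ‖x‖ := (fderiv ℝ V x).le_opNorm x
      _ ≤ M * 1 := mul_le_mul b1 hx1 (norm_nonneg _) hM
      _ = M := mul_one M
  have e3 : ‖(hs V x v x + fderiv ℝ V x v) • x‖ ≤ 2 * M * ‖v‖ := by
    rw [norm_smul]
    have e4 : ‖hs V x v x‖ ≤ M * ‖v‖ := by
      calc ‖hs V x v x‖ ≤ ‖fderiv ℝ (fderiv ℝ V) x v‖ * ‖x‖ :=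
            (fderiv ℝ (fderiv ℝ V) x v).le_opNorm x
        _ ≤ (M * ‖v‖) * 1 := by
            refine mul_le_mul ?_ hx1 (norm_nonneg _) (by positivity)
            exact le_trans ((fderiv ℝ (fderiv ℝ V) x).le_opNorm v)
              (mul_le_mul_of_nonneg_right b2 (norm_nonneg _))
        _ = M * ‖v‖ := mul_one _
    have e5 : ‖fderiv ℝ V x v‖ ≤ M * ‖v‖ :=
      le_trans ((fderiv ℝ V x).le_opNorm v) (mul_le_mul_of_nonneg_right b1 (norm_nonneg _))
    calc ‖hs V x v x + fderiv ℝ V x v‖ * ‖x‖ ≤ (M * ‖v‖ + M * ‖v‖) * 1 := by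
          refine mul_le_mul (le_trans (norm_add_le _ _) (add_le_add e4 e5)) hx1 (norm_nonneg _)
            (by positivity)
      _ = 2 * M * ‖v‖ := by ring
  calc _ ≤ ‖(InnerProductSpace.toDual ℝ (E n)).symm (fderiv ℝ (fderiv ℝ V) x v)‖
        + (‖(fderiv ℝ V x x) • v‖ + ‖(hs V x v x + fderiv ℝ V x v) • x‖) :=
        le_trans (norm_sub_le _ _) (add_le_add le_rfl (norm_add_le _ _))
    _ ≤ M * ‖v‖ + (M * ‖v‖ + 2 * M * ‖v‖) := add_le_add e1 (add_le_add e2 e3)
    _ = 4 * M * ‖v‖ := by ring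

lemma s4_A_trace (V : E n → ℝ) (x : E n) :
    LinearMap.trace ℝ (E n) (s4_A V x : E n →ₗ[ℝ] E n) = Lop V x := by
  rw [LinearMap.trace_eq_sum_inner _ (EuclideanSpace.basisFun (Fin n) ℝ)]
  have hb : ∀ i, EuclideanSpace.basisFun (Fin n) ℝ i = eb i := by
    intro i; simp [eb]
  have h1 : ∀ i : Fin n, inner ℝ (EuclideanSpace.basisFun (Fin n) ℝ i)
      ((s4_A V x : E n →ₗ[ℝ] E n) (EuclideanSpace.basisFun (Fin n) ℝ i))
      = hs V x (eb i) (eb i) - (fderiv ℝ V x x + (hs V x (eb i) x + fderiv ℝ V x (eb i)) * x i) := by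
    intro i
    rw [hb, ContinuousLinearMap.coe_coe, s4_A_apply, inner_sub_right, inner_add_right,
      inner_smul_right, inner_smul_right, real_inner_comm,
      InnerProductSpace.toDual_symm_apply, inner_eb, inner_eb]
    have : (eb i : E n) i = 1 := by simp [eb]
    rw [this, mul_one]
    rfl
  simp_rw [h1]
  rw [Finset.sum_sub_distrib, Finset.sum_add_distrib]
  have h2 : ∑ i : Fin n, (hs V x (eb i) x + fderiv ℝ V x (eb i)) * x i
      = hs V x x x + fderiv ℝ V x x := by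
    have h3 : ∀ (L : E n →L[ℝ] ℝ), ∑ i : Fin n, L (eb i) * x i = L x := by
      intro L
      conv_rhs => rw [← sum_eb x]
      rw [map_sum]
      apply Finset.sum_congr rfl
      intro i _
      rw [map_smul, smul_eq_mul, mul_comm]
    have h4 := h3 ((fderiv ℝ (fderiv ℝ V) x).flip x)
    have h5 := h3 (fderiv ℝ V x)
    simp only [add_mul, Finset.sum_add_distrib]
    rw [h5]
    congr 1
  rw [h2]
  simp only [Finset.sum_const, Finset.card_univ, Fintype.card_fin, nsmul_eq_mul]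
  unfold Lop L2
  ring

lemma s4_pde {V W : E n → ℝ} {x : E n} (hp : W x = Fop V x) :
    W x + fderiv ℝ V x (uin V x) = Lop V x := by
  rw [hp, uin, map_sub, map_smul, smul_eq_mul]
  have h1 : fderiv ℝ V x (gradient V x) = ‖gradient V x‖ ^ 2 := by
    rw [← inner_grad, real_inner_self_eq_norm_sq]
  rw [h1]
  unfold Fop Lop
  ring

lemma s4_uin_norm {V : E n → ℝ} {M : ℝ} (hM : 0 ≤ M) {x : E n} (hx : ‖x‖ ≤ 1)
    (b1 : ‖fderiv ℝ V x‖ ≤ M) : ‖uin V x‖ ≤ 2 * M := by
  unfold uin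
  have e1 : ‖gradient V x‖ ≤ M := by rw [norm_grad]; exact b1
  have e2 : ‖(fderiv ℝ V x x) • x‖ ≤ M := by
    rw [norm_smul]
    calc ‖fderiv ℝ V x x‖ * ‖x‖ ≤ (‖fderiv ℝ V x‖ * ‖x‖) * ‖x‖ :=
          mul_le_mul_of_nonneg_right ((fderiv ℝ V x).le_opNorm x) (norm_nonneg _)
      _ ≤ (M * 1) * 1 := by
          refine mul_le_mul (mul_le_mul b1 hx (norm_nonneg _) hM) hx (norm_nonneg _)
            (by positivity)
      _ = M := by ring
  calc _ ≤ ‖gradient V x‖ + ‖(fderiv ℝ V x x) • x‖ := norm_sub_le _ _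
    _ ≤ M + M := add_le_add e1 e2
    _ = 2 * M := by ring

lemma s4_arith {d t C1 C2 K : ℝ} (hd : 0 ≤ d) (hd1 : d ≤ 1) (ht : |t| ≤ K) (hC1 : 0 ≤ C1)
    (hC2 : 0 ≤ C2) :
    1 - (K ^ 2 + (C1 + C2) * (1 + K)) * d ^ 2 ≤ (1 + d * t - C1 * d ^ 2) * (1 - d * t - C2 * d ^ 2) := by
  have h1 := abs_le.mp ht
  have hK : 0 ≤ K := le_trans (abs_nonneg _) ht
  have h2 : t ^ 2 ≤ K ^ 2 := sq_le_sq' h1.1 h1.2
  have h3 : 0 ≤ d ^ 2 := sq_nonneg d
  have h4 : d ^ 2 * t ^ 2 ≤ d ^ 2 * K ^ 2 := mul_le_mul_of_nonneg_left h2 h3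
  have h5 : d * (t * (C2 - C1)) ≤ K * (C1 + C2) := by
    have h6 : |t * (C2 - C1)| ≤ K * (C1 + C2) := by
      rw [abs_mul]
      refine mul_le_mul ht ?_ (abs_nonneg _) hK
      rw [abs_le]; constructor <;> linarith
    have h7 : 0 ≤ K * (C1 + C2) := by positivity
    calc d * (t * (C2 - C1)) ≤ d * |t * (C2 - C1)| :=
          mul_le_mul_of_nonneg_left (le_abs_self _) hd
      _ ≤ 1 * (K * (C1 + C2)) := mul_le_mul hd1 h6 (abs_nonneg _) zero_le_one
      _ = _ := one_mul _
  have h8 : d ^ 2 * (d * (t * (C2 - C1))) ≤ d ^ 2 * (K * (C1 + C2)) :=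
    mul_le_mul_of_nonneg_left h5 h3
  have h9 : 0 ≤ C1 * C2 * d ^ 4 := by positivity
  nlinarith [h4, h8, h9]

theorem inner_step (hn : 0 < n) {V : ℝ → E n → ℝ} {T lam : ℝ} (h : Flow n V T lam) :
    ∃ C > 0, ∃ d0 > 0, ∀ t ∈ Icc (0 : ℝ) T, ∀ d ∈ Ioo (0 : ℝ) d0, 
      (InjOn (fun x => x + d • uin (V t) x) (closedBall (0 : E n) 1)) ∧
      (MapsTo (fun x => x + d • uin (V t) x) (closedBall (0 : E n) (1 - C * d ^ 2))
        (closedBall (0 : E n) 1)) ∧
      ∀ K ⊆ closedBall (0 : E n) 1, MeasurableSet K →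
        MeasurableSet ((fun x => x + d • uin (V t) x) '' K) ∧
        ∫ x in K, Real.exp (-V t x) - C * d ^ 2 ≤
          ∫ x in (fun x => x + d • uin (V t) x) '' K, Real.exp (-V (t + d) x) := by
  obtain ⟨M, hM⟩ := h.pt
  set M1 := max M 1 with hM1
  have hM1' : (1 : ℝ) ≤ M1 := le_max_right _ _
  have hMM : M ≤ M1 := le_max_left _ _
  have hM0 : 0 ≤ M1 := by linarith
  obtain ⟨C1, hC1, hdet⟩ := det_lower n (4 * M1)
  obtain ⟨C2, hC2, htay⟩ := s4_taylor h.smooth (|T| + 2 + 2 * M1)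
  set C2' := C2 * (1 + 2 * M1) ^ 2 with hC2'
  have hC2p : 0 < C2' := by positivity
  set K0 := M1 + M1 * (2 * M1) with hK0
  have hK0p : 0 < K0 := by positivity
  set C3 := Real.exp M1 * (K0 ^ 2 + (C1 + C2') * (1 + K0)) with hC3
  have hC3p : 0 < C3 := by positivity
  refine ⟨C3 + 8 * M1 ^ 2, by positivity, 1 / (8 * M1 + K0 + C1 + C2' + 1), by positivity, ?_⟩
  intro t ht d hd
  have hPt := hM t ht
  have hVs : ContDiff ℝ ∞ (V t) := s4_smooth_t h.smooth t
  have hVs' : ContDiff ℝ ∞ (V (t + d)) := s4_smooth_t h.smooth (t + d)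
  have hd0 : 0 < d := hd.1
  have hdd : d * (8 * M1 + K0 + C1 + C2' + 1) < 1 := by
    have := hd.2
    rwa [lt_div_iff₀ (by positivity)] at this
  have hd1 : d ≤ 1 := by nlinarith [mul_pos hd0 hK0p, mul_pos hd0 hC1, mul_pos hd0 hC2p]
  have hdM : d * (8 * M1) < 1 := by nlinarith [mul_pos hd0 hK0p, mul_pos hd0 hC1, mul_pos hd0 hC2p]
  have hdK : d * K0 + d * C1 + d * C2' < 1 := by nlinarith
  have b1 : ∀ z ∈ closedBall (0 : E n) 1, ‖fderiv ℝ (V t) z‖ ≤ M1 :=
    fun z hz => le_trans (hPt.b1 z hz) hMM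
  have b2 : ∀ z ∈ closedBall (0 : E n) 1, ‖fderiv ℝ (fderiv ℝ (V t)) z‖ ≤ M1 :=
    fun z hz => le_trans (hPt.b2 z hz) hMM
  have hU : ∀ x ∈ closedBall (0 : E n) 1, ‖uin (V t) x‖ ≤ 2 * M1 :=
    fun x hx => s4_uin_norm hM0 (by simpa using hx) (b1 x hx)
  have hUd : ∀ x : E n, HasFDerivAt (uin (V t)) (s4_A (V t) x) x := fun x => s4_uin_deriv hVs x
  have hLip : ∀ x ∈ closedBall (0 : E n) 1, ∀ y ∈ closedBall (0 : E n) 1,
      ‖uin (V t) y - uin (V t) x‖ ≤ 4 * M1 * ‖y - x‖ := by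
    intro x hx y hy
    exact (convex_closedBall (0 : E n) 1).norm_image_sub_le_of_norm_hasFDerivWithin_le
      (fun z _ => (hUd z).hasFDerivWithinAt) (fun z hz => s4_A_norm hM0 hz (b1 z hz) (b2 z hz))
      hx hy
  have hinj : InjOn (fun x => x + d • uin (V t) x) (closedBall (0 : E n) 1) := by
    intro x hx y hy hxy
    by_contra hne
    have h1 : 0 < ‖y - x‖ := norm_pos_iff.mpr (sub_ne_zero.mpr (Ne.symm hne))
    have h2 : y - x = -(d • (uin (V t) y - uin (V t) x)) := by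
      simp only at hxy
      rw [smul_sub]
      have : y - x = (x + d • uin (V t) x) - x - d • uin (V t) y + (y - x)
          - ((x + d • uin (V t) x) - x - d • uin (V t) y) := by abel
      have h3 : y = x + d • uin (V t) x - d • uin (V t) y := by
        rw [hxy]; abel
      calc y - x = (x + d • uin (V t) x - d • uin (V t) y) - x := by rw [← h3]
        _ = _ := by abel
    have h3 : ‖y - x‖ ≤ d * (4 * M1 * ‖y - x‖) := by
      calc ‖y - x‖ = ‖-(d • (uin (V t) y - uin (V t) x))‖ := congrArg norm h2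
        _ = ‖d • (uin (V t) y - uin (V t) x)‖ := norm_neg _
        _ = d * ‖uin (V t) y - uin (V t) x‖ := by rw [norm_smul, Real.norm_of_nonneg hd0.le]
        _ ≤ _ := mul_le_mul_of_nonneg_left (hLip x hx y hy) hd0.le
    have h4 : d * (4 * M1 * ‖y - x‖) = (d * (8 * M1)) * ‖y - x‖ / 2 := by ring
    nlinarith [mul_lt_mul_of_pos_right hdM h1]
  have hcontU : Continuous (uin (V t)) := by
    have : Differentiable ℝ (uin (V t)) := fun x => (hUd x).differentiableAt
    exact this.continuous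
  have hcontG : Continuous (fun x : E n => x + d • uin (V t) x) :=
    continuous_id.add (hcontU.const_smul d)
  refine ⟨hinj, ?_, ?_⟩
  · intro x hx
    have hx0 : ‖x‖ ≤ 1 - (C3 + 8 * M1 ^ 2) * d ^ 2 := by simpa using hx
    have hx1 : ‖x‖ ≤ 1 - 8 * M1 ^ 2 * d ^ 2 := by
      have : 0 ≤ C3 * d ^ 2 := by positivity
      nlinarith
    have hx2 : ‖x‖ ≤ 1 := by
      have : 0 ≤ 8 * M1 ^ 2 * d ^ 2 := by positivity
      linarith
    have hxB : x ∈ closedBall (0 : E n) 1 := by simpa using hx2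
    have hnn := norm_nonneg x
    have hsq : ‖x + d • uin (V t) x‖ ^ 2 = ‖x‖ ^ 2 + 2 * d * inner ℝ x (uin (V t) x)
        + d ^ 2 * ‖uin (V t) x‖ ^ 2 := by
      rw [norm_add_sq_real, inner_smul_right, norm_smul, Real.norm_of_nonneg hd0.le]
      ring
    have hin : inner ℝ x (uin (V t) x) = (1 - ‖x‖ ^ 2) * fderiv ℝ (V t) x x := by
      unfold uin
      rw [inner_sub_right, inner_smul_right, grad_inner, real_inner_self_eq_norm_sq]
      ring
    have hDx : fderiv ℝ (V t) x x ≤ M1 := by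
      calc fderiv ℝ (V t) x x ≤ ‖fderiv ℝ (V t) x x‖ := Real.le_norm_self _
        _ ≤ ‖fderiv ℝ (V t) x‖ * ‖x‖ := (fderiv ℝ (V t) x).le_opNorm x
        _ ≤ M1 * 1 := mul_le_mul (b1 x hxB) hx2 hnn hM0
        _ = M1 := mul_one _
    have hx3 : 0 ≤ 1 - ‖x‖ ^ 2 := by nlinarith
    have hUx : ‖uin (V t) x‖ ^ 2 ≤ 4 * M1 ^ 2 := by
      have := hU x hxB
      nlinarith [norm_nonneg (uin (V t) x)]
    have h5 : ‖x + d • uin (V t) x‖ ^ 2 ≤ 1 := by
      rw [hsq, hin]
      have h6 : (1 - ‖x‖ ^ 2) * fderiv ℝ (V t) x x ≤ (1 - ‖x‖ ^ 2) * M1 :=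
        mul_le_mul_of_nonneg_left hDx hx3
      have h7 : 2 * d * ((1 - ‖x‖ ^ 2) * fderiv ℝ (V t) x x) ≤ 2 * d * ((1 - ‖x‖ ^ 2) * M1) :=
        mul_le_mul_of_nonneg_left h6 (by positivity)
      have h8 : 2 * d * ((1 - ‖x‖ ^ 2) * M1) ≤ (1 - ‖x‖ ^ 2) / 4 := by
        nlinarith [mul_le_mul_of_nonneg_left hdM.le hx3]
      have h9 : d ^ 2 * ‖uin (V t) x‖ ^ 2 ≤ d ^ 2 * (4 * M1 ^ 2) :=
        mul_le_mul_of_nonneg_left hUx (sq_nonneg d)
      have h10 : 8 * M1 ^ 2 * d ^ 2 ≤ 1 - ‖x‖ ^ 2 := by nlinarith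
      nlinarith
    have h6 : ‖x + d • uin (V t) x‖ ≤ 1 := by
      by_contra hcon
      push Not at hcon
      nlinarith
    simpa using h6
  · intro K hK hKm
    have hinjK : InjOn (fun x => x + d • uin (V t) x) K := hinj.mono hK
    have hKfin : volume K ≠ ⊤ :=
      ((measure_mono hK).trans_lt measure_closedBall_lt_top).ne
    refine ⟨hKm.image_of_continuousOn_injOn hcontG.continuousOn hinjK, ?_⟩
    have hG' : ∀ x ∈ K, HasFDerivWithinAt (fun x => x + d • uin (V t) x)
        (ContinuousLinearMap.id ℝ (E n) + d • s4_A (V t) x) K x := by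
      intro x _
      exact ((hasFDerivAt_id x).add ((hUd x).const_smul d)).hasFDerivWithinAt
    rw [integral_image_eq_integral_abs_det_fderiv_smul volume hKm hG' hinjK]
    have hcontA : Continuous (fun x => s4_A (V t) x) := by
      have hd1 : ContDiff ℝ ∞ (fderiv ℝ (V t)) := hVs.fderiv_right (by simp)
      have c1 : Continuous (fderiv ℝ (V t)) := hd1.continuous
      have c2 : Continuous (fderiv ℝ (fderiv ℝ (V t))) := hd1.continuous_fderiv (by simp)
      unfold s4_A
      refine Continuous.sub ?_ (Continuous.add ?_ ?_)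
      · exact continuous_const.clm_comp c2
      · exact (c1.clm_apply continuous_id).smul continuous_const
      · have c3 : Continuous (fun x : E n => (fderiv ℝ (fderiv ℝ (V t)) x).flip x
            + fderiv ℝ (V t) x) := by
          refine Continuous.add ?_ c1
          have : Continuous (fun x : E n => (fderiv ℝ (fderiv ℝ (V t)) x).flip) :=
            (ContinuousLinearMap.flipₗᵢ ℝ (E n) (E n) ℝ).continuous.comp c2
          exact this.clm_apply continuous_id
        exact ((ContinuousLinearMap.smulRightL ℝ (E n) (E n)).continuous.comp c3).clm_apply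
          continuous_id
    have hcontR : Continuous (fun x => |(ContinuousLinearMap.id ℝ (E n)
        + d • s4_A (V t) x).det| • Real.exp (-V (t + d) (x + d • uin (V t) x))) := by
      have k1 : Continuous (fun x => |(ContinuousLinearMap.id ℝ (E n)
          + d • s4_A (V t) x).det|) :=
        (ContinuousLinearMap.continuous_det.comp
          (continuous_const.add (hcontA.const_smul d))).abs
      have k2 : Continuous (fun x => Real.exp (-V (t + d) (x + d • uin (V t) x))) :=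
        Real.continuous_exp.comp ((hVs'.continuous.comp hcontG).neg)
      exact k1.smul k2
    have hintR : IntegrableOn (fun x => |(ContinuousLinearMap.id ℝ (E n)
        + d • s4_A (V t) x).det| • Real.exp (-V (t + d) (x + d • uin (V t) x))) K :=
      (hcontR.continuousOn.integrableOn_compact (isCompact_closedBall (0 : E n) 1)).mono_set hK
    have hcontL : Continuous (fun x => Real.exp (-V t x)) :=
      Real.continuous_exp.comp hVs.continuous.neg
    have hintL : IntegrableOn (fun x => Real.exp (-V t x)) K :=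
      (hcontL.continuousOn.integrableOn_compact (isCompact_closedBall (0 : E n) 1)).mono_set hK
    have hintC : IntegrableOn (fun _ : E n => (C3 + 8 * M1 ^ 2) * d ^ 2) K :=
      integrableOn_const hKfin
    refine setIntegral_mono_on (hintL.sub hintC) hintR hKm ?_
    intro x hxK
    have hxC : Real.exp (-V t x) - (C3 + 8 * M1 ^ 2) * d ^ 2 ≤ Real.exp (-V t x) - C3 * d ^ 2 := by
      have : 0 ≤ 8 * M1 ^ 2 * d ^ 2 := by positivity
      nlinarith
    refine le_trans hxC ?_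
    revert x
    have hpt : ∀ x ∈ K, Real.exp (-V t x) - C3 * d ^ 2 ≤ |(ContinuousLinearMap.id ℝ (E n)
        + d • s4_A (V t) x).det| • Real.exp (-V (t + d) (x + d • uin (V t) x)) := by
      intro x hxK
      have hxB := hK hxK
      have hx1 : ‖x‖ ≤ 1 := by simpa using hxB
      have hA := s4_A_norm hM0 hxB (b1 x hxB) (b2 x hxB)
      have hde := hdet _ hA d ⟨hd0.le, hd1⟩
      rw [s4_A_trace] at hde
      have hpd : vd V t x = Fop (V t) x := (hPt.pde x hxB).self_of_nhds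
      have hp2 := s4_pde (V := V t) (W := vd V t) hpd
      -- Taylor
      have hq : ((t, x) : ℝ × E n) ∈ closedBall (0 : ℝ × E n) (|T| + 2 + 2 * M1) := by
        rw [mem_closedBall_zero_iff, Prod.norm_def]
        refine max_le ?_ ?_
        · have : ‖t‖ ≤ |T| := by
            rw [Real.norm_of_nonneg ht.1]
            exact le_trans ht.2 (le_abs_self T)
          simp only; linarith
        · simp only; have := abs_nonneg T; linarith
      have hq' : ((t + d, x + d • uin (V t) x) : ℝ × E n) ∈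
          closedBall (0 : ℝ × E n) (|T| + 2 + 2 * M1) := by
        rw [mem_closedBall_zero_iff, Prod.norm_def]
        refine max_le ?_ ?_
        · have : ‖t + d‖ ≤ |T| + 1 := by
            rw [Real.norm_of_nonneg (add_nonneg ht.1 hd0.le)]
            have := le_trans ht.2 (le_abs_self T)
            linarith
          simp only; linarith
        · simp only
          have h1 : ‖x + d • uin (V t) x‖ ≤ 1 + 1 * (2 * M1) := by
            refine le_trans (norm_add_le _ _) (add_le_add hx1 ?_)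
            rw [norm_smul, Real.norm_of_nonneg hd0.le]
            exact mul_le_mul hd1 (hU x hxB) (norm_nonneg _) zero_le_one
          have := abs_nonneg T
          linarith
      have htay1 := htay _ hq _ hq'
      have hsub : ((t + d, x + d • uin (V t) x) : ℝ × E n) - (t, x) = (d, d • uin (V t) x) := by
        simp
      rw [hsub, s4_dF h.smooth, map_smul, smul_eq_mul] at htay1
      have hnorm : ‖((d, d • uin (V t) x) : ℝ × E n)‖ ≤ d * (1 + 2 * M1) := by
        rw [Prod.norm_def]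
        refine max_le ?_ ?_
        · simp only; rw [Real.norm_of_nonneg hd0.le]; nlinarith
        · simp only; rw [norm_smul, Real.norm_of_nonneg hd0.le]
          have := hU x hxB
          nlinarith
      have hnorm2 : C2 * ‖((d, d • uin (V t) x) : ℝ × E n)‖ ^ 2 ≤ C2' * d ^ 2 := by
        have : ‖((d, d • uin (V t) x) : ℝ × E n)‖ ^ 2 ≤ (d * (1 + 2 * M1)) ^ 2 :=
          pow_le_pow_left₀ (norm_nonneg _) hnorm 2
        calc C2 * ‖((d, d • uin (V t) x) : ℝ × E n)‖ ^ 2 ≤ C2 * (d * (1 + 2 * M1)) ^ 2 :=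
              mul_le_mul_of_nonneg_left this hC2.le
          _ = C2' * d ^ 2 := by rw [hC2']; ring
      have hup : V (t + d) (x + d • uin (V t) x) ≤ V t x + d * Lop (V t) x + C2' * d ^ 2 := by
        have h1 := (abs_le.mp htay1).2
        simp only at h1
        rw [← hp2]
        nlinarith
      set τ := Lop (V t) x with hτ
      have hτK : |τ| ≤ K0 := by
        rw [← hp2]
        refine le_trans (abs_add_le _ _) (add_le_add ?_ ?_)
        · exact le_trans (hPt.bW x hxB) hMM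
        · rw [← Real.norm_eq_abs]
          exact le_trans ((fderiv ℝ (V t) x).le_opNorm _)
            (mul_le_mul (b1 x hxB) (hU x hxB) (norm_nonneg _) hM0)
      have hτ1 := abs_le.mp hτK
      have hdτ : |d * τ| ≤ d * K0 := by
        rw [abs_mul, abs_of_pos hd0]
        exact mul_le_mul_of_nonneg_left hτK hd0.le
      have hdτ1 := abs_le.mp hdτ
      have hdC1 : C1 * d ^ 2 ≤ d * C1 := by nlinarith [mul_pos hd0 hC1]
      have hdC2 : C2' * d ^ 2 ≤ d * C2' := by nlinarith [mul_pos hd0 hC2p]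
      have ha0 : 0 ≤ 1 + d * τ - C1 * d ^ 2 := by linarith [mul_pos hd0 hC2p]
      have hb0 : 0 ≤ 1 - d * τ - C2' * d ^ 2 := by linarith [mul_pos hd0 hC1]
      have hexpV : 0 < Real.exp (-V t x) := Real.exp_pos _
      have hb1 : Real.exp (-V t x) * (1 - d * τ - C2' * d ^ 2)
          ≤ Real.exp (-V (t + d) (x + d • uin (V t) x)) := by
        calc Real.exp (-V t x) * (1 - d * τ - C2' * d ^ 2)
            ≤ Real.exp (-V t x) * Real.exp (-(d * τ) - C2' * d ^ 2) := by
              refine mul_le_mul_of_nonneg_left ?_ hexpV.le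
              have := Real.add_one_le_exp (-(d * τ) - C2' * d ^ 2)
              linarith
          _ = Real.exp (-V t x + (-(d * τ) - C2' * d ^ 2)) := (Real.exp_add _ _).symm
          _ ≤ _ := Real.exp_le_exp.mpr (by linarith)
      have habs : 1 + d * τ - C1 * d ^ 2 ≤
          |(ContinuousLinearMap.id ℝ (E n) + d • s4_A (V t) x).det| :=
        le_trans hde (le_abs_self _)
      rw [smul_eq_mul]
      have hprod : (1 + d * τ - C1 * d ^ 2) * (Real.exp (-V t x) * (1 - d * τ - C2' * d ^ 2))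
          ≤ |(ContinuousLinearMap.id ℝ (E n) + d • s4_A (V t) x).det|
            * Real.exp (-V (t + d) (x + d • uin (V t) x)) :=
        mul_le_mul habs hb1 (mul_nonneg hexpV.le hb0) (abs_nonneg _)
      refine le_trans ?_ hprod
      have har := s4_arith hd0.le hd1 hτK hC1.le hC2p.le
      have hVlow : Real.exp (-V t x) ≤ Real.exp M1 := by
        apply Real.exp_le_exp.mpr
        have := (abs_le.mp (hPt.bV x hxB)).1
        linarith
      have hKK : 0 ≤ (K0 ^ 2 + (C1 + C2') * (1 + K0)) * d ^ 2 := by positivity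
      calc Real.exp (-V t x) - C3 * d ^ 2
          = Real.exp (-V t x) - Real.exp M1 * ((K0 ^ 2 + (C1 + C2') * (1 + K0)) * d ^ 2) := by
            rw [hC3]; ring
        _ ≤ Real.exp (-V t x) - Real.exp (-V t x) * ((K0 ^ 2 + (C1 + C2') * (1 + K0)) * d ^ 2) := by
            linarith [mul_le_mul_of_nonneg_right hVlow hKK]
        _ = Real.exp (-V t x) * (1 - (K0 ^ 2 + (C1 + C2') * (1 + K0)) * d ^ 2) := by ring
        _ ≤ Real.exp (-V t x) * ((1 + d * τ - C1 * d ^ 2) * (1 - d * τ - C2' * d ^ 2)) :=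
            mul_le_mul_of_nonneg_left har hexpV.le
        _ = _ := by ring
    intro x hxK _
    exact hpt x hxK

end Pool.Agent.H21.CE
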