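import Pool.Agent.H21.CE.Rho
import Pool.Agent.H21.CE.Gib
import Pool.Agent.H21.CE.FlowB

open MeasureTheory Set Filter Topology Metric
open scoped ContDiff

namespace Pool.Agent.H21.CE

variable {n : ℕ}

private lemma s6_smooth {V : ℝ → E n → ℝ} {T lam : ℝ} (h : Flow n V T lam) (t : ℝ) :
    ContDiff ℝ ∞ (V t) := by
  have h1 : ContDiff ℝ ∞ (fun x : E n => ((t, x) : ℝ × E n)) := contDiff_const.prodMk contDiff_id
  exact h.smooth.comp h1

private lemma s6_exp {s : ℝ} (hs : |s| ≤ 1) : Real.exp s ≤ 1 + s + s ^ 2 := by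
  have h := Real.abs_exp_sub_one_sub_id_le hs
  have h2 := le_abs_self (Real.exp s - 1 - s)
  linarith

private lemma s6_bound {V W : E n → ℝ} {lam M : ℝ} (h : Pt n V W lam M) {z x u : E n}
    (hz : z ∈ sphere (0 : E n) 1) {R M' : ℝ} (hx : ‖x‖ ≤ R) (hu : ‖u‖ ≤ M') :
    |ell W z x + fderiv ℝ V z u| ≤ M + M * (R + 1) + M * M' := by
  have hzb : z ∈ closedBall (0 : E n) 1 := sphere_subset_closedBall hz
  have hzn : ‖z‖ = 1 := by simpa using hz
  have hM : 0 ≤ M := by linarith [h.one_le]
  have h1 : |W z| ≤ M := h.bW z hzb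
  have h2 : |fderiv ℝ W z (x - z)| ≤ M * (R + 1) := by
    have h3 : ‖fderiv ℝ W z (x - z)‖ ≤ ‖fderiv ℝ W z‖ * ‖x - z‖ := (fderiv ℝ W z).le_opNorm _
    have h4 : ‖x - z‖ ≤ R + 1 := by
      have := norm_sub_le x z
      linarith
    have h5 := h.bW1 z hzb
    rw [Real.norm_eq_abs] at h3
    calc |fderiv ℝ W z (x - z)| ≤ ‖fderiv ℝ W z‖ * ‖x - z‖ := h3
      _ ≤ M * (R + 1) := mul_le_mul h5 h4 (norm_nonneg _) hM
  have h6 : |fderiv ℝ V z u| ≤ M * M' := by
    have h3 : ‖fderiv ℝ V z u‖ ≤ ‖fderiv ℝ V z‖ * ‖u‖ := (fderiv ℝ V z).le_opNorm _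
    have h5 := h.b1 z hzb
    rw [Real.norm_eq_abs] at h3
    calc |fderiv ℝ V z u| ≤ ‖fderiv ℝ V z‖ * ‖u‖ := h3
      _ ≤ M * M' := mul_le_mul h5 hu (norm_nonneg _) hM
  unfold ell
  have h7 := abs_add_le (W z + fderiv ℝ W z (x - z)) (fderiv ℝ V z u)
  have h8 := abs_add_le (W z) (fderiv ℝ W z (x - z))
  linarith

/- Task S6 (file Pexp.lean) -/
theorem Psi_exp (hn : 0 < n) {V : ℝ → E n → ℝ} {T lam : ℝ} (h : Flow n V T lam) (R M' b : ℝ)
    (hb : 1 ≤ b) :
    ∃ C > 0, ∃ d0 > 0, ∀ t ∈ Icc (0 : ℝ) T, ∀ d ∈ Icc (0 : ℝ) d0, ∀ x : E n, ‖x‖ ≤ R →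
      ∀ u : E n, ‖u‖ ≤ M' →
      Psi b (V (t + d)) (x + d • u) ≤ Psi b (V t) x
        + d * (∫ z, ell (vd V t) z x ∂(gib b (V t) x) + inner ℝ (pb b (V t) x) u)
        + C * d ^ 2 := by
  obtain ⟨M, hM⟩ := h.pt
  obtain ⟨C, hC, hexp⟩ := ell_exp h R M'
  set A : ℝ := |M| + |M * (R + 1)| + |M * M'| + 1 with hA
  have hA1 : 1 ≤ A := by
    have := abs_nonneg M
    have := abs_nonneg (M * (R + 1))
    have := abs_nonneg (M * M')
    linarith
  have hb0 : 0 < b := by linarith
  have hbA : 0 < b * A := by positivity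
  refine ⟨C + b * A ^ 2, by positivity, min 1 (1 / (b * A)), by positivity, ?_⟩
  intro t ht d hd x hx u hu
  have hPt := hM t ht
  have hd0 : 0 ≤ d := hd.1
  have hd1 : d ≤ 1 := le_trans hd.2 (min_le_left _ _)
  have hdA : b * d * A ≤ 1 := by
    have h1 : d ≤ 1 / (b * A) := le_trans hd.2 (min_le_right _ _)
    rw [le_div_iff₀ hbA] at h1
    nlinarith
  -- the linear term
  set a : E n → ℝ := fun z => ell (vd V t) z x + fderiv ℝ (V t) z u with ha
  have hVt := s6_smooth h t
  have hVd := s6_smooth h (t + d)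
  have hca : Continuous a := by
    have h1 : Continuous (fun z : E n => ell (vd V t) z x) :=
      (cont_ell hPt.hW).comp (continuous_id.prodMk continuous_const)
    have h2 : Continuous (fderiv ℝ (V t)) := hVt.continuous_fderiv (by simp)
    exact h1.add (h2.clm_apply continuous_const)
  have hae : ∀ z ∈ sphere (0 : E n) 1, |a z| ≤ A := by
    intro z hz
    have h1 := s6_bound hPt hz hx hu
    have h2 := le_abs_self M
    have h3 := le_abs_self (M * (R + 1))
    have h4 := le_abs_self (M * M')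
    simp only [ha]
    linarith
  have hprob := gib_prob hn hVt b x
  have hZ := Zf_pos hn hVt b x
  have hZ' := Zf_pos hn hVd b (x + d • u)
  -- expectation of the exponential
  have hcl : Continuous (fun z : E n => ell (V t) z x) :=
    (cont_ell hVt).comp (continuous_id.prodMk continuous_const)
  have hcl' : Continuous (fun z : E n => ell (V (t + d)) z (x + d • u)) :=
    (cont_ell hVd).comp (continuous_id.prodMk continuous_const)
  have hE : ∫ z, Real.exp (b * d * a z) ∂(gib b (V t) x)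
      ≤ 1 + b * d * ∫ z, a z ∂(gib b (V t) x) + (b * d * A) ^ 2 := by
    have h1 : ∫ z, Real.exp (b * d * a z) ∂(gib b (V t) x)
        ≤ ∫ z, (1 + b * d * a z + (b * d * A) ^ 2) ∂(gib b (V t) x) := by
      apply integral_mono_ae
      · exact gib_int hVt b x (by fun_prop)
      · exact gib_int hVt b x (by fun_prop)
      · filter_upwards [gib_ae hn hVt b x] with z hz
        have h2 := hae z hz
        have h3 : |b * d * a z| ≤ b * d * A := by
          rw [abs_mul, abs_of_nonneg (by positivity : 0 ≤ b * d)]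
          exact mul_le_mul_of_nonneg_left h2 (by positivity)
        have h4 := s6_exp (le_trans h3 hdA)
        have h5 : (b * d * a z) ^ 2 ≤ (b * d * A) ^ 2 := by
          apply sq_le_sq.mpr
          rw [abs_of_nonneg (by positivity : 0 ≤ b * d * A)]
          exact h3
        linarith
    have h6 : ∫ z, (1 + b * d * a z + (b * d * A) ^ 2) ∂(gib b (V t) x)
        = 1 + b * d * ∫ z, a z ∂(gib b (V t) x) + (b * d * A) ^ 2 := by
      have i1 : Integrable (fun z => b * d * a z) (gib b (V t) x) :=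
        gib_int hVt b x (by fun_prop)
      have i0 : Integrable (fun z : E n => (1 : ℝ)) (gib b (V t) x) := integrable_const _
      have i2 : Integrable (fun z : E n => (b * d * A) ^ 2) (gib b (V t) x) := integrable_const _
      have i3 : Integrable (fun z => 1 + b * d * a z) (gib b (V t) x) := i0.add i1
      rw [integral_add i3 i2, integral_add i0 i1, integral_const_mul]
      simp
    linarith
  -- comparison of partition functions
  have hZZ : Zf b (V (t + d)) (x + d • u)
      ≤ Real.exp (b * (C * d ^ 2)) * (Zf b (V t) x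
        * ∫ z, Real.exp (b * d * a z) ∂(gib b (V t) x)) := by
    have h1 : Zf b (V t) x * ∫ z, Real.exp (b * d * a z) ∂(gib b (V t) x)
        = ∫ z, Real.exp (b * d * a z) * Real.exp (b * ell (V t) z x) ∂(rho n) := by
      rw [gib_eq]
      field_simp
    rw [h1, ← integral_const_mul]
    unfold Zf
    apply integral_mono_ae
    · exact rho_int (by fun_prop)
    · exact rho_int (by fun_prop)
    · filter_upwards [rho_ae hn] with z hz
      rw [← Real.exp_add, ← Real.exp_add]
      apply Real.exp_le_exp.mpr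
      have h2 := hexp t ht d ⟨hd0, hd1⟩ z hz x hx u hu
      have h3 := (abs_le.mp h2).2
      have h4 : ell (V (t + d)) z (x + d • u) ≤ C * d ^ 2 + d * a z + ell (V t) z x := by
        simp only [ha]
        linarith
      have h5 := mul_le_mul_of_nonneg_left h4 hb0.le
      linarith
  -- logarithms
  have hEpos : 0 < ∫ z, Real.exp (b * d * a z) ∂(gib b (V t) x) := by
    have h1 : 0 < Real.exp (b * (C * d ^ 2)) * (Zf b (V t) x
        * ∫ z, Real.exp (b * d * a z) ∂(gib b (V t) x)) := lt_of_lt_of_le hZ' hZZ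
    have h2 : 0 < Zf b (V t) x * ∫ z, Real.exp (b * d * a z) ∂(gib b (V t) x) :=
      (mul_pos_iff_of_pos_left (Real.exp_pos _)).mp h1
    exact (mul_pos_iff_of_pos_left hZ).mp h2
  have hlog : Real.log (Zf b (V (t + d)) (x + d • u)) ≤ b * (C * d ^ 2)
      + (Real.log (Zf b (V t) x) + (b * d * ∫ z, a z ∂(gib b (V t) x) + (b * d * A) ^ 2)) := by
    have h1 := Real.log_le_log hZ' hZZ
    rw [Real.log_mul (Real.exp_pos _).ne' (mul_pos hZ hEpos).ne', Real.log_exp,
      Real.log_mul hZ.ne' hEpos.ne'] at h1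
    have h2 := Real.log_le_sub_one_of_pos hEpos
    linarith
  -- the mean of a
  have hmean : ∫ z, a z ∂(gib b (V t) x)
      = ∫ z, ell (vd V t) z x ∂(gib b (V t) x) + inner ℝ (pb b (V t) x) u := by
    rw [inner_pb hn hVt b x u, ← integral_add]
    · exact gib_int hVt b x ((cont_ell hPt.hW).comp (continuous_id.prodMk continuous_const))
    · exact gib_int hVt b x ((hVt.continuous_fderiv (by simp)).clm_apply continuous_const)
  unfold Psi
  rw [← hmean]
  have h3 := mul_le_mul_of_nonneg_left hlog (by positivity : 0 ≤ 1 / b)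
  have h4 : 1 / b * (b * (C * d ^ 2)
      + (Real.log (Zf b (V t) x) + (b * d * ∫ z, a z ∂(gib b (V t) x) + (b * d * A) ^ 2)))
      = 1 / b * Real.log (Zf b (V t) x) + d * ∫ z, a z ∂(gib b (V t) x)
        + (C + b * A ^ 2) * d ^ 2 := by
    field_simp
    ring
  linarith

end Pool.Agent.H21.CE
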