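import Pool.Agent.H21.CE.Det
import Pool.Agent.H21.CE.Dpb
import Pool.Agent.H21.CE.Pexp
import Pool.Agent.H21.CE.Gcont

/-!
# One step outside the ball
-/

open MeasureTheory Set Filter Topology Metric
open scoped ContDiff

namespace Pool.Agent.H21.CE

variable {n : ℕ}

private lemma s7_pbx (hn : 0 < n) {V W : E n → ℝ} {lam M : ℝ} (h : Pt n V W lam M) {b : ℝ}
    (hb : 0 < b) (x : E n) : 0 ≤ inner ℝ x (pb b V x) := by
  have h0 : pb b V 0 = 0 := by
    have h1 := pb_neg h.hV h.even b 0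
    rw [neg_zero] at h1
    have h2 : (2 : ℝ) • pb b V 0 = 0 := by
      rw [two_smul]
      nth_rewrite 1 [h1]
      exact neg_add_cancel _
    exact (smul_eq_zero.mp h2).resolve_left two_ne_zero
  have h1 := Psi_convex hn h.hV hb x 0
  have h2 := Psi_convex hn h.hV hb 0 x
  rw [h0, inner_zero_left] at h2
  rw [zero_sub, inner_neg_right, real_inner_comm] at h1
  linarith

private lemma s7_unorm (hn : 0 < n) {V W : E n → ℝ} {lam M : ℝ} (h : Pt n V W lam M) (b : ℝ)
    {R : ℝ} {x : E n} (hx : ‖x‖ ≤ R) : ‖uout b V x‖ ≤ M * (1 + R ^ 2) := by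
  have hp := pb_norm hn h b x
  have hM : 0 ≤ M := le_trans (norm_nonneg _) hp
  have h1 : |inner ℝ x (pb b V x)| ≤ R * M :=
    le_trans (abs_real_inner_le_norm _ _) (mul_le_mul hx hp (norm_nonneg _)
      (le_trans (norm_nonneg _) hx))
  have hR : 0 ≤ R := le_trans (norm_nonneg _) hx
  calc ‖uout b V x‖ ≤ ‖pb b V x‖ + ‖(inner ℝ x (pb b V x)) • x‖ := norm_sub_le _ _
    _ ≤ M + (R * M) * R := by
        rw [norm_smul, Real.norm_eq_abs]
        exact add_le_add hp (mul_le_mul h1 hx (norm_nonneg _) (by positivity))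
    _ = M * (1 + R ^ 2) := by ring

private lemma s7_inner (b : ℝ) (V : E n → ℝ) (x : E n) :
    inner ℝ x (uout b V x) = inner ℝ x (pb b V x) * (1 - ‖x‖ ^ 2) := by
  rw [uout, inner_sub_right, inner_smul_right, real_inner_self_eq_norm_sq]
  ring

private lemma s7_inner2 (b : ℝ) (V : E n → ℝ) (x : E n) :
    inner ℝ (pb b V x) (uout b V x) = ‖pb b V x‖ ^ 2 - (inner ℝ x (pb b V x)) ^ 2 := by
  rw [uout, inner_sub_right, inner_smul_right, real_inner_self_eq_norm_sq,
    real_inner_comm x (pb b V x)]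
  ring

private lemma s7_nsq (b : ℝ) (V : E n → ℝ) (x : E n) (d : ℝ) :
    ‖x + d • uout b V x‖ ^ 2 = ‖x‖ ^ 2 + 2 * d * (inner ℝ x (pb b V x) * (1 - ‖x‖ ^ 2))
      + d ^ 2 * ‖uout b V x‖ ^ 2 := by
  rw [norm_add_sq_real, inner_smul_right, s7_inner, norm_smul, mul_pow, Real.norm_eq_abs, sq_abs]
  ring

private lemma s7_ell {V W : E n → ℝ} {lam M : ℝ} (h : Pt n V W lam M) {R : ℝ} {x z : E n}
    (hx : ‖x‖ ≤ R) (hz : z ∈ sphere (0 : E n) 1) :
    |ell V z x| ≤ M * (R + 2) ∧ |ell W z x| ≤ M * (R + 2) := by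
  have hz1 : ‖z‖ = 1 := by simpa using hz
  have hzb : z ∈ closedBall (0 : E n) 1 := sphere_subset_closedBall hz
  have hxz : ‖x - z‖ ≤ R + 1 := by
    calc ‖x - z‖ ≤ ‖x‖ + ‖z‖ := norm_sub_le _ _
      _ ≤ R + 1 := by rw [hz1]; linarith
  have hM : 0 ≤ M := le_trans zero_le_one h.one_le
  constructor
  · have h1 : |fderiv ℝ V z (x - z)| ≤ M * (R + 1) := by
      rw [← Real.norm_eq_abs]
      exact le_trans (ContinuousLinearMap.le_opNorm _ _)
        (mul_le_mul (h.b1 z hzb) hxz (norm_nonneg _) hM)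
    calc |ell V z x| ≤ |V z| + |fderiv ℝ V z (x - z)| := abs_add_le _ _
      _ ≤ M + M * (R + 1) := add_le_add (h.bV z hzb) h1
      _ = M * (R + 2) := by ring
  · have h1 : |fderiv ℝ W z (x - z)| ≤ M * (R + 1) := by
      rw [← Real.norm_eq_abs]
      exact le_trans (ContinuousLinearMap.le_opNorm _ _)
        (mul_le_mul (h.bW1 z hzb) hxz (norm_nonneg _) hM)
    calc |ell W z x| ≤ |W z| + |fderiv ℝ W z (x - z)| := abs_add_le _ _
      _ ≤ M + M * (R + 1) := add_le_add (h.bW z hzb) h1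
      _ = M * (R + 2) := by ring

private lemma s7_W (hn : 0 < n) {V W : E n → ℝ} {lam M : ℝ} (h : Pt n V W lam M) (b : ℝ)
    {R : ℝ} {x : E n} (hx : ‖x‖ ≤ R) : |∫ z, ell W z x ∂(gib b V x)| ≤ M * (R + 2) := by
  have := gib_prob hn h.hV b x
  have h1 : ∀ᵐ z ∂(gib b V x), ‖ell W z x‖ ≤ M * (R + 2) := by
    filter_upwards [gib_ae hn h.hV b x] with z hz
    rw [Real.norm_eq_abs]
    exact (s7_ell h hx hz).2
  have h2 := norm_integral_le_of_norm_le_const h1
  simpa using h2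

private lemma s7_low (hn : 0 < n) (lam M R : ℝ) {b : ℝ} (hb : 0 < b) : ∃ C > 0,
    ∀ V W : E n → ℝ, Pt n V W lam M → ∀ x : E n, ‖x‖ ≤ R → Real.exp (-Psi b V x) ≤ C := by
  refine ⟨Real.exp (M * (R + 2) - 1 / b * Real.log ((rho n).real univ)), Real.exp_pos _, ?_⟩
  intro V W h x hx
  apply Real.exp_le_exp.mpr
  have hr := rho_pos hn
  have h1 : Real.exp (-(b * (M * (R + 2)))) * (rho n).real univ ≤ Zf b V x := by
    have h2 : ∫ z, Real.exp (-(b * (M * (R + 2)))) ∂(rho n) ≤ Zf b V x := by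
      apply integral_mono_ae (integrable_const _)
      · apply rho_int
        have h3 : Continuous (fun z : E n => ell V z x) :=
          (cont_ell h.hV).comp (continuous_id.prodMk continuous_const)
        exact Real.continuous_exp.comp (continuous_const.mul h3)
      · filter_upwards [rho_ae hn] with z hz
        apply Real.exp_le_exp.mpr
        have h4 := (s7_ell h hx hz).1
        have h5 := (abs_le.mp h4).1
        nlinarith
    rw [integral_const, smul_eq_mul, mul_comm] at h2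
    exact h2
  have h2 : Real.log (Real.exp (-(b * (M * (R + 2)))) * (rho n).real univ)
      ≤ Real.log (Zf b V x) := Real.log_le_log (mul_pos (Real.exp_pos _) hr) h1
  rw [Real.log_mul (Real.exp_pos _).ne' hr.ne', Real.log_exp] at h2
  unfold Psi
  have h3 : 1 / b * (-(b * (M * (R + 2))) + Real.log ((rho n).real univ))
      ≤ 1 / b * Real.log (Zf b V x) := mul_le_mul_of_nonneg_left h2 (by positivity)
  have h4 : 1 / b * (-(b * (M * (R + 2))) + Real.log ((rho n).real univ))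
      = -(M * (R + 2)) + 1 / b * Real.log ((rho n).real univ) := by
    field_simp
  linarith

private lemma s7_trace (A : E n →L[ℝ] E n) {L : ℝ} (hA : ‖A‖ ≤ L) :
    |LinearMap.trace ℝ (E n) (A : E n →ₗ[ℝ] E n)| ≤ n * L := by
  rw [LinearMap.trace_eq_sum_inner _ (EuclideanSpace.basisFun (Fin n) ℝ)]
  refine le_trans (Finset.abs_sum_le_sum_abs _ _) ?_
  have h1 : ∀ i ∈ (Finset.univ : Finset (Fin n)),
      |inner ℝ ((EuclideanSpace.basisFun (Fin n) ℝ) i)
        ((A : E n →ₗ[ℝ] E n) ((EuclideanSpace.basisFun (Fin n) ℝ) i))| ≤ L := by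
    intro i _
    refine le_trans (abs_real_inner_le_norm _ _) ?_
    have h2 : ‖(EuclideanSpace.basisFun (Fin n) ℝ) i‖ = 1 := OrthonormalBasis.norm_eq_one _ i
    rw [h2, one_mul]
    calc ‖(A : E n →ₗ[ℝ] E n) ((EuclideanSpace.basisFun (Fin n) ℝ) i)‖
        = ‖A ((EuclideanSpace.basisFun (Fin n) ℝ) i)‖ := rfl
      _ ≤ ‖A‖ * ‖(EuclideanSpace.basisFun (Fin n) ℝ) i‖ := ContinuousLinearMap.le_opNorm _ _
      _ ≤ L := by rw [h2, mul_one]; exact hA
  refine le_trans (Finset.sum_le_sum h1) ?_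
  simp

private lemma s7_arith {a β p D E' w C0 C1 C2 Tb Bb d : ℝ} (ha : |a| ≤ Tb) (hβ : |β| ≤ Bb)
    (hC1 : 0 < C1) (hC2 : 0 < C2) (hw : 0 < w) (hw0 : w ≤ C0) (hd : 0 < d) (hd1 : d ≤ 1)
    (hdT : d * (Tb + C1) ≤ 1) (hp : p = 1 + d * a - C1 * d ^ 2) (hD : p ≤ D)
    (hE : w * (1 - (d * β + C2 * d ^ 2)) ≤ E') (hE0 : 0 ≤ E') :
    w * (1 + d * (a - β)) - C0 * (C1 + C2 + (Tb + C1) * (Bb + C2)) * d ^ 2 ≤ D * E' := by
  have ha' := abs_le.mp ha
  have hb' := abs_le.mp hβ
  have hT : 0 ≤ Tb := le_trans (abs_nonneg _) ha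
  have hB : 0 ≤ Bb := le_trans (abs_nonneg _) hβ
  have hp0 : 0 ≤ p := by
    rw [hp]
    have h1 : C1 * d ^ 2 ≤ C1 * d := by
      apply mul_le_mul_of_nonneg_left _ hC1.le
      nlinarith
    nlinarith
  have h1 : p * (w * (1 - (d * β + C2 * d ^ 2))) ≤ D * E' := by
    calc p * (w * (1 - (d * β + C2 * d ^ 2))) ≤ p * E' := mul_le_mul_of_nonneg_left hE hp0
      _ ≤ D * E' := mul_le_mul_of_nonneg_right hD hE0
  have h2 : (d * a - C1 * d ^ 2) * (d * β + C2 * d ^ 2) ≤ (Tb + C1) * (Bb + C2) * d ^ 2 := by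
    have h3 : |d * a - C1 * d ^ 2| ≤ (Tb + C1) * d := by
      have h4 : C1 * d ^ 2 ≤ C1 * d := by
        apply mul_le_mul_of_nonneg_left _ hC1.le
        nlinarith
      have h5 : 0 ≤ C1 * d ^ 2 := by positivity
      rw [abs_le]
      constructor <;> nlinarith
    have h6 : |d * β + C2 * d ^ 2| ≤ (Bb + C2) * d := by
      have h4 : C2 * d ^ 2 ≤ C2 * d := by
        apply mul_le_mul_of_nonneg_left _ hC2.le
        nlinarith
      have h5 : 0 ≤ C2 * d ^ 2 := by positivity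
      rw [abs_le]
      constructor <;> nlinarith
    calc (d * a - C1 * d ^ 2) * (d * β + C2 * d ^ 2)
        ≤ |(d * a - C1 * d ^ 2) * (d * β + C2 * d ^ 2)| := le_abs_self _
      _ = |d * a - C1 * d ^ 2| * |d * β + C2 * d ^ 2| := abs_mul _ _
      _ ≤ ((Tb + C1) * d) * ((Bb + C2) * d) :=
          mul_le_mul h3 h6 (abs_nonneg _) (by positivity)
      _ = (Tb + C1) * (Bb + C2) * d ^ 2 := by ring
  have h3 : p * (w * (1 - (d * β + C2 * d ^ 2)))
      = w * (1 + d * (a - β)) - w * ((C1 + C2) * d ^ 2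
        + (d * a - C1 * d ^ 2) * (d * β + C2 * d ^ 2)) := by
    rw [hp]; ring
  have h4 : w * ((C1 + C2) * d ^ 2 + (d * a - C1 * d ^ 2) * (d * β + C2 * d ^ 2))
      ≤ w * ((C1 + C2 + (Tb + C1) * (Bb + C2)) * d ^ 2) := by
    apply mul_le_mul_of_nonneg_left _ hw.le
    nlinarith
  have h5 : w * ((C1 + C2 + (Tb + C1) * (Bb + C2)) * d ^ 2)
      ≤ C0 * ((C1 + C2 + (Tb + C1) * (Bb + C2)) * d ^ 2) :=
    mul_le_mul_of_nonneg_right hw0 (by positivity)
  nlinarith

theorem outer_step (hn : 0 < n) {V : ℝ → E n → ℝ} {T lam : ℝ} (h : Flow n V T lam)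
    (R b : ℝ) (hR : 1 ≤ R) (hb : 1 ≤ b) :
    ∃ C > 0, ∃ d0 > 0, ∀ t ∈ Icc (0 : ℝ) T, ∀ d ∈ Ioo (0 : ℝ) d0, 
      (InjOn (fun x => x + d • uout b (V t) x) (closedBall (0 : E n) R)) ∧
      (MapsTo (fun x => x + d • uout b (V t) x) (closedBall (0 : E n) R \ closedBall (0 : E n) 1)
        (closedBall (0 : E n) 1)ᶜ) ∧
      (∀ x ∈ closedBall (0 : E n) R, 1 ≤ ‖x‖ →
        ‖x + d • uout b (V t) x‖ ^ 2 ≤ R ^ 2 + C * d ^ 2) ∧
      ∀ K ⊆ closedBall (0 : E n) R \ closedBall (0 : E n) 1, MeasurableSet K →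
        MeasurableSet ((fun x => x + d • uout b (V t) x) '' K) ∧
        ∫ x in K, Real.exp (-Psi b (V t) x) * (1 + d * gfun b (V t) (vd V t) x) - C * d ^ 2 ≤
          ∫ x in (fun x => x + d • uout b (V t) x) '' K, Real.exp (-Psi b (V (t + d)) x) := by
  have hb0 : 0 < b := lt_of_lt_of_le zero_lt_one hb
  obtain ⟨M, hM⟩ := h.pt
  obtain ⟨L, hL, hLb⟩ := uout_deriv_bound hn lam M R b
  obtain ⟨C1, hC1, hdet⟩ := det_lower n L
  obtain ⟨C2, hC2, e0, he0, hPsi⟩ := Psi_exp hn h R (M * (1 + R ^ 2)) b hb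
  obtain ⟨C0, hC0, hlow⟩ := s7_low hn lam M R hb0
  have hVs : ∀ s, ContDiff ℝ ∞ (V s) := fun s =>
    h.smooth.comp (contDiff_const.prodMk contDiff_id)
  rcases lt_or_ge T 0 with hT | hT
  · refine ⟨1, one_pos, 1, one_pos, ?_⟩
    intro t ht
    exact absurd (le_trans ht.1 ht.2) (not_le.mpr hT)
  have hM1 : 1 ≤ M := (hM 0 ⟨le_refl _, hT⟩).one_le
  have hM0 : 0 < M := lt_of_lt_of_le zero_lt_one hM1
  have hR0 : 0 < R := lt_of_lt_of_le zero_lt_one hR
  set Tb : ℝ := n * L with hTb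
  set Bb : ℝ := M * (R + 2) + M * (M * (1 + R ^ 2)) with hBb
  have hTb0 : 0 ≤ Tb := by positivity
  have hBb0 : 0 < Bb := by positivity
  set Q : ℝ := C1 + C2 + (Tb + C1) * (Bb + C2) with hQ
  have hQ0 : 0 < Q := by positivity
  refine ⟨C0 * Q + (M * (1 + R ^ 2)) ^ 2, by positivity,
    min (min 1 e0) (min (1 / (L + 1)) (min (1 / (2 * (R * M) + 1)) (1 / (Tb + C1)))),
    by positivity, ?_⟩
  intro t ht d hd
  have hd0 : 0 < d := hd.1
  have hd1 : d ≤ 1 := le_trans hd.2.le (le_trans (min_le_left _ _) (min_le_left _ _))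
  have hde : d ≤ e0 := le_trans hd.2.le (le_trans (min_le_left _ _) (min_le_right _ _))
  have hdL : d * (L + 1) ≤ 1 := by
    have h1 : d ≤ 1 / (L + 1) :=
      le_trans hd.2.le (le_trans (min_le_right _ _) (min_le_left _ _))
    rwa [le_div_iff₀ (by positivity)] at h1
  have hdR : d * (2 * (R * M) + 1) ≤ 1 := by
    have h1 : d ≤ 1 / (2 * (R * M) + 1) := le_trans hd.2.le (le_trans (min_le_right _ _)
      (le_trans (min_le_right _ _) (min_le_left _ _)))
    rwa [le_div_iff₀ (by positivity)] at h1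
  have hdT : d * (Tb + C1) ≤ 1 := by
    have h1 : d ≤ 1 / (Tb + C1) := le_trans hd.2.le (le_trans (min_le_right _ _)
      (le_trans (min_le_right _ _) (min_le_right _ _)))
    rwa [le_div_iff₀ (by positivity)] at h1
  have hP : Pt n (V t) (vd V t) lam M := hM t ht
  -- derivative
  have hder : ∀ x : E n, HasFDerivAt (uout b (V t)) (fderiv ℝ (uout b (V t)) x) x ∧
      LinearMap.trace ℝ (E n) ((fderiv ℝ (uout b (V t)) x : E n →L[ℝ] E n) : E n →ₗ[ℝ] E n)
        = Tg b (V t) x - ((n : ℝ) + 1) * inner ℝ x (pb b (V t) x) := by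
    intro x
    obtain ⟨A, hA, htr⟩ := uout_deriv hn hP.hV b x
    have h1 : fderiv ℝ (uout b (V t)) x = A := hA.fderiv
    rw [h1]
    exact ⟨hA, htr⟩
  have hF' : ∀ x : E n, HasFDerivAt (fun x => x + d • uout b (V t) x)
      (ContinuousLinearMap.id ℝ (E n) + d • fderiv ℝ (uout b (V t)) x) x := by
    intro x
    exact (hasFDerivAt_id x).add ((hder x).1.const_smul d)
  have hcont : Continuous (fun x => x + d • uout b (V t) x) :=
    continuous_iff_continuousAt.mpr (fun x => (hF' x).continuousAt)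
  have hinj : InjOn (fun x => x + d • uout b (V t) x) (closedBall (0 : E n) R) := by
    intro x hx y hy hxy
    have h1 : ‖uout b (V t) y - uout b (V t) x‖ ≤ L * ‖y - x‖ := by
      apply (convex_closedBall (0 : E n) R).norm_image_sub_le_of_norm_hasFDerivWithin_le
        (f' := fun x => fderiv ℝ (uout b (V t)) x) _ _ hx hy
      · intro z hz
        exact (hder z).1.hasFDerivWithinAt
      · intro z hz
        exact hLb _ _ hP z (by simpa using hz)
    have h2 : y - x = -(d • (uout b (V t) y - uout b (V t) x)) := by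
      have h3 : x + d • uout b (V t) x = y + d • uout b (V t) y := hxy
      rw [smul_sub]
      have h4 : y - x = d • uout b (V t) x - d • uout b (V t) y := by
        rw [sub_eq_sub_iff_add_eq_add, add_comm (d • uout b (V t) x) x, h3]
      rw [h4]; abel
    have h3 : ‖y - x‖ ≤ d * (L * ‖y - x‖) := by
      calc ‖y - x‖ = d * ‖uout b (V t) y - uout b (V t) x‖ := by
            conv_lhs => rw [h2]
            rw [norm_neg, norm_smul, Real.norm_eq_abs, abs_of_pos hd0]
        _ ≤ d * (L * ‖y - x‖) := mul_le_mul_of_nonneg_left h1 hd0.le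
    have h4 : ‖y - x‖ = 0 := by
      by_contra hne
      have h5 : 0 < ‖y - x‖ := lt_of_le_of_ne (norm_nonneg _) (Ne.symm hne)
      have h6 : d * L < 1 := by nlinarith
      nlinarith
    exact (sub_eq_zero.mp (norm_eq_zero.mp h4)).symm
  have hpr : ∀ x : E n, ‖x‖ ≤ R → inner ℝ x (pb b (V t) x) ≤ R * M := by
    intro x hx
    exact le_trans (le_trans (le_abs_self _) (abs_real_inner_le_norm _ _))
      (mul_le_mul hx (pb_norm hn hP b x) (norm_nonneg _) hR0.le)
  refine ⟨hinj, ?_, ?_, ?_⟩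
  · intro x hx
    have hx1 : ‖x‖ ≤ R := by simpa using hx.1
    have hx2 : 1 < ‖x‖ := by simpa using hx.2
    have h1 := s7_nsq b (V t) x d
    have h2 := hpr x hx1
    have h3 : 1 < ‖x + d • uout b (V t) x‖ ^ 2 := by
      rw [h1]
      have h4 : 0 < (‖x‖ ^ 2 - 1) * (1 - 2 * d * inner ℝ x (pb b (V t) x)) := by
        apply mul_pos
        · nlinarith
        · have h5 : d * inner ℝ x (pb b (V t) x) ≤ d * (R * M) :=
            mul_le_mul_of_nonneg_left h2 hd0.le
          nlinarith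
      have h5 : 0 ≤ d ^ 2 * ‖uout b (V t) x‖ ^ 2 := by positivity
      nlinarith
    have h4 : 1 < ‖x + d • uout b (V t) x‖ := by
      by_contra hc
      rw [not_lt] at hc
      have : ‖x + d • uout b (V t) x‖ ^ 2 ≤ 1 := pow_le_one₀ (norm_nonneg _) hc
      linarith
    simpa using h4
  · intro x hx hx2
    have hx1 : ‖x‖ ≤ R := by simpa using hx
    rw [s7_nsq]
    have h2 := s7_pbx hn hP hb0 x
    have h3 := s7_unorm hn hP b hx1
    have h4 : inner ℝ x (pb b (V t) x) * (1 - ‖x‖ ^ 2) ≤ 0 := by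
      apply mul_nonpos_of_nonneg_of_nonpos h2
      nlinarith
    have h5 : ‖uout b (V t) x‖ ^ 2 ≤ (M * (1 + R ^ 2)) ^ 2 :=
      pow_le_pow_left₀ (norm_nonneg _) h3 2
    have h6 : ‖x‖ ^ 2 ≤ R ^ 2 := pow_le_pow_left₀ (norm_nonneg _) hx1 2
    have h7 : d ^ 2 * ‖uout b (V t) x‖ ^ 2 ≤ d ^ 2 * (M * (1 + R ^ 2)) ^ 2 :=
      mul_le_mul_of_nonneg_left h5 (by positivity)
    have h8 : 0 ≤ C0 * Q * d ^ 2 := by positivity
    have h9 : 2 * d * (inner ℝ x (pb b (V t) x) * (1 - ‖x‖ ^ 2)) ≤ 0 :=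
      mul_nonpos_of_nonneg_of_nonpos (by positivity) h4
    have h10 : (C0 * Q + (M * (1 + R ^ 2)) ^ 2) * d ^ 2
        = C0 * Q * d ^ 2 + d ^ 2 * (M * (1 + R ^ 2)) ^ 2 := by ring
    rw [h10]
    linarith
  · intro K hK hKm
    have hKR : ∀ x ∈ K, ‖x‖ ≤ R := fun x hx => by simpa using (hK hx).1
    have hinjK : InjOn (fun x => x + d • uout b (V t) x) K :=
      hinj.mono (fun x hx => (hK hx).1)
    have hmeas : MeasurableSet ((fun x => x + d • uout b (V t) x) '' K) :=
      hKm.image_of_continuousOn_injOn hcont.continuousOn hinjK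
    refine ⟨hmeas, ?_⟩
    have hPc : Continuous (Psi b (V (t + d))) := Psi_cont hn (hVs _) b
    have hImB : (fun x => x + d • uout b (V t) x) '' K ⊆
        closedBall (0 : E n) (R + M * (1 + R ^ 2)) := by
      rintro _ ⟨x, hx, rfl⟩
      simp only [mem_closedBall, dist_zero_right]
      calc ‖x + d • uout b (V t) x‖ ≤ ‖x‖ + ‖d • uout b (V t) x‖ := norm_add_le _ _
        _ ≤ R + 1 * (M * (1 + R ^ 2)) := by
            rw [norm_smul, Real.norm_eq_abs, abs_of_pos hd0]
            exact add_le_add (hKR x hx) (mul_le_mul hd1 (s7_unorm hn hP b (hKR x hx))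
              (norm_nonneg _) zero_le_one)
        _ = R + M * (1 + R ^ 2) := by ring
    have hIm : IntegrableOn (fun y => Real.exp (-Psi b (V (t + d)) y))
        ((fun x => x + d • uout b (V t) x) '' K) := by
      apply IntegrableOn.mono_set _ hImB
      exact (Real.continuous_exp.comp hPc.neg).continuousOn.integrableOn_compact
        (isCompact_closedBall _ _)
    have hF'K : ∀ x ∈ K, HasFDerivWithinAt (fun x => x + d • uout b (V t) x)
        (ContinuousLinearMap.id ℝ (E n) + d • fderiv ℝ (uout b (V t)) x) K x :=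
      fun x _ => (hF' x).hasFDerivWithinAt
    rw [integral_image_eq_integral_abs_det_fderiv_smul volume hKm hF'K hinjK]
    have hIm2 := (integrableOn_image_iff_integrableOn_abs_det_fderiv_smul volume hKm hF'K hinjK
      (fun y => Real.exp (-Psi b (V (t + d)) y))).mp hIm
    have hpt : ∀ x ∈ K, Real.exp (-Psi b (V t) x) * (1 + d * gfun b (V t) (vd V t) x)
        - (C0 * Q + (M * (1 + R ^ 2)) ^ 2) * d ^ 2
        ≤ |(ContinuousLinearMap.id ℝ (E n) + d • fderiv ℝ (uout b (V t)) x).det| •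
          Real.exp (-Psi b (V (t + d)) (x + d • uout b (V t) x)) := by
      intro x hx
      have hxR := hKR x hx
      have hA := hLb _ _ hP x hxR
      have h1 := hdet _ hA d ⟨hd0.le, hd1⟩
      have h2 := hPsi t ht d ⟨hd0.le, hde⟩ x hxR (uout b (V t) x) (s7_unorm hn hP b hxR)
      have h3 := s7_trace _ hA
      have h4 := s7_W hn hP b hxR
      have h5 : |inner ℝ (pb b (V t) x) (uout b (V t) x)| ≤ M * (M * (1 + R ^ 2)) :=
        le_trans (abs_real_inner_le_norm _ _) (mul_le_mul (pb_norm hn hP b x)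
          (s7_unorm hn hP b hxR) (norm_nonneg _) hM0.le)
      have h6 : |(∫ z, ell (vd V t) z x ∂(gib b (V t) x))
          + inner ℝ (pb b (V t) x) (uout b (V t) x)| ≤ Bb :=
        le_trans (abs_add_le _ _) (add_le_add h4 h5)
      have hw : 0 < Real.exp (-Psi b (V t) x) := Real.exp_pos _
      have hw0 := hlow _ _ hP x hxR
      have h7 : Real.exp (-Psi b (V t) x) * (1 - (d * ((∫ z, ell (vd V t) z x ∂(gib b (V t) x))
          + inner ℝ (pb b (V t) x) (uout b (V t) x)) + C2 * d ^ 2))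
          ≤ Real.exp (-Psi b (V (t + d)) (x + d • uout b (V t) x)) := by
        have h8 : Real.exp (-Psi b (V t) x) * Real.exp (-(d * ((∫ z, ell (vd V t) z x
            ∂(gib b (V t) x)) + inner ℝ (pb b (V t) x) (uout b (V t) x)) + C2 * d ^ 2))
            ≤ Real.exp (-Psi b (V (t + d)) (x + d • uout b (V t) x)) := by
          rw [← Real.exp_add]
          apply Real.exp_le_exp.mpr
          linarith
        refine le_trans (mul_le_mul_of_nonneg_left ?_ hw.le) h8
        have h9 := Real.add_one_le_exp (-(d * ((∫ z, ell (vd V t) z x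
            ∂(gib b (V t) x)) + inner ℝ (pb b (V t) x) (uout b (V t) x)) + C2 * d ^ 2))
        linarith
      have h8 := s7_arith h3 h6 hC1 hC2 hw hw0 hd0 hd1 hdT rfl
        (le_trans h1 (le_abs_self _)) h7 (Real.exp_pos _).le
      have h9 : LinearMap.trace ℝ (E n) ((fderiv ℝ (uout b (V t)) x : E n →L[ℝ] E n) :
          E n →ₗ[ℝ] E n) - ((∫ z, ell (vd V t) z x ∂(gib b (V t) x))
          + inner ℝ (pb b (V t) x) (uout b (V t) x)) = gfun b (V t) (vd V t) x := by
        rw [(hder x).2, s7_inner2, gfun]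
        ring
      rw [h9] at h8
      rw [smul_eq_mul]
      have h10 : 0 ≤ (M * (1 + R ^ 2)) ^ 2 * d ^ 2 := by positivity
      calc _ ≤ Real.exp (-Psi b (V t) x) * (1 + d * gfun b (V t) (vd V t) x)
            - C0 * Q * d ^ 2 := by
              have h11 : (C0 * Q + (M * (1 + R ^ 2)) ^ 2) * d ^ 2
                = C0 * Q * d ^ 2 + (M * (1 + R ^ 2)) ^ 2 * d ^ 2 := by ring
              rw [h11]
              linarith
        _ ≤ _ := h8
    by_cases hI : IntegrableOn (fun x => Real.exp (-Psi b (V t) x)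
        * (1 + d * gfun b (V t) (vd V t) x)
        - (C0 * Q + (M * (1 + R ^ 2)) ^ 2) * d ^ 2) K
    · exact setIntegral_mono_on hI hIm2 hKm hpt
    · rw [integral_undef hI]
      apply integral_nonneg
      intro x
      positivity

end Pool.Agent.H21.CE
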