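import Pool.Agent.H21.CE.Defs

set_option linter.unusedVariables false

open MeasureTheory Set Filter Topology Metric
open scoped ContDiff

namespace Pool.Agent.H21.CE

variable {n : ℕ}

theorem rel_step {R M : ℝ} (hR : 0 ≤ R) (hM : 0 ≤ M) {x y p q : E n} (hx : ‖x‖ ≤ R)
    (hy : ‖y‖ ≤ R) (hp : ‖p‖ ≤ M) (hq : ‖q‖ ≤ M) (hxy : inner ℝ x y ≤ (1 : ℝ)) {e d : ℝ}
    (hm : -e ≤ inner ℝ (p - q) (x - y)) (hd : 0 ≤ d) (hd1 : d * (2 * R * M) ≤ 1) :
    inner ℝ (x + d • (p - (inner ℝ x p) • x)) (y + d • (q - (inner ℝ y q) • y))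
      ≤ 1 + d * e + d ^ 2 * (M * (1 + R ^ 2)) ^ 2 := by
  have hxp : inner ℝ x p ≤ R * M := (real_inner_le_norm x p).trans (by gcongr)
  have hyq : inner ℝ y q ≤ R * M := (real_inner_le_norm y q).trans (by gcongr)
  have hb : ∀ {x p : E n}, ‖x‖ ≤ R → ‖p‖ ≤ M → ‖p - (inner ℝ x p) • x‖ ≤ M * (1 + R ^ 2) := by
    intro x p hx hp
    have h1 : |inner ℝ x p| ≤ R * M := (abs_real_inner_le_norm x p).trans (by gcongr)
    calc ‖p - (inner ℝ x p) • x‖ ≤ ‖p‖ + ‖(inner ℝ x p) • x‖ := norm_sub_le _ _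
      _ = ‖p‖ + |inner ℝ x p| * ‖x‖ := by rw [norm_smul, Real.norm_eq_abs]
      _ ≤ M + (R * M) * R := by gcongr
      _ = M * (1 + R ^ 2) := by ring
  have hUU : inner ℝ (p - (inner ℝ x p) • x) (q - (inner ℝ y q) • y) ≤ (M * (1 + R ^ 2)) ^ 2 := by
    refine (real_inner_le_norm _ _).trans ?_
    rw [sq]
    have h1 := hb hx hp
    have h2 := hb hy hq
    have h0 : 0 ≤ M * (1 + R ^ 2) := by positivity
    exact mul_le_mul h1 h2 (norm_nonneg _) h0
  have key : inner ℝ (x + d • (p - (inner ℝ x p) • x)) (y + d • (q - (inner ℝ y q) • y))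
      = inner ℝ x y + d * (-(inner ℝ (p - q) (x - y)) + (1 - inner ℝ x y) *
          (inner ℝ x p + inner ℝ y q))
        + d ^ 2 * inner ℝ (p - (inner ℝ x p) • x) (q - (inner ℝ y q) • y) := by
    simp only [inner_add_left, inner_add_right, inner_sub_left, inner_sub_right, inner_smul_left,
      inner_smul_right, RCLike.conj_to_real]
    rw [real_inner_comm x p, real_inner_comm y q, real_inner_comm y p, real_inner_comm x q]
    ring
  rw [key]
  have h1 : 0 ≤ 1 - inner ℝ x y := by linarith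
  have h2 : d * ((1 - inner ℝ x y) * (inner ℝ x p + inner ℝ y q)) ≤ 1 - inner ℝ x y := by
    have h3 : d * (inner ℝ x p + inner ℝ y q) ≤ 1 := by
      refine le_trans ?_ hd1
      have : inner ℝ x p + inner ℝ y q ≤ 2 * R * M := by linarith
      exact mul_le_mul_of_nonneg_left this hd
    calc d * ((1 - inner ℝ x y) * (inner ℝ x p + inner ℝ y q))
        = (1 - inner ℝ x y) * (d * (inner ℝ x p + inner ℝ y q)) := by ring
      _ ≤ (1 - inner ℝ x y) * 1 := mul_le_mul_of_nonneg_left h3 h1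
      _ = _ := by ring
  have h4 : d * (-(inner ℝ (p - q) (x - y))) ≤ d * e := mul_le_mul_of_nonneg_left (by linarith) hd
  have h5 : d ^ 2 * inner ℝ (p - (inner ℝ x p) • x) (q - (inner ℝ y q) • y) ≤
      d ^ 2 * (M * (1 + R ^ 2)) ^ 2 := mul_le_mul_of_nonneg_left hUU (by positivity)
  rw [mul_add]
  linarith

end Pool.Agent.H21.CE
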