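import Pool.Agent.H21.CE.FlowB
import Pool.Agent.H21.CE.Gcont
import Pool.Agent.H21.CE.Inn
import Pool.Agent.H21.CE.Mon
import Pool.Agent.H21.CE.Outs
import Pool.Agent.H21.CE.PsiB
import Pool.Agent.H21.CE.Rel
import Pool.Agent.H21.CE.VSm

/-!
# One step of the flow of pairs
-/

open MeasureTheory Set Filter Topology Metric
open scoped ContDiff Pointwise

namespace Pool.Agent.H21.CE

variable {n : ℕ}

/-- the step map -/
noncomputable def s8_G (b d : ℝ) (V : E n → ℝ) (x : E n) : E n :=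
  x + d • (qf b V x - (inner ℝ x (qf b V x)) • x)

/-- the set kept by the step -/
def s8_D (r : ℝ) (K : Set (E n)) : Set (E n) :=
  (K ∩ closedBall 0 (1 - r)) ∪ (K \ closedBall 0 1)

lemma s8_G_in {b d : ℝ} {V : E n → ℝ} {x : E n} (hx : ‖x‖ ≤ 1) :
    s8_G b d V x = x + d • uin V x := by
  simp only [s8_G, qf, if_pos hx, uin, grad_inner]

lemma s8_G_out {b d : ℝ} {V : E n → ℝ} {x : E n} (hx : ¬ ‖x‖ ≤ 1) :
    s8_G b d V x = x + d • uout b V x := by
  simp only [s8_G, qf, if_neg hx, uout]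

lemma s8_G_neg {V : E n → ℝ} (hV : ContDiff ℝ ∞ V) (he : ∀ x, V (-x) = V x) (b d : ℝ) (x : E n) :
    s8_G b d V (-x) = -s8_G b d V x := by
  simp only [s8_G, qf_neg hV he, inner_neg_neg]
  module

lemma s8_wt_int (hn : 0 < n) {V : E n → ℝ} (hV : ContDiff ℝ ∞ V) (b s r : ℝ) :
    IntegrableOn (wt b s V) (closedBall (0 : E n) r) := by
  classical
  have h1 : Continuous (fun x => Real.exp (-V x)) := Real.continuous_exp.comp hV.continuous.neg
  have h2 : Continuous (fun x => Real.exp (-(Psi b V x + s))) :=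
    Real.continuous_exp.comp ((Psi_cont hn hV b).add continuous_const).neg
  have e : wt b s V = (closedBall (0 : E n) 1).piecewise (fun x => Real.exp (-V x))
      (fun x => Real.exp (-(Psi b V x + s))) := by
    funext x
    by_cases hx : ‖x‖ ≤ 1
    · simp [wt, hx, Set.piecewise]
    · simp [wt, hx, Set.piecewise]
  rw [e]
  have i1 : IntegrableOn (fun x => Real.exp (-V x)) (closedBall (0 : E n) r) :=
    h1.continuousOn.integrableOn_compact (isCompact_closedBall _ _)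
  have i2 : IntegrableOn (fun x => Real.exp (-(Psi b V x + s))) (closedBall (0 : E n) r) :=
    h2.continuousOn.integrableOn_compact (isCompact_closedBall _ _)
  exact Integrable.piecewise measurableSet_closedBall (Integrable.integrableOn i1)
    (Integrable.integrableOn i2)

lemma s8_wt_nonneg (b s : ℝ) (V : E n → ℝ) (x : E n) : 0 ≤ wt b s V x := by
  unfold wt
  split_ifs <;> positivity

lemma s8_log {b : ℝ} (hb : 1 ≤ b) : 0 ≤ (1 + Real.log b) / b ∧ (1 + Real.log b) / b ≤ 1 := by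
  have h0 : 0 ≤ Real.log b := Real.log_nonneg hb
  have h1 : Real.log b ≤ b - 1 := Real.log_le_sub_one_of_pos (by linarith)
  constructor
  · positivity
  · rw [div_le_one (by linarith)]
    linarith

lemma s8_wt_le {V W : E n → ℝ} {lam M R Cl b s : ℝ} (h : Pt n V W lam M)
    (hCl : ∀ x : E n, ‖x‖ ≤ R → VS V x - Cl * (1 + Real.log b) / b ≤ Psi b V x)
    (hs : Cl * (1 + Real.log b) / b ≤ s) {x : E n} (hx : ‖x‖ ≤ R) :
    wt b s V x ≤ Real.exp M := by
  unfold wt
  split_ifs with h1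
  · rw [Real.exp_le_exp]
    have := h.bV x (by simpa using h1)
    rw [abs_le] at this
    linarith
  · rw [Real.exp_le_exp]
    have h2 := hCl x hx
    have h3 : V (‖x‖⁻¹ • x) ≤ VS V x := V_le_VS h (by linarith)
    have h4 : (‖x‖⁻¹ • x) ∈ closedBall (0 : E n) 1 := by
      have : ‖x‖ ≠ 0 := by
        intro h5
        rw [h5] at h1
        exact h1 (by norm_num)
      rw [mem_closedBall_zero_iff, norm_smul, norm_inv, norm_norm, inv_mul_cancel₀ this]
    have h5 := h.bV _ h4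
    rw [abs_le] at h5
    linarith

lemma s8_shell (r : ℝ) (hr0 : 0 ≤ r) (hr1 : r ≤ 1) :
    volume.real (closedBall (0 : E n) 1 \ closedBall 0 (1 - r)) ≤
      n * r * volume.real (ball (0 : E n) 1) := by
  have hs : closedBall (0 : E n) (1 - r) ⊆ closedBall 0 1 := closedBall_subset_closedBall (by linarith)
  rw [measureReal_diff hs measurableSet_closedBall measure_closedBall_lt_top.ne]
  have e1 : volume.real (closedBall (0 : E n) 1) = volume.real (ball (0 : E n) 1) := by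
    have := Measure.addHaar_real_closedBall (volume : Measure (E n)) 0 (r := 1) (by norm_num)
    rw [this]; simp
  have e2 : volume.real (closedBall (0 : E n) (1 - r)) = (1 - r) ^ n * volume.real (ball (0 : E n) 1) := by
    have := Measure.addHaar_real_closedBall (volume : Measure (E n)) 0 (r := 1 - r) (by linarith)
    rw [this]; simp
  rw [e1, e2]
  have h3 : 1 + (n : ℝ) * (-r) ≤ (1 + (-r)) ^ n := one_add_mul_le_pow (by linarith) n
  have h4 : 0 ≤ volume.real (ball (0 : E n) 1) := measureReal_nonneg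
  have h5 : (1 + (-r)) = 1 - r := by ring
  rw [h5] at h3
  nlinarith

lemma s8_sub_const {f : E n → ℝ} {K : Set (E n)} {ρ : ℝ} (hKρ : K ⊆ closedBall 0 ρ)
    (hf : IntegrableOn f K) {c : ℝ} (hc : 0 ≤ c) :
    (∫ x in K, f x) - c * volume.real (closedBall (0 : E n) ρ) ≤ ∫ x in K, (f x - c) := by
  have hK : volume K ≠ ⊤ := (lt_of_le_of_lt (measure_mono hKρ) measure_closedBall_lt_top).ne
  have hc' : IntegrableOn (fun _ : E n => c) K := integrableOn_const hK
  have e : ∫ x in K, (f x - c) = (∫ x in K, f x) - c * volume.real K := by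
    rw [integral_sub hf hc', setIntegral_const, smul_eq_mul, mul_comm]
  have h2 : volume.real K ≤ volume.real (closedBall (0 : E n) ρ) :=
    measureReal_mono hKρ measure_closedBall_lt_top.ne
  rw [e]
  nlinarith

/-- one step for one set, before the scaling -/
lemma s8_core (hn : 0 < n) {V0 V1 W0 W1 : E n → ℝ} {lam M R b s d Ci Co Cl : ℝ}
    (h0 : Pt n V0 W0 lam M) (h1 : Pt n V1 W1 lam M) (hR : 1 ≤ R)
    (hCl : ∀ x : E n, ‖x‖ ≤ R → VS V0 x - Cl * (1 + Real.log b) / b ≤ Psi b V0 x)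
    (hs : Cl * (1 + Real.log b) / b ≤ s) (hs0 : 0 ≤ s)
    (hg : Continuous (gfun b V0 W0)) (hd : 0 < d) (hCi : 0 < Ci) (hCo : 0 < Co)
    (hCid : Ci * d ^ 2 ≤ 1)
    (hinm : MapsTo (fun x => x + d • uin V0 x) (closedBall (0 : E n) (1 - Ci * d ^ 2))
        (closedBall (0 : E n) 1))
    (hin : ∀ K ⊆ closedBall (0 : E n) 1, MeasurableSet K →
        MeasurableSet ((fun x => x + d • uin V0 x) '' K) ∧
        ∫ x in K, Real.exp (-V0 x) - Ci * d ^ 2 ≤
          ∫ x in (fun x => x + d • uin V0 x) '' K, Real.exp (-V1 x))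
    (houtm : MapsTo (fun x => x + d • uout b V0 x) (closedBall (0 : E n) R \ closedBall (0 : E n) 1)
        (closedBall (0 : E n) 1)ᶜ)
    (houtn : ∀ x ∈ closedBall (0 : E n) R, 1 ≤ ‖x‖ →
        ‖x + d • uout b V0 x‖ ^ 2 ≤ R ^ 2 + Co * d ^ 2)
    (hout : ∀ K ⊆ closedBall (0 : E n) R \ closedBall (0 : E n) 1, MeasurableSet K →
        MeasurableSet ((fun x => x + d • uout b V0 x) '' K) ∧
        ∫ x in K, Real.exp (-Psi b V0 x) * (1 + d * gfun b V0 W0 x) - Co * d ^ 2 ≤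
          ∫ x in (fun x => x + d • uout b V0 x) '' K, Real.exp (-Psi b V1 x))
    {K : Set (E n)} (hK : MeasurableSet K) (hKR : K ⊆ closedBall 0 R) :
    MeasurableSet (s8_G b d V0 '' s8_D (Ci * d ^ 2) K) ∧
    (∀ x ∈ s8_G b d V0 '' s8_D (Ci * d ^ 2) K, ‖x‖ ^ 2 ≤ R ^ 2 + Co * d ^ 2) ∧
    (∫ x in K, wt b s V0 x) - d * (Real.exp M * etaf b R V0 W0) -
      (Ci * volume.real (closedBall (0 : E n) 1) + Co * volume.real (closedBall (0 : E n) R)
        + Real.exp M * (n * Ci * volume.real (ball (0 : E n) 1))) * d ^ 2 ≤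
      ∫ x in s8_G b d V0 '' s8_D (Ci * d ^ 2) K, wt b s V1 x := by
  set r : ℝ := Ci * d ^ 2 with hr
  have hr0 : 0 ≤ r := by positivity
  set K1 : Set (E n) := K ∩ closedBall 0 (1 - r) with hK1
  set K2 : Set (E n) := K \ closedBall 0 1 with hK2
  have hK1s : K1 ⊆ closedBall (0 : E n) 1 :=
    inter_subset_right.trans (closedBall_subset_closedBall (by linarith))
  have hK2s : K2 ⊆ closedBall (0 : E n) R \ closedBall 0 1 := fun x hx => ⟨hKR hx.1, hx.2⟩
  have hK1m : MeasurableSet K1 := hK.inter measurableSet_closedBall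
  have hK2m : MeasurableSet K2 := hK.diff measurableSet_closedBall
  have e1 : s8_G b d V0 '' K1 = (fun x => x + d • uin V0 x) '' K1 := by
    apply image_congr
    intro x hx
    exact s8_G_in (by simpa using hK1s hx)
  have e2 : s8_G b d V0 '' K2 = (fun x => x + d • uout b V0 x) '' K2 := by
    apply image_congr
    intro x hx
    exact s8_G_out (by simpa using hx.2)
  obtain ⟨m1, i1⟩ := hin K1 hK1s hK1m
  obtain ⟨m2, i2⟩ := hout K2 hK2s hK2m
  have eA : s8_G b d V0 '' s8_D r K = (fun x => x + d • uin V0 x) '' K1 ∪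
      (fun x => x + d • uout b V0 x) '' K2 := by
    rw [s8_D, image_union, e1, e2]
  have s1 : (fun x => x + d • uin V0 x) '' K1 ⊆ closedBall (0 : E n) 1 := by
    rintro _ ⟨x, hx, rfl⟩
    exact hinm hx.2
  have s2 : (fun x => x + d • uout b V0 x) '' K2 ⊆ (closedBall (0 : E n) 1)ᶜ := by
    rintro _ ⟨x, hx, rfl⟩
    exact houtm (hK2s hx)
  have s3 : ∀ x ∈ (fun x => x + d • uout b V0 x) '' K2, ‖x‖ ^ 2 ≤ R ^ 2 + Co * d ^ 2 := by
    rintro _ ⟨x, hx, rfl⟩
    have h3 : ¬ ‖x‖ ≤ 1 := by simpa using hx.2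
    exact houtn x (hKR hx.1) (by linarith)
  have s4 : ∀ x ∈ s8_G b d V0 '' s8_D r K, ‖x‖ ^ 2 ≤ R ^ 2 + Co * d ^ 2 := by
    rw [eA]
    rintro x (hx | hx)
    · have h3 : ‖x‖ ≤ 1 := by simpa using s1 hx
      have h4 : 0 ≤ Co * d ^ 2 := by positivity
      nlinarith [norm_nonneg x]
    · exact s3 x hx
  refine ⟨?_, s4, ?_⟩
  · rw [eA]; exact m1.union m2
  -- integrability of the weights
  set ρ : ℝ := R ^ 2 + Co * d ^ 2 + 1 with hρ
  have hρ2 : R ^ 2 + Co * d ^ 2 ≤ ρ ^ 2 := by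
    have h4 : 0 ≤ Co * d ^ 2 := by positivity
    nlinarith [sq_nonneg R]
  have hρ1 : 1 ≤ ρ := by
    have h4 : 0 ≤ Co * d ^ 2 := by positivity
    nlinarith [sq_nonneg R]
  have s5 : (fun x => x + d • uout b V0 x) '' K2 ⊆ closedBall (0 : E n) ρ := by
    intro x hx
    rw [mem_closedBall_zero_iff]
    have := s3 x hx
    exact abs_le_of_sq_le_sq' (this.trans hρ2) (by linarith) |>.2
  have j1 : IntegrableOn (wt b s V1) ((fun x => x + d • uin V0 x) '' K1) :=
    (s8_wt_int hn h1.hV b s 1).mono_set s1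
  have j2 : IntegrableOn (wt b s V1) ((fun x => x + d • uout b V0 x) '' K2) :=
    (s8_wt_int hn h1.hV b s ρ).mono_set s5
  have dj : Disjoint ((fun x => x + d • uin V0 x) '' K1) ((fun x => x + d • uout b V0 x) '' K2) :=
    disjoint_of_subset s1 s2 disjoint_compl_right
  have k1 : ∫ x in s8_G b d V0 '' s8_D r K, wt b s V1 x =
      (∫ x in (fun x => x + d • uin V0 x) '' K1, wt b s V1 x) +
      (∫ x in (fun x => x + d • uout b V0 x) '' K2, wt b s V1 x) := by
    rw [eA, setIntegral_union dj m2 j1 j2]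
  have k2 : ∫ x in (fun x => x + d • uin V0 x) '' K1, wt b s V1 x =
      ∫ x in (fun x => x + d • uin V0 x) '' K1, Real.exp (-V1 x) := by
    apply setIntegral_congr_fun m1
    intro x hx
    have h3 : ‖x‖ ≤ 1 := by simpa using s1 hx
    simp only [wt, if_pos h3]
  have k3 : ∫ x in (fun x => x + d • uout b V0 x) '' K2, wt b s V1 x =
      Real.exp (-s) * ∫ x in (fun x => x + d • uout b V0 x) '' K2, Real.exp (-Psi b V1 x) := by
    rw [← integral_const_mul]
    apply setIntegral_congr_fun m2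
    intro x hx
    have h3 : ¬ ‖x‖ ≤ 1 := by simpa using s2 hx
    simp only [wt, if_neg h3]
    rw [← Real.exp_add]
    congr 1
    ring
  have j0 : IntegrableOn (wt b s V0) K := (s8_wt_int hn h0.hV b s R).mono_set hKR
  have k4 : ∫ x in K, wt b s V0 x =
      (∫ x in K ∩ closedBall 0 1, wt b s V0 x) + (∫ x in K2, wt b s V0 x) :=
    (integral_inter_add_diff measurableSet_closedBall j0).symm
  -- inside
  have k5 : (∫ x in K ∩ closedBall 0 1, wt b s V0 x) ≤ (∫ x in K1, Real.exp (-V0 x))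
      + Real.exp M * (n * r * volume.real (ball (0 : E n) 1)) := by
    have j3 : IntegrableOn (wt b s V0) (K ∩ closedBall 0 1) := j0.mono_set inter_subset_left
    have q1 : (∫ x in K ∩ closedBall 0 1, wt b s V0 x) =
        (∫ x in (K ∩ closedBall 0 1) ∩ closedBall 0 (1 - r), wt b s V0 x) +
        (∫ x in (K ∩ closedBall 0 1) \ closedBall 0 (1 - r), wt b s V0 x) :=
      (integral_inter_add_diff measurableSet_closedBall j3).symm
    have q2 : (K ∩ closedBall 0 1) ∩ closedBall 0 (1 - r) = K1 := by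
      rw [hK1, inter_assoc, inter_eq_self_of_subset_right
        (closedBall_subset_closedBall (by linarith))]
    have q3 : (∫ x in K1, wt b s V0 x) = ∫ x in K1, Real.exp (-V0 x) := by
      apply setIntegral_congr_fun hK1m
      intro x hx
      have h3 : ‖x‖ ≤ 1 := by simpa using hK1s hx
      simp only [wt, if_pos h3]
    have q4 : (∫ x in (K ∩ closedBall 0 1) \ closedBall 0 (1 - r), wt b s V0 x) ≤
        Real.exp M * (n * r * volume.real (ball (0 : E n) 1)) := by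
      have t1 : (K ∩ closedBall 0 1) \ closedBall 0 (1 - r) ⊆
          closedBall (0 : E n) 1 \ closedBall 0 (1 - r) := fun x hx => ⟨hx.1.2, hx.2⟩
      have t2 : volume ((K ∩ closedBall 0 1) \ closedBall 0 (1 - r)) < ⊤ :=
        lt_of_le_of_lt (measure_mono (fun x hx => hx.1.2))
          (measure_closedBall_lt_top (x := (0 : E n)) (r := 1))
      have t3 := norm_setIntegral_le_of_norm_le_const (μ := volume) (f := wt b s V0)
        (C := Real.exp M) t2 (fun x hx => by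
          rw [Real.norm_eq_abs, abs_of_nonneg (s8_wt_nonneg b s V0 x)]
          exact s8_wt_le h0 hCl hs (by simpa using hKR hx.1.1))
      have t4 : volume.real ((K ∩ closedBall 0 1) \ closedBall 0 (1 - r)) ≤
          n * r * volume.real (ball (0 : E n) 1) :=
        (measureReal_mono t1 (lt_of_le_of_lt (measure_mono diff_subset)
          (measure_closedBall_lt_top (x := (0 : E n)) (r := 1))).ne).trans
          (s8_shell r hr0 hCid)
      calc _ ≤ ‖∫ x in (K ∩ closedBall 0 1) \ closedBall 0 (1 - r), wt b s V0 x‖ := le_abs_self _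
        _ ≤ _ := t3
        _ ≤ _ := mul_le_mul_of_nonneg_left t4 (Real.exp_pos M).le
    rw [q1, q2, q3]
    linarith
  -- outside
  have k6 : (∫ x in K2, wt b s V0 x) - d * (Real.exp M * etaf b R V0 W0) ≤
      Real.exp (-s) * ∫ x in K2, Real.exp (-Psi b V0 x) * (1 + d * gfun b V0 W0 x) := by
    have cm : Continuous (fun x => max (-gfun b V0 W0 x) 0) := hg.neg.max continuous_const
    have im : IntegrableOn (fun x => max (-gfun b V0 W0 x) 0) (closedBall (0 : E n) R) :=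
      cm.continuousOn.integrableOn_compact (isCompact_closedBall _ _)
    have cP : Continuous (fun x => Real.exp (-Psi b V0 x) * (1 + d * gfun b V0 W0 x)) :=
      (Real.continuous_exp.comp (Psi_cont hn h0.hV b).neg).mul
        (continuous_const.add (continuous_const.mul hg))
    have iP : IntegrableOn (fun x => Real.exp (-Psi b V0 x) * (1 + d * gfun b V0 W0 x))
        (closedBall (0 : E n) R) := cP.continuousOn.integrableOn_compact (isCompact_closedBall _ _)
    have hK2R : K2 ⊆ closedBall (0 : E n) R := fun x hx => (hK2s hx).1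
    have q1 : (∫ x in K2, max (-gfun b V0 W0 x) 0) ≤ etaf b R V0 W0 := by
      unfold etaf
      apply setIntegral_mono_set (im.mono_set diff_subset)
      · exact Filter.Eventually.of_forall (fun x => le_max_right _ _)
      · apply HasSubset.Subset.eventuallyLE
        intro x hx
        refine ⟨(hK2s hx).1, fun h3 => (hK2s hx).2 (ball_subset_closedBall h3)⟩
    have q2 : (∫ x in K2, (wt b s V0 x - d * (Real.exp M * max (-gfun b V0 W0 x) 0))) ≤
        ∫ x in K2, Real.exp (-s) * (Real.exp (-Psi b V0 x) * (1 + d * gfun b V0 W0 x)) := by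
      apply setIntegral_mono_on _ _ hK2m
      · intro x hx
        have h3 : ¬ ‖x‖ ≤ 1 := by simpa using hx.2
        have h4 : wt b s V0 x = Real.exp (-s) * Real.exp (-Psi b V0 x) := by
          simp only [wt, if_neg h3]
          rw [← Real.exp_add]
          congr 1
          ring
        have h5 : wt b s V0 x ≤ Real.exp M := s8_wt_le h0 hCl hs (by simpa using hKR hx.1)
        have h6 := s8_wt_nonneg b s V0 x
        have h7 : -gfun b V0 W0 x ≤ max (-gfun b V0 W0 x) 0 := le_max_left _ _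
        have h8 : 0 ≤ max (-gfun b V0 W0 x) 0 := le_max_right _ _
        have h9 : wt b s V0 x * (-gfun b V0 W0 x) ≤ Real.exp M * max (-gfun b V0 W0 x) 0 :=
          (mul_le_mul_of_nonneg_left h7 h6).trans (mul_le_mul_of_nonneg_right h5 h8)
        have h10 : Real.exp (-s) * (Real.exp (-Psi b V0 x) * (1 + d * gfun b V0 W0 x)) =
            wt b s V0 x * (1 + d * gfun b V0 W0 x) := by rw [h4]; ring
        show wt b s V0 x - d * (Real.exp M * max (-gfun b V0 W0 x) 0) ≤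
          Real.exp (-s) * (Real.exp (-Psi b V0 x) * (1 + d * gfun b V0 W0 x))
        rw [h10]
        nlinarith
      · exact (j0.mono_set diff_subset).sub
          (((im.mono_set hK2R).const_mul _).const_mul _)
      · exact (iP.mono_set hK2R).const_mul _
    rw [integral_const_mul, integral_sub (j0.mono_set diff_subset)
      (((im.mono_set hK2R).const_mul _).const_mul _), integral_const_mul, integral_const_mul] at q2
    have q3 : d * (Real.exp M * ∫ x in K2, max (-gfun b V0 W0 x) 0) ≤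
        d * (Real.exp M * etaf b R V0 W0) :=
      mul_le_mul_of_nonneg_left (mul_le_mul_of_nonneg_left q1 (Real.exp_pos M).le) hd.le
    linarith
  have k7 : Real.exp (-s) ≤ 1 := Real.exp_le_one_iff.2 (by linarith)
  have k8 : 0 < Real.exp (-s) := Real.exp_pos _
  have cV : Continuous (fun x => Real.exp (-V0 x)) := Real.continuous_exp.comp h0.hV.continuous.neg
  have cP : Continuous (fun x => Real.exp (-Psi b V0 x) * (1 + d * gfun b V0 W0 x)) :=
    (Real.continuous_exp.comp (Psi_cont hn h0.hV b).neg).mul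
      (continuous_const.add (continuous_const.mul hg))
  have i1' := (s8_sub_const hK1s ((cV.continuousOn.integrableOn_compact
    (isCompact_closedBall _ _)).mono_set hK1s) hr0).trans i1
  have i2' := (s8_sub_const (fun x hx => (hK2s hx).1) ((cP.continuousOn.integrableOn_compact
    (isCompact_closedBall _ _)).mono_set (fun x hx => (hK2s hx).1))
    (by positivity : 0 ≤ Co * d ^ 2)).trans i2
  rw [k1, k2, k3, k4]
  have k9 : Real.exp (-s) * ((∫ x in K2, Real.exp (-Psi b V0 x) * (1 + d * gfun b V0 W0 x))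
      - Co * d ^ 2 * volume.real (closedBall (0 : E n) R)) ≤ Real.exp (-s) *
      ∫ x in (fun x => x + d • uout b V0 x) '' K2, Real.exp (-Psi b V1 x) :=
    mul_le_mul_of_nonneg_left i2' k8.le
  have k10 : Real.exp (-s) * (Co * d ^ 2 * volume.real (closedBall (0 : E n) R)) ≤
      1 * (Co * d ^ 2 * volume.real (closedBall (0 : E n) R)) :=
    mul_le_mul_of_nonneg_right k7 (by positivity)
  rw [mul_sub] at k9
  rw [hr] at k5 i1'
  nlinarith

/-- scaling of a set -/
lemma s8_scale (hn : 0 < n) {V W : E n → ℝ} {lam M b s c ρ : ℝ} (h : Pt n V W lam M)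
    (hc0 : 0 < c) (hc1 : c ≤ 1) (hray : ∀ x : E n, ∀ c ∈ Icc (0 : ℝ) 1, wt b s V x ≤ wt b s V (c • x))
    {A : Set (E n)} (hA : MeasurableSet A) (hAρ : A ⊆ closedBall 0 ρ) :
    c ^ n * ∫ x in A, wt b s V x ≤ ∫ x in c • A, wt b s V x := by
  have e := Measure.setIntegral_comp_smul (volume : Measure (E n)) (wt b s V) A hc0.ne'
  have hcn : 0 < c ^ n := by positivity
  rw [finrank_euclideanSpace_fin, abs_of_pos (inv_pos.2 hcn), smul_eq_mul] at e
  have i1 : IntegrableOn (wt b s V) A := (s8_wt_int hn h.hV b s ρ).mono_set hAρ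
  have hcA : c • A ⊆ closedBall (0 : E n) ρ := by
    rintro _ ⟨x, hx, rfl⟩
    have h1 : ‖x‖ ≤ ρ := by simpa using hAρ hx
    rw [mem_closedBall_zero_iff]
    show ‖c • x‖ ≤ ρ
    rw [norm_smul, Real.norm_eq_abs, abs_of_pos hc0]
    nlinarith [norm_nonneg x]
  have i2 : IntegrableOn (fun x => wt b s V (c • x)) A := by
    have i3 : IntegrableOn (wt b s V) (c • A) := (s8_wt_int hn h.hV b s ρ).mono_set hcA
    have hcm : MeasurableSet (c • A) := hA.const_smul₀ c
    have i4 : Integrable ((c • A).indicator (wt b s V)) := (integrable_indicator_iff hcm).2 i3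
    have i5 := (integrable_comp_smul_iff (volume : Measure (E n)) ((c • A).indicator (wt b s V))
      hc0.ne').2 i4
    rw [← integrable_indicator_iff hA]
    refine i5.congr (Filter.Eventually.of_forall (fun x => ?_))
    by_cases hx : x ∈ A
    · have hx' : c • x ∈ c • A := smul_mem_smul_set hx
      simp only [indicator_of_mem hx, indicator_of_mem hx']
    · have hx' : c • x ∉ c • A := by
        rw [smul_mem_smul_set_iff₀ hc0.ne']
        exact hx
      simp only [indicator_of_notMem hx, indicator_of_notMem hx']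
  have h1 : ∫ x in A, wt b s V x ≤ ∫ x in A, wt b s V (c • x) :=
    setIntegral_mono_on i1 i2 hA (fun x _ => hray x c ⟨hc0.le, hc1⟩)
  calc c ^ n * ∫ x in A, wt b s V x ≤ c ^ n * ∫ x in A, wt b s V (c • x) :=
        mul_le_mul_of_nonneg_left h1 hcn.le
    _ = ∫ x in c • A, wt b s V x := by
        rw [e, ← mul_assoc, mul_inv_cancel₀ hcn.ne', one_mul]

lemma s8_D_sub {r : ℝ} {K : Set (E n)} : s8_D r K ⊆ K := by
  rintro x (hx | hx)
  · exact hx.1
  · exact hx.1

lemma s8_D_neg {r : ℝ} {K : Set (E n)} (hK : ∀ x ∈ K, -x ∈ K) : ∀ x ∈ s8_D r K, -x ∈ s8_D r K := by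
  rintro x (hx | hx)
  · refine Or.inl ⟨hK x hx.1, ?_⟩
    simpa using hx.2
  · refine Or.inr ⟨hK x hx.1, ?_⟩
    simpa using hx.2

/-- arithmetic of the losses -/
lemma s8_arith {N I J J' eta lg d cn ε X C4 C5 C6 : ℝ} {Cm : ℝ} (hN : 0 ≤ N) (hε : ε = d * (Cm * lg) + d ^ 2 * C4)
    (hε0 : 0 ≤ ε) (hX : 0 ≤ X) (heta : 0 ≤ eta) (hlg : 0 ≤ lg) (hd : 0 < d) (hcn0 : 0 < cn)
    (hcn : 1 - N * ε ≤ cn) (hI : I ≤ C6) (hXC : X ≤ C6) (hC6 : 0 ≤ C6) (hCm : 0 ≤ Cm)
    (hJ' : 0 ≤ J') (hJJ : cn * J ≤ J') (hC5 : 0 ≤ C5)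
    (hJ : I - d * (X * eta) - C5 * d ^ 2 ≤ J) {C1 C2 : ℝ} (hC1 : X + N * Cm * C6 ≤ C1)
    (hC2 : C5 + N * C4 * C6 ≤ C2) :
    I - d * (C1 * (eta + lg)) - C2 * d ^ 2 ≤ J' := by
  set m : ℝ := I - d * (X * eta) - C5 * d ^ 2 with hm
  have hXe : 0 ≤ X * eta := mul_nonneg hX heta
  have hdXe : 0 ≤ d * (X * eta) := mul_nonneg hd.le hXe
  have hd2 : 0 ≤ d ^ 2 := sq_nonneg d
  have hCd : 0 ≤ C5 * d ^ 2 := mul_nonneg hC5 hd2
  have hmI : m ≤ C6 := by linarith
  have hNε : 0 ≤ N * ε := mul_nonneg hN hε0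
  have hm2 : m - N * ε * C6 ≤ J' := by
    rcases le_or_gt 0 m with h0 | h0
    · have h1 : cn * m ≤ J' := (mul_le_mul_of_nonneg_left hJ hcn0.le).trans hJJ
      have h2 : (1 - N * ε) * m ≤ cn * m := mul_le_mul_of_nonneg_right hcn h0
      have h3 : N * ε * m ≤ N * ε * C6 := mul_le_mul_of_nonneg_left hmI hNε
      linarith
    · have : 0 ≤ N * ε * C6 := mul_nonneg hNε hC6
      linarith
  refine le_trans ?_ hm2
  have e1 : m - N * ε * C6 = I - d * (X * eta + N * Cm * C6 * lg) - (C5 + N * C4 * C6) * d ^ 2 := by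
    rw [hm, hε]; ring
  rw [e1]
  have g0 : 0 ≤ N * Cm * C6 := mul_nonneg (mul_nonneg hN hCm) hC6
  have h1 : X * eta + N * Cm * C6 * lg ≤ C1 * (eta + lg) := by
    have g1 : X * eta ≤ C1 * eta := mul_le_mul_of_nonneg_right (by linarith) heta
    have g2 : N * Cm * C6 * lg ≤ C1 * lg := mul_le_mul_of_nonneg_right (by linarith) hlg
    linarith
  have h2 := mul_le_mul_of_nonneg_left h1 hd.le
  have h3 := mul_le_mul_of_nonneg_right hC2 hd2
  linarith

/-- the whole step for one set -/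
lemma s8_key (hn : 0 < n) {V0 V1 W0 W1 : E n → ℝ} {lam M R b s d Ci Co Cl c ε lg C4 Cm C1 C2 : ℝ}
    (h0 : Pt n V0 W0 lam M) (h1 : Pt n V1 W1 lam M) (hR : 1 ≤ R)
    (hCl : ∀ x : E n, ‖x‖ ≤ R → VS V0 x - Cl * (1 + Real.log b) / b ≤ Psi b V0 x)
    (hs : Cl * (1 + Real.log b) / b ≤ s) (hs0 : 0 ≤ s)
    (hg : Continuous (gfun b V0 W0)) (hd : 0 < d) (hCi : 0 < Ci) (hCo : 0 < Co)
    (hCid : Ci * d ^ 2 ≤ 1)
    (hinm : MapsTo (fun x => x + d • uin V0 x) (closedBall (0 : E n) (1 - Ci * d ^ 2))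
        (closedBall (0 : E n) 1))
    (hin : ∀ K ⊆ closedBall (0 : E n) 1, MeasurableSet K →
        MeasurableSet ((fun x => x + d • uin V0 x) '' K) ∧
        ∫ x in K, Real.exp (-V0 x) - Ci * d ^ 2 ≤
          ∫ x in (fun x => x + d • uin V0 x) '' K, Real.exp (-V1 x))
    (houtm : MapsTo (fun x => x + d • uout b V0 x) (closedBall (0 : E n) R \ closedBall (0 : E n) 1)
        (closedBall (0 : E n) 1)ᶜ)
    (houtn : ∀ x ∈ closedBall (0 : E n) R, 1 ≤ ‖x‖ →
        ‖x + d • uout b V0 x‖ ^ 2 ≤ R ^ 2 + Co * d ^ 2)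
    (hout : ∀ K ⊆ closedBall (0 : E n) R \ closedBall (0 : E n) 1, MeasurableSet K →
        MeasurableSet ((fun x => x + d • uout b V0 x) '' K) ∧
        ∫ x in K, Real.exp (-Psi b V0 x) * (1 + d * gfun b V0 W0 x) - Co * d ^ 2 ≤
          ∫ x in (fun x => x + d • uout b V0 x) '' K, Real.exp (-Psi b V1 x))
    (hray : ∀ x : E n, ∀ c ∈ Icc (0 : ℝ) 1, wt b s V1 x ≤ wt b s V1 (c • x))
    (hc0 : 0 < c) (hc1 : c ≤ 1) (hε : ε = d * (Cm * lg) + d ^ 2 * C4) (hε0 : 0 ≤ ε)
    (hcn : 1 - n * ε ≤ c ^ n) (hlg : 0 ≤ lg) (hCm : 0 ≤ Cm)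
    (hC1 : Real.exp M * max 1 (volume.real (closedBall (0 : E n) R)) * (1 + n * Cm) ≤ C1)
    (hC2 : (Ci * volume.real (closedBall (0 : E n) 1) + Co * volume.real (closedBall (0 : E n) R)
        + Real.exp M * (n * Ci * volume.real (ball (0 : E n) 1))) +
        n * C4 * (Real.exp M * max 1 (volume.real (closedBall (0 : E n) R))) ≤ C2)
    {K : Set (E n)} (hK : MeasurableSet K) (hKR : K ⊆ closedBall 0 R) :
      MeasurableSet (s8_G b d V0 '' s8_D (Ci * d ^ 2) K) ∧
      (∀ x ∈ s8_G b d V0 '' s8_D (Ci * d ^ 2) K, ‖x‖ ^ 2 ≤ R ^ 2 + Co * d ^ 2) ∧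
      (∫ x in K, wt b s V0 x) - d * (C1 * (etaf b R V0 W0 + lg)) - C2 * d ^ 2 ≤
      ∫ x in c • (s8_G b d V0 '' s8_D (Ci * d ^ 2) K), wt b s V1 x := by
  obtain ⟨a1, a2, a3⟩ := s8_core hn h0 h1 hR hCl hs hs0 hg hd hCi hCo hCid hinm hin
      houtm houtn hout hK hKR
  refine ⟨a1, a2, ?_⟩
  have hAρ : s8_G b d V0 '' s8_D (Ci * d ^ 2) K ⊆ closedBall 0 (R + Co * d ^ 2 + 1) := by
    intro x hx
    rw [mem_closedBall_zero_iff]
    have h1 := a2 x hx
    have h2 : 0 ≤ Co * d ^ 2 := by positivity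
    exact (abs_le_of_sq_le_sq' (h1.trans (by nlinarith)) (by linarith)).2
  have a4 := s8_scale hn h1 hc0 hc1 hray a1 hAρ
  have hexp : 0 < Real.exp M := Real.exp_pos M
  have hvR0 : (0 : ℝ) < max 1 (volume.real (closedBall (0 : E n) R)) :=
    lt_of_lt_of_le one_pos (le_max_left _ _)
  have hv1 : (1 : ℝ) ≤ max 1 (volume.real (closedBall (0 : E n) R)) := le_max_left _ _
  have hnn : (0 : ℝ) ≤ n := Nat.cast_nonneg n
  have hI1 : (∫ x in K, wt b s V0 x) ≤
      Real.exp M * max 1 (volume.real (closedBall (0 : E n) R)) := by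
    have t2 : volume K < ⊤ := lt_of_le_of_lt (measure_mono hKR)
        (measure_closedBall_lt_top (x := (0 : E n)) (r := R))
    have t3 := norm_setIntegral_le_of_norm_le_const (μ := volume) (f := wt b s V0)
      (C := Real.exp M) t2 (fun x hx => by
        rw [Real.norm_eq_abs, abs_of_nonneg (s8_wt_nonneg b s V0 x)]
        exact s8_wt_le h0 hCl hs (by simpa using hKR hx))
    have t4 : volume.real K ≤ max 1 (volume.real (closedBall (0 : E n) R)) :=
      (measureReal_mono hKR measure_closedBall_lt_top.ne).trans (le_max_right _ _)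
    calc (∫ x in K, wt b s V0 x) ≤ ‖∫ x in K, wt b s V0 x‖ := le_abs_self _
      _ ≤ _ := t3
      _ ≤ _ := mul_le_mul_of_nonneg_left t4 hexp.le
  have hJ'0 : 0 ≤ ∫ x in c • (s8_G b d V0 '' s8_D (Ci * d ^ 2) K), wt b s V1 x :=
    integral_nonneg (fun x => s8_wt_nonneg b s V1 x)
  have heta : 0 ≤ etaf b R V0 W0 := integral_nonneg (fun x => le_max_right _ _)
  have hX6 : Real.exp M ≤ Real.exp M * max 1 (volume.real (closedBall (0 : E n) R)) := by
    nlinarith
  have hC5 : 0 ≤ Ci * volume.real (closedBall (0 : E n) 1) +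
      Co * volume.real (closedBall (0 : E n) R)
        + Real.exp M * (n * Ci * volume.real (ball (0 : E n) 1)) := by
    have q1 : 0 ≤ volume.real (closedBall (0 : E n) 1) := measureReal_nonneg
    have q2 : 0 ≤ volume.real (closedBall (0 : E n) R) := measureReal_nonneg
    have q3 : 0 ≤ volume.real (ball (0 : E n) 1) := measureReal_nonneg
    positivity
  refine s8_arith (N := n) hnn hε hε0 hexp.le heta hlg hd (by positivity : 0 < c ^ n) hcn hI1 hX6
    (by positivity) hCm hJ'0 a4 hC5 a3 ?_ hC2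
  refine le_trans ?_ hC1
  have : 0 ≤ n * Cm := mul_nonneg hnn hCm
  nlinarith

/-- the pair after one step -/
lemma s8_pair {V0 W0 : E n → ℝ} {lam M R b d Co c ε e r : ℝ} (hn : 0 < n)
    (h0 : Pt n V0 W0 lam M) (hR : 1 ≤ R) (hd : 0 < d)
    (hmono : ∀ x y : E n, ‖x‖ ≤ R → ‖y‖ ≤ R → -e ≤ inner ℝ (qf b V0 x - qf b V0 y) (x - y))
    (hdM : d * (2 * R * M) ≤ 1) (hc0 : 0 < c) (hcε : c * (1 + ε) = 1) (hc1 : c ≤ 1) (hε0 : 0 ≤ ε)
    (hε1 : d * e + d ^ 2 * (M * (1 + R ^ 2)) ^ 2 ≤ ε) (hε2 : Co * d ^ 2 ≤ ε)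
    {K L : Set (E n)} (hP : Pair n R K L)
    (mK : MeasurableSet (s8_G b d V0 '' s8_D r K)) (mL : MeasurableSet (s8_G b d V0 '' s8_D r L))
    (k2 : ∀ x ∈ s8_G b d V0 '' s8_D r K, ‖x‖ ^ 2 ≤ R ^ 2 + Co * d ^ 2)
    (l2 : ∀ x ∈ s8_G b d V0 '' s8_D r L, ‖x‖ ^ 2 ≤ R ^ 2 + Co * d ^ 2) :
    Pair n R (c • (s8_G b d V0 '' s8_D r K)) (c • (s8_G b d V0 '' s8_D r L)) := by
  have hR0 : 0 ≤ R := by linarith
  have hrel : ∀ x ∈ s8_G b d V0 '' s8_D r K, ∀ y ∈ s8_G b d V0 '' s8_D r L,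
      inner ℝ x y ≤ 1 + ε := by
    rintro _ ⟨x, hx, rfl⟩ _ ⟨y, hy, rfl⟩
    have hxK := s8_D_sub hx
    have hyL := s8_D_sub hy
    have hxR : ‖x‖ ≤ R := by simpa using hP.bK hxK
    have hyR : ‖y‖ ≤ R := by simpa using hP.bL hyL
    have h2 := rel_step hR0 (by linarith [h0.one_le]) hxR hyR (qf_norm hn h0 b x)
      (qf_norm hn h0 b y) (hP.rel x hxK y hyL) (hmono x y hxR hyR) hd.le hdM
    show inner ℝ (x + d • (qf b V0 x - (inner ℝ x (qf b V0 x)) • x))
      (y + d • (qf b V0 y - (inner ℝ y (qf b V0 y)) • y)) ≤ _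
    linarith
  have hnorm : ∀ x : E n, ‖x‖ ^ 2 ≤ R ^ 2 + Co * d ^ 2 → ‖c • x‖ ≤ R := by
    intro x hx
    have h1 : R ^ 2 + Co * d ^ 2 ≤ (R * (1 + ε)) ^ 2 := by
      have h3 : (R * (1 + ε)) ^ 2 = R ^ 2 + 2 * (R ^ 2 * ε) + R ^ 2 * ε ^ 2 := by ring
      have h4 : 1 ≤ R ^ 2 := by nlinarith
      have h5 : ε ≤ R ^ 2 * ε := by nlinarith
      have h6 : 0 ≤ R ^ 2 * ε ^ 2 := by positivity
      rw [h3]
      linarith
    have h5 : ‖x‖ ≤ R * (1 + ε) :=
      (abs_le_of_sq_le_sq' (hx.trans h1) (by positivity)).2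
    rw [norm_smul, Real.norm_eq_abs, abs_of_pos hc0]
    calc c * ‖x‖ ≤ c * (R * (1 + ε)) := mul_le_mul_of_nonneg_left h5 hc0.le
      _ = R * (c * (1 + ε)) := by ring
      _ = R := by rw [hcε, mul_one]
  refine ⟨mK.const_smul₀ c, mL.const_smul₀ c, ?_, ?_, ?_, ?_, ?_⟩
  · rintro _ ⟨_, ⟨x, hx, rfl⟩, rfl⟩
    refine ⟨s8_G b d V0 (-x), ⟨-x, s8_D_neg hP.sK x hx, rfl⟩, ?_⟩
    rw [s8_G_neg h0.hV h0.even]
    simp
  · rintro _ ⟨_, ⟨x, hx, rfl⟩, rfl⟩
    refine ⟨s8_G b d V0 (-x), ⟨-x, s8_D_neg hP.sL x hx, rfl⟩, ?_⟩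
    rw [s8_G_neg h0.hV h0.even]
    simp
  · rintro _ ⟨x, hx, rfl⟩
    rw [mem_closedBall_zero_iff]
    exact hnorm x (k2 x hx)
  · rintro _ ⟨x, hx, rfl⟩
    rw [mem_closedBall_zero_iff]
    exact hnorm x (l2 x hx)
  · rintro _ ⟨x, hx, rfl⟩ _ ⟨y, hy, rfl⟩
    have h1 := hrel x hx y hy
    show inner ℝ (c • x) (c • y) ≤ 1
    rw [real_inner_smul_left, real_inner_smul_right]
    calc c * (c * inner ℝ x y) ≤ c * (c * (1 + ε)) :=
          mul_le_mul_of_nonneg_left (mul_le_mul_of_nonneg_left h1 hc0.le) hc0.le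
      _ = c := by rw [hcε, mul_one]
      _ ≤ 1 := hc1

/-- one step of the flow of pairs -/
theorem one_step (hn : 0 < n) {V : ℝ → E n → ℝ} {T lam : ℝ} (h : Flow n V T lam)
    (R : ℝ) (hR : 1 ≤ R) :
    ∃ C1 > 0, ∀ b : ℝ, 1 ≤ b → ∀ s : ℝ, C1 * (1 + Real.log b) / b ≤ s → s ≤ 1 →
    ∃ C2 > 0, ∃ d0 > 0, ∀ t ∈ Icc (0 : ℝ) T, ∀ d ∈ Ioo (0 : ℝ) d0, t + d ≤ T →
      ∀ K L : Set (E n), Pair n R K L → ∃ K' L' : Set (E n), Pair n R K' L' ∧
        (∫ x in K, wt b s (V t) x) - d * (C1 * (etaf b R (V t) (vd V t)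
          + (1 + Real.log b) / b)) - C2 * d ^ 2 ≤ ∫ x in K', wt b s (V (t + d)) x ∧
        (∫ x in L, wt b s (V t) x) - d * (C1 * (etaf b R (V t) (vd V t)
          + (1 + Real.log b) / b)) - C2 * d ^ 2 ≤ ∫ x in L', wt b s (V (t + d)) x := by
  obtain ⟨M, hM⟩ := h.pt
  obtain ⟨Cm, hCm, hmono⟩ := qf_mono hn lam M R
  obtain ⟨Cw, hCw, hray⟩ := wt_ray hn lam M R
  obtain ⟨Cl, hCl, hle⟩ := le_Psi hn lam M R
  obtain ⟨Ci, hCi, di, hdi, hinn⟩ := inner_step hn h
  obtain ⟨X, hX⟩ : ∃ X : ℝ, X = Real.exp M * max 1 (volume.real (closedBall (0 : E n) R))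
    * (1 + n * Cm) := ⟨_, rfl⟩
  have hnn : (0 : ℝ) ≤ n := Nat.cast_nonneg n
  have hm0 : (0 : ℝ) < max 1 (volume.real (closedBall (0 : E n) R)) :=
    lt_of_lt_of_le one_pos (le_max_left _ _)
  have hX0 : 0 < X := by rw [hX]; positivity
  refine ⟨Cw + Cl + X, by linarith, ?_⟩
  intro b hb s hs hs1
  obtain ⟨Co, hCo, do', hdo, hout⟩ := outer_step hn h R b hR hb
  obtain ⟨lg0, lg1⟩ := s8_log hb
  obtain ⟨lg, hlg⟩ : ∃ lg : ℝ, lg = (1 + Real.log b) / b := ⟨_, rfl⟩
  rw [← hlg] at lg0 lg1 ⊢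
  have hsC : (Cw + Cl + X) * lg ≤ s := by
    rw [hlg, ← mul_div_assoc]; exact hs
  have hsw : Cw * (1 + Real.log b) / b ≤ s := by
    rw [mul_div_assoc, ← hlg]; nlinarith
  have hsl : Cl * (1 + Real.log b) / b ≤ s := by
    rw [mul_div_assoc, ← hlg]; nlinarith
  have hs0 : 0 ≤ s := by
    have : 0 ≤ Cl * lg := by positivity
    rw [mul_div_assoc, ← hlg] at hsl
    linarith
  obtain ⟨C4, hC4⟩ : ∃ C4 : ℝ, C4 = (M * (1 + R ^ 2)) ^ 2 + Co := ⟨_, rfl⟩
  have hC40 : 0 < C4 := by rw [hC4]; positivity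
  have q1 : 0 ≤ volume.real (closedBall (0 : E n) 1) := measureReal_nonneg
  have q2 : 0 ≤ volume.real (closedBall (0 : E n) R) := measureReal_nonneg
  have q3 : 0 ≤ volume.real (ball (0 : E n) 1) := measureReal_nonneg
  refine ⟨(Ci * volume.real (closedBall (0 : E n) 1) + Co * volume.real (closedBall (0 : E n) R)
        + Real.exp M * (n * Ci * volume.real (ball (0 : E n) 1))) +
        n * C4 * (Real.exp M * max 1 (volume.real (closedBall (0 : E n) R))) + 1,
    by positivity, min (min di do') (min (1 / (2 * R * |M| + 1)) (1 / (1 + Ci))), ?_, ?_⟩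
  · have hR0 : 0 < R := by linarith
    have : 0 < 1 / (2 * R * |M| + 1) := by positivity
    have : 0 < 1 / (1 + Ci) := by positivity
    simp only [gt_iff_lt, lt_min_iff]
    exact ⟨⟨hdi, hdo⟩, by positivity, by positivity⟩
  intro t ht d hd htd K L hP
  have hd0 : 0 < d := hd.1
  have hdi' : d < di := lt_of_lt_of_le hd.2 ((min_le_left _ _).trans (min_le_left _ _))
  have hdo' : d < do' := lt_of_lt_of_le hd.2 ((min_le_left _ _).trans (min_le_right _ _))
  have hd3 : d < 1 / (2 * R * |M| + 1) :=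
    lt_of_lt_of_le hd.2 ((min_le_right _ _).trans (min_le_left _ _))
  have hd4 : d < 1 / (1 + Ci) := lt_of_lt_of_le hd.2 ((min_le_right _ _).trans (min_le_right _ _))
  have hR0 : 0 ≤ R := by linarith
  have hdM : d * (2 * R * M) ≤ 1 := by
    have h1 : d * (2 * R * |M| + 1) < 1 := by
      rw [lt_div_iff₀ (by positivity)] at hd3
      exact hd3
    have h3 : d * (2 * R * M) ≤ d * (2 * R * |M|) :=
      mul_le_mul_of_nonneg_left (mul_le_mul_of_nonneg_left (le_abs_self M) (by positivity)) hd0.le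
    linarith
  have hCid : Ci * d ^ 2 ≤ 1 := by
    have h1 : d * (1 + Ci) < 1 := by
      rw [lt_div_iff₀ (by positivity)] at hd4
      exact hd4
    have h2 : d < 1 := by nlinarith
    nlinarith
  have hp0 := hM t ht
  have hp1 := hM (t + d) ⟨by linarith [ht.1], htd⟩
  obtain ⟨-, hinm, hin⟩ := hinn t ht d ⟨hd0, hdi'⟩
  obtain ⟨-, houtm, houtn, hout'⟩ := hout t ht d ⟨hd0, hdo'⟩
  obtain ⟨ε, hε⟩ : ∃ ε : ℝ, ε = d * (Cm * lg) + d ^ 2 * C4 := ⟨_, rfl⟩
  have hε0 : 0 ≤ ε := by rw [hε]; positivity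
  obtain ⟨c, hc⟩ : ∃ c : ℝ, c = (1 + ε)⁻¹ := ⟨_, rfl⟩
  have hc0 : 0 < c := by rw [hc]; positivity
  have hc1 : c ≤ 1 := by rw [hc]; exact inv_le_one_of_one_le₀ (by linarith)
  have hcε : c * (1 + ε) = 1 := by rw [hc]; exact inv_mul_cancel₀ (by linarith)
  have hcn : 1 - n * ε ≤ c ^ n := by
    have h1 : 1 + (n : ℝ) * (c - 1) ≤ (1 + (c - 1)) ^ n := one_add_mul_le_pow (by linarith) n
    have h2 : (1 + (c - 1)) = c := by ring
    rw [h2] at h1
    have h3 : -ε ≤ c - 1 := by nlinarith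
    have h4 : (n : ℝ) * (-ε) ≤ n * (c - 1) := mul_le_mul_of_nonneg_left h3 hnn
    linarith
  have hg : Continuous (gfun b (V t) (vd V t)) := by
    have hg1 := gfun_cont hn h.smooth b
    have hg2 : Continuous (fun x : E n => ((t, x) : ℝ × E n)) := Continuous.prodMk_right t
    have hg3 := Continuous.comp hg1 hg2
    simp only [Function.comp_def] at hg3
    exact hg3
  have hC1 : Real.exp M * max 1 (volume.real (closedBall (0 : E n) R)) * (1 + n * Cm) ≤
      Cw + Cl + X := by rw [← hX]; linarith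
  have key := fun (A : Set (E n)) (hA : MeasurableSet A) (hAR : A ⊆ closedBall 0 R) =>
    s8_key hn hp0 hp1 hR (fun x hx => hle (V t) (vd V t) hp0 b hb x hx) hsl hs0 hg hd0 hCi hCo
      hCid hinm hin houtm houtn hout'
      (fun x c hc => hray (V (t + d)) (vd V (t + d)) hp1 b hb s hsw x c hc) hc0 hc1 hε hε0 hcn
      lg0 hCm.le hC1 (le_add_of_nonneg_right zero_le_one) hA hAR
  obtain ⟨k1, k2, k3⟩ := key K hP.mK hP.bK
  obtain ⟨l1, l2, l3⟩ := key L hP.mL hP.bL
  have hd2 : 0 ≤ d ^ 2 := sq_nonneg d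
  have hmono' : ∀ x y : E n, ‖x‖ ≤ R → ‖y‖ ≤ R →
      -(Cm * lg) ≤ inner ℝ (qf b (V t) x - qf b (V t) y) (x - y) := by
    intro x y hx hy
    have := hmono (V t) (vd V t) hp0 b hb x y hx hy
    rwa [mul_div_assoc, ← hlg] at this
  have hε1 : d * (Cm * lg) + d ^ 2 * (M * (1 + R ^ 2)) ^ 2 ≤ ε := by
    rw [hε, hC4]
    have : 0 ≤ d ^ 2 * Co := by positivity
    linarith
  have hε2 : Co * d ^ 2 ≤ ε := by
    rw [hε, hC4]
    have g1 : 0 ≤ d * (Cm * lg) := by positivity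
    have g2 : 0 ≤ d ^ 2 * (M * (1 + R ^ 2)) ^ 2 := by positivity
    linarith
  exact ⟨_, _, s8_pair hn hp0 hR hd0 hmono' hdM hc0 hcε hc1 hε0 hε1 hε2 hP k1 l1 k2 l2, k3, l3⟩

end Pool.Agent.H21.CE
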