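import Pool.Agent.H21.CE.Expo

/-!
# The inequality for polytopes
-/

open MeasureTheory Set Filter Topology Metric
open scoped ContDiff

namespace Pool.Agent.H21.CE

variable {n : ℕ}

/-- hyperplanes are null sets -/
private lemma d3_hyper (b : E n) {c : ℝ} (hc : c ≠ 0) :
    volume {x : E n | inner ℝ b x = c} = 0 := by
  by_cases hb : b = 0
  · have h1 : {x : E n | inner ℝ b x = c} = ∅ := by
      ext x
      simp [hb, hc.symm]
    rw [h1, measure_empty]
  have hb2 : (inner ℝ b b : ℝ) ≠ 0 := by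
    rw [real_inner_self_eq_norm_sq]
    exact pow_ne_zero _ (norm_ne_zero_iff.mpr hb)
  have h1 : {x : E n | inner ℝ b x = c} =
      (fun x : E n => x - (c / inner ℝ b b) • b) ⁻¹' ((ℝ ∙ b)ᗮ : Submodule ℝ (E n)) := by
    ext x
    rw [mem_ofPred_eq, mem_preimage, SetLike.mem_coe,
      Submodule.mem_orthogonal_singleton_iff_inner_right, inner_sub_right, real_inner_smul_right, div_mul_cancel₀ _ hb2, sub_eq_zero]
  have h4 : (fun x : E n => x - (c / inner ℝ b b) • b)
      = fun x : E n => x + (-((c / inner ℝ b b) • b)) := by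
    funext x
    rw [sub_eq_add_neg]
  rw [h1, h4, measure_preimage_add_right]
  apply Measure.addHaar_submodule
  intro h2
  have h3 : b ∈ (ℝ ∙ b)ᗮ := by rw [h2]; trivial
  rw [Submodule.mem_orthogonal_singleton_iff_inner_right] at h3
  exact hb2 h3

private lemma d3_Pp_nonneg {m : ℕ} (b : Fin m → E n) (N : ℕ) {e : ℝ} (he : 0 ≤ e) (x : E n) :
    0 ≤ Pp b N e x := by
  unfold Pp
  apply add_nonneg
  · exact Finset.sum_nonneg fun i _ => by rw [pow_mul]; positivity
  · positivity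

private lemma d3_cont {m : ℕ} (b : Fin m → E n) (N : ℕ) (e : ℝ) : Continuous (Pp b N e) := by
  unfold Pp
  fun_prop

private def d3_T {m : ℕ} (b : Fin m → E n) : Set (E n) := {x | ∀ i, |inner ℝ (b i) x| ≤ (1 : ℝ)}

private lemma d3_T_meas {m : ℕ} (b : Fin m → E n) : MeasurableSet (d3_T b) := by
  have h1 : d3_T b = ⋂ i, {x : E n | |inner ℝ (b i) x| ≤ (1 : ℝ)} := by
    ext x
    simp [d3_T]
  rw [h1]
  refine MeasurableSet.iInter fun i => ?_
  exact (isClosed_le (by fun_prop) continuous_const).measurableSet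

private lemma d3_lim {m : ℕ} (b : Fin m → E n) :
    ∀ᵐ x : E n, Tendsto (fun N : ℕ => Real.exp (-Pp b (N + 1) (1 / ((N : ℝ) + 1)) x)) atTop
      (𝓝 ((d3_T b).indicator (fun _ => (1 : ℝ)) x)) := by
  have h0 : ∀ᵐ x : E n, ∀ i, inner ℝ (b i) x ≠ (1 : ℝ) ∧ inner ℝ (b i) x ≠ (-1 : ℝ) := by
    rw [ae_all_iff]
    intro i
    have h1 : ∀ᵐ x : E n, inner ℝ (b i) x ≠ (1 : ℝ) := by
      rw [ae_iff]
      simpa using d3_hyper (b i) one_ne_zero
    have h2 : ∀ᵐ x : E n, inner ℝ (b i) x ≠ (-1 : ℝ) := by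
      rw [ae_iff]
      simpa using d3_hyper (b i) (neg_ne_zero.mpr one_ne_zero)
    filter_upwards [h1, h2] with x hx1 hx2
    exact ⟨hx1, hx2⟩
  have hlim1 : Tendsto (fun N : ℕ => 1 / ((N : ℝ) + 1)) atTop (𝓝 0) :=
    tendsto_one_div_add_atTop_nhds_zero_nat
  filter_upwards [h0] with x hx
  by_cases hT : x ∈ d3_T b
  · rw [indicator_of_mem hT]
    have h1 : Tendsto (fun N : ℕ => Pp b (N + 1) (1 / ((N : ℝ) + 1)) x) atTop (𝓝 0) := by
      unfold Pp
      have h2 : Tendsto (fun N : ℕ => ∑ i, (inner ℝ (b i) x : ℝ) ^ (2 * (N + 1))) atTop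
          (𝓝 (∑ _i : Fin m, 0)) := by
        refine tendsto_finsetSum _ fun i _ => ?_
        have h3 : |(inner ℝ (b i) x : ℝ)| < 1 := by
          refine lt_of_le_of_ne (hT i) fun h4 => ?_
          rcases eq_or_eq_neg_of_abs_eq h4 with h5 | h5
          · exact (hx i).1 h5
          · exact (hx i).2 h5
        have h4 : (inner ℝ (b i) x : ℝ) ^ 2 < 1 := (sq_lt_one_iff_abs_lt_one _).mpr h3
        have h5 := tendsto_pow_atTop_nhds_zero_of_lt_one (sq_nonneg _) h4
        have h6 := h5.comp (tendsto_add_atTop_nat 1)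
        refine h6.congr fun N => ?_
        simp only [Function.comp, pow_mul]
      have h3 : Tendsto (fun N : ℕ => 1 / ((N : ℝ) + 1) * ‖x‖ ^ 2) atTop (𝓝 (0 * ‖x‖ ^ 2)) :=
        hlim1.mul_const _
      simpa using h2.add h3
    have h2 := (Real.continuous_exp.tendsto _).comp h1.neg
    rw [neg_zero, Real.exp_zero] at h2
    exact h2
  · rw [indicator_of_notMem hT]
    have h1 : ∃ i, 1 < |(inner ℝ (b i) x : ℝ)| := by
      by_contra h2
      push Not at h2
      exact hT h2
    obtain ⟨i, hi⟩ := h1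
    have h2 : 1 < (inner ℝ (b i) x : ℝ) ^ 2 := by
      rw [one_lt_sq_iff_one_lt_abs]
      exact hi
    have h3 : Tendsto (fun N : ℕ => Pp b (N + 1) (1 / ((N : ℝ) + 1)) x) atTop atTop := by
      have h4 := (tendsto_pow_atTop_atTop_of_one_lt h2).comp (tendsto_add_atTop_nat 1)
      refine tendsto_atTop_mono (fun N => ?_) h4
      simp only [Function.comp, Pp]
      have h5 : (inner ℝ (b i) x : ℝ) ^ (2 * (N + 1)) ≤
          ∑ i, (inner ℝ (b i) x : ℝ) ^ (2 * (N + 1)) :=
        Finset.single_le_sum (f := fun i => (inner ℝ (b i) x : ℝ) ^ (2 * (N + 1)))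
          (fun i _ => by rw [pow_mul]; positivity) (Finset.mem_univ i)
      rw [pow_mul] at h5
      have h6 : 0 ≤ 1 / ((N : ℝ) + 1) * ‖x‖ ^ 2 := by positivity
      linarith
    exact Real.tendsto_exp_atBot.comp (tendsto_neg_atTop_atBot.comp h3)

private lemma d3_int {m : ℕ} (b : Fin m → E n) {K : Set (E n)}
    (hf : volume K < ⊤) :
    Tendsto (fun N : ℕ => ∫ x in K, Real.exp (-Pp b (N + 1) (1 / ((N : ℝ) + 1)) x)) atTop
      (𝓝 (volume.real (K ∩ d3_T b))) := by
  have h1 : volume.real (K ∩ d3_T b) = ∫ x in K, (d3_T b).indicator (fun _ => (1 : ℝ)) x := by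
    rw [integral_indicator (d3_T_meas b), Measure.restrict_restrict (d3_T_meas b),
      inter_comm]
    simp
  rw [h1]
  refine tendsto_integral_of_dominated_convergence (fun _ => (1 : ℝ)) ?_ ?_ ?_ ?_
  · intro N
    exact (Real.continuous_exp.comp (d3_cont b _ _).neg).aestronglyMeasurable
  · exact integrable_const_iff.mpr (Or.inr ⟨by simpa using hf⟩)
  · intro N
    refine Eventually.of_forall fun x => ?_
    rw [Real.norm_eq_abs, abs_of_pos (Real.exp_pos _)]
    apply Real.exp_le_one_iff.mpr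
    have := d3_Pp_nonneg b (N + 1) (e := 1 / ((N : ℝ) + 1)) (by positivity) x
    linarith
  · exact ae_restrict_of_ae (d3_lim b)

theorem poly_ineq (hn : 0 < n) {m : ℕ} (b : Fin m → E n) {R : ℝ} {K L : Set (E n)}
    (hP : Pair n R K L) :
    volume (K ∩ {x | ∀ i, |inner ℝ (b i) x| ≤ (1 : ℝ)}) *
      volume (L ∩ {x | ∀ i, |inner ℝ (b i) x| ≤ (1 : ℝ)}) ≤
      volume (closedBall (0 : E n) 1 ∩ {x | ∀ i, |inner ℝ (b i) x| ≤ (1 : ℝ)}) ^ 2 := by
  have hK : volume K < ⊤ := (measure_mono hP.bK).trans_lt measure_closedBall_lt_top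
  have hL : volume L < ⊤ := (measure_mono hP.bL).trans_lt measure_closedBall_lt_top
  have hB : volume (closedBall (0 : E n) 1) < ⊤ := measure_closedBall_lt_top
  have h1 := (d3_int b hK).mul (d3_int b hL)
  have h2 := (d3_int b hB).pow 2
  have h3 := le_of_tendsto_of_tendsto' h1 h2 fun N =>
    exp_ineq hn b (N + 1) (by omega) (e := 1 / ((N : ℝ) + 1)) (by positivity) hP
  rw [measureReal_def, measureReal_def, measureReal_def, ← ENNReal.toReal_mul,
    ← ENNReal.toReal_pow] at h3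
  have f1 : volume (K ∩ d3_T b) ≠ ⊤ := ((measure_mono inter_subset_left).trans_lt hK).ne
  have f2 : volume (L ∩ d3_T b) ≠ ⊤ := ((measure_mono inter_subset_left).trans_lt hL).ne
  have f3 : volume (closedBall (0 : E n) 1 ∩ d3_T b) ≠ ⊤ :=
    ((measure_mono inter_subset_left).trans_lt hB).ne
  exact (ENNReal.toReal_le_toReal (ENNReal.mul_ne_top f1 f2) (ENNReal.pow_ne_top f3)).mp h3

end Pool.Agent.H21.CE
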