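import Pool.Agent.H21.CE.Defs

/-!
# The rotation invariant measure of the sphere
-/

open MeasureTheory Set Filter Topology Metric
open scoped ContDiff

namespace Pool.Agent.H21.CE

variable {n : ℕ}

private lemma r1_meas : Measurable (fun y : E n => ‖y‖⁻¹ • y) :=
  (measurable_norm.inv).smul measurable_id

private lemma r1_norm_le (y : E n) : ‖‖y‖⁻¹ • y‖ ≤ 1 := by
  rw [norm_smul, norm_inv, norm_norm]
  by_cases h : ‖y‖ = 0
  · rw [h]; simp
  · rw [inv_mul_cancel₀ h]

private lemma r1_norm_eq {y : E n} (h : y ≠ 0) : ‖‖y‖⁻¹ • y‖ = 1 := by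
  rw [norm_smul, norm_inv, norm_norm, inv_mul_cancel₀ (norm_ne_zero_iff.mpr h)]

private instance r1_fin : IsFiniteMeasure (volume.restrict (closedBall (0 : E n) 1)) :=
  isFiniteMeasure_restrict.mpr (measure_closedBall_lt_top).ne

instance rho_finite : IsFiniteMeasure (rho n) := by
  unfold rho
  infer_instance

private lemma r1_apply {s : Set (E n)} (hs : MeasurableSet s) :
    rho n s = volume ((fun y : E n => ‖y‖⁻¹ • y) ⁻¹' s ∩ closedBall (0 : E n) 1) := by
  unfold rho
  rw [Measure.map_apply r1_meas hs, Measure.restrict_apply (r1_meas hs)]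

theorem rho_ae (hn : 0 < n) : ∀ᵐ z ∂(rho n), z ∈ sphere (0 : E n) 1 := by
  have : Nonempty (Fin n) := ⟨⟨0, hn⟩⟩
  have : Nontrivial (E n) := inferInstance
  have : (𝓝[≠] (0 : E n)).NeBot := Module.punctured_nhds_neBot ℝ (E n) 0
  have hms : MeasurableSet {z : E n | z ∈ sphere (0 : E n) 1} := isClosed_sphere.measurableSet
  unfold rho
  rw [ae_map_iff r1_meas.aemeasurable hms]
  apply ae_restrict_of_ae
  have h0 : ∀ᵐ y : E n, y ≠ 0 := by
    rw [ae_iff]
    simp
  filter_upwards [h0] with y hy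
  rw [mem_sphere_zero_iff_norm]
  exact r1_norm_eq hy

theorem rho_pos (hn : 0 < n) : 0 < (rho n).real univ := by
  rw [measureReal_def, r1_apply MeasurableSet.univ, preimage_univ, univ_inter]
  exact ENNReal.toReal_pos (measure_closedBall_pos volume _ one_pos).ne'
    measure_closedBall_lt_top.ne

lemma r1_ae_ball : ∀ᵐ z ∂(rho n), z ∈ closedBall (0 : E n) 1 := by
  have hms : MeasurableSet {z : E n | z ∈ closedBall (0 : E n) 1} :=
    isClosed_closedBall.measurableSet
  unfold rho
  rw [ae_map_iff r1_meas.aemeasurable hms]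
  exact Eventually.of_forall fun y => by
    rw [mem_closedBall_zero_iff]
    exact r1_norm_le y

theorem rho_int {F : Type*} [NormedAddCommGroup F] {h : E n → F} (hh : Continuous h) :
    Integrable h (rho n) := by
  obtain ⟨C, hC⟩ := (isCompact_closedBall (0 : E n) 1).exists_bound_of_continuousOn
    hh.continuousOn
  refine Integrable.of_bound hh.aestronglyMeasurable C ?_
  filter_upwards [r1_ae_ball] with z hz
  exact hC z hz

theorem rho_ball (hn : 0 < n) : ∃ c > 0, ∀ z0 ∈ sphere (0 : E n) 1, ∀ r ∈ Ioc (0 : ℝ) 1,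
    c * r ^ n ≤ (rho n).real (ball z0 r) := by
  refine ⟨volume.real (ball (0 : E n) 1) / 8 ^ n, ?_, ?_⟩
  · apply div_pos _ (by positivity)
    rw [measureReal_def]
    exact ENNReal.toReal_pos (measure_ball_pos volume _ one_pos).ne' measure_ball_lt_top.ne
  intro z0 hz0 r hr
  rw [mem_sphere_zero_iff_norm] at hz0
  have hr0 : 0 < r := hr.1
  have hr1 : r ≤ 1 := hr.2
  have hsub : ball ((1 / 2 : ℝ) • z0) (r / 8) ⊆
      (fun y : E n => ‖y‖⁻¹ • y) ⁻¹' (ball z0 r) ∩ closedBall (0 : E n) 1 := by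
    intro y hy
    rw [mem_ball, dist_eq_norm] at hy
    have hnz : ‖(1 / 2 : ℝ) • z0‖ = 1 / 2 := by
      rw [norm_smul, hz0]; norm_num
    have h1 : |‖y‖ - 1 / 2| < r / 8 := by
      have h2 := abs_norm_sub_norm_le y ((1 / 2 : ℝ) • z0)
      rw [hnz] at h2
      exact h2.trans_lt hy
    rw [abs_lt] at h1
    have hy0 : 3 / 8 ≤ ‖y‖ := by linarith
    have hypos : 0 < ‖y‖ := by linarith
    refine ⟨?_, ?_⟩
    · rw [mem_preimage, mem_ball, dist_eq_norm]
      have h3 : ‖y‖⁻¹ • y - z0 = ‖y‖⁻¹ • ((y - (1 / 2 : ℝ) • z0) + (1 / 2 - ‖y‖) • z0) := by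
        have h4 : ‖y‖⁻¹ • (‖y‖ • z0) = z0 := by
          rw [smul_smul, inv_mul_cancel₀ hypos.ne', one_smul]
        rw [sub_smul, smul_add, smul_sub, smul_sub, h4]
        abel
      rw [h3, norm_smul, norm_inv, norm_norm]
      have h5 : ‖(y - (1 / 2 : ℝ) • z0) + (1 / 2 - ‖y‖) • z0‖ ≤ r / 8 + r / 8 := by
        refine (norm_add_le _ _).trans (add_le_add hy.le ?_)
        rw [norm_smul, hz0, mul_one, Real.norm_eq_abs, abs_le]
        constructor <;> linarith
      rw [inv_mul_lt_iff₀ hypos]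
      nlinarith
    · rw [mem_closedBall_zero_iff]
      linarith
  have h1 : volume.real (ball ((1 / 2 : ℝ) • z0) (r / 8)) ≤ (rho n).real (ball z0 r) := by
    rw [measureReal_def, measureReal_def, r1_apply measurableSet_ball]
    apply ENNReal.toReal_mono
    · exact ((measure_mono inter_subset_right).trans_lt measure_closedBall_lt_top).ne
    · exact measure_mono hsub
  refine le_trans (le_of_eq ?_) h1
  have : Nonempty (Fin n) := ⟨⟨0, hn⟩⟩
  have : Nontrivial (E n) := inferInstance
  have h2 : volume (ball ((1 / 2 : ℝ) • z0) (r / 8))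
      = ENNReal.ofReal ((r / 8) ^ n) * volume (ball (0 : E n) 1) := by
    have h3 := Measure.addHaar_ball (volume : Measure (E n)) ((1 / 2 : ℝ) • z0)
      (r := r / 8) (by positivity)
    rw [finrank_euclideanSpace, Fintype.card_fin] at h3
    exact h3
  rw [measureReal_def, measureReal_def, h2, ENNReal.toReal_mul,
    ENNReal.toReal_ofReal (by positivity), div_pow]
  ring

/-- invariance under linear isometries -/
theorem rho_map (R : E n ≃ₗᵢ[ℝ] E n) : Measure.map R (rho n) = rho n := by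
  unfold rho
  have hR : Measurable (R : E n → E n) := R.continuous.measurable
  rw [Measure.map_map hR r1_meas]
  have h1 : (R : E n → E n) ∘ (fun y : E n => ‖y‖⁻¹ • y)
      = (fun y : E n => ‖y‖⁻¹ • y) ∘ (R : E n → E n) := by
    ext y
    simp
  rw [h1, ← Measure.map_map r1_meas hR]
  congr 1
  have h2 := (R.measurePreserving).restrict_preimage
    (isClosed_closedBall (x := (0 : E n)) (ε := 1)).measurableSet
  have h3 : (R : E n → E n) ⁻¹' closedBall (0 : E n) 1 = closedBall (0 : E n) 1 := by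
    ext y
    simp
  rw [h3] at h2
  exact h2.map_eq

theorem rho_comp {F : Type*} [NormedAddCommGroup F] [NormedSpace ℝ F] (R : E n ≃ₗᵢ[ℝ] E n)
    (h : E n → F) : ∫ z, h (R z) ∂(rho n) = ∫ z, h z ∂(rho n) := by
  have h1 : MeasurableEmbedding (R : E n → E n) :=
    R.toHomeomorph.measurableEmbedding
  have h2 := h1.integral_map (μ := rho n) h
  rw [rho_map] at h2
  exact h2.symm

theorem rho_neg {F : Type*} [NormedAddCommGroup F] [NormedSpace ℝ F] (h : E n → F) :
    ∫ z, h (-z) ∂(rho n) = ∫ z, h z ∂(rho n) :=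
  rho_comp (LinearIsometryEquiv.neg ℝ) h

end Pool.Agent.H21.CE
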