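import Pool.Agent.H21.CE.Rho

/-!
# Integration by parts on the sphere along the rotation fields
-/

open MeasureTheory Set Filter Topology Metric
open scoped ContDiff

namespace Pool.Agent.H21.CE

variable {n : ℕ}

private noncomputable def r2_P (i j : Fin n) (z : E n) : E n := z i • eb i + z j • eb j

private noncomputable def r2_lin (i j : Fin n) (t : ℝ) : E n →ₗ[ℝ] E n where
  toFun z := z + (Real.cos t - 1) • r2_P i j z + Real.sin t • Jm i j z
  map_add' x y := by
    simp only [r2_P, Jm, PiLp.add_apply]
    module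
  map_smul' c x := by
    simp only [r2_P, Jm, PiLp.smul_apply, smul_eq_mul, RingHom.id_apply]
    module

private lemma r2_lin_apply (i j : Fin n) (t : ℝ) (z : E n) :
    r2_lin i j t z = z + (Real.cos t - 1) • r2_P i j z + Real.sin t • Jm i j z := rfl

private lemma r2_eb_self (i : Fin n) : (eb i : E n) i = 1 := by
  simp [eb]

private lemma r2_eb_ne {i j : Fin n} (hij : i ≠ j) : (eb i : E n) j = 0 := by
  simp [eb, hij.symm]

private lemma r2_norm {i j : Fin n} (hij : i ≠ j) (t : ℝ) (z : E n) :
    ‖r2_lin i j t z‖ = ‖z‖ := by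
  have h1 : ‖r2_lin i j t z‖ ^ 2 = ‖z‖ ^ 2 := by
    rw [← real_inner_self_eq_norm_sq, ← real_inner_self_eq_norm_sq]
    simp only [r2_lin_apply, r2_P, Jm, inner_add_left, inner_add_right, inner_sub_left,
      inner_sub_right, real_inner_smul_left, real_inner_smul_right, inner_eb, inner_eb',
      r2_eb_self, r2_eb_ne hij, r2_eb_ne hij.symm]
    have h2 := Real.sin_sq_add_cos_sq t
    linear_combination (z i ^ 2 + z j ^ 2) * h2
  exact (pow_left_inj₀ (norm_nonneg _) (norm_nonneg _) two_ne_zero).mp h1

private noncomputable def r2_rot {i j : Fin n} (hij : i ≠ j) (t : ℝ) : E n ≃ₗᵢ[ℝ] E n :=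
  LinearIsometry.toLinearIsometryEquiv ⟨r2_lin i j t, r2_norm hij t⟩ rfl

private lemma r2_rot_apply {i j : Fin n} (hij : i ≠ j) (t : ℝ) (z : E n) :
    r2_rot hij t z = r2_lin i j t z := rfl

private lemma r2_cont_P (i j : Fin n) : Continuous (r2_P (n := n) i j) := by
  unfold r2_P
  fun_prop

lemma cont_Jm (i j : Fin n) : Continuous (Jm (n := n) i j) := by
  unfold Jm
  fun_prop

private lemma r2_cont_lin (i j : Fin n) (t : ℝ) : Continuous (r2_lin (n := n) i j t) :=
  LinearMap.continuous_of_finiteDimensional _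

private lemma r2_deriv (i j : Fin n) (t : ℝ) (z : E n) :
    HasDerivAt (fun s => r2_lin i j s z)
      (-Real.sin t • r2_P i j z + Real.cos t • Jm i j z) t := by
  have h1 : HasDerivAt (fun s => (Real.cos s - 1) • r2_P i j z) (-Real.sin t • r2_P i j z) t :=
    ((Real.hasDerivAt_cos t).sub_const 1).smul_const _
  have h2 : HasDerivAt (fun s => Real.sin s • Jm i j z) (Real.cos t • Jm i j z) t :=
    (Real.hasDerivAt_sin t).smul_const _
  exact (h1.const_add z).add h2

theorem rho_ibp {h : E n → ℝ} (hh : ContDiff ℝ 1 h) (i j : Fin n) :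
    ∫ z, fderiv ℝ h z (Jm i j z) ∂(rho n) = 0 := by
  by_cases hij : i = j
  · subst hij
    have h1 : ∀ z : E n, fderiv ℝ h z (Jm i i z) = 0 := by
      intro z
      simp [Jm]
    simp [h1]
  have hc : Continuous (fderiv ℝ h) := hh.continuous_fderiv one_ne_zero
  obtain ⟨C, hC⟩ := (isCompact_closedBall (0 : E n) 1).exists_bound_of_continuousOn
    hc.continuousOn
  have key := hasDerivAt_integral_of_dominated_loc_of_deriv_le (μ := rho n)
    (F := fun (t : ℝ) (z : E n) => h (r2_lin i j t z))
    (F' := fun (t : ℝ) (z : E n) => fderiv ℝ h (r2_lin i j t z)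
      (-Real.sin t • r2_P i j z + Real.cos t • Jm i j z))
    (x₀ := (0 : ℝ)) (s := univ) (bound := fun z => C * (‖r2_P i j z‖ + ‖Jm i j z‖))
    univ_mem
    (Eventually.of_forall fun t => (hh.continuous.comp (r2_cont_lin i j t)).aestronglyMeasurable)
    (rho_int (hh.continuous.comp (r2_cont_lin i j 0)))
    (by
      apply Continuous.aestronglyMeasurable
      have h1 := r2_cont_P i j
      have h2 := cont_Jm i j
      have h3 : Continuous fun z : E n => -Real.sin 0 • r2_P i j z + Real.cos 0 • Jm i j z := by
        fun_prop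
      exact (hc.comp (r2_cont_lin i j 0)).clm_apply h3)
    (by
      filter_upwards [r1_ae_ball] with z hz t _
      rw [mem_closedBall_zero_iff] at hz
      have h1 : r2_lin i j t z ∈ closedBall (0 : E n) 1 := by
        rw [mem_closedBall_zero_iff, r2_norm hij]
        exact hz
      have h2 := hC _ h1
      refine (ContinuousLinearMap.le_opNorm _ _).trans ?_
      apply mul_le_mul h2 _ (norm_nonneg _) ((norm_nonneg _).trans h2)
      refine (norm_add_le _ _).trans ?_
      rw [norm_smul, norm_smul, norm_neg, Real.norm_eq_abs, Real.norm_eq_abs]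
      have h3 := Real.abs_sin_le_one t
      have h4 := Real.abs_cos_le_one t
      have h5 := norm_nonneg (r2_P i j z)
      have h6 := norm_nonneg (Jm i j z)
      nlinarith)
    (rho_int (continuous_const.mul ((r2_cont_P i j).norm.add (cont_Jm i j).norm)))
    (by
      refine Eventually.of_forall fun z t _ => ?_
      exact ((hh.differentiable one_ne_zero _).hasFDerivAt).comp_hasDerivAt t (r2_deriv i j t z))
  have h1 := key.2
  have h2 : (fun t : ℝ => ∫ z, h (r2_lin i j t z) ∂(rho n)) = fun _ => ∫ z, h z ∂(rho n) := by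
    funext t
    exact rho_comp (r2_rot hij t) h
  rw [h2] at h1
  have h3 := h1.unique (hasDerivAt_const (0 : ℝ) _)
  simpa [r2_lin_apply] using h3

end Pool.Agent.H21.CE
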